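import Pool.Agent.MP_4060c9_nt.H98.Spec3

/-!
From the paucity of the solutions which are not diagonal to the asymptotic formula.
-/

set_option autoImplicit false

namespace Pool.Agent.MP_4060c9_nt.H98

open Finset Function

namespace Asy

variable {l : ℕ}

lemma orbit (T B : Finset (Fin l → ℕ)) (g : (Fin l → ℕ) → ℕ)
    (hT : ∀ f ∈ T, ∀ π : Equiv.Perm (Fin l), f ∘ π ∈ T)
    (hg : ∀ f (π : Equiv.Perm (Fin l)), g (f ∘ π) = g f) (hB : ∀ f, f ∈ B ↔ f ∈ T ∧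
      (¬ Injective f ∨ ∃ f' ∈ T, g f = g f' ∧ ∀ π : Equiv.Perm (Fin l), f' ≠ f ∘ π)) :
    |(l.factorial * #(T.image g) : ℝ) - #T| ≤ l.factorial * #B := by
  have h0 : ∀ f, f ∈ T \ B ↔ f ∈ T ∧ Injective f ∧
      ∀ f' ∈ T, g f = g f' → ∃ π : Equiv.Perm (Fin l), f' = f ∘ π := fun f => by
    rw [mem_sdiff, hB]
    push Not
    tauto
  have h1 : #(T \ B) = #((T \ B).image g) * l.factorial := by
    rw [card_eq_sum_card_image g, sum_const_nat]
    intro b hb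
    obtain ⟨f, hf, rfl⟩ := mem_image.1 hb
    obtain ⟨h1, h2, h3⟩ := (h0 f).1 hf
    have : {a ∈ T \ B | g a = g f} = univ.image fun π : Equiv.Perm (Fin l) => f ∘ π := by
      ext a
      simp only [mem_filter, mem_image, mem_univ, true_and, h0]
      refine ⟨fun h => (h3 a h.1.1 h.2.symm).imp fun _ => Eq.symm, ?_⟩
      rintro ⟨π, rfl⟩
      refine ⟨⟨hT f h1 π, h2.comp π.injective, fun f' h4 h5 => ?_⟩, hg f π⟩
      obtain ⟨π', rfl⟩ := h3 f' h4 ((hg f π).symm.trans h5)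
      exact ⟨π⁻¹ * π', funext fun i => by simp⟩
    rw [this, card_image_of_injective, card_univ, Fintype.card_perm, Fintype.card_fin]
    exact fun π π' h => Equiv.ext fun i => h2 (congrFun h i)
  have h2 : B ⊆ T := fun f hf => ((hB f).1 hf).1
  have h3 := card_sdiff_add_card_eq_card h2
  have h4 : #((T \ B).image g) ≤ #(T.image g) := card_le_card (image_subset_image sdiff_subset)
  have h5 : #(T.image g) ≤ #((T \ B).image g) + #B := by
    conv_lhs => rw [← sdiff_union_of_subset h2, image_union]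
    exact (card_union_le _ _).trans (Nat.add_le_add_left card_image_le _)
  have h6 : (1 : ℝ) ≤ l.factorial := by exact_mod_cast l.factorial_pos
  rw [h1] at h3
  rify at h3 h4 h5
  rw [abs_le]
  constructor <;> nlinarith [(Nat.cast_nonneg #B : (0 : ℝ) ≤ _)]

lemma noninj (P : ℕ) :
    #{f ∈ Fintype.piFinset fun _ : Fin l => Icc 1 P | ¬ Injective f} ≤ l * l * P ^ (l - 1) := by
  have : {f ∈ Fintype.piFinset fun _ : Fin l => Icc 1 P | ¬ Injective f} ⊆
      (univ : Finset (Fin l × Fin l)).biUnion fun u => (Fintype.piFinset fun i : Fin l =>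
        if i = u.1 then {0} else Icc 1 P).image fun f => update f u.1 (f u.2) := fun f hf => by
    obtain ⟨h1, h2⟩ := mem_filter.1 hf
    obtain ⟨i, j, h2, h3⟩ := not_injective_iff.1 h2
    refine mem_biUnion.2 ⟨(i, j), mem_univ _, mem_image.2 ⟨update f i 0,
      Fintype.mem_piFinset.2 fun a => ?_, by simp [h3.symm, ← h2]⟩⟩
    by_cases h : a = i
    · simp [h]
    · simpa [h] using Fintype.mem_piFinset.1 h1 a
  refine (card_le_card this).trans ((card_biUnion_le_card_mul _ _ (P ^ (l - 1)) fun u _ =>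
    card_image_le.trans ?_).trans (by simp))
  rw [Fintype.card_piFinset, ← mul_prod_erase _ _ (mem_univ u.1),
    prod_congr rfl (g := fun _ => P) fun i hi => by simp [ne_of_mem_erase hi]]
  simp

end Asy

theorem asy (hV : VolStmt) {k l : ℕ} (hk : 0 < k) (hl : 0 < l) (h : Pau k l) :
    ∃ δ C : ℝ, 0 < δ ∧ ∀ x : ℝ, 1 ≤ x →
      |(({n : ℕ | 1 ≤ n ∧ (n : ℝ) ≤ x ∧
          ∃ f : Fin l → ℕ, (∀ i, 0 < f i) ∧ ∑ i, f i ^ k = n}.ncard : ℕ) : ℝ) -
        Real.Gamma (1 + 1 / k) ^ l / (l.factorial * Real.Gamma (1 + l / k)) * x ^ ((l : ℝ) / k)| ≤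
          C * x ^ ((l : ℝ) / k - δ) := by
  classical
  obtain ⟨δ, C, h1, h2⟩ := h
  obtain ⟨C', h3⟩ := hV k l hk hl
  have k0 : (0 : ℝ) < k := Nat.cast_pos.2 hk
  have l1 : (1 : ℝ) ≤ l := Nat.one_le_cast.2 hl
  refine ⟨min δ 1 / k, l * l + |C| + |C'|, by positivity, fun x hx => ?_⟩
  have x0 : 0 ≤ x := zero_le_one.trans hx
  have y1 : 1 ≤ x ^ (k : ℝ)⁻¹ := Real.one_le_rpow hx (by positivity)
  have h4 := h3 x hx
  have p0 := Nat.floor_le (zero_le_one.trans y1)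
  have p1 : 1 ≤ ⌊x ^ (k : ℝ)⁻¹⌋₊ := Nat.le_floor (by simpa using y1)
  have p2 : ∀ a : ℕ, (a : ℝ) ^ k ≤ x → a ≤ ⌊x ^ (k : ℝ)⁻¹⌋₊ := fun a h => Nat.le_floor
    ((Real.le_rpow_inv_iff_of_pos a.cast_nonneg x0 k0).2 (by simpa using h))
  generalize ⌊x ^ (k : ℝ)⁻¹⌋₊ = P at h4 p0 p1 p2
  have h5 := h2 P p1
  set T := {f ∈ Fintype.piFinset fun _ : Fin l => Icc 1 P | ((∑ i, f i ^ k : ℕ) : ℝ) ≤ x}
  have h6 : {n : ℕ | 1 ≤ n ∧ (n : ℝ) ≤ x ∧ ∃ f : Fin l → ℕ, (∀ i, 0 < f i) ∧ ∑ i, f i ^ k = n} =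
      ↑(T.image fun f => ∑ i, f i ^ k) := by
    ext n
    simp only [T, Set.mem_ofPred_eq, coe_image, Set.mem_image, mem_coe, mem_filter,
      Fintype.mem_piFinset, mem_Icc]
    constructor
    · rintro ⟨-, h6, f, h7, rfl⟩
      refine ⟨f, ⟨fun i => ⟨h7 i, p2 _ (le_trans ?_ h6)⟩, h6⟩, rfl⟩
      exact_mod_cast single_le_sum (f := fun i => f i ^ k) (fun _ _ => Nat.zero_le _) (mem_univ i)
    · rintro ⟨f, ⟨h6, h7⟩, rfl⟩
      exact ⟨Nat.succ_le_of_lt (sum_pos (fun i _ => pow_pos (h6 i).1 k) ⟨⟨0, hl⟩, mem_univ _⟩), h7,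
        f, fun i => (h6 i).1, rfl⟩
  have h7 := Asy.orbit T {f ∈ T | ¬ Injective f ∨ ∃ f' ∈ T, ∑ i, f i ^ k = ∑ i, f' i ^ k ∧
      ∀ π : Equiv.Perm (Fin l), f' ≠ f ∘ π} (fun f => ∑ i, f i ^ k) (fun f hf π => by
    simp only [T, mem_filter, Fintype.mem_piFinset] at hf ⊢
    exact ⟨fun i => hf.1 _, by simpa only [comp, Equiv.sum_comp π fun i => f i ^ k] using hf.2⟩)
    (fun f π => Equiv.sum_comp π fun i => f i ^ k) fun f => mem_filter
  have P1 : (1 : ℝ) ≤ P := Nat.one_le_cast.2 p1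
  have h8 : ∀ s : ℝ, min δ 1 ≤ s → (P : ℝ) ^ (l - s) ≤ x ^ ((l : ℝ) / k - min δ 1 / k) :=
    fun s hs => calc
      _ ≤ (P : ℝ) ^ (l - min δ 1) := Real.rpow_le_rpow_of_exponent_le P1 (by linarith)
      _ ≤ (x ^ (k : ℝ)⁻¹) ^ (l - min δ 1) :=
        Real.rpow_le_rpow P.cast_nonneg p0 (by linarith [min_le_right δ 1])
      _ = _ := by rw [← Real.rpow_mul x0, inv_mul_eq_div, sub_div]
  have h9 : (#{f ∈ T | ¬ Injective f ∨ ∃ f' ∈ T, ∑ i, f i ^ k = ∑ i, f' i ^ k ∧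
      ∀ π : Equiv.Perm (Fin l), f' ≠ f ∘ π} : ℝ) ≤
      (l * l + |C|) * x ^ ((l : ℝ) / k - min δ 1 / k) := by
    rw [filter_or, add_mul]
    refine (Nat.cast_le.2 (card_union_le _ _)).trans (Nat.cast_add (R := ℝ) _ _ ▸ add_le_add ?_ ?_)
    · refine le_trans ?_ (mul_le_mul_of_nonneg_left (h8 1 (min_le_right _ _)) (by positivity))
      rw [← Nat.cast_pred hl, Real.rpow_natCast]
      exact_mod_cast (card_le_card (filter_subset_filter _ (filter_subset _ _))).trans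
        (Asy.noninj P)
    · refine le_trans (Nat.cast_le.2 (le_trans (card_le_card fun f hf => ?_)
        (card_image_le (f := Prod.fst)))) (h5.trans
          (mul_le_mul (le_abs_self C) (h8 δ (min_le_left _ _)) (by positivity) (abs_nonneg _)))
      obtain ⟨h9, f', h10, h11⟩ := mem_filter.1 hf
      exact mem_image.2 ⟨(f, f'), mem_filter.2
        ⟨mem_product.2 ⟨(mem_filter.1 h9).1, (mem_filter.1 h10).1⟩, h11⟩, rfl⟩
  have h10 : (1 : ℝ) ≤ l.factorial := Nat.one_le_cast.2 l.factorial_pos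
  have h11 : C' * x ^ (((l : ℝ) - 1) / k) ≤ l.factorial * (|C'| * x ^ ((l : ℝ) / k - min δ 1 / k)) :=
    le_trans (mul_le_mul (le_abs_self _) (Real.rpow_le_rpow_of_exponent_le hx (by
      rw [← sub_div]
      gcongr
      exact min_le_right _ _)) (by positivity) (abs_nonneg _))
      (le_mul_of_one_le_left (by positivity) h10)
  rw [h6, Set.ncard_coe_finset]
  refine le_of_mul_le_mul_left ?_ (zero_lt_one.trans_le h10)
  rw [← abs_of_pos (zero_lt_one.trans_le h10), ← abs_mul, abs_of_pos (zero_lt_one.trans_le h10),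
    mul_sub, ← mul_assoc, mul_div_assoc', mul_div_mul_left _ _ (zero_lt_one.trans_le h10).ne',
    add_mul, mul_add]
  exact (abs_sub_le _ _ _).trans (add_le_add
    (h7.trans (mul_le_mul_of_nonneg_left h9 (Nat.cast_nonneg _))) (h4.trans h11))

end Pool.Agent.MP_4060c9_nt.H98
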