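import Pool.Agent.MP_4060c9_nt.H98.Spec

/-!
The global determinant method in all dimensions: statements of the modules.
-/

set_option autoImplicit false

namespace Pool.Agent.MP_4060c9_nt.H98

open Finset

/-- A plane curve of degree at most `E`. -/
def Bi2Stmt : Prop :=
  ∀ (F K : Type) [Field F] [CharZero F] [Field K] [Algebra F K] (D : Derivation F K K) (τ u : K)
    (E : ℕ), Transcendental F τ → D τ = 1 →
    (∀ c : ℕ, ¬ LinearIndependent F fun m : ℕ × Fin (E + 1) => (τ - c * u) ^ m.1 * u ^ (m.2 : ℕ)) →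
    Quo D τ u (E - 1)

/-- The sharper Wronskian bound. -/
def Wr2Stmt : Prop :=
  ∀ (F K : Type) [Field F] [CharZero F] [Field K] [Algebra F K] (D : Derivation F K K)
    (M κ : ℕ) (u : Fin (M + 1) → K) (i₁ : Fin (M + 1)) (c : Fin (M + 1) → F) (d : Fin (M + 1) → ℕ),
    (∀ x, D x = 0 → x ∈ Set.range (algebraMap F K)) → D (u i₁) = 1 → (∀ i, c i ≠ 0) →
    ∑ i, c i • u i ^ κ = 1 → LinearIndependent F (fun i => u i ^ κ) →
    (∀ i, Quo D (u i₁) (u i) (d i)) → 2 * κ ≤ M * (M + 1) + 2 * (2 * M - 1) * ∑ i, d i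

/-- The bound for `2 κ` in codimension `M` and degree `E`. -/
def bnd (M E : ℕ) : ℕ := M * (M + 1) + 2 * M * (2 * M - 1) * (E - 1)

/-- Subvarieties of a diagonal hypersurface on which no subsum vanishes have large degree. -/
def Deg2Stmt : Prop :=
  ∀ (k K σ : Type) [Field k] [CharZero k] [Field K] [Algebra k K] [Fintype σ] (y : σ → K)
    (ε : σ → k) (N : k) (κ r E : ℕ) (t₀ : Fin (r + 1) → σ),
    ∑ j, ε j • y j ^ κ = algebraMap k K N →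
    (∀ T : Finset σ, T.Nonempty → ∑ j ∈ T, ε j • y j ^ κ ≠ 0) →
    AlgebraicIndependent k (fun a => y (t₀ a)) → bnd (Fintype.card σ - (r + 1)) E < 2 * κ →
    ∃ (L : Fin (r + 1) → σ → ℤ) (j : σ), LI k (fun a => ∑ i, (L a i : K) * y i) (y j) (E + 1)

/-- The `y j` generate a field of transcendence degree `d` over `L`. -/
def Tr {K σ : Type} [Field K] (L : Subfield K) (y : σ → K) (d : ℕ) : Prop :=
  (∃ t : Fin d → σ, AlgebraicIndependent L fun a => y (t a)) ∧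
    ∀ v : Fin (d + 1) → K, (∀ a, v a ∈ Subring.closure (Set.range y)) → ¬ AlgebraicIndependent L v

def TrStmt : Prop :=
  ∀ (K σ : Type) [Field K] [Fintype σ] (y : σ → K),
    (∀ L, ∃ d ≤ Fintype.card σ, Tr L y d) ∧
      ∀ (L L' : Subfield K) (d d' : ℕ), L ≤ L' → Tr L y d → Tr L' y d' → d' ≤ d

/-- Linear disjointness. -/
def LdStmt : Prop :=
  ∀ (K σ ι : Type) [Field K] [CharZero K] (y : σ → K) (L L' : Subfield K) (d : ℕ) (u : ι → K),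
    L ≤ L' → (∀ c : K, IsAlgebraic L c → c ∈ L) → Tr L y d → Tr L' y d →
    (∀ i, u i ∈ Subring.closure (Set.range y)) → LinearIndependent L u → LinearIndependent L' u

/-- Ramsey: a walk through sets on which a decreasing function is constant. -/
def WalkStmt : Prop :=
  ∀ (d : Finset ℕ → ℕ) (r m : ℕ), Antitone d → (∀ Q, d Q ≤ r) →
    ∃ Q₀ : Finset ℕ, m ≤ #Q₀ ∧ #Q₀ ≤ m + r ∧ ∀ Φ : Finset ℕ → Prop,
      (∀ Q Q', Q ⊆ Q' → d Q = d Q₀ → d Q' = d Q₀ → (Φ Q ↔ Φ Q')) → Φ Q₀ →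
      ∀ B : Finset ℕ, ∃ Q, #Q = #Q₀ ∧ Disjoint Q B ∧ Φ Q

/-- The residues of `x` modulo the numbers `p a`, `a ∈ Q`. -/
def rsd {σ : Type} (p : ℕ → ℕ) (Q : Finset ℕ) (x : σ → ℤ) : ℕ → σ → ℤ :=
  fun a j => if a ∈ Q then x j % p a else 0

/-- The number of residue classes of points of the hypersurface. -/
def ClsStmt : Prop :=
  ∀ (σ : Type) [Fintype σ] [DecidableEq σ] (κ : ℕ) (ε : σ → ℤ) (N : ℤ) (j₀ : σ) (p : ℕ → ℕ)
    (Q : Finset ℕ) (S : Finset (σ → ℤ)), 0 < κ → (∀ a ∈ Q, (p a).Prime ∧ ¬ (p a : ℤ) ∣ ε j₀) →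
    (∀ x ∈ S, ∑ j, ε j * x j ^ κ = N) →
    ∃ T : Finset (ℕ → σ → ℤ), #T ≤ ∏ a ∈ Q, κ * p a ^ (Fintype.card σ - 1) ∧
      ∀ x ∈ S, rsd p Q x ∈ T

/-- Many primes of the same size. -/
def PrStmt : Prop :=
  ∃ p : ℕ → ℕ → ℕ, ∀ n, 0 < n → (∀ a, (p n a).Prime ∧ n < p n a ∧ p n a ≤ 2 ^ (a + 1) * n) ∧
    (p n).Injective ∧ (∀ (Q : Finset ℕ) (g : ℤ), g ≠ 0 → (∀ a ∈ Q, (p n a : ℤ) ∣ g) →
      (n : ℤ) ^ #Q ≤ |g|) ∧
    (∀ (Q : Finset ℕ) (g : ℤ), (∀ a ∈ Q, ¬ (p n a : ℤ) ∣ g) →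
      IsCoprime g (∏ a ∈ Q, p n a : ℕ)) ∧
    ∀ (Q : Finset ℕ) (x y : ℤ), (∀ a ∈ Q, x % p n a = y % p n a) →
      x ≡ y [ZMOD (∏ a ∈ Q, p n a : ℕ)]

/-- An admissible exponent for `n` variables and `κ`-th powers. -/
def Adm2 (n κ : ℕ) (a : ℝ) : Prop :=
  0 < a ∧ ∀ j, 0 < j → j ≤ n → ∃ E, bnd (n - j) E < 2 * κ ∧ 1 < a ^ j * (E + 1 : ℕ)

/-- The uniform bound for the solutions with no vanishing subsum. -/
def Nd2Stmt : Prop :=
  ∀ (σ : Type) [Fintype σ] [DecidableEq σ] [Nonempty σ] (κ : ℕ) (ε : σ → ℤ) (a : ℝ),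
    0 < κ → Adm2 (Fintype.card σ) κ a → ∃ C : ℝ, ∀ (P : ℕ) (N : ℤ), 1 ≤ P →
      ((nd κ ε P N).card : ℝ) ≤ C * (P : ℝ) ^ ((Fintype.card σ - 1 : ℝ) * a)

def Block2Stmt : Prop :=
  ∀ k l : ℕ, 4 ^ l ≤ k → En k l

end Pool.Agent.MP_4060c9_nt.H98
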