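import Pool.Agent.MP_4060c9_nt.H98.Step
import Pool.Agent.MP_4060c9_nt.H98.Spec2

/-!
Germs of functions with boundedly many values on each class of a partition.
-/

set_option autoImplicit false

namespace Pool.Agent.MP_4060c9_nt.H98

open Filter

variable {Ω : Type} (U : Ultrafilter Ω)

/-- The ultrapower of the rationals. -/
def GK : Type := Germ (U : Filter Ω) ℚ

noncomputable instance : Field (GK U) := inferInstanceAs (Field (Germ (U : Filter Ω) ℚ))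

noncomputable def gk : (Ω → ℚ) →+* GK U := Germ.coeRingHom _

instance : CharZero (GK U) :=
  charZero_of_injective_ringHom (f := (gk U).comp (Pi.constRingHom Ω ℚ)) (RingHom.injective _)

/-- `f` has boundedly many values on each class. -/
def BV {Γ β : Type} (cl : Ω → Γ) (f : Ω → β) : Prop :=
  ∃ (D : ℕ) (F : Γ → Finset β), (∀ γ, (F γ).card ≤ D) ∧ ∀ᶠ ω in U, f ω ∈ F (cl ω)

variable {U} {Γ β β' : Type} {cl : Ω → Γ}

lemma gk_eq {f g : Ω → ℚ} : gk U f = gk U g ↔ ∀ᶠ ω in U, f ω = g ω := Germ.coe_eq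

lemma gk_eq_zero {f : Ω → ℚ} : gk U f = 0 ↔ ∀ᶠ ω in U, f ω = 0 := Germ.coe_eq (g := 0)

lemma gk_ne_zero {f : Ω → ℚ} : gk U f ≠ 0 ↔ ∀ᶠ ω in U, f ω ≠ 0 := by
  rw [Ne, gk_eq_zero, Ultrafilter.eventually_not]

lemma gk_surj (x : GK U) : ∃ f, gk U f = x := Germ.inductionOn x fun f => ⟨f, rfl⟩

lemma BV.bind {c : Ω → β} (h : BV U cl c) (R : Γ → β → Finset β') (D : ℕ)
    (hR : ∀ γ v, (R γ v).card ≤ D) {f : Ω → β'} (hf : ∀ᶠ ω in U, f ω ∈ R (cl ω) (c ω)) :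
    BV U cl f := by
  classical
  obtain ⟨D', F, h1, h2⟩ := h
  refine ⟨D' * D, fun γ => (F γ).biUnion (R γ), fun γ =>
    (Finset.card_biUnion_le_card_mul _ _ _ fun v _ => hR γ v).trans
      (Nat.mul_le_mul_right _ (h1 γ)), ?_⟩
  filter_upwards [h2, hf] with ω h3 h4
  exact Finset.mem_biUnion.2 ⟨_, h3, h4⟩

lemma BV.comp {c : Ω → β} (h : BV U cl c) (φ : Γ → β → β') : BV U cl fun ω => φ (cl ω) (c ω) :=
  h.bind (fun γ v => {φ γ v}) 1 (fun _ _ => by simp) (.of_forall fun _ => by simp)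

lemma bv_cl (φ : Γ → β) : BV U cl fun ω => φ (cl ω) :=
  ⟨1, fun γ => {φ γ}, fun _ => by simp, .of_forall fun _ => by simp⟩

lemma BV.pi {ι : Type} [Fintype ι] {f : Ω → ι → β} (h : ∀ i, BV U cl fun ω => f ω i) :
    BV U cl f := by
  classical
  choose D F h1 h2 using h
  refine ⟨∏ i, D i, fun γ => Fintype.piFinset fun i => F i γ, fun γ => ?_, ?_⟩
  · rw [Fintype.card_piFinset]
    exact Finset.prod_le_prod' fun i _ => h1 i γ
  · filter_upwards [eventually_all.2 h2] with ω h using Fintype.mem_piFinset.2 h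

lemma BV.comp₂ {f g : Ω → β} (hf : BV U cl f) (hg : BV U cl g) (φ : β → β → β') :
    BV U cl fun ω => φ (f ω) (g ω) :=
  (BV.pi (f := fun ω => ![f ω, g ω]) fun i => by fin_cases i <;> assumption).comp
    fun _ v => φ (v 0) (v 1)

variable (U cl) in
/-- The field of germs with boundedly many values on each class. -/
def LL : Subfield (GK U) where
  carrier := {z | ∃ f, gk U f = z ∧ BV U cl f}
  mul_mem' := by
    rintro _ _ ⟨f, rfl, hf⟩ ⟨g, rfl, hg⟩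
    exact ⟨f * g, map_mul _ _ _, hf.comp₂ hg (· * ·)⟩
  add_mem' := by
    rintro _ _ ⟨f, rfl, hf⟩ ⟨g, rfl, hg⟩
    exact ⟨f + g, map_add _ _ _, hf.comp₂ hg (· + ·)⟩
  one_mem' := ⟨1, map_one _, bv_cl fun _ => 1⟩
  zero_mem' := ⟨0, map_zero _, bv_cl fun _ => 0⟩
  neg_mem' := by
    rintro _ ⟨f, rfl, hf⟩
    exact ⟨-f, map_neg _ _, hf.comp fun _ v => -v⟩
  inv_mem' := by
    rintro _ ⟨f, rfl, hf⟩
    exact ⟨f⁻¹, rfl, hf.comp fun _ v => v⁻¹⟩

lemma mem_LL {f : Ω → ℚ} : gk U f ∈ LL U cl ↔ BV U cl f := by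
  refine ⟨?_, fun h => ⟨f, rfl, h⟩⟩
  rintro ⟨g, h1, h2⟩
  exact h2.bind (fun _ v => {v}) 1 (fun _ _ => by simp) ((gk_eq.1 h1).mono fun _ h => by simp [h])

lemma LL_mono {Γ' : Type} {cl' : Ω → Γ'} (π : Γ' → Γ) (h : ∀ ω, cl ω = π (cl' ω)) :
    LL U cl ≤ LL U cl' := by
  rintro _ ⟨f, rfl, D, F, h1, h2⟩
  exact ⟨f, rfl, D, fun γ => F (π γ), fun γ => h1 _, by simpa only [h] using h2⟩

open Polynomial in
lemma LL_closed (c : GK U) (h : IsAlgebraic (LL U cl) c) : c ∈ LL U cl := by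
  classical
  obtain ⟨p, h0, hp⟩ := h
  obtain ⟨f, rfl⟩ := gk_surj c
  choose g h1 h2 using fun k : Fin (p.natDegree + 1) => (p.coeff k).2
  refine mem_LL.2 ((BV.pi (f := fun ω k => g k ω) h2).bind
    (fun _ v => (∑ k : Fin (p.natDegree + 1), monomial k (v k)).roots.toFinset) p.natDegree
    (fun _ v => (Multiset.toFinset_card_le _).trans ((card_roots' _).trans
      (natDegree_sum_le_of_forall_le _ _ fun k _ =>
        (natDegree_monomial_le _).trans (Nat.le_of_lt_succ k.2)))) ?_)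
  have h3 : gk U (g (Fin.last _)) ≠ 0 := by
    rw [h1]
    exact fun h => leadingCoeff_ne_zero.2 h0 (Subtype.ext h)
  have h4 : gk U (∑ k, g k * f ^ (k : ℕ)) = 0 := by
    rw [← hp, aeval_eq_sum_range, Finset.sum_range, map_sum]
    exact Finset.sum_congr rfl fun k _ => by rw [map_mul, map_pow, h1]; rfl
  filter_upwards [gk_ne_zero.1 h3, gk_eq_zero.1 h4] with ω h5 h6
  rw [Multiset.mem_toFinset, mem_roots fun h => h5 ?_]
  · simpa [eval_finsetSum] using h6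
  · have := congrArg (coeff · p.natDegree) h
    simp only [finsetSum_coeff, coeff_monomial, coeff_zero] at this
    rw [← this, Finset.sum_eq_single_of_mem (Fin.last p.natDegree) (Finset.mem_univ _)]
    · simp
    · exact fun k _ hk => if_neg fun h => hk (Fin.ext h)

variable {r : ℕ} {M : Finset (Ix r)}

lemma gk_Gv (c : Ω → Ix r → ℚ) (t : Ω → Fin r → ℚ) (z : Ω → ℚ) :
    gk U (fun ω => Gv M (c ω) (t ω) (z ω)) =
      Gv M (fun m => gk U fun ω => c ω m) (fun a => gk U fun ω => t ω a) (gk U z) := by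
  rw [← map_Gv]
  congr 1
  funext ω
  exact (map_Gv (Pi.evalRingHom (fun _ => ℚ) ω) M (fun m ω => c ω m) (fun a ω => t ω a) z).symm

lemma gk_Gd (c : Ω → Ix r → ℚ) (t : Ω → Fin r → ℚ) (z : Ω → ℚ) :
    gk U (fun ω => Gd M (c ω) (t ω) (z ω)) =
      Gd M (fun m => gk U fun ω => c ω m) (fun a => gk U fun ω => t ω a) (gk U z) := by
  rw [← map_Gd]
  congr 1
  funext ω
  exact (map_Gd (Pi.evalRingHom (fun _ => ℚ) ω) M (fun m ω => c ω m) (fun a ω => t ω a) z).symm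

lemma gk_ex_ne {c : Ω → Ix r → ℚ} (h : ∀ᶠ ω in U, ∃ m ∈ M, c ω m ≠ 0) :
    ∃ m ∈ M, gk U (fun ω => c ω m) ≠ 0 := by
  simpa only [gk_ne_zero, Finset.mem_coe] using
    (Ultrafilter.eventually_exists_mem_iff M.finite_toSet).1 h

section Circuit

variable {K : Type} [Field K] {L L' : Subfield K} {t : Fin r → K} {z : K}

/-- The monomials with exponents in `M` are independent. -/
def Ind (L : Subfield K) (t : Fin r → K) (z : K) (M : Finset (Ix r)) : Prop :=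
  LinearIndependent L fun m : M => mon t z m.1

lemma ind_iff : Ind L t z M ↔
    ∀ c : Ix r → K, (∀ m ∈ M, c m ∈ L) → Gv M c t z = 0 → ∀ m ∈ M, c m = 0 := by
  classical
  rw [Ind, Fintype.linearIndependent_iff]
  refine ⟨fun h c h1 h2 m hm => congrArg Subtype.val (h (fun m => ⟨c m, h1 m m.2⟩) ?_ ⟨m, hm⟩),
    fun h g h1 m => ?_⟩
  · rw [← h2, Gv, ← Finset.sum_coe_sort M]
    rfl
  · have := h (fun m => if hm : m ∈ M then g ⟨m, hm⟩ else 0) (fun m hm => by simp [hm]) (by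
      rw [← h1, Gv, ← Finset.sum_coe_sort M]
      exact Finset.sum_congr rfl fun m _ => by simp [m.2, Subfield.smul_def]) m m.2
    simpa [m.2] using this

lemma ex_circuit {e : ℕ} (h : ¬ LI L t z e) : ∃ (M : Finset (Ix r)) (m₀ : Ix r) (c : Ix r → K),
    (∀ m ∈ M, m.2 < e) ∧ m₀ ∈ M ∧ c m₀ = 1 ∧ (∀ m ∈ M, c m ∈ L) ∧ Gv M c t z = 0 ∧
      Ind L t z (M.erase m₀) := by
  classical
  have h0 : ∃ n, ∃ M : Finset (Ix r), M.card = n ∧ (∀ m ∈ M, m.2 < e) ∧ ¬ Ind L t z M := by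
    obtain ⟨M, c, h1, ⟨m, h2, h3⟩, h4⟩ := of_not_LI h
    exact ⟨_, M, rfl, h1, fun h => h3 (Subtype.ext
      (ind_iff.1 h (fun m => c m) (fun m _ => (c m).2) h4 m h2))⟩
  obtain ⟨M, h1, h2, h3⟩ := Nat.find_spec h0
  rw [ind_iff] at h3
  push Not at h3
  obtain ⟨c, h3, h4, m, h5, h6⟩ := h3
  refine ⟨M, m, fun m' => (c m)⁻¹ * c m', h2, h5, inv_mul_cancel₀ h6,
    fun m' hm => mul_mem (inv_mem (h3 m h5)) (h3 m' hm), ?_, ?_⟩
  · simp only [Gv, mul_assoc, ← Finset.mul_sum] at h4 ⊢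
    rw [h4, mul_zero]
  · by_contra hn
    exact Nat.find_min h0 (h1 ▸ Finset.card_erase_lt_of_mem h5)
      ⟨_, rfl, fun m' hm => h2 m' (Finset.mem_of_mem_erase hm), hn⟩

lemma circuit_down (hL : L ≤ L') (hd : Ind L t z M → Ind L' t z M) {m₀ : Ix r} {c : Ix r → K}
    (h0 : m₀ ∈ M) (h1 : c m₀ = 1) (h2 : ∀ m ∈ M, c m ∈ L') (h3 : Gv M c t z = 0)
    (h4 : Ind L' t z (M.erase m₀)) : ∀ m ∈ M, c m ∈ L := by
  classical
  have h5 : ¬ Ind L t z M := fun h => by simpa [h1] using ind_iff.1 (hd h) c h2 h3 m₀ h0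
  rw [ind_iff] at h5
  push Not at h5
  obtain ⟨c', h5, h6, m, h7, h8⟩ := h5
  have h9 : ∀ m ∈ M, c' m = c' m₀ * c m := fun m hm => by
    by_cases h : m = m₀
    · rw [h, h1, mul_one]
    refine sub_eq_zero.1 (ind_iff.1 h4 (fun m => c' m - c' m₀ * c m) (fun m hm => ?_) ?_ m
      (Finset.mem_erase.2 ⟨h, hm⟩))
    · have := Finset.mem_of_mem_erase hm
      exact sub_mem (hL (h5 m this)) (mul_mem (hL (h5 _ h0)) (h2 m this))
    · rw [Gv, Finset.sum_erase _ (by simp [h1])]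
      simp only [Gv, sub_mul, mul_assoc, Finset.sum_sub_distrib, ← Finset.mul_sum] at h3 h6 ⊢
      rw [h3, h6, mul_zero, sub_zero]
  have h10 : c' m₀ ≠ 0 := fun h => h8 (by rw [h9 m h7, h, zero_mul])
  intro m hm
  rw [show c m = (c' m₀)⁻¹ * c' m by rw [h9 m hm, inv_mul_cancel_left₀ h10]]
  exact mul_mem (inv_mem (h5 _ h0)) (h5 m hm)

lemma li_down (hL : L ≤ L') {ι : Type} {u : ι → K} (h : LinearIndependent L' u) :
    LinearIndependent L u := by
  rw [linearIndependent_iff'] at h ⊢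
  exact fun s g hg i hi => Subtype.ext (congrArg Subtype.val
    (h s (fun i => ⟨g i, hL (g i).2⟩) hg i hi) :)

lemma LI.gv' {e : ℕ} (h : LI L t z e) (hM : ∀ m ∈ M, m.2 < e) {c : Ix r → K}
    (hc : ∀ m, c m ∈ L) (h0 : Gv M c t z = 0) : ∀ m ∈ M, c m = 0 := fun m hm =>
  congrArg Subtype.val (h.gv (c := fun m => ⟨c m, hc m⟩) hM h0 m hm)

lemma LI.gd' [CharZero K] {e : ℕ} (h : LI L t z e) (he : 0 < e) (hM : ∀ m ∈ M, m.2 < e + 1)
    {c : Ix r → K} (hc : ∀ m, c m ∈ L) (hc' : ∃ m ∈ M, c m ≠ 0) (h0 : Gv M c t z = 0) :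
    Gd M c t z ≠ 0 :=
  h.gd (c := fun m => ⟨c m, hc m⟩) he hM
    (hc'.imp fun _ hm => ⟨hm.1, fun h => hm.2 (congrArg Subtype.val h)⟩) h0

end Circuit

end Pool.Agent.MP_4060c9_nt.H98
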