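import Pool.Agent.MP_4060c9_nt.H98.Spec

/-!
A plane curve of bounded bidegree.
-/

set_option autoImplicit false

namespace Pool.Agent.MP_4060c9_nt.H98

open Polynomial Polynomial.Bivariate

namespace Bi

variable {F K : Type} [Field F] [Field K] [Algebra F K]

lemma ind {C : F[X][X] → Prop} (add : ∀ p q, C p → C q → C (p + q))
    (mon : ∀ n m r, C (monomial n (monomial m r))) (P : F[X][X]) : C P :=
  P.induction_on' add fun n p => p.induction_on' (fun a b x y => map_add (monomial n) a b ▸ add _ _ x y)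
    (mon n)

lemma ev_mon (x y : K) (n m : ℕ) (r : F) :
    aevalAeval x y (monomial n (monomial m r)) = r • (x ^ m * y ^ n) := by
  rw [← C_mul_X_pow_eq_monomial, map_mul, map_pow, aevalAeval_C, aevalAeval_Y, aeval_monomial,
    Algebra.smul_def, mul_assoc]

lemma coeff_swap (P : F[X][X]) (a b : ℕ) : ((swap P).coeff a).coeff b = (P.coeff b).coeff a := by
  induction P using ind with
  | add p q x y => simp only [map_add, coeff_add, x, y]
  | mon n m r =>
    rw [swap_monomial_monomial, coeff_monomial, coeff_monomial]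
    split_ifs <;> simp [coeff_monomial, *]

lemma deg_coeff {P : F[X][X]} {E : ℕ} (h : (swap P).natDegree ≤ E) (n : ℕ) :
    (P.coeff n).natDegree ≤ E := natDegree_le_iff_coeff_eq_zero.2 fun a ha => by
  rw [← coeff_swap, natDegree_le_iff_coeff_eq_zero.1 h a ha, coeff_zero]

lemma chain (D : Derivation F K K) (x y : K) (P : F[X][X]) : D (aevalAeval x y P) =
    aevalAeval x y (derivative P) * D y + aevalAeval y x (derivative (swap P)) * D x := by
  induction P using ind with
  | add p q a b => simp only [map_add, a, b]; ring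
  | mon n m r =>
    rw [swap_monomial_monomial, derivative_monomial, derivative_monomial, ← C_eq_natCast,
      ← C_eq_natCast, monomial_mul_C, monomial_mul_C, ev_mon, ev_mon, ev_mon, D.map_smul,
      D.leibniz, D.leibniz_pow, D.leibniz_pow]
    simp only [Algebra.smul_def, map_mul, map_natCast, Algebra.algebraMap_self, RingHom.id_apply,
      eq_natCast]
    ring

lemma mem_pow {V : Submodule F K} (h1 : (1 : K) ∈ V) {x : K} (hx : x ∈ V) {a e : ℕ} (h : a ≤ e) :
    x ^ a ∈ V ^ e := by
  obtain ⟨c, rfl⟩ := Nat.exists_eq_add_of_le h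
  rw [pow_add, ← mul_one (x ^ a), ← one_pow c]
  exact Submodule.mul_mem_mul (V.pow_mem_pow hx a) (V.pow_mem_pow h1 c)

lemma mem {V : Submodule F K} (h1 : (1 : K) ∈ V) {x y : K} (hx : x ∈ V) (hy : y ∈ V) {P : F[X][X]}
    {E : ℕ} (h : P.natDegree ≤ E) (h' : (swap P).natDegree ≤ E) (E0 : 0 < E) :
    aevalAeval x y (derivative P) ∈ V ^ (2 * E - 1) := by
  rw [(derivative P).as_sum_range' E (by have := natDegree_derivative_le P; omega), map_sum]
  refine sum_mem fun n hn => ?_
  have d : ((derivative P).coeff n).natDegree < E + 1 := by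
    rw [coeff_derivative, ← Nat.cast_succ, ← C_eq_natCast]
    exact Nat.lt_succ_of_le ((natDegree_mul_C_le _ _).trans (deg_coeff h' _))
  rw [((derivative P).coeff n).as_sum_range' _ d, map_sum, map_sum]
  refine sum_mem fun m hm => ?_
  rw [ev_mon, show 2 * E - 1 = E + (E - 1) by omega, pow_add]
  rw [Finset.mem_range] at hn hm
  exact Submodule.smul_mem _ _ (Submodule.mul_mem_mul (mem_pow h1 hx (by omega))
    (mem_pow h1 hy (by omega)))

lemma rel {x y : K} {E : ℕ}
    (h : ¬ LinearIndependent F (fun m : ℕ × Fin (E + 1) => x ^ m.1 * y ^ (m.2 : ℕ))) :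
    ∃ P : F[X][X], P ≠ 0 ∧ P.natDegree ≤ E ∧ aevalAeval x y P = 0 := by
  obtain ⟨s, g, e, i, hi, g0⟩ := not_linearIndependent_iff.1 h
  refine ⟨∑ m ∈ s, monomial m.2 (monomial m.1 (g m)), fun z => g0 ?_,
    natDegree_sum_le_of_forall_le _ _ fun m _ => (natDegree_monomial_le _).trans m.2.is_le,
    by simpa only [map_sum, ev_mon] using e⟩
  have := congrArg (fun P : F[X][X] => (P.coeff i.2).coeff i.1) z
  simp only [finsetSum_coeff, coeff_zero] at this
  rwa [Finset.sum_eq_single i _ (fun n => (n hi).elim), coeff_monomial_same, coeff_monomial_same]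
    at this
  intro m _ n
  rw [coeff_monomial]
  split_ifs with a
  · exact coeff_monomial_of_ne _ fun b => n (Prod.ext b.symm (Fin.ext a))
  · rfl

lemma gen {x y : K} (hx : Transcendental F x) {P : F[X][X]} (P0 : P ≠ 0)
    (hP : aevalAeval x y P = 0) : ∃ G : F[X][X], 0 < G.natDegree ∧ aevalAeval x y G = 0 ∧
      ∀ Q, aevalAeval x y Q = 0 → G ∣ Q := by
  obtain ⟨G, g1, g2⟩ := (RingHom.ker_isPrime (aevalAeval (R := F) x y)).exists_mem_prime_of_ne_bot
    fun e => P0 (Ideal.mem_bot.1 (e ▸ hP))
  have inj : Function.Injective (aeval x : F[X] →ₐ[F] K).toRingHom :=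
    transcendental_iff_injective.1 hx
  have g3 : aevalAeval x y G = 0 := g1
  have d : G.natDegree ≠ 0 := fun e => by
    rw [eq_C_of_natDegree_eq_zero e, aevalAeval_C] at g3
    exact g2.ne_zero (by
      rw [eq_C_of_natDegree_eq_zero e, (injective_iff_map_eq_zero _).1 inj _ g3, C_0])
  have pr := g2.irreducible.isPrimitive d
  refine ⟨G, Nat.pos_of_ne_zero d, g3, fun Q hQ =>
    pr.dvd_of_fraction_map_dvd_fraction_map (K := FractionRing F[X]) ?_⟩
  have ev : ∀ S : F[X][X], eval₂RingHom (IsFractionRing.lift (K := FractionRing F[X]) inj) y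
      (S.map (algebraMap _ _)) = aevalAeval x y S := fun S => by
    induction S using ind with
    | add p q a b => simp only [Polynomial.map_add, map_add, a, b]
    | mon n m r => simp [ev_mon, Algebra.smul_def, mul_assoc, aeval_monomial]
  refine ((pr.irreducible_iff_irreducible_map_fraction_map.1 g2.irreducible).isCoprime_or_dvd
    _).resolve_left fun c => not_isCoprime_zero_zero (R := K) ?_
  have := c.map (eval₂RingHom (IsFractionRing.lift (K := FractionRing F[X]) inj) y)
  rwa [ev, ev, g3, hQ] at this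

end Bi

theorem bi : BiStmt := by
  intro F K _ _ _ _ D τ u E hτ h1 l1 l2
  obtain ⟨P, P0, P1, P2⟩ := Bi.rel l1
  obtain ⟨Q, Q0, Q1, Q2⟩ := Bi.rel l2
  obtain ⟨G, g0, g1, g2⟩ := Bi.gen hτ P0 P2
  have d1 := (natDegree_le_of_dvd (g2 P P2) P0).trans P1
  have d2 : (swap G).natDegree ≤ E := by
    have := map_dvd (swap (R := F)) (g2 (swap Q) (by rwa [aevalAeval_swap]))
    rw [swap_swap_apply] at this
    exact (natDegree_le_of_dvd this Q0).trans Q1
  have m1 : (1 : K) ∈ Submodule.span F {1, τ, u} := Submodule.subset_span (by simp)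
  have m2 : τ ∈ Submodule.span F {1, τ, u} := Submodule.subset_span (by simp)
  have m3 : u ∈ Submodule.span F {1, τ, u} := Submodule.subset_span (by simp)
  refine ⟨aevalAeval τ u (derivative G), -aevalAeval u τ (derivative (swap G)), fun e => ?_,
    Bi.mem m1 m2 m3 d1 d2 (by omega),
    neg_mem (Bi.mem m1 m3 m2 d2 (by rwa [swap_swap_apply]) (by omega)), ?_⟩
  · exact (natDegree_le_of_dvd (g2 _ e) fun z => g0.ne' (natDegree_eq_zero_of_derivative_eq_zero
      z)).not_gt (natDegree_derivative_lt g0.ne')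
  · have := Bi.chain D τ u G
    rw [g1, map_zero, h1, mul_one] at this
    exact eq_neg_of_add_eq_zero_left this.symm

end Pool.Agent.MP_4060c9_nt.H98
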