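import Pool.Agent.MP_4060c9_nt.H98.Spec2
import Pool.Agent.MP_4060c9_nt.H98.Bi

/-!
A plane curve of bounded total degree.
-/

set_option autoImplicit false

namespace Pool.Agent.MP_4060c9_nt.H98

open Polynomial Polynomial.Bivariate

namespace Bi2

variable {F K : Type} [Field F] [Field K] [Algebra F K]

lemma ev {A : Type} [CommRing A] [Algebra F A] (x y : A) (n m : ℕ) (r : F) :
    aevalAeval x y (monomial n (monomial m r)) = r • (x ^ m * y ^ n) := by
  rw [← C_mul_X_pow_eq_monomial, map_mul, map_pow, aevalAeval_C, aevalAeval_Y, aeval_monomial,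
    Algebra.smul_def, mul_assoc]

/-- The shear `P (T, Y) ↦ P (T + c Y, Y)`. -/
noncomputable def sh (c : F) : F[X][X] →ₐ[F] F[X][X] := aevalAeval (C X + c • X) X

lemma ev_sh {A : Type} [CommRing A] [Algebra F A] (x y : A) (c : F) (P : F[X][X]) :
    aevalAeval x y (sh c P) = aevalAeval (x + c • y) y P := by
  induction P using Bi.ind with
  | add p q a b => simp only [map_add, a, b]
  | mon n m r =>
    rw [sh, ev, ev, map_smul, map_mul, map_pow, map_pow, map_add, map_smul, aevalAeval_C,
      aevalAeval_Y, aeval_X]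

lemma sh_sh (c : F) (P : F[X][X]) : sh c (sh (-c) P) = P := by
  rw [sh, ev_sh, neg_smul, add_neg_cancel_right]
  induction P using Bi.ind with
  | add p q a b => simp only [map_add, a, b]
  | mon n m r =>
    rw [ev, ← C_mul_X_pow_eq_monomial, ← C_mul_X_pow_eq_monomial, map_mul, map_pow,
      Algebra.smul_def, mul_assoc]
    rfl

lemma co (c : F) (P : F[X][X]) (n : ℕ) : (aevalAeval (c • X) X P : F[X]).coeff n =
    ∑ m ∈ Finset.range (n + 1), (P.coeff (n - m)).coeff m * c ^ m := by
  induction P using Bi.ind with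
  | add p q a b => simp only [map_add, coeff_add, a, b, add_mul, Finset.sum_add_distrib]
  | mon b a r =>
    have z : ∀ m, m ≠ a → ((monomial b (monomial a r)).coeff (n - m)).coeff m * c ^ m = 0 := by
      intro m hm
      rw [coeff_monomial]
      split_ifs
      · rw [coeff_monomial_of_ne _ hm, zero_mul]
      · simp
    rw [ev, _root_.smul_pow, smul_mul_assoc, ← pow_add, coeff_smul, coeff_smul, coeff_X_pow]
    by_cases ha : a < n + 1
    · rw [Finset.sum_eq_single_of_mem a (Finset.mem_range.2 ha) fun m _ => z m, coeff_monomial]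
      by_cases h : n = a + b
      · simp [h]
      · rw [if_neg h, if_neg (by omega)]
        simp
    · rw [Finset.sum_eq_zero fun m hm => z m (by rw [Finset.mem_range] at hm; omega),
        if_neg (by omega)]
      simp

lemma tot [CharZero F] {G : F[X][X]} {E : ℕ} (h : ∀ c : ℕ, (sh (c : F) G).natDegree ≤ E)
    (a b : ℕ) (hab : E < a + b) : (G.coeff b).coeff a = 0 := by
  have z : ∑ m ∈ Finset.range (a + b + 1), monomial m ((G.coeff (a + b - m)).coeff m) = 0 := by
    refine eq_zero_of_infinite_isRoot _ ((Set.infinite_range_of_injective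
      (Nat.cast_injective (R := F))).mono ?_)
    rintro _ ⟨c, rfl⟩
    have e := congrArg (coeff · (a + b)) (ev_sh ((0 : F) • X : F[X]) X (c : F) G)
    simp only [co] at e
    rw [zero_smul, zero_add, co, Finset.sum_eq_single 0, Nat.sub_zero,
      natDegree_le_iff_coeff_eq_zero.1 (h c) _ hab] at e
    · simpa [eval_finsetSum] using e.symm
    · intro m _ hm
      rw [zero_pow hm, mul_zero]
    · simp
  have := congrArg (coeff · a) z
  simp only [finsetSum_coeff, coeff_zero] at this
  rwa [Finset.sum_eq_single a (fun m _ hm => coeff_monomial_of_ne _ hm.symm) (fun n => by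
    simp at n), coeff_monomial_same, Nat.add_sub_cancel_left] at this

lemma mem {V : Submodule F K} (h1 : (1 : K) ∈ V) {x y : K} (hx : x ∈ V) (hy : y ∈ V)
    {P : F[X][X]} {E : ℕ} (h : ∀ a b, E < a + b → (P.coeff b).coeff a = 0) :
    aevalAeval x y (derivative P) ∈ V ^ (E - 1) := by
  rw [(derivative P).as_sum_support, map_sum]
  refine sum_mem fun b _ => ?_
  rw [((derivative P).coeff b).as_sum_support, map_sum, map_sum]
  refine sum_mem fun a ha => ?_
  have : a + b ≤ E - 1 := by
    by_contra z
    rw [mem_support_iff, coeff_derivative, ← Nat.cast_succ, ← C_eq_natCast, coeff_mul_C,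
      h a (b + 1) (by omega), zero_mul] at ha
    exact ha rfl
  rw [ev, show E - 1 = a + (E - 1 - a) by omega, pow_add]
  exact Submodule.smul_mem _ _ (Submodule.mul_mem_mul (V.pow_mem_pow hx a)
    (Bi.mem_pow h1 hy (by omega)))

end Bi2

theorem bi2 : Bi2Stmt := by
  intro F K _ _ _ _ D τ u E hτ h1 l
  choose P P0 P1 P2 using fun c => Bi.rel (l c)
  obtain ⟨G, g0, g1, g2⟩ := Bi.gen hτ (P0 0) (by simpa using P2 0)
  have d : ∀ a b, E < a + b → (G.coeff b).coeff a = 0 := Bi2.tot fun c => by
    have := map_dvd (Bi2.sh (c : F)) (g2 (Bi2.sh (-(c : F)) (P c)) (by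
      rw [Bi2.ev_sh, neg_smul, ← sub_eq_add_neg, Nat.cast_smul_eq_nsmul, nsmul_eq_mul]
      exact P2 c))
    rw [Bi2.sh_sh] at this
    exact (natDegree_le_of_dvd this (P0 c)).trans (P1 c)
  have m1 : (1 : K) ∈ Submodule.span F {1, τ, u} := Submodule.subset_span (by simp)
  have m2 : τ ∈ Submodule.span F {1, τ, u} := Submodule.subset_span (by simp)
  have m3 : u ∈ Submodule.span F {1, τ, u} := Submodule.subset_span (by simp)
  refine ⟨aevalAeval τ u (derivative G), -aevalAeval u τ (derivative (swap G)), fun e => ?_,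
    Bi2.mem m1 m2 m3 d, neg_mem (Bi2.mem m1 m3 m2 fun a b h => by
      rw [Bi.coeff_swap, d b a (by omega)]), ?_⟩
  · exact (natDegree_le_of_dvd (g2 _ e) fun z => g0.ne' (derivative_eq_zero.1 z)).not_gt
      (natDegree_derivative_lt g0.ne')
  · have := Bi.chain D τ u G
    rw [g1, map_zero, h1, mul_one] at this
    exact eq_neg_of_add_eq_zero_left this.symm

end Pool.Agent.MP_4060c9_nt.H98
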