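import Pool.Agent.MP_4060c9_nt.H98.Spec

/-! Decomposition of the solutions into minimal blocks. -/

set_option autoImplicit false

namespace Pool.Agent.MP_4060c9_nt.H98

open Finset

namespace Blk

variable {σ : Type} [Fintype σ] [DecidableEq σ]

/-- Points of the box on `A`, zero elsewhere. -/
noncomputable def box (A : Finset σ) (P : ℕ) : Finset (σ → ℤ) :=
  Fintype.piFinset fun j => if j ∈ A then Icc (1 : ℤ) P else {0}

/-- Restriction to `A`. -/
def res (A : Finset σ) (x : σ → ℤ) : σ → ℤ := fun j => if j ∈ A then x j else 0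

/-- Solutions supported on `A`. -/
noncomputable def Z (k : ℕ) (ε : σ → ℤ) (A : Finset σ) (P : ℕ) : Finset (σ → ℤ) :=
  {x ∈ box A P | ∑ j ∈ A, ε j * x j ^ k = 0}

open Classical in
/-- Minimal solutions supported on `B`. -/
noncomputable def Mn (k : ℕ) (ε : σ → ℤ) (B : Finset σ) (P : ℕ) : Finset (σ → ℤ) :=
  {x ∈ Z k ε B P | ∀ T : Finset σ, T ⊂ B → T.Nonempty → ∑ j ∈ T, ε j * x j ^ k ≠ 0}

lemma mem_box {A : Finset σ} {P : ℕ} {x : σ → ℤ} :
    x ∈ box A P ↔ ∀ j, (j ∈ A → x j ∈ Icc (1 : ℤ) P) ∧ (j ∉ A → x j = 0) := by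
  unfold box
  rw [Fintype.mem_piFinset]
  refine forall_congr' fun j => ?_
  by_cases h : j ∈ A <;> simp [h]

lemma card_box (A : Finset σ) (P : ℕ) : #(box A P) = P ^ #A := by
  unfold box
  rw [Fintype.card_piFinset]
  have : ∀ j, #(if j ∈ A then Icc (1 : ℤ) P else {0}) = if j ∈ A then P else 1 := by
    intro j; by_cases h : j ∈ A <;> simp [h]
  simp only [this]
  rw [prod_ite_mem, univ_inter, prod_const]

lemma res_mem {A B : Finset σ} {P : ℕ} {x : σ → ℤ} (hx : x ∈ box A P) (h : B ⊆ A) :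
    res B x ∈ box B P := by
  rw [mem_box] at hx ⊢
  intro j
  refine ⟨fun hj => ?_, fun hj => by simp [res, hj]⟩
  simp only [res, hj, if_true]
  exact (hx j).1 (h hj)

lemma sum_res (k : ℕ) (ε : σ → ℤ) {T B : Finset σ} (h : T ⊆ B) (x : σ → ℤ) :
    ∑ j ∈ T, ε j * res B x j ^ k = ∑ j ∈ T, ε j * x j ^ k :=
  sum_congr rfl fun j hj => by simp [res, h hj]

lemma min_bound (hN : NdStmt) (k : ℕ) (hk : 0 < k) (ε : σ → ℤ) (hε : ∀ j, ε j ≠ 0)
    (B : Finset σ) (hB : B.Nonempty) (hC : 2 ≤ #B → Crit k #B) :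
    ∃ C : ℝ, 0 ≤ C ∧ ∀ P : ℕ, 1 ≤ P → (#(Mn k ε B P) : ℝ) ≤ C * (P : ℝ) ^ ((#B : ℝ) / 2) := by
  classical
  by_cases h2 : 2 ≤ #B
  swap
  · refine ⟨0, le_rfl, fun P _ => ?_⟩
    have h1 : #B = 1 := by have := hB.card_pos; omega
    obtain ⟨j, rfl⟩ := card_eq_one.1 h1
    have : Mn k ε {j} P = ∅ := by
      refine eq_empty_of_forall_notMem fun x hx => ?_
      simp only [Mn, Z, mem_filter, sum_singleton] at hx
      have h := (mem_Icc.1 (((mem_box.1 hx.1.1) j).1 (mem_singleton_self j))).1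
      have : x j ^ k ≠ 0 := pow_ne_zero _ (by omega)
      exact mul_ne_zero (hε j) this hx.1.2
    simp [this]
  obtain ⟨n, a, hn, hnm, hA, hle⟩ := hC h2
  obtain ⟨B₁, hB₁, hc⟩ := exists_subset_card_eq (s := B) hnm.le
  have hcard : Fintype.card B₁ = n := by simp [hc]
  haveI : Nonempty B₁ := Fintype.card_pos_iff.1 (by omega)
  obtain ⟨C, hC'⟩ := hN B₁ k (fun j => ε j) a hk (by rw [hcard]; exact hA)
  rw [hcard] at hC'
  refine ⟨max C 0, le_max_right _ _, fun P hP => ?_⟩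
  have hP1 : (1 : ℝ) ≤ P := by exact_mod_cast hP
  have hP0 : (0 : ℝ) < P := by linarith
  have hss : B₁ ⊂ B := by
    refine ⟨hB₁, fun h => ?_⟩
    have := card_le_card h
    omega
  have hmap : ∀ x ∈ Mn k ε B P, res (B \ B₁) x ∈ box (B \ B₁) P := fun x hx => by
    simp only [Mn, Z, mem_filter] at hx
    exact res_mem hx.1.1 sdiff_subset
  have hfib : ∀ y ∈ box (B \ B₁) P, (#{x ∈ Mn k ε B P | res (B \ B₁) x = y} : ℝ) ≤
      max C 0 * (P : ℝ) ^ ∑ j ∈ range n, (j : ℝ) * a j := by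
    intro y _
    refine le_trans ?_ ((hC' P (-∑ j ∈ B \ B₁, ε j * y j ^ k) hP).trans
      (mul_le_mul_of_nonneg_right (le_max_left _ _) (by positivity)))
    refine Nat.cast_le.2 (card_le_card_of_injOn (fun x (j : B₁) => x j) ?_ ?_)
    · intro x hx
      simp only [Mn, Z, coe_filter, mem_filter, Set.mem_setOf_eq] at hx
      obtain ⟨⟨⟨hb, hs⟩, hm⟩, rfl⟩ := hx
      simp only [nd, coe_filter, Set.mem_setOf_eq]
      refine ⟨Fintype.mem_piFinset.2 fun j => ((mem_box.1 hb) j).1 (hB₁ j.2), ?_, ?_⟩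
      · rw [sum_res k ε subset_rfl, sum_coe_sort B₁ (fun j => ε j * x j ^ k)]
        rw [← sum_sdiff hB₁] at hs
        linarith
      · intro T hT
        have h := hm (T.map (Function.Embedding.subtype _)) ?_ (by simpa using hT)
        · simpa using h
        · refine lt_of_le_of_lt ?_ hss
          intro j hj
          obtain ⟨i, -, rfl⟩ := mem_map.1 hj
          exact i.2
    · intro x hx x' hx' h
      simp only [Mn, Z, coe_filter, mem_filter, Set.mem_setOf_eq] at hx hx'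
      funext j
      by_cases h1 : j ∈ B₁
      · exact congrFun h ⟨j, h1⟩
      · by_cases h3 : j ∈ B
        · have := congrFun (hx.2.trans hx'.2.symm) j
          simpa [res, h1, h3] using this
        · rw [((mem_box.1 hx.1.1.1) j).2 h3, ((mem_box.1 hx'.1.1.1) j).2 h3]
  rw [card_eq_sum_card_fiberwise hmap]
  push_cast
  refine (sum_le_card_nsmul _ _ _ hfib).trans ?_
  rw [card_box, card_sdiff_of_subset hB₁, hc, nsmul_eq_mul]
  push_cast
  rw [mul_left_comm, ← Real.rpow_natCast, ← Real.rpow_add hP0]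
  refine mul_le_mul_of_nonneg_left (Real.rpow_le_rpow_of_exponent_le hP1 ?_) (le_max_right _ _)
  rw [Nat.cast_sub hnm.le]
  exact hle

lemma all_bound (hN : NdStmt) (k : ℕ) (hk : 0 < k) (ε : σ → ℤ) (hε : ∀ j, ε j ≠ 0)
    (hC : ∀ m, 2 ≤ m → m ≤ Fintype.card σ → Crit k m) (A : Finset σ) :
    ∃ C : ℝ, 0 ≤ C ∧ ∀ P : ℕ, 1 ≤ P → (#(Z k ε A P) : ℝ) ≤ C * (P : ℝ) ^ ((#A : ℝ) / 2) := by
  classical
  induction A using Finset.strongInduction with
  | H A ih =>
  rcases A.eq_empty_or_nonempty with rfl | hA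
  · refine ⟨1, zero_le_one, fun P _ => ?_⟩
    have : #(Z k ε (∅ : Finset σ) P) ≤ 1 := by
      refine (card_filter_le _ _).trans ?_
      rw [card_box]; simp
    simpa using this
  have h1 : ∀ B : Finset σ, B.Nonempty → ∃ C : ℝ, 0 ≤ C ∧ ∀ P : ℕ, 1 ≤ P →
      (#(Mn k ε B P) : ℝ) ≤ C * (P : ℝ) ^ ((#B : ℝ) / 2) := fun B hB =>
    min_bound hN k hk ε hε B hB fun h => hC _ h (card_le_univ B)
  have h2 : ∀ B : Finset σ, B ⊆ A ∧ B.Nonempty → ∃ C : ℝ, 0 ≤ C ∧ ∀ P : ℕ, 1 ≤ P →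
      (#(Z k ε (A \ B) P) : ℝ) ≤ C * (P : ℝ) ^ ((#(A \ B) : ℝ) / 2) := fun B hB =>
    ih _ (sdiff_ssubset hB.1 hB.2)
  choose! C₁ p₁ q₁ using h1
  choose! C₂ p₂ q₂ using h2
  set S : Finset (Finset σ) := {B ∈ A.powerset | B.Nonempty} with hS
  have hmem : ∀ B ∈ S, B ⊆ A ∧ B.Nonempty := fun B hB => by simpa [hS] using hB
  refine ⟨∑ B ∈ S, C₁ B * C₂ B,
    sum_nonneg fun B hB => mul_nonneg (p₁ B (hmem B hB).2) (p₂ B (hmem B hB)), fun P hP => ?_⟩
  have hP0 : (0 : ℝ) < P := by exact_mod_cast hP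
  have hsub : Z k ε A P ⊆ S.biUnion fun B =>
      (Mn k ε B P ×ˢ Z k ε (A \ B) P).image fun u => u.1 + u.2 := by
    intro x hx
    simp only [Z, mem_filter] at hx
    obtain ⟨B, hB, hmin⟩ := exists_min_image {B ∈ S | ∑ j ∈ B, ε j * x j ^ k = 0} card
      ⟨A, by simp [hS, hA, hx.2]⟩
    rw [mem_filter] at hB
    have hBA := (hmem B hB.1).1
    refine mem_biUnion.2 ⟨B, hB.1, mem_image.2 ⟨(res B x, res (A \ B) x), mem_product.2 ⟨?_, ?_⟩, ?_⟩⟩
    · simp only [Mn, Z, mem_filter]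
      refine ⟨⟨res_mem hx.1 hBA, by rw [sum_res k ε subset_rfl]; exact hB.2⟩, fun T hT hne h => ?_⟩
      rw [sum_res k ε hT.subset] at h
      have := hmin T (by simp [hS, hne, h, hT.subset.trans hBA])
      exact absurd (card_lt_card hT) (by omega)
    · simp only [Z, mem_filter]
      refine ⟨res_mem hx.1 sdiff_subset, ?_⟩
      rw [sum_res k ε subset_rfl]
      have := hx.2
      rw [← sum_sdiff hBA, hB.2] at this
      linarith
    · funext j
      by_cases h3 : j ∈ B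
      · simp [res, h3]
      · by_cases h4 : j ∈ A
        · simp [res, h3, h4]
        · simp [res, h3, h4, ((mem_box.1 hx.1) j).2 h4]
  have hc := (card_le_card hsub).trans card_biUnion_le
  refine (Nat.cast_le.2 hc).trans ?_
  push_cast
  rw [sum_mul]
  refine sum_le_sum fun B hB => ?_
  refine (Nat.cast_le.2 card_image_le).trans ?_
  rw [card_product]
  push_cast
  have hB' := hmem B hB
  refine (mul_le_mul (q₁ B hB'.2 P hP) (q₂ B hB' P hP) (by positivity)
    (mul_nonneg (p₁ B hB'.2) (by positivity))).trans (le_of_eq ?_)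
  rw [mul_mul_mul_comm, ← Real.rpow_add hP0, card_sdiff_of_subset hB'.1,
    Nat.cast_sub (card_le_card hB'.1)]
  congr 2
  ring

end Blk

open Blk in
theorem block (hN : NdStmt) : BlockStmt := by
  classical
  intro k l hk hC
  obtain ⟨C, -, h⟩ := all_bound (σ := Fin l ⊕ Fin l) hN k hk
    (Sum.elim (fun _ => 1) fun _ => -1) (by rintro (j | j) <;> simp)
    (fun m h1 h2 => hC m h1 (by simpa [two_mul] using h2)) univ
  refine ⟨C, fun P hP => ?_⟩
  have e : ((#(univ : Finset (Fin l ⊕ Fin l)) : ℕ) : ℝ) / 2 = (l : ℕ) := by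
    simp
  have h' := h P hP
  rw [e, Real.rpow_natCast] at h'
  refine le_trans (Nat.cast_le.2 (card_le_card_of_injOn
    (fun x => Sum.elim (fun i => (x.1 i : ℤ)) fun i => (x.2 i : ℤ)) ?_ ?_)) h'
  · intro x hx
    simp only [coe_filter, mem_product, Fintype.mem_piFinset, mem_Icc, Set.mem_setOf_eq] at hx
    obtain ⟨⟨h1, h2⟩, h3⟩ := hx
    simp only [Z, coe_filter, Set.mem_setOf_eq]
    refine ⟨mem_box.2 fun j => ⟨fun _ => ?_, fun hj => absurd (mem_univ j) hj⟩, ?_⟩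
    · rcases j with j | j
      · simp only [Sum.elim_inl, mem_Icc]
        exact ⟨by exact_mod_cast (h1 j).1, by exact_mod_cast (h1 j).2⟩
      · simp only [Sum.elim_inr, mem_Icc]
        exact ⟨by exact_mod_cast (h2 j).1, by exact_mod_cast (h2 j).2⟩
    · have h4 : ∑ i, (x.1 i : ℤ) ^ k = ∑ i, (x.2 i : ℤ) ^ k := by exact_mod_cast h3
      simp [Fintype.sum_sum_type, h4]
  · intro x _ x' _ hxx
    refine Prod.ext (funext fun i => ?_) (funext fun i => ?_)
    · simpa using congrFun hxx (Sum.inl i)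
    · simpa using congrFun hxx (Sum.inr i)

end Pool.Agent.MP_4060c9_nt.H98
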