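import Pool.Agent.MP_4060c9_nt.H98.Spec3
import Pool.Agent.MP_4060c9_nt.H98.Block2

/-! The solutions which are not diagonal are rare: decomposition into minimal blocks. -/

set_option autoImplicit false

namespace Pool.Agent.MP_4060c9_nt.H98

open Finset

namespace Blk3

open Blk Blk2

lemma ex_adm {k l : ℕ} (hk : 4 ^ l ≤ k) :
    ∃ a : ℝ, a < 1 / 2 ∧ ∀ m, 2 ≤ m → m ≤ 2 * l → Adm2 (m - 1) k a := by
  have h1 : ∀ᶠ b : ℝ in nhds (1 / 2), ∀ j ∈ range (2 * l + 1), 1 < b ^ j * (2 ^ j + 1 : ℕ) :=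
    (Filter.eventually_all_finset _).2 fun j _ =>
      ContinuousAt.eventually_lt continuousAt_const (by fun_prop) (by
        push_cast
        rw [mul_add, ← mul_pow]
        norm_num)
  obtain ⟨b, ⟨h3, h4⟩, h5⟩ := (((h1.and (lt_mem_nhds (show (0 : ℝ) < 1 / 2 by norm_num))).filter_mono
    (nhdsWithin_le_nhds (s := Set.Iio (1 / 2)))).and self_mem_nhdsWithin).exists
  refine ⟨b, h5, fun m h2 hm => ⟨h4, fun j _ hj => ⟨2 ^ j, ?_, h3 j (mem_range.2 (by omega))⟩⟩⟩
  refine (bnd_lt _ _).trans_le ?_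
  calc 2 ^ (m - 1 - j + j + 2) ≤ 2 ^ (2 * l + 1) := Nat.pow_le_pow_right (by norm_num) (by omega)
    _ = 2 * 4 ^ l := by rw [pow_succ, pow_mul]; ring
    _ ≤ 2 * k := by omega

variable {σ : Type} [Fintype σ] [DecidableEq σ]

lemma min_one (k : ℕ) (ε : σ → ℤ) (hε : ∀ j, ε j ≠ 0) (B : Finset σ) (h1 : #B = 1) (P : ℕ) :
    Mn k ε B P = ∅ := by
  classical
  obtain ⟨j, rfl⟩ := card_eq_one.1 h1
  refine eq_empty_of_forall_notMem fun x hx => ?_
  simp only [Mn, Z, mem_filter, sum_singleton] at hx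
  have h := (mem_Icc.1 (((mem_box.1 hx.1.1) j).1 (mem_singleton_self j))).1
  have : x j ^ k ≠ 0 := pow_ne_zero _ (by omega)
  exact mul_ne_zero (hε j) this hx.1.2

lemma min_save (hN : Nd2Stmt) (k : ℕ) (hk : 0 < k) (ε : σ → ℤ) {a : ℝ} (ha : a < 1 / 2)
    (B : Finset σ) (h3 : 3 ≤ #B) (hA : Adm2 (#B - 1) k a) :
    ∃ C : ℝ, 0 ≤ C ∧ ∀ P : ℕ, 1 ≤ P →
      (#(Mn k ε B P) : ℝ) ≤ C * (P : ℝ) ^ ((#B : ℝ) / 2 - (1 / 2 - a)) := by
  classical
  obtain ⟨n, hBn⟩ : ∃ n, #B = n + 1 := ⟨#B - 1, by omega⟩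
  have hn : 0 < n := by omega
  have hnm : n < #B := by omega
  rw [show #B - 1 = n by omega] at hA
  obtain ⟨B₁, hB₁, hc⟩ := exists_subset_card_eq (s := B) hnm.le
  have hcard : Fintype.card B₁ = n := by simp [hc]
  haveI : Nonempty B₁ := Fintype.card_pos_iff.1 (by omega)
  obtain ⟨C, hC'⟩ := hN B₁ k (fun j => ε j) a hk (by rw [hcard]; exact hA)
  rw [hcard] at hC'
  refine ⟨max C 0, le_max_right _ _, fun P hP => ?_⟩
  have hP1 : (1 : ℝ) ≤ P := by exact_mod_cast hP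
  have hP0 : (0 : ℝ) < P := by linarith
  have hss : B₁ ⊂ B := by
    refine ⟨hB₁, fun h => ?_⟩
    have := card_le_card h
    omega
  have hmap : ∀ x ∈ Mn k ε B P, res (B \ B₁) x ∈ box (B \ B₁) P := fun x hx => by
    simp only [Mn, Z, mem_filter] at hx
    exact res_mem hx.1.1 sdiff_subset
  have hfib : ∀ y ∈ box (B \ B₁) P, (#{x ∈ Mn k ε B P | res (B \ B₁) x = y} : ℝ) ≤
      max C 0 * (P : ℝ) ^ (((n : ℝ) - 1) * a) := by
    intro y _
    refine le_trans ?_ ((hC' P (-∑ j ∈ B \ B₁, ε j * y j ^ k) hP).trans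
      (mul_le_mul_of_nonneg_right (le_max_left _ _) (by positivity)))
    refine Nat.cast_le.2 (card_le_card_of_injOn (fun x (j : B₁) => x j) ?_ ?_)
    · intro x hx
      simp only [Mn, Z, coe_filter, mem_filter, Set.mem_setOf_eq] at hx
      obtain ⟨⟨⟨hb, hs⟩, hm⟩, rfl⟩ := hx
      simp only [nd, coe_filter, Set.mem_setOf_eq]
      refine ⟨Fintype.mem_piFinset.2 fun j => ((mem_box.1 hb) j).1 (hB₁ j.2), ?_, ?_⟩
      · rw [sum_res k ε subset_rfl, sum_coe_sort B₁ (fun j => ε j * x j ^ k)]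
        rw [← sum_sdiff hB₁] at hs
        linarith
      · intro T hT
        have h := hm (T.map (Function.Embedding.subtype _)) ?_ (by simpa using hT)
        · simpa using h
        · refine lt_of_le_of_lt ?_ hss
          intro j hj
          obtain ⟨i, -, rfl⟩ := mem_map.1 hj
          exact i.2
    · intro x hx x' hx' h
      simp only [Mn, Z, coe_filter, mem_filter, Set.mem_setOf_eq] at hx hx'
      funext j
      by_cases h1 : j ∈ B₁
      · exact congrFun h ⟨j, h1⟩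
      · by_cases h3 : j ∈ B
        · have := congrFun (hx.2.trans hx'.2.symm) j
          simpa [res, h1, h3] using this
        · rw [((mem_box.1 hx.1.1.1) j).2 h3, ((mem_box.1 hx'.1.1.1) j).2 h3]
  rw [card_eq_sum_card_fiberwise hmap]
  push_cast
  refine (sum_le_card_nsmul _ _ _ hfib).trans ?_
  rw [card_box, card_sdiff_of_subset hB₁, hc, nsmul_eq_mul]
  push_cast
  rw [mul_left_comm, ← Real.rpow_natCast, ← Real.rpow_add hP0]
  refine mul_le_mul_of_nonneg_left (Real.rpow_le_rpow_of_exponent_le hP1 ?_) (le_max_right _ _)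
  rw [Nat.cast_sub hnm.le, hBn]
  push_cast
  have h2 : (2 : ℝ) ≤ n := by exact_mod_cast (show 2 ≤ n by omega)
  nlinarith

/-- The signs cancel at each value. -/
def Paired (ε : σ → ℤ) (A : Finset σ) (x : σ → ℤ) : Prop :=
  ∀ v : ℤ, ∑ j ∈ A with x j = v, ε j = 0

open Classical in
/-- The solutions which are not paired. -/
noncomputable def NP (k : ℕ) (ε : σ → ℤ) (A : Finset σ) (P : ℕ) : Finset (σ → ℤ) :=
  {x ∈ Z k ε A P | ¬ Paired ε A x}

omit [Fintype σ] in
lemma paired_res (ε : σ → ℤ) (A : Finset σ) (x : σ → ℤ) (h : Paired ε A (res A x)) :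
    Paired ε A x := fun v => by
  rw [← h v]
  refine sum_congr (filter_congr fun j hj => by simp [res, hj]) fun _ _ => rfl

omit [Fintype σ] in
lemma paired_add (ε : σ → ℤ) {A B : Finset σ} (hBA : B ⊆ A) (x : σ → ℤ) (h1 : Paired ε B x)
    (h2 : Paired ε (A \ B) x) : Paired ε A x := fun v => by
  have k1 := h1 v
  have k2 := h2 v
  rw [sum_filter] at k1 k2 ⊢
  rw [← sum_sdiff hBA, k1, k2, add_zero]

omit [Fintype σ] in
lemma paired_two {k : ℕ} (hk : 0 < k) (ε : σ → ℤ) (hε : ∀ j, ε j = 1 ∨ ε j = -1) {B : Finset σ}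
    (hB : #B = 2) (x : σ → ℤ) (hx : ∀ j ∈ B, 1 ≤ x j) (h : ∑ j ∈ B, ε j * x j ^ k = 0) :
    Paired ε B x := fun v => by
  obtain ⟨i, j, hij, rfl⟩ := card_eq_two.1 hB
  rw [sum_pair hij] at h
  rw [sum_filter, sum_pair hij]
  have hi : 1 ≤ x i := hx i (by simp)
  have hj : 1 ≤ x j := hx j (by simp)
  have pi : 0 < x i ^ k := pow_pos (by omega) _
  have pj : 0 < x j ^ k := pow_pos (by omega) _
  have key : x i ^ k = x j ^ k ∧ ε i + ε j = 0 := by
    rcases hε i with e1 | e1 <;> rcases hε j with e2 | e2 <;> rw [e1, e2] at h ⊢ <;>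
      constructor <;> linarith
  have e : x i = x j := (pow_left_inj₀ (by omega) (by omega) hk.ne').1 key.1
  rw [e]
  split_ifs
  · exact key.2
  · rfl

lemma np_bound (hN : Nd2Stmt) (k : ℕ) (hk : 0 < k) (ε : σ → ℤ) (hε : ∀ j, ε j = 1 ∨ ε j = -1)
    (hC : ∀ m, 2 ≤ m → m ≤ Fintype.card σ → Adm2 (m - 1) k (1 / 2)) {a : ℝ} (ha : a < 1 / 2)
    (hD : ∀ m, 2 ≤ m → m ≤ Fintype.card σ → Adm2 (m - 1) k a) (A : Finset σ) :
    ∃ C : ℝ, 0 ≤ C ∧ ∀ P : ℕ, 1 ≤ P →
      (#(NP k ε A P) : ℝ) ≤ C * (P : ℝ) ^ ((#A : ℝ) / 2 - (1 / 2 - a)) := by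
  classical
  have hε0 : ∀ j, ε j ≠ 0 := fun j => by rcases hε j with h | h <;> omega
  induction A using Finset.strongInduction with
  | H A ih =>
  rcases A.eq_empty_or_nonempty with rfl | hA
  · refine ⟨0, le_rfl, fun P _ => ?_⟩
    have : NP k ε (∅ : Finset σ) P = ∅ := by
      refine eq_empty_of_forall_notMem fun x hx => ?_
      exact (mem_filter.1 hx).2 fun v => by simp
    simp [this]
  have h1 : ∀ B : Finset σ, B ⊆ A ∧ B.Nonempty → ∃ C : ℝ, 0 ≤ C ∧ ∀ P : ℕ, 1 ≤ P →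
      (#(Mn k ε B P) : ℝ) * #(if #B = 2 then NP k ε (A \ B) P else Z k ε (A \ B) P) ≤
        C * (P : ℝ) ^ ((#A : ℝ) / 2 - (1 / 2 - a)) := by
    intro B hB
    by_cases e1 : #B = 1
    · exact ⟨0, le_rfl, fun P _ => by simp [min_one k ε hε0 B e1 P]⟩
    by_cases e2 : #B = 2
    · obtain ⟨C₁, p₁, q₁⟩ := Blk2.min_bound hN k hk ε hε0 B hB.2 fun h => hC _ h (card_le_univ B)
      obtain ⟨C₂, p₂, q₂⟩ := ih _ (sdiff_ssubset hB.1 hB.2)
      refine ⟨C₁ * C₂, mul_nonneg p₁ p₂, fun P hP => ?_⟩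
      have hP0 : (0 : ℝ) < P := by exact_mod_cast hP
      rw [if_pos e2]
      refine (mul_le_mul (q₁ P hP) (q₂ P hP) (by positivity)
        (mul_nonneg p₁ (by positivity))).trans (le_of_eq ?_)
      rw [mul_mul_mul_comm, ← Real.rpow_add hP0, card_sdiff_of_subset hB.1,
        Nat.cast_sub (card_le_card hB.1)]
      congr 2
      ring
    · have e3 : 3 ≤ #B := by have := hB.2.card_pos; omega
      obtain ⟨C₁, p₁, q₁⟩ := min_save hN k hk ε ha B e3 (hD _ (by omega) (card_le_univ B))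
      obtain ⟨C₂, p₂, q₂⟩ := Blk2.all_bound hN k hk ε hε0 hC (A \ B)
      refine ⟨C₁ * C₂, mul_nonneg p₁ p₂, fun P hP => ?_⟩
      have hP0 : (0 : ℝ) < P := by exact_mod_cast hP
      rw [if_neg e2]
      refine (mul_le_mul (q₁ P hP) (q₂ P hP) (by positivity)
        (mul_nonneg p₁ (by positivity))).trans (le_of_eq ?_)
      rw [mul_mul_mul_comm, ← Real.rpow_add hP0, card_sdiff_of_subset hB.1,
        Nat.cast_sub (card_le_card hB.1)]
      congr 2
      ring
  choose! C₁ p₁ q₁ using h1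
  set S : Finset (Finset σ) := {B ∈ A.powerset | B.Nonempty} with hS
  have hmem : ∀ B ∈ S, B ⊆ A ∧ B.Nonempty := fun B hB => by simpa [hS] using hB
  refine ⟨∑ B ∈ S, C₁ B, sum_nonneg fun B hB => p₁ B (hmem B hB), fun P hP => ?_⟩
  have hsub : NP k ε A P ⊆ S.biUnion fun B =>
      (Mn k ε B P ×ˢ (if #B = 2 then NP k ε (A \ B) P else Z k ε (A \ B) P)).image
        fun u => u.1 + u.2 := by
    intro x hx
    obtain ⟨hx, hnp⟩ := mem_filter.1 hx
    simp only [Z, mem_filter] at hx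
    obtain ⟨B, hB, hmin⟩ := exists_min_image {B ∈ S | ∑ j ∈ B, ε j * x j ^ k = 0} card
      ⟨A, by simp [hS, hA, hx.2]⟩
    rw [mem_filter] at hB
    have hBA := (hmem B hB.1).1
    have hZ : res (A \ B) x ∈ Z k ε (A \ B) P := by
      simp only [Z, mem_filter]
      refine ⟨res_mem hx.1 sdiff_subset, ?_⟩
      rw [sum_res k ε subset_rfl]
      have := hx.2
      rw [← sum_sdiff hBA, hB.2] at this
      linarith
    refine mem_biUnion.2 ⟨B, hB.1, mem_image.2 ⟨(res B x, res (A \ B) x), mem_product.2 ⟨?_, ?_⟩, ?_⟩⟩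
    · simp only [Mn, Z, mem_filter]
      refine ⟨⟨res_mem hx.1 hBA, by rw [sum_res k ε subset_rfl]; exact hB.2⟩, fun T hT hne h => ?_⟩
      rw [sum_res k ε hT.subset] at h
      have := hmin T (by simp [hS, hne, h, hT.subset.trans hBA])
      exact absurd (card_lt_card hT) (by omega)
    · split_ifs with e2
      · refine mem_filter.2 ⟨hZ, fun h => hnp (paired_add ε hBA x ?_ (paired_res ε _ x h))⟩
        exact paired_two hk ε hε e2 x
          (fun j hj => (mem_Icc.1 (((mem_box.1 hx.1) j).1 (hBA hj))).1) hB.2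
      · exact hZ
    · funext j
      by_cases h3 : j ∈ B
      · simp [res, h3]
      · by_cases h4 : j ∈ A
        · simp [res, h3, h4]
        · simp [res, h3, h4, ((mem_box.1 hx.1) j).2 h4]
  have hc := (card_le_card hsub).trans card_biUnion_le
  refine (Nat.cast_le.2 hc).trans ?_
  push_cast
  rw [sum_mul]
  refine sum_le_sum fun B hB => ?_
  refine (Nat.cast_le.2 card_image_le).trans ?_
  rw [card_product]
  push_cast
  exact q₁ B (hmem B hB) P hP

lemma ex_perm {l : ℕ} (x y : Fin l → ℕ)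
    (h : Paired (σ := Fin l ⊕ Fin l) (Sum.elim (fun _ => 1) fun _ => -1) univ
      (Sum.elim (fun i => (x i : ℤ)) fun i => (y i : ℤ))) :
    ∃ π : Equiv.Perm (Fin l), y = x ∘ π := by
  classical
  have h1 : ∀ v : ℕ, Fintype.card {i // y i = v} = Fintype.card {i // x i = v} := fun v => by
    have := h v
    rw [sum_filter, Fintype.sum_sum_type] at this
    simp only [Sum.elim_inl, Sum.elim_inr, Nat.cast_inj] at this
    rw [← sum_filter, ← sum_filter, sum_const, sum_const] at this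
    rw [Fintype.card_subtype, Fintype.card_subtype]
    simp only [nsmul_eq_mul, mul_one, mul_neg] at this
    omega
  refine ⟨Equiv.ofFiberEquiv (f := y) (g := x) fun v => Fintype.equivOfCardEq (h1 v), ?_⟩
  funext i
  exact (Equiv.ofFiberEquiv_map _ i).symm

end Blk3

open Blk Blk2 Blk3 in
theorem block3 (hN : Nd2Stmt) : Block3Stmt := by
  classical
  intro k l hkl
  have hk : 0 < k := lt_of_lt_of_le (by positivity) hkl
  obtain ⟨a, ha, hD⟩ := ex_adm hkl
  obtain ⟨C, -, h⟩ := np_bound (σ := Fin l ⊕ Fin l) hN k hk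
    (Sum.elim (fun _ => 1) fun _ => -1) (by rintro (j | j) <;> simp)
    (fun m h1 h2 => adm_half hkl h1 (by simpa [two_mul] using h2)) ha
    (fun m h1 h2 => hD m h1 (by simpa [two_mul] using h2)) univ
  refine ⟨1 / 2 - a, C, sub_pos.2 ha, fun P hP => ?_⟩
  have e : ((#(univ : Finset (Fin l ⊕ Fin l)) : ℕ) : ℝ) / 2 = (l : ℕ) := by
    simp
  have h' := h P hP
  rw [e] at h'
  refine le_trans (Nat.cast_le.2 (card_le_card_of_injOn
    (fun x => Sum.elim (fun i => (x.1 i : ℤ)) fun i => (x.2 i : ℤ)) ?_ ?_)) h'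
  · intro x hx
    simp only [coe_filter, mem_product, Fintype.mem_piFinset, mem_Icc, Set.mem_setOf_eq] at hx
    obtain ⟨⟨h1, h2⟩, h3, h5⟩ := hx
    refine mem_coe.2 (mem_filter.2 ⟨?_, fun hp => ?_⟩)
    · simp only [Z, mem_filter]
      refine ⟨mem_box.2 fun j => ⟨fun _ => ?_, fun hj => absurd (mem_univ j) hj⟩, ?_⟩
      · rcases j with j | j
        · simp only [Sum.elim_inl, mem_Icc]
          exact ⟨by exact_mod_cast (h1 j).1, by exact_mod_cast (h1 j).2⟩
        · simp only [Sum.elim_inr, mem_Icc]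
          exact ⟨by exact_mod_cast (h2 j).1, by exact_mod_cast (h2 j).2⟩
      · have h4 : ∑ i, (x.1 i : ℤ) ^ k = ∑ i, (x.2 i : ℤ) ^ k := by exact_mod_cast h3
        simp [Fintype.sum_sum_type, h4]
    · obtain ⟨π, hπ⟩ := ex_perm x.1 x.2 hp
      exact h5 π hπ
  · intro x _ x' _ hxx
    refine Prod.ext (funext fun i => ?_) (funext fun i => ?_)
    · simpa using congrFun hxx (Sum.inl i)
    · simpa using congrFun hxx (Sum.inr i)

end Pool.Agent.MP_4060c9_nt.H98
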