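import Pool.Agent.MP_4060c9_nt.H98.Spec4
import Pool.Agent.MP_4060c9_nt.H98.Block3

/-! From the primitive solutions to all solutions, and from the minimal blocks to paucity. -/

set_option autoImplicit false

namespace Pool.Agent.MP_4060c9_nt.H98

open Finset

namespace Blk4

open Blk Blk3

lemma mem_ms {σ : Type} [Fintype σ] {κ : ℕ} {ε : σ → ℤ} {P : ℕ} {x : σ → ℤ} :
    x ∈ ms κ ε P ↔ (∀ j, 1 ≤ x j ∧ x j ≤ P) ∧ ∑ j, ε j * x j ^ κ = 0 ∧
      ∀ T : Finset σ, T.Nonempty → T ≠ univ → ∑ j ∈ T, ε j * x j ^ κ ≠ 0 := by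
  simp only [ms, mem_filter, Fintype.mem_piFinset, mem_Icc]

/-- A power bound. -/
def Bd (F : ℕ → ℕ) (γ : ℝ) : Prop :=
  ∃ C : ℝ, 0 ≤ C ∧ ∀ P : ℕ, 1 ≤ P → (F P : ℝ) ≤ C * (P : ℝ) ^ γ

variable {F G : ℕ → ℕ} {γ γ' : ℝ}

lemma Bd.mono (h : Bd F γ) (h1 : ∀ P, G P ≤ F P) (h2 : γ ≤ γ') : Bd G γ' := by
  obtain ⟨C, h3, h4⟩ := h
  exact ⟨C, h3, fun P hP => ((Nat.cast_le.2 (h1 P)).trans (h4 P hP)).trans
    (mul_le_mul_of_nonneg_left (Real.rpow_le_rpow_of_exponent_le (by exact_mod_cast hP) h2) h3)⟩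

lemma Bd.mul (h : Bd F γ) (h' : Bd G γ') : Bd (fun P => F P * G P) (γ + γ') := by
  obtain ⟨C, h1, h2⟩ := h
  obtain ⟨C', h3, h4⟩ := h'
  refine ⟨C * C', mul_nonneg h1 h3, fun P hP => ?_⟩
  rw [Nat.cast_mul, Real.rpow_add (by exact_mod_cast hP), mul_mul_mul_comm]
  exact mul_le_mul (h2 P hP) (h4 P hP) (by positivity) (by positivity)

lemma Bd.sum {α : Type} (S : Finset α) {F : α → ℕ → ℕ} (h : ∀ a ∈ S, Bd (F a) γ) :
    Bd (fun P => ∑ a ∈ S, F a P) γ := by
  choose! C h1 h2 using h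
  refine ⟨∑ a ∈ S, C a, sum_nonneg h1, fun P hP => ?_⟩
  rw [Nat.cast_sum, sum_mul]
  exact sum_le_sum fun a ha => h2 a ha P hP

lemma bd_pow (n : ℕ) : Bd (fun P => P ^ n) n := ⟨1, zero_le_one, fun P _ => by simp⟩

lemma bd_zero : Bd (fun _ => 0) γ := ⟨0, le_rfl, fun P _ => by simp⟩

variable {σ : Type} [Fintype σ] [DecidableEq σ] {k : ℕ} {ε : σ → ℤ}

lemma min_two (hk : 0 < k) (hε : ∀ j, ε j ≠ 0) {B : Finset σ} (h2 : #B = 2) (P : ℕ) :
    #(Mn k ε B P) ≤ P ^ 1 := by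
  obtain ⟨i, j, hij, rfl⟩ := card_eq_two.1 h2
  refine (card_le_card_of_injOn (t := Icc (1 : ℤ) P) (fun x => x i) (fun x hx => ?_)
    (fun x hx x' hx' h => ?_)).trans (by simp)
  · simp only [Mn, Z, coe_filter, mem_filter, Set.mem_ofPred_eq] at hx
    exact ((mem_box.1 hx.1.1) i).1 (by simp)
  · simp only [Mn, Z, coe_filter, mem_filter, Set.mem_ofPred_eq, sum_pair hij] at hx hx'
    have h' : x i = x' i := h
    have h3 := (mem_Icc.1 (((mem_box.1 hx.1.1) j).1 (by simp))).1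
    have h4 := (mem_Icc.1 (((mem_box.1 hx'.1.1) j).1 (by simp))).1
    have h5 : x j = x' j := (pow_left_inj₀ (by omega) (by omega) hk.ne').1
      (mul_left_cancel₀ (hε j) (by rw [← h'] at hx'; linarith [hx.1.2, hx'.1.2]))
    funext t
    by_cases ht : t ∈ ({i, j} : Finset σ)
    · rcases mem_insert.1 ht with rfl | ht
      · exact h'
      · rwa [mem_singleton.1 ht]
    · rw [((mem_box.1 hx.1.1) t).2 ht, ((mem_box.1 hx'.1.1) t).2 ht]

lemma min_ms (B : Finset σ) (P : ℕ) : #(Mn k ε B P) ≤ #(ms k (fun j : B => ε j) P) := by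
  refine card_le_card_of_injOn (fun x (j : B) => x j) (fun x hx => ?_) (fun x hx x' hx' h => ?_)
  · simp only [Mn, Z, coe_filter, mem_filter, Set.mem_ofPred_eq] at hx
    refine mem_coe.2 (mem_ms.2 ⟨fun j => mem_Icc.1 (((mem_box.1 hx.1.1) j).1 j.2),
      (sum_coe_sort B (fun j => ε j * x j ^ k)).trans hx.1.2, fun T h1 h2 => ?_⟩)
    have h := hx.2 (T.map (Function.Embedding.subtype _)) ⟨fun j hj => ?_, fun h3 => h2 ?_⟩
      (by simpa using h1)
    · simpa using h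
    · obtain ⟨i, -, rfl⟩ := mem_map.1 hj
      exact i.2
    · exact eq_univ_of_forall fun j => (mem_map' _).1 (h3 j.2)
  · simp only [Mn, Z, coe_filter, mem_filter, Set.mem_ofPred_eq] at hx hx'
    funext j
    by_cases h1 : j ∈ B
    · exact congrFun h ⟨j, h1⟩
    · rw [((mem_box.1 hx.1.1) j).2 h1, ((mem_box.1 hx'.1.1) j).2 h1]

/-- Splitting off a minimal block. -/
lemma split_bd {A : Finset σ} (hA : A.Nonempty) (X : ℕ → Finset (σ → ℤ))
    (R : Finset σ → ℕ → Finset (σ → ℤ)) (hX : ∀ P, X P ⊆ Z k ε A P)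
    (hR : ∀ P, ∀ x ∈ X P, ∀ B ⊆ A, ∑ j ∈ B, ε j * x j ^ k = 0 →
      res (A \ B) x ∈ Z k ε (A \ B) P → res (A \ B) x ∈ R B P)
    (h : ∀ B ⊆ A, B.Nonempty → Bd (fun P => #(Mn k ε B P) * #(R B P)) γ) :
    Bd (fun P => #(X P)) γ := by
  classical
  obtain ⟨S, hS⟩ : ∃ S : Finset (Finset σ), ∀ B, B ∈ S ↔ B ⊆ A ∧ B.Nonempty :=
    ⟨{B ∈ A.powerset | B.Nonempty}, fun B => by simp⟩
  refine (Bd.sum S fun B hB => h B ((hS B).1 hB).1 ((hS B).1 hB).2).mono (fun P => ?_) le_rfl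
  refine (card_le_card (t := S.biUnion fun B => (Mn k ε B P ×ˢ R B P).image fun u => u.1 + u.2)
    fun x hx0 => ?_).trans (card_biUnion_le.trans
      (sum_le_sum fun B _ => card_image_le.trans (card_product _ _).le))
  have hx := hX P hx0
  simp only [Z, mem_filter] at hx
  obtain ⟨B, hB, hmin⟩ := exists_min_image {B ∈ S | ∑ j ∈ B, ε j * x j ^ k = 0} card
    ⟨A, by simp [hS, hA, hx.2]⟩
  rw [mem_filter] at hB
  have hBA := ((hS B).1 hB.1).1
  refine mem_biUnion.2 ⟨B, hB.1, mem_image.2 ⟨(res B x, res (A \ B) x),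
    mem_product.2 ⟨?_, hR P x hx0 B hBA hB.2 ?_⟩, ?_⟩⟩
  · simp only [Mn, Z, mem_filter]
    refine ⟨⟨res_mem hx.1 hBA, by rw [sum_res k ε subset_rfl]; exact hB.2⟩, fun T hT hne h => ?_⟩
    rw [sum_res k ε hT.subset] at h
    have := hmin T (by simp [hS, hne, h, hT.subset.trans hBA])
    exact absurd (card_lt_card hT) (by omega)
  · simp only [Z, mem_filter]
    refine ⟨res_mem hx.1 sdiff_subset, ?_⟩
    rw [sum_res k ε subset_rfl]
    have := hx.2
    rw [← sum_sdiff hBA, hB.2] at this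
    linarith
  · funext j
    by_cases h3 : j ∈ B
    · simp [res, h3]
    · by_cases h4 : j ∈ A
      · simp [res, h3, h4]
      · simp [res, h3, h4, ((mem_box.1 hx.1) j).2 h4]

omit [Fintype σ] in
lemma card_split {A B : Finset σ} (h : B ⊆ A) : (#(A \ B) : ℝ) = #A - #B := by
  rw [card_sdiff_of_subset h, Nat.cast_sub (card_le_card h)]

lemma all_bd (h : ∀ B : Finset σ, B.Nonempty → Bd (fun P => #(Mn k ε B P)) (#B / 2))
    (A : Finset σ) : Bd (fun P => #(Z k ε A P)) (#A / 2) := by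
  induction A using Finset.strongInduction with
  | H A ih =>
  rcases A.eq_empty_or_nonempty with rfl | hA
  · exact (bd_pow 0).mono (fun P => (card_filter_le _ _).trans (card_box _ _).le) (by simp)
  refine split_bd hA _ (fun B => Z k ε (A \ B)) (fun _ => subset_rfl) (fun _ _ _ _ _ _ h1 => h1)
    fun B h1 h2 => ((h B h2).mul (ih _ (sdiff_ssubset h1 h2))).mono (fun _ => le_rfl) ?_
  rw [card_split h1]
  linarith

lemma np_bd (hk : 0 < k) (hε : ∀ j, ε j = 1 ∨ ε j = -1) {δ : ℝ} (hδ : 0 ≤ δ)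
    (h : ∀ B : Finset σ, 3 ≤ #B → Bd (fun P => #(Mn k ε B P)) (#B / 2 - δ)) (A : Finset σ) :
    Bd (fun P => #(NP k ε A P)) (#A / 2 - δ) := by
  classical
  have hε0 : ∀ j, ε j ≠ 0 := fun j => by rcases hε j with h | h <;> omega
  have h1 : ∀ B : Finset σ, B.Nonempty → #B ≠ 2 → Bd (fun P => #(Mn k ε B P)) (#B / 2 - δ) := by
    intro B hB e2
    by_cases e1 : #B = 1
    · exact bd_zero.mono (fun P => by simp [min_one k ε hε0 B e1 P]) le_rfl
    · exact h B (by have := hB.card_pos; omega)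
  have h2 : ∀ B : Finset σ, B.Nonempty → Bd (fun P => #(Mn k ε B P)) (#B / 2) := by
    intro B hB
    by_cases e2 : #B = 2
    · exact (bd_pow 1).mono (min_two hk hε0 e2) (by simp [e2])
    · exact (h1 B hB e2).mono (fun _ => le_rfl) (by linarith)
  induction A using Finset.strongInduction with
  | H A ih =>
  rcases A.eq_empty_or_nonempty with rfl | hA
  · refine bd_zero.mono (fun P => (card_eq_zero.2 (eq_empty_of_forall_notMem fun x hx => ?_)).le)
      le_rfl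
    exact (mem_filter.1 hx).2 fun v => by simp
  refine split_bd hA _ (fun B P => if #B = 2 then NP k ε (A \ B) P else Z k ε (A \ B) P)
    (fun _ => filter_subset _ _) (fun P x hx B hBA h3 hZ => ?_) fun B h3 h4 => ?_
  · split_ifs with e2
    · obtain ⟨hx, hnp⟩ := mem_filter.1 hx
      refine mem_filter.2 ⟨hZ, fun h => hnp (paired_add ε hBA x ?_ (paired_res ε _ x h))⟩
      exact paired_two hk ε hε e2 x
        (fun j hj => (mem_Icc.1 (((mem_box.1 (mem_filter.1 hx).1) j).1 (hBA hj))).1) h3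
    · exact hZ
  · by_cases e2 : #B = 2
    · refine ((h2 B h4).mul (ih _ (sdiff_ssubset h3 h4))).mono (fun _ => by rw [if_pos e2]) ?_
      rw [card_split h3]
      linarith
    · refine ((h1 B h4 e2).mul (all_bd h2 (A \ B))).mono (fun _ => by rw [if_neg e2]) ?_
      rw [card_split h3]
      linarith

end Blk4

open Blk4 in
theorem prim : PrimStmt := by
  intro σ _ _ κ ε β C hβ h
  classical
  have hs := Real.summable_nat_rpow_inv.2 hβ
  refine ⟨max C 0 * ∑' g : ℕ, ((g : ℝ) ^ β)⁻¹, fun P hP => ?_⟩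
  have hsub : ms κ ε P ⊆ (Icc 1 P).biUnion fun g : ℕ =>
      (pm κ ε (P / g)).image fun y j => (g : ℤ) * y j := by
    intro x hx
    obtain ⟨h1, h2, h3⟩ := mem_ms.1 hx
    obtain ⟨y, h4, h5⟩ := Finset.extract_gcd (s := univ) x univ_nonempty
    obtain ⟨g, hg⟩ := Int.eq_ofNat_of_zero_le
      (Int.nonneg_of_normalize_eq_self (Finset.normalize_gcd (s := univ) (f := x)))
    obtain rfl : x = fun j => (g : ℤ) * y j := funext fun j => hg ▸ h4 j (mem_univ j)
    obtain ⟨j₀⟩ := ‹Nonempty σ›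
    have g0 : (0 : ℤ) < g := by
      rcases g with _ | g
      · simpa using (h1 j₀).1
      · positivity
    have y0 : ∀ j, 1 ≤ y j := fun j => (mul_pos_iff_of_pos_left g0).1 (h1 j).1
    have e : ∀ T : Finset σ, ∑ j ∈ T, ε j * (g * y j) ^ κ = g ^ κ * ∑ j ∈ T, ε j * y j ^ κ :=
      fun T => by
        rw [mul_sum]
        exact sum_congr rfl fun j _ => by ring
    refine mem_biUnion.2 ⟨g, mem_Icc.2 ⟨by omega, ?_⟩, mem_image.2 ⟨y, mem_filter.2
      ⟨mem_ms.2 ⟨fun j => ⟨y0 j, ?_⟩, ?_, fun T t1 t2 t3 => h3 T t1 t2 ?_⟩, h5⟩, rfl⟩⟩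
    · exact_mod_cast (le_mul_of_one_le_right g0.le (y0 j₀)).trans (h1 j₀).2
    · rw [Int.natCast_div, Int.le_ediv_iff_mul_le g0, mul_comm]
      exact (h1 j).2
    · rw [e] at h2
      exact (mul_eq_zero.1 h2).resolve_left (pow_ne_zero _ g0.ne')
    · rw [e, t3, mul_zero]
  refine (Nat.cast_le.2 ((card_le_card hsub).trans card_biUnion_le)).trans ?_
  rw [Nat.cast_sum, mul_right_comm]
  refine le_trans ?_ (mul_le_mul_of_nonneg_left
    (hs.sum_le_tsum (Icc 1 P) fun _ _ => by positivity) (by positivity))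
  rw [mul_sum]
  refine sum_le_sum fun g hg => (Nat.cast_le.2 card_image_le).trans ?_
  rw [mem_Icc] at hg
  refine (h _ (Nat.div_pos hg.2 hg.1)).trans ?_
  rw [mul_assoc, ← div_eq_mul_inv, ← Real.div_rpow (by positivity) (by positivity)]
  exact mul_le_mul (le_max_left _ _)
    (Real.rpow_le_rpow (by positivity) Nat.cast_div_le (by linarith)) (by positivity)
    (le_max_right _ _)

open Blk Blk3 Blk4 in
theorem blk4 : Blk4Stmt := by
  classical
  intro k l hk hM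
  obtain ⟨ε, hε⟩ : ∃ ε : Fin l ⊕ Fin l → ℤ, ε = Sum.elim (fun _ => 1) fun _ => -1 := ⟨_, rfl⟩
  have h1 : ∀ B : Finset (Fin l ⊕ Fin l), ∃ δ : ℝ, 0 < δ ∧
      (3 ≤ #B → Bd (fun P => #(Mn k ε B P)) (#B / 2 - δ)) := by
    intro B
    by_cases h3 : 3 ≤ #B
    · obtain ⟨β, C, h4, h5⟩ := hM B (fun j => ε j) (by simpa using h3)
        (by simpa [two_mul] using card_le_univ B)
      rw [Fintype.card_coe] at h4
      refine ⟨#B / 2 - β, sub_pos.2 h4, fun _ => Bd.mono ⟨max C 0, le_max_right _ _, fun P hP =>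
        (h5 P hP).trans (mul_le_mul_of_nonneg_right (le_max_left _ _) (by positivity))⟩
        (min_ms B) (by linarith)⟩
    · exact ⟨1, one_pos, fun h => absurd h h3⟩
  choose δ h2 h3 using h1
  obtain ⟨B₀, -, h4⟩ := exists_min_image univ δ ⟨∅, mem_univ _⟩
  obtain ⟨C, -, h⟩ := np_bd (ε := ε) hk (by rintro (j | j) <;> simp [hε]) (h2 B₀).le
    (fun B hB => (h3 B hB).mono (fun _ => le_rfl) (by linarith [h4 B (mem_univ B)])) univ
  subst hε
  refine ⟨δ B₀, C, h2 B₀, fun P hP => ?_⟩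
  have e : ((#(univ : Finset (Fin l ⊕ Fin l)) : ℕ) : ℝ) / 2 = (l : ℕ) := by
    simp
  have h' := h P hP
  rw [e] at h'
  refine le_trans (Nat.cast_le.2 (card_le_card_of_injOn
    (fun x => Sum.elim (fun i => (x.1 i : ℤ)) fun i => (x.2 i : ℤ)) ?_ ?_)) h'
  · intro x hx
    simp only [coe_filter, mem_product, Fintype.mem_piFinset, mem_Icc, Set.mem_ofPred_eq] at hx
    obtain ⟨⟨h1, h2⟩, h3, h5⟩ := hx
    refine mem_coe.2 (mem_filter.2 ⟨?_, fun hp => ?_⟩)
    · simp only [Z, mem_filter]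
      refine ⟨mem_box.2 fun j => ⟨fun _ => ?_, fun hj => absurd (mem_univ j) hj⟩, ?_⟩
      · rcases j with j | j
        · simp only [Sum.elim_inl, mem_Icc]
          exact ⟨by exact_mod_cast (h1 j).1, by exact_mod_cast (h1 j).2⟩
        · simp only [Sum.elim_inr, mem_Icc]
          exact ⟨by exact_mod_cast (h2 j).1, by exact_mod_cast (h2 j).2⟩
      · have h4 : ∑ i, (x.1 i : ℤ) ^ k = ∑ i, (x.2 i : ℤ) ^ k := by exact_mod_cast h3
        simp [Fintype.sum_sum_type, h4]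
    · obtain ⟨π, hπ⟩ := ex_perm x.1 x.2 hp
      exact h5 π hπ
  · intro x _ x' _ hxx
    refine Prod.ext (funext fun i => ?_) (funext fun i => ?_)
    · simpa using congrFun hxx (Sum.inl i)
    · simpa using congrFun hxx (Sum.inr i)

end Pool.Agent.MP_4060c9_nt.H98
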