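import Pool.Agent.MP_4060c9_nt.H98.Spec2
import Pool.Agent.MP_c4d8e2_ag.H21.Der

/-!
Transcendence degrees of generated rings and linear disjointness.
-/

set_option autoImplicit false

namespace Pool.Agent.MP_4060c9_nt.H98

open Finset

namespace Ld

open Pool.Agent.MP_c4d8e2_ag.H21

/-- A derivation which kills a subalgebra kills what is algebraic over it. -/
theorem der_alg {F K : Type} [Field F] [Field K] [CharZero K] [Algebra F K] (D : Derivation F K K)
    (S : Subalgebra F K) (hS : ∀ a ∈ S, D a = 0) {x : K} (hx : IsAlgebraic S x) : D x = 0 := by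
  have h1 : ∀ p : Polynomial S,
      D (Polynomial.aeval x p) = Polynomial.aeval x (Polynomial.derivative p) * D x := by
    intro p
    induction p using Polynomial.induction_on' with
    | add p q hp hq => simp only [map_add, hp, hq, add_mul]
    | monomial n a =>
      have ha : D (algebraMap S K a) = 0 := hS a a.2
      rw [Polynomial.derivative_monomial, Polynomial.aeval_monomial, Polynomial.aeval_monomial,
        Derivation.leibniz, ha, Derivation.leibniz_pow]
      simp only [map_mul, map_natCast, smul_eq_mul, nsmul_eq_mul]
      ring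
  obtain ⟨p, hp, hx⟩ := hx
  induction hn : p.natDegree using Nat.strong_induction_on generalizing p with
  | _ n ih =>
    by_cases h0 : p.natDegree = 0
    · rw [Polynomial.eq_C_of_natDegree_eq_zero h0] at hp hx
      rw [Polynomial.aeval_C] at hx
      exact absurd (by rw [show p.coeff 0 = 0 from Subtype.ext hx, map_zero]) hp
    · have h2 := h1 p
      rw [hx, map_zero] at h2
      rcases mul_eq_zero.1 h2.symm with h | h
      · exact ih _ (hn ▸ Polynomial.natDegree_derivative_lt h0) _
          (fun e => h0 (Polynomial.derivative_eq_zero.1 e)) h rfl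
      · exact h

theorem ld_der {F F' K ι : Type} [Field F] [Field F'] [Field K] [Algebra F F'] [Algebra F' K]
    [Algebra F K] [IsScalarTower F F' K] (u : ι → K)
    (H : ∀ c : F', c ∉ Set.range (algebraMap F F') →
      ∃ (D : Derivation F K K) (D' : Derivation F F' F'),
        (∀ a, D (algebraMap F' K a) = algebraMap F' K (D' a)) ∧ D' c ≠ 0 ∧ ∀ i, D (u i) = 0)
    (hu : LinearIndependent F u) : LinearIndependent F' u := by
  classical
  rw [linearIndependent_iff'] at hu ⊢
  intro s
  induction s using Finset.induction_on with
  | empty => simp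
  | insert j s hj ih =>
    intro g hg
    by_cases h0 : g j = 0
    · rw [sum_insert hj, h0, zero_smul, zero_add] at hg
      exact forall_mem_insert _ _ _ |>.2 ⟨h0, ih g hg⟩
    exfalso
    have hc : ∑ i ∈ insert j s, (g i / g j) • u i = 0 := by
      have := congrArg ((g j)⁻¹ • ·) hg
      simpa only [smul_sum, smul_smul, smul_zero, div_eq_inv_mul] using this
    have hr : ∀ i, ∃ e : F, i ∈ insert j s → algebraMap F F' e = g i / g j := by
      intro i
      by_cases hi : i ∈ s
      · by_contra hn
        obtain ⟨D, D', h1, h2, h3⟩ := H (g i / g j) fun ⟨e, he⟩ => hn ⟨e, fun _ => he⟩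
        have h4 := congrArg D hc
        rw [map_zero, map_sum, sum_insert hj, div_self h0, one_smul, h3, zero_add] at h4
        refine h2 (ih (fun l => D' (g l / g j)) ?_ i hi)
        rw [← h4]
        refine sum_congr rfl fun l _ => ?_
        rw [Algebra.smul_def, Algebra.smul_def, Derivation.leibniz, h1, h3, smul_zero, zero_add,
          smul_eq_mul, mul_comm]
      · exact ⟨1, fun h => by rw [(mem_insert.1 h).resolve_right hi, div_self h0, map_one]⟩
    choose e he using hr
    have h5 := hu (insert j s) e (by
      rw [← hc]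
      exact sum_congr rfl fun i hi => by rw [← he i hi, algebraMap_smul]) j (mem_insert_self _ _)
    have h6 := he j (mem_insert_self _ _)
    rw [h5, map_zero, div_self h0] at h6
    exact zero_ne_one h6

theorem ld_gen {F F' K ι τ : Type} [Field F] [CharZero F] [Field F'] [Field K] [CharZero K]
    [Algebra F F'] [Algebra F' K] [Algebra F K] [IsScalarTower F F' K] (u : ι → K) (w : τ → K)
    (hF : ∀ c : F', IsAlgebraic F c → c ∈ Set.range (algebraMap F F'))
    (hw : AlgebraicIndependent F' w) (ha : ∀ i, IsAlgebraic (Algebra.adjoin F (Set.range w)) (u i))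
    (hu : LinearIndependent F u) : LinearIndependent F' u := by
  refine ld_der u (fun c hc => ?_) hu
  obtain ⟨D', hD'⟩ := der_exists_of_indep (M := F')
    (algebraicIndependent_iff_transcendental.2 fun h => hc (hF c h)) fun _ => 1
  obtain ⟨B, hB⟩ := exists_isTranscendenceBasis F F'
  obtain ⟨D, hD⟩ := der_exists_of_indep (M := K) (hB.1.sumElim_comp hw)
    (Sum.elim (fun _ => 0) fun b => algebraMap F' K (D' b))
  have h1 : D.compAlgebraMap F' = (Algebra.linearMap F' K).compDer D' :=
    der_ext hB fun b => hD (Sum.inr b)
  refine ⟨D, D', fun a => DFunLike.congr_fun h1 a, ?_, fun i => der_alg D _ (fun a h => ?_) (ha i)⟩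
  · rw [show D' c = 1 from hD' 0]
    exact one_ne_zero
  · exact Derivation.eqOn_adjoin (D2 := 0) (by rintro _ ⟨t, rfl⟩; exact hD (Sum.inl t)) h

theorem down {K τ : Type} [Field K] {L L' : Subfield K} (h : L ≤ L') {w : τ → K}
    (hw : AlgebraicIndependent L' w) : AlgebraicIndependent L w := by
  let _ : Algebra L L' := (Subfield.inclusion h).toAlgebra
  have _ : IsScalarTower L L' K := .of_algebraMap_eq fun _ => rfl
  exact hw.restrictScalars (algebraMap L L').injective

end Ld

open Ld AlgebraicIndependent in
theorem trStmt : TrStmt := by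
  intro K σ _ _ y
  refine ⟨fun L => ?_, fun L L' d d' h h1 h2 => ?_⟩
  · obtain ⟨B, hB⟩ := (matroid L K).exists_isBasis (Set.range y)
    have hf : B.Finite := (Set.finite_range y).subset hB.subset
    have _ : Finite B := hf
    choose s hs using fun b : B => hB.subset b.2
    refine ⟨Nat.card B, ?_, ⟨fun a => s ((Finite.equivFin B).symm a), ?_⟩, fun v hv hi => ?_⟩
    · rw [← Nat.card_eq_fintype_card]
      exact Nat.card_le_card_of_injective s fun a b e => Subtype.ext (by rw [← hs, ← hs, e])
    · simp only [hs]
      exact AlgebraicIndependent.comp (matroid_indep_iff.1 hB.indep) _ (Equiv.injective _)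
    · have h1 : (matroid L K).Indep (Set.range v) := hi.to_subtype_range
      have h2 : Set.range v ⊆ (matroid L K).closure (Set.range y) := by
        rintro _ ⟨a, rfl⟩
        rw [matroid_closure_eq]
        have h3 : v a ∈ Algebra.adjoin L (Set.range y) :=
          (Subring.closure_le (t := (Algebra.adjoin L (Set.range y)).toSubring)).2
            Algebra.subset_adjoin (hv a)
        exact isAlgebraic_algebraMap (⟨v a, h3⟩ : Algebra.adjoin L (Set.range y))
      have h4 := h1.encard_le_eRk_of_subset h2
      rw [Matroid.eRk_closure_eq, ← hB.encard_eq_eRk, ← hf.cast_ncard_eq,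
        ← (Set.finite_range v).cast_ncard_eq, Set.ncard_range_of_injective hi.injective,
        Nat.cast_le, Nat.card_eq_fintype_card, Fintype.card_fin] at h4
      exact absurd h4 (Nat.not_succ_le_self _)
  · by_contra hd
    obtain ⟨t, ht⟩ := h2.1
    have hd' : d + 1 ≤ d' := by omega
    exact h1.2 (fun a => y (t (Fin.castLE hd' a))) (fun a => Subring.subset_closure ⟨_, rfl⟩)
      ((down h ht).comp _ (Fin.castLE_injective hd'))

open Ld in
theorem ld : LdStmt := by
  intro K σ ι _ _ y L L' d u h hL h1 h2 hu
  let _ : Algebra L L' := (Subfield.inclusion h).toAlgebra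
  have _ : IsScalarTower L L' K := .of_algebraMap_eq fun _ => rfl
  obtain ⟨t, ht⟩ := h2.1
  refine ld_gen u (fun a => y (t a)) (fun c hc => ⟨⟨c, hL c hc.algebraMap⟩, rfl⟩) ht fun i => ?_
  by_contra hn
  refine h1.2 _ (fun a => ?_) ((((down h ht).option_iff_transcendental (u i)).2 hn).comp _
    (finSuccEquiv d).injective)
  rcases e : finSuccEquiv d a with _ | b
  · simpa [e] using hu i
  · simpa [e] using Subring.subset_closure (Set.mem_range_self (t b))

end Pool.Agent.MP_4060c9_nt.H98
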