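import Pool.Agent.MP_4060c9_nt.H98.Spec4
import Pool.Agent.MP_4060c9_nt.H98.Ld

/-!
The degree bound on the cone.
-/

set_option autoImplicit false

namespace Pool.Agent.MP_4060c9_nt.H98

open Finset

namespace CdAux

theorem li_mono {k L : Type} [Field k] [Field L] [Algebra k L] {r e e' : ℕ} {T : Fin r → L} {Z : L}
    (h : LI k T Z e) (he : e' ≤ e) : LI k T Z e' :=
  LinearIndependent.comp h (fun m : {m : Ix r // m.2 < e'} => (⟨m.1, m.2.trans_le he⟩ :
    {m : Ix r // m.2 < e})) (fun _ _ h => Subtype.ext (Subtype.mk.inj h))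

theorem fm_push {k L σ ι : Type} [Field k] [Field L] [Algebra k L] [Fintype σ] [Fintype ι]
    {u : σ → L} {g : ι → σ} {L₀ : IntermediateField k L} {u₀ : ι → L₀}
    (h : ∀ i, (u₀ i : L) = u (g i)) (n : ι → ℤ) : ∃ N, ((fm u₀ n : L₀) : L) = fm u N := by
  classical
  refine ⟨fun x => ∑ i ∈ univ.filter (fun i => g i = x), n i, ?_⟩
  simp only [fm, Int.cast_sum, sum_mul]
  rw [show ((∑ i, (n i : L₀) * u₀ i : L₀) : L) = ∑ i, (n i : L) * u (g i) by simp [h],
    ← sum_fiberwise univ g]
  refine sum_congr rfl fun x _ => sum_congr rfl fun i hi => ?_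
  rw [(mem_filter.1 hi).2]

theorem int_push {k L : Type} [Field k] [Field L] [Algebra k L] {L₀ : IntermediateField k L} {r : ℕ}
    {T : Fin r → L₀} {x : L₀} (h : IsIntegral (Algebra.adjoin k (Set.range T)) x) :
    IsIntegral (Algebra.adjoin k (Set.range fun a => (T a : L))) (x : L) := by
  have h1 : ∀ y : Algebra.adjoin k (Set.range T),
      (L₀.val.comp (Algebra.adjoin k (Set.range T)).val) y ∈
        Algebra.adjoin k (Set.range fun a => (T a : L)) := by
    intro y
    have h2 : L₀.val y.1 ∈ (Algebra.adjoin k (Set.range T)).map L₀.val := ⟨y.1, y.2, rfl⟩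
    rw [AlgHom.map_adjoin, ← Set.range_comp] at h2
    exact h2
  exact h.map_of_comp_eq ((L₀.val.comp (Algebra.adjoin k (Set.range T)).val).codRestrict _
    h1).toRingHom L₀.val.toRingHom (by ext; rfl)

/-- From the cone over a subfamily to the goal. -/
theorem finish (hE : ExtStmt) {k L σ ι : Type} [Field k] [Field L] [Algebra k L] [Fintype σ]
    [Fintype ι] {u : σ → L} {g : ι → σ} {L₀ : IntermediateField k L} {u₀ : ι → L₀} {r j e : ℕ}
    {T : Fin r → L₀} {Z : L₀} {E₀ : Derivation k L₀ L₀} {t : Fin j → σ}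
    (h : ∀ i, (u₀ i : L) = u (g i)) (hC : Cone k u₀ T Z E₀) (hL : LI k T Z e)
    (ht : AlgebraicIndependent k (fun a => u (t a)))
    (ha : ∀ i, IsAlgebraic (Algebra.adjoin k (Set.range fun a => u (t a))) (u i)) :
    ∃ (N : Fin j → σ → ℤ) (n : σ → ℤ), LI k (fun a => fm u (N a)) (fm u n) e := by
  classical
  have h1 : ∀ a, ∃ N, (T a : L) = fm u N := fun a => by
    obtain ⟨n, hn⟩ := hC.lin a
    rw [hn]
    exact fm_push h n
  obtain ⟨n, hn⟩ := hC.linZ
  obtain ⟨n', hn'⟩ := fm_push h n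
  rw [← hn] at hn'
  have h2 : IsIntegral (Algebra.adjoin k (Set.range T)) Z := by
    rw [hn]
    exact IsIntegral.sum _ fun i _ => (isIntegral_intCast _).mul (hC.int i)
  have h3 : LI k (fun a => (T a : L)) (Z : L) e := by
    have := LinearIndependent.map' hL L₀.val.toLinearMap
      (LinearMap.ker_eq_bot.2 L₀.val.toRingHom.injective)
    rwa [show (L₀.val.toLinearMap ∘ fun m : {m : Ix r // m.2 < e} => mon T Z m.1) =
      fun m => mon (fun a => (T a : L)) (Z : L) m.1 from
        funext fun m => map_mon L₀.val.toRingHom T Z m.1] at this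
  obtain ⟨T', h4, h5⟩ := hE.2 k L σ r j e u (fun a => (T a : L)) Z t
    (hC.ind.map' (f := L₀.val) L₀.val.toRingHom.injective) (fun a => by
      obtain ⟨N, hN⟩ := h1 a
      rw [hN]
      exact Subalgebra.sum_mem _ fun i _ => Subalgebra.mul_mem _ (Subalgebra.intCast_mem _ _)
        (Algebra.subset_adjoin ⟨i, rfl⟩)) (int_push h2).isAlgebraic h3 ht ha
  have h6 : ∀ a, ∃ N, T' a = fm u N := fun a => by
    rcases h4 a with ⟨b, hb⟩ | ⟨i, hi⟩
    · rw [← hb]
      exact h1 b
    · exact ⟨Pi.single i 1, by simp [fm, ← hi, Pi.single_apply]⟩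
  choose N hN using h6
  exact ⟨N, n', by rwa [← hn', ← funext hN]⟩

theorem dim_le (hE : ExtStmt) {k L ι : Type} [Field k] [Field L] [Algebra k L] [Fintype ι]
    {L₀ : IntermediateField k L} {u₀ : ι → L₀} {r p : ℕ} {T : Fin r → L₀} {Z : L₀}
    {E₀ : Derivation k L₀ L₀} (hC : Cone k u₀ T Z E₀) (b : Fin p → ι)
    (h : AlgebraicIndependent k (fun q => (u₀ (b q) : L))) : p ≤ r :=
  hE.1 k L₀ p r (fun q => u₀ (b q)) T (AlgebraicIndependent.of_comp L₀.val h)
    fun q => (hC.int (b q)).isAlgebraic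

theorem two_le (hE : ExtStmt) {k L ι : Type} [Field k] [Field L] [CharZero L] [Algebra k L]
    [Fintype ι] {u : ι → L} {r : ℕ} {T : Fin r → L} {Z : L} {E : Derivation k L L}
    (hC : Cone k u T Z E) {i i' : ι} (h0 : u i' ≠ 0)
    (h : u i / u i' ∉ Set.range (algebraMap k L)) : 2 ≤ r := by
  have h1 : AlgebraicIndependent k ![u i / u i'] :=
    algebraicIndependent_iff_transcendental.2 fun h' => h (hC.cl _ h')
  have h2 : Transcendental (Algebra.adjoin k (Set.range ![u i / u i'])) (u i') := by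
    intro h'
    refine h0 ((hC.eul i').symm.trans (Ld.der_alg E _ (fun a ha => ?_) h'))
    refine Derivation.eqOn_adjoin (D2 := 0) ?_ ha
    rintro _ ⟨q, rfl⟩
    rw [Subsingleton.elim q 0]
    show E (u i / u i') = 0
    rw [Derivation.leibniz_div, hC.eul, hC.eul]
    simp [mul_comm]
  refine hE.1 k L 2 r _ T (((h1.option_iff_transcendental (u i')).2 h2).comp _
    (finSuccEquiv 1).injective) fun a => ?_
  rcases e : finSuccEquiv 1 a with _ | b
  · simpa [e] using (hC.int i').isAlgebraic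
  · rw [Subsingleton.elim b 0] at e
    simpa [e, div_eq_mul_inv] using (hC.int i).isAlgebraic.mul (hC.int i').isAlgebraic.inv

theorem enum {σ : Type} [Fintype σ] {p n : ℕ} {s : Fin p → σ} {g : Fin n → σ}
    (hs : s.Injective) (hg : g.Injective) : ∃ (p' : ℕ) (a : Fin p' → Fin p) (b : Fin p' → Fin n),
      a.Injective ∧ (∀ q, s (a q) = g (b q)) ∧ p + n ≤ p' + Fintype.card σ := by
  classical
  obtain ⟨W, hW⟩ : ∃ W, W = univ.image s ∩ univ.image g := ⟨_, rfl⟩
  have h1 : ∀ w : W, ∃ a, s a = w := fun w => by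
    have h : w.1 ∈ univ.image s ∩ univ.image g := hW.le w.2
    simpa using (mem_inter.1 h).1
  have h2 : ∀ w : W, ∃ b, g b = w := fun w => by
    have h : w.1 ∈ univ.image s ∩ univ.image g := hW.le w.2
    simpa using (mem_inter.1 h).2
  choose a ha using h1
  choose b hb using h2
  refine ⟨#W, fun q => a (W.equivFin.symm q), fun q => b (W.equivFin.symm q), fun q q' e => ?_,
    fun q => by rw [ha, hb], ?_⟩
  · refine W.equivFin.symm.injective (Subtype.ext ?_)
    rw [← ha, ← ha]
    exact congrArg s e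
  · have h3 := card_union_add_card_inter (univ.image s) (univ.image g)
    rw [card_image_of_injective _ hs, card_image_of_injective _ hg, ← hW] at h3
    have h4 := card_le_univ (univ.image s ∪ univ.image g)
    simp only [card_univ, Fintype.card_fin] at h3
    omega

end CdAux

open CdAux in
theorem cd (hC : ConeStmt) (hG : GwStmt) (hQ : LqStmt) (hE : ExtStmt) (hI : CircStmt) :
    CdStmt := by
  intro k L σ _ _ _ _ _ _ u D ε κ d j E s t hcl hD hκ hsum hns hs ht halg hj hgood
  classical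
  have tinj : t.Injective := Function.Injective.of_comp (f := u) ht.injective
  have sinj : s.Injective := Function.Injective.of_comp (f := u) hs.injective
  have h01 : (0 : Fin (j + 1)) ≠ Fin.last j := fun e => by
    have := congrArg Fin.val e
    simp at this
    omega
  have hne : ∀ i, (ε i : L) * u i ^ κ ≠ 0 := fun i => by
    have := hns {i} (singleton_nonempty i) fun e => h01 (tinj (by
      have h1 : t 0 ∈ ({i} : Finset σ) := e ▸ mem_univ _
      have h2 : t (Fin.last j) ∈ ({i} : Finset σ) := e ▸ mem_univ _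
      rw [mem_singleton.1 h1, mem_singleton.1 h2]))
    simpa only [sum_singleton] using this
  have hε : ∀ i, ε i ≠ 0 := fun i e => hne i (by simp [e])
  have hu : ∀ i, u i ≠ 0 := fun i e => hne i (by simp [e, hκ.ne'])
  have hlq : Fintype.card σ ≤ κ + 1 → ∀ e, e ≤ 2 ∨ (2 ≤ j ∧ e ≤ 3) →
      ∃ (N : Fin (j + 1) → σ → ℤ) (n : σ → ℤ), LI k (fun a => fm u (N a)) (fm u n) e := by
    intro hm e he
    obtain ⟨L₀, u₀, r, T, Z, E₀, h1, h2⟩ := hC k L σ u D hD hcl
    have h3 := dim_le hE h2 t (by simpa only [h1] using ht)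
    obtain ⟨r, rfl⟩ : ∃ r', r = r' + 2 := ⟨r - 2, by omega⟩
    have h4 : ∀ S : Finset σ, ((∑ i ∈ S, (ε i : k) • u₀ i ^ κ : L₀) : L) =
        ∑ i ∈ S, (ε i : L) * u i ^ κ := fun S => by
      simp [h1, Algebra.smul_def]
    obtain ⟨h5, h6⟩ := hQ k L₀ σ r κ u₀ T Z E₀ (fun i => (ε i : k)) h2 hm
      (Subtype.ext ((h4 univ).trans hsum)) fun S a b e => hns S a b (by rw [← h4, e]; rfl)
    refine finish hE (g := id) h1 h2 ?_ ht halg
    rcases he with he | ⟨h7, he⟩
    · exact li_mono h5 he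
    · exact li_mono (h6 (by omega)) he
  rcases hgood with hgood | ⟨h1, h2⟩ | ⟨h1, h2, h3⟩
  rotate_left
  · exact hlq h1 _ (Or.inl (by omega))
  · exact hlq h1 _ (Or.inr ⟨h2, by omega⟩)
  obtain ⟨n, g, c, ginj, hc0, hc1, hc2, i, i', hγ⟩ := hI (algebraicClosure ℚ k) L σ (Submodule k L)
    (fun i => (ε i : L) * u i ^ κ) (fun i => Submodule.span k {u i}) hsum hns
    ⟨t 0, t (Fin.last j), fun e => ht.linearIndependent.notMem_span_image (s := {Fin.last j})
      (x := 0) h01 (by
        rw [Set.image_singleton]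
        exact e ▸ Submodule.mem_span_singleton_self _)⟩
  obtain ⟨L₀, u₀, r, T, Z, E₀, h1, h2⟩ := hC k L _ (fun i => u (g i)) D (fun i => hD _) hcl
  have hu₀ : ∀ i, u₀ i ≠ 0 := fun i e => hu (g i) (by rw [← h1, e]; rfl)
  have h3 := two_le hE h2 (i := i) (hu₀ i') (by
    rintro ⟨a, ha⟩
    have h4 : u (g i) = a • u (g i') := by
      rw [← h1, ← h1, (eq_div_iff (hu₀ i')).1 ha |>.symm]
      simp [Algebra.smul_def]
    refine hγ ?_
    rw [h4]
    exact Submodule.span_singleton_smul_eq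
      (IsUnit.mk0 a fun e => hu (g i) (by rw [h4, e, zero_smul])) _)
  obtain ⟨r, rfl⟩ : ∃ r', r = r' + 2 := ⟨r - 2, by omega⟩
  refine finish hE h1 h2 ?_ ht halg
  by_contra hL
  obtain ⟨d', a, b, ainj, hab, hd'⟩ := enum sinj ginj
  obtain ⟨j', a', b', ainj', hab', hj'⟩ := enum tinj ginj
  have h4 := dim_le hE h2 b' (by simp only [h1, ← hab']; exact ht.comp a' ainj')
  have hdm : d + 1 ≤ Fintype.card σ := by simpa using Fintype.card_le_of_injective s sinj
  have hnm : n + 1 ≤ Fintype.card σ := by simpa using Fintype.card_le_of_injective g ginj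
  have hεk : ∀ i, (ε i : k) ≠ 0 := fun i => Int.cast_ne_zero.2 (hε i)
  have h5 : ∀ x : Fin (n + 1) → algebraicClosure ℚ k,
      ((∑ i, ((x i : k) * ε (g i)) • u₀ i ^ κ : L₀) : L) =
        ∑ i, x i • ((ε (g i) : L) * u (g i) ^ κ) := fun x => by
    have : ∀ (y : algebraicClosure ℚ k) (z : L), y • z = algebraMap k L y * z := fun y z =>
      Algebra.smul_def (y : k) z
    simp only [this]
    simp [h1, Algebra.smul_def, mul_assoc]
  obtain ⟨h6, h7⟩ := hG k L₀ n r κ d' (Fintype.card σ - 1 - d) E u₀ T Z E₀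
    (fun i => (c i : k) * ε (g i)) b h2 hκ
    (fun i => (mem_algebraicClosure_iff.1 (c i).2).mul (isAlgebraic_intCast _))
    (fun i => mul_ne_zero (fun e => hc0 i (Subtype.ext e)) (hεk _))
    (Subtype.ext ((h5 c).trans hc1)) (fun x hx h8 ⟨q, hq⟩ => by
      have h9 := hc2 (fun i => ⟨x i / ε (g i), mem_algebraicClosure_iff.2 (by
        rw [div_eq_mul_inv]
        exact (hx i).mul (isAlgebraic_intCast _).inv)⟩) (by
          rw [← h5]
          simp only [div_mul_cancel₀ _ (hεk _), h8]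
          rfl) ⟨q, Subtype.ext (by simp [hq])⟩
      funext i
      have := congrArg Subtype.val (congrFun h9 i)
      simpa [hεk] using this)
    (AlgebraicIndependent.of_comp (algebraMap L₀ L).toRatAlgHom (by
      convert hs.comp a ainj using 1
      funext q
      simp [hab, h1])) (by omega) hL
  obtain ⟨w, hw⟩ : ∃ w, Fintype.card σ = n + 1 + w := ⟨Fintype.card σ - (n + 1), by omega⟩
  unfold gb at hgood h7
  generalize Fintype.card σ - 1 - d = M at *
  rw [hw] at hgood hj'
  have h8 : w ≤ w * M := Nat.le_mul_of_pos_right w h6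
  nlinarith

end Pool.Agent.MP_4060c9_nt.H98
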