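import Pool.Agent.MP_4060c9_nt.H98.Spec4

/-!
A circuit of a family of vectors which meets two classes.
-/

set_option autoImplicit false

namespace Pool.Agent.MP_4060c9_nt.H98

open Finset

namespace CircA

variable {C V A Γ : Type} [Field C] [AddCommGroup V] [Module C V] [DecidableEq A]

/-- Minimal dependent sets. -/
def Cir (C : Type) [Field C] [Module C V] (U : A → V) (S : Finset A) : Prop :=
  ¬ LinearIndepOn C U S ∧ ∀ β ∈ S, LinearIndepOn C U (S.erase β : Finset A)

lemma Cir.rel {U : A → V} {S : Finset A} (h : Cir C U S) :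
    ∃ a : A → C, (∀ α ∈ S, a α ≠ 0) ∧ ∑ α ∈ S, a α • U α = 0 ∧ S.Nonempty := by
  have h1 := h.1
  rw [linearIndepOn_finset_iff] at h1
  push Not at h1
  obtain ⟨a, ha, γ, hγ, h0⟩ := h1
  refine ⟨a, fun β hβ hb => h0 ?_, ha, γ, hγ⟩
  by_cases h2 : γ = β
  · rwa [h2]
  refine linearIndepOn_finset_iff.1 (h.2 β hβ) a ?_ γ (mem_erase.2 ⟨h2, hγ⟩)
  rwa [sum_erase _ (by rw [hb, zero_smul])]

lemma exists_cir {U : A → V} (T : Finset A) (h : ¬ LinearIndepOn C U T) :
    ∃ S ⊆ T, Cir C U S := by
  induction T using Finset.strongInduction with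
  | H T ih =>
    by_cases h1 : ∀ β ∈ T, LinearIndepOn C U (T.erase β : Finset A)
    · exact ⟨T, Subset.rfl, h, h1⟩
    · push Not at h1
      obtain ⟨β, hβ, h2⟩ := h1
      obtain ⟨S, hS, h3⟩ := ih _ (erase_ssubset hβ) h2
      exact ⟨S, hS.trans (erase_subset _ _), h3⟩

/-- A relation splits along the levels of a function that is constant on circuits. -/
lemma level [DecidableEq Γ] {U : A → V} (φ : A → Γ) (c : Γ) (T : Finset A)
    (h : ∀ S ⊆ T, Cir C U S → ∀ α ∈ S, ∀ β ∈ S, φ α = φ β) (b : A → C)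
    (hb : ∑ α ∈ T, b α • U α = 0) : ∑ α ∈ T, (if φ α = c then b α else 0) • U α = 0 := by
  induction T using Finset.strongInduction generalizing b with
  | H T ih =>
    by_cases h1 : LinearIndepOn C U T
    · exact sum_eq_zero fun α hα => by simp [linearIndepOn_finset_iff.1 h1 b hb α hα]
    obtain ⟨S, hS, h2⟩ := exists_cir T h1
    obtain ⟨a, ha, ha0, β, hβ⟩ := h2.rel
    have h3 : ∀ g : A → C, ∑ α ∈ T, (if α ∈ S then g α else 0) • U α = ∑ α ∈ S, g α • U α :=
      fun g => by
        simp only [ite_smul, zero_smul, sum_ite_mem, inter_eq_right.2 hS]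
    have h4 : b β - b β / a β * (if β ∈ S then a β else 0) = 0 := by
      rw [if_pos hβ, div_mul_cancel₀ _ (ha β hβ), sub_self]
    have h5 := ih _ (erase_ssubset (hS hβ)) (fun S' h' => h S' (h'.trans (erase_subset _ _)))
      (fun α => b α - b β / a β * if α ∈ S then a α else 0) (by
        rw [sum_erase _ (by rw [h4, zero_smul])]
        simp only [sub_smul, mul_smul, sum_sub_distrib, ← smul_sum, h3, ha0, hb, smul_zero,
          sub_zero])
    rw [sum_erase _ (by simp only [h4, ite_self, zero_smul])] at h5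
    have h6 : ∑ α ∈ S, (if φ α = c then a α else 0) • U α = 0 := by
      by_cases h7 : φ β = c
      · rw [← ha0]
        exact sum_congr rfl fun α hα => by rw [if_pos ((h S hS h2 α hα β hβ).trans h7)]
      · exact sum_eq_zero fun α hα => by rw [if_neg ((h S hS h2 α hα β hβ) ▸ h7), zero_smul]
    rw [← h3] at h6
    have h7 := congrArg₂ (fun x y => (b β / a β) • x + y) h6 h5
    simp only [smul_zero, add_zero] at h7
    rw [← h7, smul_sum, ← sum_add_distrib]
    refine sum_congr rfl fun α _ => ?_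
    rw [smul_smul, ← add_smul]
    split_ifs <;> simp

end CircA

open CircA in
theorem circ : CircStmt := by
  intro C V σ Γ _ _ _ _ f γ h0 hns ⟨i, i', hii⟩
  classical
  have hex : ∃ S : Finset σ, Cir C f S ∧ ∃ α ∈ S, ∃ β ∈ S, γ α ≠ γ β := by
    by_contra hc
    push Not at hc
    have h1 := level (C := C) (U := f) γ (γ i) univ (fun S _ hS => hc S hS) (fun _ => 1)
      (by simpa using h0)
    refine hns (univ.filter fun α => γ α = γ i) ⟨i, by simp⟩ (fun h2 => ?_) ?_
    · have : i' ∈ univ.filter fun α => γ α = γ i := by rw [h2]; exact mem_univ _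
      exact hii (mem_filter.1 this).2.symm
    · rw [← h1, sum_filter]
      refine sum_congr rfl fun α _ => ?_
      split_ifs <;> simp
  obtain ⟨S, hS, α, hα, β, hβ, hne⟩ := hex
  obtain ⟨a, ha, ha0, hpos⟩ := hS.rel
  obtain ⟨n, hn⟩ : ∃ n, S.card = n + 1 := ⟨S.card - 1, by have := card_pos.2 hpos; omega⟩
  let e : Fin (n + 1) ≃ S := (S.equivFinOfCardEq hn).symm
  have hs : ∀ g : σ → V, ∑ j, g (e j) = ∑ x ∈ S, g x := fun g =>
    (e.sum_comp fun x => g x).trans (sum_coe_sort _ g)
  refine ⟨n, fun j => e j, fun j => a (e j), Subtype.val_injective.comp e.injective,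
    fun j => ha _ (e j).2, (hs fun x => a x • f x).trans ha0, fun b hb ⟨j, hj⟩ => ?_,
    e.symm ⟨α, hα⟩, e.symm ⟨β, hβ⟩, by simpa using hne⟩
  let b' : σ → C := fun x => if hx : x ∈ S then b (e.symm ⟨x, hx⟩) else 0
  have hb' : ∀ k, b' (e k) = b k := fun k => by simp [b', (e k).2]
  have h1 : ∑ x ∈ S, b' x • f x = 0 := by
    rw [← hs fun x => b' x • f x]
    simpa only [hb'] using hb
  have h2 : b' (e j) = 0 := (hb' j).trans hj
  funext k
  by_cases hk : k = j
  · rw [hk]; exact hj
  · rw [← hb' k]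
    refine linearIndepOn_finset_iff.1 (hS.2 _ (e j).2) b' ?_ _
      (mem_erase.2 ⟨fun h3 => hk (e.injective (Subtype.ext h3)), (e k).2⟩)
    rwa [sum_erase _ (by rw [h2, zero_smul])]

end Pool.Agent.MP_4060c9_nt.H98
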