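import Pool.Agent.MP_4060c9_nt.H98.Spec2

/-!
Residue classes of points of a diagonal hypersurface, and many primes of the same size.
-/

set_option autoImplicit false

namespace Pool.Agent.MP_4060c9_nt.H98

open Finset

namespace Cls

theorem field {k σ : Type} [Field k] [Fintype k] [DecidableEq k] [Fintype σ] [DecidableEq σ]
    {κ : ℕ} (hκ : 0 < κ) (ε : σ → k) (N : k) (j₀ : σ) (h : ε j₀ ≠ 0) :
    #(univ.filter fun ξ : σ → k => ∑ j, ε j * ξ j ^ κ = N) ≤
      κ * Fintype.card k ^ (Fintype.card σ - 1) := by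
  refine (card_le_mul_card_image (f := fun (ξ : σ → k) (j : {j // j ≠ j₀}) => ξ j) _ κ
    fun a _ => ?_).trans (Nat.mul_le_mul_left _ ((card_le_univ _).trans_eq ?_))
  · refine le_trans (card_le_card_of_injOn (fun ξ => ξ j₀) (t := (Polynomial.nthRoots κ
      ((N - ∑ j : {j // j ≠ j₀}, ε j * a j ^ κ) / ε j₀)).toFinset) (fun ξ hξ => ?_)
      fun ξ hξ ξ' hξ' e => ?_)
      ((Multiset.toFinset_card_le _).trans (Polynomial.card_nthRoots _ _))
    · simp only [coe_filter, mem_filter, mem_univ, true_and, Set.mem_ofPred_eq] at hξ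
      obtain ⟨h1, rfl⟩ := hξ
      rw [mem_coe, Multiset.mem_toFinset, Polynomial.mem_nthRoots hκ, eq_div_iff h, ← h1,
        Fintype.sum_eq_add_sum_subtype_ne _ j₀]
      ring
    · simp only [coe_filter, mem_filter, mem_univ, true_and, Set.mem_ofPred_eq] at hξ hξ'
      funext j
      by_cases hj : j = j₀
      · rw [hj]
        exact e
      · exact congrFun (hξ.2.trans hξ'.2.symm) ⟨j, hj⟩
  · simp

theorem one {σ : Type} [Fintype σ] [DecidableEq σ] {κ : ℕ} (hκ : 0 < κ) (ε : σ → ℤ) (N : ℤ)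
    (j₀ : σ) {p : ℕ} (hp : p.Prime) (h : ¬ (p : ℤ) ∣ ε j₀) (S : Finset (σ → ℤ))
    (hS : ∀ x ∈ S, ∑ j, ε j * x j ^ κ = N) :
    #(S.image fun x j => x j % (p : ℤ)) ≤ κ * p ^ (Fintype.card σ - 1) := by
  have := Fact.mk hp
  have h1 := field hκ (fun j => (ε j : ZMod p)) (N : ZMod p) j₀
    fun h0 => h ((ZMod.intCast_zmod_eq_zero_iff_dvd _ p).1 h0)
  rw [ZMod.card] at h1
  refine le_trans (card_le_card fun ρ hρ => ?_)
    ((card_image_le (f := fun (ξ : σ → ZMod p) j => ((ξ j).val : ℤ))).trans h1)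
  obtain ⟨x, hx, rfl⟩ := mem_image.1 hρ
  refine mem_image.2 ⟨fun j => (x j : ZMod p), mem_filter.2 ⟨mem_univ _, ?_⟩,
    funext fun j => ZMod.val_intCast _⟩
  rw [← hS x hx]
  push_cast
  rfl

/-- A prime between `n` and `2 n`. -/
noncomputable def nx (n : ℕ) : ℕ :=
  if h : n = 0 then 0 else (Nat.exists_prime_lt_and_le_two_mul n h).choose

theorem nx_spec {n : ℕ} (h : 0 < n) : (nx n).Prime ∧ n < nx n ∧ nx n ≤ 2 * n := by
  rw [nx, dif_neg h.ne']
  exact (Nat.exists_prime_lt_and_le_two_mul n h.ne').choose_spec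

theorem it_spec {n : ℕ} (h : 0 < n) (a : ℕ) :
    (nx^[a + 1] n).Prime ∧ n < nx^[a + 1] n ∧ nx^[a + 1] n ≤ 2 ^ (a + 1) * n := by
  induction a with
  | zero => simpa using nx_spec h
  | succ a ih =>
    rw [Function.iterate_succ_apply']
    obtain ⟨h1, h2, h3⟩ := nx_spec ih.1.pos
    refine ⟨h1, ih.2.1.trans h2, h3.trans ?_⟩
    rw [pow_succ' 2 (a + 1), mul_assoc]
    exact Nat.mul_le_mul_left _ ih.2.2

theorem prod_dvd {p : ℕ → ℕ} (hp : ∀ a, (p a).Prime) (hi : p.Injective) (Q : Finset ℕ) (g : ℤ)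
    (h : ∀ a ∈ Q, (p a : ℤ) ∣ g) : ((∏ a ∈ Q, p a : ℕ) : ℤ) ∣ g := by
  push_cast
  exact Finset.prod_dvd_of_coprime (fun a _ b _ hab => Nat.isCoprime_iff_coprime.2
    ((Nat.coprime_primes (hp a) (hp b)).2 fun e => hab (hi e))) h

end Cls

theorem cls : ClsStmt := by
  classical
  intro σ _ _ κ ε N j₀ p Q S hκ hp hS
  refine ⟨S.image (rsd p Q), ?_, fun x hx => mem_image_of_mem _ hx⟩
  refine le_trans (card_le_card_of_injOn (fun ρ a _ => ρ a)
    (t := Q.pi fun a => S.image fun x j => x j % (p a : ℤ)) (fun ρ hρ => ?_)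
    fun ρ hρ ρ' hρ' e => ?_) ?_
  · obtain ⟨x, hx, rfl⟩ := mem_image.1 (mem_coe.1 hρ)
    refine mem_coe.2 (mem_pi.2 fun a ha => mem_image.2 ⟨x, hx, funext fun j => ?_⟩)
    simp [rsd, ha]
  · obtain ⟨x, -, rfl⟩ := mem_image.1 (mem_coe.1 hρ)
    obtain ⟨x', -, rfl⟩ := mem_image.1 (mem_coe.1 hρ')
    funext a
    by_cases ha : a ∈ Q
    · exact congrFun (congrFun e a) ha
    · funext j
      simp [rsd, ha]
  · rw [card_pi]
    exact prod_le_prod' fun a ha => Cls.one hκ ε N j₀ (hp a ha).1 (hp a ha).2 S hS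

theorem pr : PrStmt := by
  refine ⟨fun n a => Cls.nx^[a + 1] n, fun n hn => ?_⟩
  have h1 := Cls.it_spec hn
  have h2 : Function.Injective fun a => Cls.nx^[a + 1] n :=
    (strictMono_nat_of_lt_succ fun a => by
      rw [Function.iterate_succ_apply' _ (a + 1)]
      exact (Cls.nx_spec (h1 a).1.pos).2.1).injective
  have h3 := Cls.prod_dvd (fun a => (h1 a).1) h2
  refine ⟨h1, h2, fun Q g hg h => ?_, fun Q g h => ?_, fun Q x y h => ?_⟩
  · refine le_trans ?_ (Int.le_of_dvd (abs_pos.2 hg) ((dvd_abs _ _).2 (h3 Q g h)))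
    exact_mod_cast Finset.pow_card_le_prod Q _ n fun a _ => (h1 a).2.1.le
  · push_cast
    exact IsCoprime.prod_right fun a ha =>
      ((Nat.prime_iff_prime_int.1 (h1 a).1).coprime_iff_not_dvd.2 (h a ha)).symm
  · exact (Int.modEq_iff_dvd.2 (h3 Q _ fun a ha => Int.modEq_iff_dvd.1 (h a ha)))

end Pool.Agent.MP_4060c9_nt.H98
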