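import Pool.Agent.MP_4060c9_nt.H98.Spec4
import Pool.Agent.MP_4060c9_nt.H98.Cls

/-!
The number of residue classes of smooth projective points.
-/

set_option autoImplicit false

namespace Pool.Agent.MP_4060c9_nt.H98

open Finset Polynomial

namespace Cnt

variable {R : Type*} [CommRing R] {r : ℕ}

theorem mon_mul (τ : Fin r → R) (ζ x : R) (m : Ix r) :
    mon (fun a => τ a * x) (ζ * x) m = x ^ dg m * mon τ ζ m := by
  simp only [mon, dg, mul_pow, prod_mul_distrib, prod_pow_eq_pow_sum, pow_add]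
  ring

theorem dmon_mul (τ : Fin r → R) (ζ x : R) (m : Ix r) :
    x * dmon (fun a => τ a * x) (ζ * x) m = x ^ dg m * dmon τ ζ m := by
  obtain ⟨m₁, _ | m₂⟩ := m
  · simp [dmon]
  · simp only [dmon, dg, mul_pow, prod_mul_distrib, prod_pow_eq_pow_sum, pow_add,
      Nat.add_sub_cancel]
    ring

theorem gh_mul {M : Finset (Ix r)} {D : ℕ} (h : ∀ m ∈ M, dg m ≤ D) (c : Ix r → R) (τ : Fin r → R)
    (ζ x : R) : Gh M c D x (fun a => τ a * x) (ζ * x) = x ^ D * Gv M c τ ζ := by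
  rw [Gh, Gv, mul_sum]
  refine sum_congr rfl fun m hm => ?_
  rw [mon_mul, ← mul_assoc (x ^ _), ← pow_add, Nat.sub_add_cancel (h m hm)]
  ring

theorem gdh_mul {M : Finset (Ix r)} {D : ℕ} (h : ∀ m ∈ M, dg m ≤ D) (c : Ix r → R) (τ : Fin r → R)
    (ζ x : R) : x * Gdh M c D x (fun a => τ a * x) (ζ * x) = x ^ D * Gd M c τ ζ := by
  rw [Gdh, Gd, mul_sum, mul_sum]
  refine sum_congr rfl fun m hm => ?_
  rw [mul_left_comm x, mul_left_comm x, dmon_mul, ← mul_assoc (x ^ _), ← pow_add,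
    Nat.sub_add_cancel (h m hm)]
  ring

/-- The polynomial in the last variable. -/
noncomputable def pl (M : Finset (Ix r)) (c : Ix r → R) (τ : Fin r → R) : R[X] :=
  ∑ m ∈ M, C (c m * ∏ a, τ a ^ m.1 a) * X ^ m.2

theorem pl_eval (M : Finset (Ix r)) (c : Ix r → R) (τ : Fin r → R) (ζ : R) :
    (pl M c τ).eval ζ = Gv M c τ ζ := by
  rw [pl, Gv, eval_finsetSum]
  refine sum_congr rfl fun m _ => ?_
  rw [eval_mul, eval_C, eval_pow, eval_X, mon, mul_assoc]

theorem pl_der (M : Finset (Ix r)) (c : Ix r → R) (τ : Fin r → R) (ζ : R) :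
    (derivative (pl M c τ)).eval ζ = Gd M c τ ζ := by
  rw [pl, Gd, derivative_sum, eval_finsetSum]
  refine sum_congr rfl fun m _ => ?_
  rw [derivative_C_mul_X_pow, eval_mul, eval_C, eval_pow, eval_X, dmon]
  ring

theorem pl_deg {M : Finset (Ix r)} {D : ℕ} (h : ∀ m ∈ M, dg m ≤ D) (c : Ix r → R)
    (τ : Fin r → R) : (pl M c τ).natDegree ≤ D :=
  natDegree_sum_le_of_forall_le _ _ fun m hm =>
    (natDegree_C_mul_X_pow_le _ _).trans ((Nat.le_add_left _ _).trans (h m hm))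

theorem cast_gh (M : Finset (Ix r)) (c : Ix r → ℤ) (D : ℕ) (x : ℤ) (t : Fin r → ℤ) (z : ℤ) :
    ((Gh M c D x t z : ℤ) : R) = Gh M (fun m => (c m : R)) D x (fun a => (t a : R)) z := by
  simp [Gh, mon]

theorem cast_gdh (M : Finset (Ix r)) (c : Ix r → ℤ) (D : ℕ) (x : ℤ) (t : Fin r → ℤ) (z : ℤ) :
    ((Gdh M c D x t z : ℤ) : R) = Gdh M (fun m => (c m : R)) D x (fun a => (t a : R)) z := by
  simp [Gdh, dmon]

theorem root {F : Type*} [Field F] {M : Finset (Ix r)} {D : ℕ} (h : ∀ m ∈ M, dg m ≤ D)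
    (c : Ix r → F) {x : F} (hx : x ≠ 0) (t : Fin r → F) (z : F) (h1 : Gh M c D x t z = 0)
    (h2 : Gdh M c D x t z ≠ 0) : z * x⁻¹ ∈ (pl M c fun a => t a * x⁻¹).roots := by
  have e1 := gh_mul h c (fun a => t a * x⁻¹) (z * x⁻¹) x
  have e2 := gdh_mul h c (fun a => t a * x⁻¹) (z * x⁻¹) x
  simp only [inv_mul_cancel_right₀ hx] at e1 e2
  rw [mem_roots', IsRoot.def, pl_eval]
  refine ⟨fun h0 => ?_, (mul_eq_zero.1 (e1.symm.trans h1)).resolve_left (pow_ne_zero _ hx)⟩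
  rw [← pl_der, h0, derivative_zero, eval_zero, mul_zero] at e2
  exact mul_ne_zero hx h2 e2

end Cnt

theorem cnt : CntStmt := by
  classical
  refine ⟨fun σ _ r p j₀ t M c D hp hD => ?_, fun σ _ p j₀ x x' n n' hp hx hx' h => ?_⟩
  · have := Fact.mk hp
    refine ⟨univ.biUnion fun τ : Fin r → ZMod p => (Fintype.piFinset fun i =>
      (Cnt.pl (M i) (fun m => (c i m : ZMod p)) τ).roots.toFinset).image fun y i => (y i).val,
      card_biUnion_le.trans ((sum_le_card_nsmul _ _ (∏ i, D i) fun τ _ => ?_).trans_eq ?_),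
      fun x hx h => ?_⟩
    · refine card_image_le.trans ?_
      rw [Fintype.card_piFinset]
      exact prod_le_prod' fun i _ => (Multiset.toFinset_card_le _).trans
        ((card_roots' _).trans (Cnt.pl_deg (hD i) _ _))
    · simp [mul_comm]
    · refine mem_biUnion.2 ⟨fun a => (x (t a) : ZMod p) * (x j₀ : ZMod p)⁻¹, mem_univ _,
        mem_image.2 ⟨fun i => (x i : ZMod p) * (x j₀ : ZMod p)⁻¹,
          Fintype.mem_piFinset.2 fun i => Multiset.mem_toFinset.2 ?_, rfl⟩⟩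
      refine Cnt.root (hD i) _ (fun h0 => hx ((ZMod.intCast_zmod_eq_zero_iff_dvd _ p).1 h0))
        (fun a => (x (t a) : ZMod p)) _ ?_ fun h0 => (h i).2 ?_
      · rw [← Cnt.cast_gh, (h i).1, Int.cast_zero]
      · rw [← ZMod.intCast_zmod_eq_zero_iff_dvd, Cnt.cast_gdh]
        exact h0
  · have := Fact.mk hp
    have h1 : (x j₀ : ZMod p) ≠ 0 := fun h0 => hx ((ZMod.intCast_zmod_eq_zero_iff_dvd _ p).1 h0)
    have h2 : (x' j₀ : ZMod p) ≠ 0 := fun h0 => hx' ((ZMod.intCast_zmod_eq_zero_iff_dvd _ p).1 h0)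
    have h3 : ∀ i, (x' i : ZMod p) = (x' j₀ : ZMod p) * (x j₀ : ZMod p)⁻¹ * x i := fun i => by
      have h4 := ZMod.val_injective p (congrFun h i)
      rw [mul_inv_eq_iff_eq_mul₀ h2] at h4
      rw [h4]
      ring
    rw [← ZMod.intCast_eq_intCast_iff]
    push_cast
    generalize (x' j₀ : ZMod p) * (x j₀ : ZMod p)⁻¹ = e at h3
    simp only [h3, mul_left_comm _ e, ← mul_sum]
    ring

end Pool.Agent.MP_4060c9_nt.H98
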