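import Pool.Agent.MP_4060c9_nt.H98.Spec4

/-!
Primitive elements with integral coefficients, and the projection of the cone.
-/

set_option autoImplicit false

namespace Pool.Agent.MP_4060c9_nt.H98

open Finset IntermediateField

namespace ConeAux

/-- Two elements of a finite extension lie in the field of one integral combination. -/
lemma two {F L : Type} [Field F] [CharZero F] [Field L] [Algebra F L] [FiniteDimensional F L]
    (α β : L) : ∃ c : ℤ, α ∈ F⟮α + c * β⟯ ∧ β ∈ F⟮α + c * β⟯ := by
  have : CharZero L := charZero_of_injective_algebraMap (algebraMap F L).injective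
  have := Field.finite_intermediateField_of_exists_primitive_element F L
    (Field.exists_primitive_element F L)
  obtain ⟨c, c', hne, e⟩ := Finite.exists_ne_map_eq_of_infinite fun c : ℤ => F⟮α + c * β⟯
  have h1 := mem_adjoin_simple_self F (α + c * β)
  have h2 := mem_adjoin_simple_self F (α + c' * β)
  rw [← show F⟮α + c * β⟯ = F⟮α + c' * β⟯ from e] at h2
  have h3 : ((c - c' : ℤ) : L) ≠ 0 := Int.cast_ne_zero.2 (sub_ne_zero.2 hne)
  have h4 : β ∈ F⟮α + c * β⟯ := by
    convert div_mem (sub_mem h1 h2) (intCast_mem _ (c - c')) using 1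
    rw [eq_div_iff h3]
    push_cast
    ring
  exact ⟨c, by simpa using sub_mem h1 (mul_mem (intCast_mem _ c) h4), h4⟩

/-- The case of a finite extension. -/
lemma fin {F L ι : Type} [Field F] [CharZero F] [Field L] [Algebra F L] [FiniteDimensional F L]
    [Fintype ι] (u : ι → L) : ∃ n : ι → ℤ, ∀ i, u i ∈ F⟮fm u n⟯ := by
  classical
  have : ∀ s : Finset ι, ∃ n : ι → ℤ, ∀ i ∈ s, u i ∈ F⟮fm u n⟯ := fun s => by
    induction s using Finset.induction_on with
    | empty => exact ⟨0, by simp⟩
    | insert j s _ ih =>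
      obtain ⟨n, hn⟩ := ih
      obtain ⟨c, h1, h2⟩ := two (F := F) (fm u n) (u j)
      have e : fm u (n + Pi.single j c) = fm u n + c * u j := by
        simp [fm, add_mul, sum_add_distrib, Pi.single_apply, ite_mul]
      refine ⟨n + Pi.single j c, fun i hi => ?_⟩
      rw [e]
      rcases mem_insert.1 hi with rfl | hi
      · exact h2
      · exact adjoin_simple_le_iff.2 h1 (hn i hi)
  exact (this univ).imp fun n hn i => hn i (mem_univ i)

/-- The generators generate. -/
lemma gen_top {k L ι : Type} [Field k] [Field L] [Algebra k L] (u : ι → L) :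
    adjoin k (Set.range fun i => (⟨u i, subset_adjoin _ _ ⟨i, rfl⟩⟩ : adjoin k (Set.range u))) =
      ⊤ := by
  apply lift_injective
  rw [lift_adjoin, lift_top, ← Set.range_comp]
  rfl

/-- The restriction of a derivation to a stable subfield. -/
def res {k L : Type} [Field k] [Field L] [Algebra k L] (E : Derivation k L L)
    (K : IntermediateField k L) (h : ∀ x ∈ K, E x ∈ K) : Derivation k K K where
  toFun x := ⟨E x, h x x.2⟩
  map_add' x y := Subtype.ext (map_add E x.1 y.1)
  map_smul' c x := Subtype.ext (E.map_smul c x.1)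
  map_one_eq_zero' := Subtype.ext E.map_one_eq_zero
  leibniz' x y := Subtype.ext (E.leibniz x.1 y.1)

end ConeAux

open ConeAux

theorem pe : PeStmt := by
  intro F L ι _ _ _ _ _ u hu
  have : FiniteDimensional F (adjoin F (Set.range u)) :=
    finiteDimensional_adjoin (by rintro _ ⟨i, rfl⟩; exact (hu i).isIntegral)
  obtain ⟨n, hn⟩ := fin (F := F)
    fun i => (⟨u i, subset_adjoin _ _ ⟨i, rfl⟩⟩ : adjoin F (Set.range u))
  refine ⟨n, fun i => ?_⟩
  have h := (mem_lift _).2 (hn i)
  rw [lift_adjoin_simple] at h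
  simpa [fm] using h

theorem cone (hN : NnStmt) (hP : PeStmt) : ConeStmt := by
  intro k L ι _ _ _ _ _ u E hE hc
  have hs : ∀ x ∈ adjoin k (Set.range u), E x ∈ adjoin k (Set.range u) := fun x hx => by
    induction hx using adjoin_induction with
    | mem x hx =>
      obtain ⟨i, rfl⟩ := hx
      rw [hE]
      exact subset_adjoin _ _ ⟨i, rfl⟩
    | algebraMap c => simp
    | add x y _ _ hx hy => rw [map_add]; exact add_mem hx hy
    | inv x h hx =>
      rw [E.leibniz_inv]
      exact mul_mem (neg_mem (pow_mem (inv_mem h) 2)) hx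
    | mul x y h h' hx hy =>
      rw [E.leibniz]
      exact add_mem (mul_mem h hy) (mul_mem h' hx)
  obtain ⟨u₀, hu₀⟩ : ∃ u₀ : ι → adjoin k (Set.range u),
    u₀ = fun i => ⟨u i, subset_adjoin _ _ ⟨i, rfl⟩⟩ := ⟨_, rfl⟩
  obtain ⟨r, N, h1, h2⟩ := hN k _ ι u₀
  have : CharZero (adjoin k (Set.range fun a => fm u₀ (N a))) :=
    charZero_of_injective_algebraMap (algebraMap k _).injective
  obtain ⟨n, hn⟩ := hP (adjoin k (Set.range fun a => fm u₀ (N a))) _ ι u₀ fun i =>
    (IsIntegral.map_of_comp_eq (T := adjoin k (Set.range fun a => fm u₀ (N a)))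
      (Subalgebra.inclusion (algebra_adjoin_le_adjoin k _)).toRingHom (RingHom.id _) rfl
      (h2 i)).isAlgebraic
  refine ⟨_, u₀, r, fun a => fm u₀ (N a), fm u₀ n, res E _ hs, fun i => by rw [hu₀],
    fun a => ⟨_, rfl⟩, ⟨_, rfl⟩, h1, h2, ?_, fun i => Subtype.ext (by rw [hu₀]; exact hE i),
    fun x hx => ?_⟩
  · rw [eq_top_iff, ← gen_top u, ← hu₀, adjoin_le_iff, Set.insert_eq, Set.union_comm,
      ← adjoin_adjoin_left]
    rintro _ ⟨i, rfl⟩
    exact hn i
  · obtain ⟨c, e⟩ := hc x (hx.algHom (adjoin k (Set.range u)).val)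
    exact ⟨c, Subtype.ext e⟩

end Pool.Agent.MP_4060c9_nt.H98
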