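import Pool.Agent.MP_4060c9_nt.H98.BV

/-!
The determinant method on the classes of a partition.
-/

set_option autoImplicit false

namespace Pool.Agent.MP_4060c9_nt.H98

open Filter

variable {Ω Γ β β' : Type} {U : Ultrafilter Ω} {cl : Ω → Γ} {r : ℕ} {M : Finset (Ix r)}

lemma BV.prod {f : Ω → β} {g : Ω → β'} (hf : BV U cl f) (hg : BV U cl g) :
    BV U cl fun ω => (f ω, g ω) := by
  obtain ⟨D, F, h1, h2⟩ := hf
  obtain ⟨D', F', h3, h4⟩ := hg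
  exact ⟨D * D', fun γ => F γ ×ˢ F' γ, fun γ => (Finset.card_product _ _).trans_le
    (Nat.mul_le_mul (h1 γ) (h3 γ)), (h2.and h4).mono fun ω h => Finset.mem_product.2 h⟩

lemma cls_choice [Nonempty β] (cl : Ω → Γ) {R : Ω → β → Prop} {G : Ω → Prop}
    (h : ∀ ω, G ω → ∃ d, ∀ ω', G ω' → cl ω' = cl ω → R ω' d) :
    ∃ φ : Γ → β, ∀ ω, G ω → R ω (φ (cl ω)) := by
  have : ∀ γ, ∃ d, ∀ ω, G ω → cl ω = γ → R ω d := fun γ => by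
    by_cases h0 : ∃ ω, G ω ∧ cl ω = γ
    · obtain ⟨ω, h1, rfl⟩ := h0
      exact h ω h1
    · exact ⟨Classical.arbitrary _, fun ω h1 h2 => (h0 ⟨ω, h1, h2⟩).elim⟩
  choose φ hφ using this
  exact ⟨φ, fun ω h => hφ _ ω h rfl⟩

variable (U) in
/-- The germ of an integral function. -/
noncomputable abbrev gz (z : Ω → ℤ) : GK U := gk U fun ω => z ω

variable {t : Ω → Fin r → ℤ} {z : Ω → ℤ} {H : Ω → ℝ}

/-- A relation with small integral coefficients. -/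
lemma ex_W (hH : Tendsto H U atTop)
    (hb : ∀ᶠ ω in U, (∀ i, (|t ω i| : ℝ) ≤ H ω) ∧ (|z ω| : ℝ) ≤ H ω) {c : Ix r → GK U} {m₀ : Ix r}
    (h0 : m₀ ∈ M) (h1 : c m₀ = 1) (h2 : Gv M c (fun i => gz U (t · i)) (gz U z) = 0) :
    ∃ (W : Ω → Ix r → ℤ) (A : ℕ), (∀ (Γ : Type) (cl : Ω → Γ), BV U cl H →
      (∀ m ∈ M, c m ∈ LL U cl) → BV U cl W) ∧ ∀ᶠ ω in U, (∃ m ∈ M, W ω m ≠ 0) ∧
        (∀ m ∈ M, (|W ω m| : ℝ) ≤ H ω ^ A) ∧ Gv M (W ω) (t ω) (z ω) = 0 := by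
  classical
  choose f hf using fun m => gk_surj (c m)
  obtain rfl : c = fun m => gk U fun ω => f m ω := funext fun m => (hf m).symm
  set D := M.sup fun m => ∑ a, m.1 a + m.2
  let G : Ω → Prop := fun ω => ((∀ i, (|t ω i| : ℝ) ≤ H ω) ∧ (|z ω| : ℝ) ≤ H ω) ∧ 1 ≤ H ω ∧
    M.card ≤ H ω ∧ f m₀ ω = 1 ∧ Gv M (f · ω) (fun i => t ω i) (z ω) = 0
  obtain ⟨φ, hφ⟩ := cls_choice (fun ω => (H ω, fun m : M => f m ω)) (G := G)
    (R := fun ω (w : Ix r → ℤ) => (∃ m ∈ M, w m ≠ 0) ∧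
      (∀ m ∈ M, (|w m| : ℝ) ≤ H ω ^ ((D + 1) * M.card)) ∧ Gv M w (t ω) (z ω) = 0) (by
    rintro ω ⟨-, h3, h4, h5, -⟩
    obtain ⟨w, h6, h7, h8⟩ := small _ M {v | ∃ ω', G ω' ∧ H ω' = H ω ∧
        (∀ m ∈ M, f m ω' = f m ω) ∧ v = mon (t ω') (z ω')} (H ω ^ D) (one_le_pow₀ h3) (by
        rintro _ ⟨ω', h6, h7, -, rfl⟩ m hm
        have := Det.mon_le h6.1.1 h6.1.2 m
        push_cast at this
        exact this.trans (h7 ▸ pow_le_pow_right₀ h6.2.1 (Finset.le_sup (f := fun m : Ix r =>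
          ∑ a, m.1 a + m.2) hm))) ⟨(f · ω), ⟨m₀, h0, by simp [h5]⟩, by
        rintro _ ⟨ω', h6, -, h7, rfl⟩
        rw [← h6.2.2.2.2, Gv]
        exact Finset.sum_congr rfl fun m hm => by
          rw [h7 m hm]
          exact congrArg _ (map_mon (Int.castRingHom ℚ) _ _ _)⟩
    refine ⟨w, fun ω' h9 h10 => ?_⟩
    rw [Prod.mk.injEq] at h10
    refine ⟨h6, fun m hm => (h7 m hm).trans ?_,
      h8 _ ⟨ω', h9, h10.1, fun m hm => congrFun h10.2 ⟨m, hm⟩, rfl⟩⟩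
    have h11 : 0 ≤ H ω ^ D := pow_nonneg (zero_le_one.trans h3) _
    rw [h10.1, pow_mul, pow_succ']
    exact pow_le_pow_left₀ (mul_nonneg (Nat.cast_nonneg _) h11)
      (mul_le_mul_of_nonneg_right h4 h11) _)
  refine ⟨_, _, fun Γ cl h3 h4 => (h3.prod (BV.pi (f := fun ω (m : M) => f m ω) fun m =>
    mem_LL.1 (h4 m m.2))).comp fun _ => φ, Eventually.mono ?_ hφ⟩
  rw [← gk_Gv (fun ω m => f m ω)] at h2
  filter_upwards [hb, hH.eventually_ge_atTop 1, hH.eventually_ge_atTop M.card,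
    gk_eq.1 (h1.trans (map_one _).symm), gk_eq_zero.1 h2] with ω h3 h4 h5 h6 h7
  exact ⟨h3, h4, h5, h6, h7⟩

/-- The points of a class lie on an auxiliary hypersurface. -/
lemma not_LI {e : ℕ} {a : ℝ} (hr : 0 < r) (ha : 0 < a) (he : 1 < a ^ r * e)
    (hH : Tendsto H U atTop) (hb : ∀ᶠ ω in U, (∀ i, (|t ω i| : ℝ) ≤ H ω) ∧ (|z ω| : ℝ) ≤ H ω)
    {W : Ω → Ix r → ℤ} (hW : BV U cl W) {q : Ω → ℕ} (hq : ∀ᶠ ω in U, H ω ^ a ≤ q ω ∧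
      IsCoprime (Gd M (W ω) (t ω) (z ω)) (q ω) ∧ Gv M (W ω) (t ω) (z ω) = 0)
    (hc : ∀ ω ω', cl ω' = cl ω → H ω' = H ω ∧ (∀ i, t ω' i ≡ t ω i [ZMOD q ω]) ∧
      z ω' ≡ z ω [ZMOD q ω]) : ¬ LI (LL U cl) (fun i => gz U (t · i)) (gz U z) e := fun h => by
  obtain ⟨B, H₀, hB, h1⟩ := det div r e a hr ha he
  obtain ⟨φ, hφ⟩ := cls_choice (fun ω => (cl ω, W ω)) (G := fun ω =>
      ((∀ i, (|t ω i| : ℝ) ≤ H ω) ∧ (|z ω| : ℝ) ≤ H ω) ∧ H₀ ≤ H ω ∧ H ω ^ a ≤ q ω ∧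
      IsCoprime (Gd M (W ω) (t ω) (z ω)) (q ω) ∧ Gv M (W ω) (t ω) (z ω) = 0)
    (R := fun ω (d : Ix r → ℚ) => (∃ m ∈ B, d m ≠ 0) ∧ Gv B d (fun i => t ω i) (z ω) = 0) (by
    rintro ω ⟨-, h2, h3, h4, -⟩
    obtain ⟨d, h5, h6⟩ := h1 _ _ M _ _ _ h2 h3 h4
    refine ⟨d, fun ω' h7 h8 => ?_⟩
    rw [Prod.mk.injEq] at h8
    obtain ⟨h9, h10, h11⟩ := hc ω ω' h8.1
    exact ⟨h5, h6 _ _ (h9 ▸ h7.1.1) (h9 ▸ h7.1.2) h10 h11 (h8.2 ▸ h7.2.2.2.2)⟩)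
  have h2 := (hb.and ((hH.eventually_ge_atTop H₀).and hq)).mono hφ
  obtain ⟨m, h3, h4⟩ := gk_ex_ne (h2.mono fun _ h => h.1)
  refine h4 (h.gv' hB (c := fun m => gk U fun ω => φ (cl ω, W ω) m)
    (fun m => mem_LL.2 (hW.comp fun γ w => φ (γ, w) m)) ?_ m h3)
  rw [← gk_Gv]
  exact gk_eq_zero.2 (h2.mono fun _ h => h.2)

/-- Few primes divide a small number. -/
lemma bad_fin {p : ℕ → ℕ → ℕ} {n : Ω → ℕ} {g : Ω → ℤ} {A : ℕ}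
    (hp : ∀ n, 0 < n → ∀ (Q : Finset ℕ) (g : ℤ), g ≠ 0 → (∀ a ∈ Q, (p n a : ℤ) ∣ g) →
      (n : ℤ) ^ Q.card ≤ |g|) (h : ∀ᶠ ω in U, 0 < n ω ∧ g ω ≠ 0 ∧ |g ω| < (n ω : ℤ) ^ A) :
    ∃ B : Finset ℕ, ∀ a ∉ B, ∀ᶠ ω in U, ¬ (p (n ω) a : ℤ) ∣ g ω := by
  have : {a | ∀ᶠ ω in U, (p (n ω) a : ℤ) ∣ g ω}.Finite := by
    by_contra h0
    obtain ⟨Q, h1, rfl⟩ := Set.Infinite.exists_subset_card_eq h0 A
    obtain ⟨ω, ⟨h2, h3, h4⟩, h5⟩ := (h.and ((eventually_all_finset Q).2 fun a ha => h1 ha)).exists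
    exact (hp _ h2 Q _ h3 h5).not_gt h4
  exact ⟨this.toFinset, fun a ha => Ultrafilter.eventually_not.2 (by simpa using ha)⟩

section

variable {K σ : Type} [Field K] {y : σ → K} {L L' : Subfield K} {T : Fin r → K} {Z : K} {e d : ℕ}
  {m₀ : Ix r} {c : Ix r → K}

/-- The property which is kept along the walk. -/
def Kept (T : Fin r → K) (Z : K) (e : ℕ) (M : Finset (Ix r)) (m₀ : Ix r) (c : Ix r → K)
    (L : Subfield K) : Prop :=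
  LI L T Z e ∧ Ind L T Z (M.erase m₀) ∧ ∀ m ∈ M, c m ∈ L

lemma kept_iff [CharZero K] (ld : LdStmt) (hL : L ≤ L') (hc : ∀ c : K, IsAlgebraic L c → c ∈ L)
    (h1 : Tr L y d) (h2 : Tr L' y d) (hT : ∀ i, T i ∈ Subring.closure (Set.range y))
    (hZ : Z ∈ Subring.closure (Set.range y)) (h3 : m₀ ∈ M) (h4 : c m₀ = 1) (h5 : Gv M c T Z = 0) :
    Kept T Z e M m₀ c L ↔ Kept T Z e M m₀ c L' := by
  have h6 : ∀ m, mon T Z m ∈ Subring.closure (Set.range y) := fun m =>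
    mul_mem (prod_mem fun i _ => pow_mem (hT i) _) (pow_mem hZ _)
  exact ⟨fun h => ⟨ld _ _ _ y L L' d _ hL hc h1 h2 (fun _ => h6 _) h.1,
    ld _ _ _ y L L' d _ hL hc h1 h2 (fun _ => h6 _) h.2.1, fun m hm => hL (h.2.2 m hm)⟩,
    fun h => ⟨li_down hL h.1, li_down hL h.2.1, circuit_down hL
      (ld _ _ _ y L L' d _ hL hc h1 h2 fun _ => h6 _) h3 h4 h.2.2 h5 h.2.1⟩⟩

lemma ex_deg (he : 0 < e) (h : LI L T Z e) (h' : ∃ e, ¬ LI L T Z e) :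
    ∃ D, 0 < D ∧ LI L T Z D ∧ ¬ LI L T Z (D + 1) := by
  by_contra hn
  push Not at hn
  obtain ⟨e', he'⟩ := h'
  have : ∀ n, LI L T Z (e + n) := fun n => by
    induction n with
    | zero => exact h
    | succ n ih => exact hn (e + n) (by omega) ih
  obtain ⟨M, c, h1, ⟨m, h2, h3⟩, h4⟩ := of_not_LI he'
  exact h3 ((this e').gv (fun m hm => (h1 m hm).trans_le (Nat.le_add_left _ _)) h4 m h2)

end

end Pool.Agent.MP_4060c9_nt.H98
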