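import Pool.Agent.MP_4060c9_nt.H98.Spec4
import Pool.Agent.MP_4060c9_nt.H98.Core
import Pool.Agent.MP_4060c9_nt.H98.Ld

/-!
The projective determinant method on the classes of a partition.
-/

set_option autoImplicit false

namespace Pool.Agent.MP_4060c9_nt.H98

open Filter

section Hom

variable {R R' : Type*} [CommRing R] [CommRing R'] {K : Type*} [Field K] {r D : ℕ}
  {M : Finset (Ix r)}

lemma map_Gh (φ : R →+* R') (c : Ix r → R) (x : R) (t : Fin r → R) (z : R) :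
    φ (Gh M c D x t z) = Gh M (fun m => φ (c m)) D (φ x) (fun a => φ (t a)) (φ z) := by
  simp [Gh, mon]

lemma map_Gdh (φ : R →+* R') (c : Ix r → R) (x : R) (t : Fin r → R) (z : R) :
    φ (Gdh M c D x t z) = Gdh M (fun m => φ (c m)) D (φ x) (fun a => φ (t a)) (φ z) := by
  simp [Gdh, dmon]

lemma hmon_eq {x : K} (hx : x ≠ 0) (t : Fin r → K) (z : K) {m : Ix r} (h : dg m ≤ D) :
    x ^ (D - dg m) * mon t z m = x ^ D * mon (fun a => t a / x) (z / x) m := by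
  obtain ⟨n, rfl⟩ := Nat.exists_eq_add_of_le h
  simp only [Nat.add_sub_cancel_left, mon, div_pow, Finset.prod_div_distrib,
    Finset.prod_pow_eq_pow_sum, dg, pow_add]
  field_simp

lemma Gh_eq {x : K} (hx : x ≠ 0) (c : Ix r → K) (t : Fin r → K) (z : K) (h : ∀ m ∈ M, dg m ≤ D) :
    Gh M c D x t z = x ^ D * Gv M c (fun a => t a / x) (z / x) := by
  rw [Gh, Gv, Finset.mul_sum]
  exact Finset.sum_congr rfl fun m hm => by rw [hmon_eq hx t z (h m hm), mul_left_comm]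

lemma Gdh_eq {x : K} (hx : x ≠ 0) (c : Ix r → K) (t : Fin r → K) (z : K) (h : ∀ m ∈ M, dg m ≤ D) :
    x * Gdh M c D x t z = x ^ D * Gd M c (fun a => t a / x) (z / x) := by
  rw [Gdh, Gd, Finset.mul_sum, Finset.mul_sum]
  refine Finset.sum_congr rfl fun ⟨α, b⟩ hm => ?_
  obtain ⟨n, rfl⟩ := Nat.exists_eq_add_of_le (h _ hm)
  rcases b with _ | b
  · simp [dmon]
  · simp only [Nat.add_sub_cancel_left, dmon, div_pow, Finset.prod_div_distrib,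
      Finset.prod_pow_eq_pow_sum, dg, pow_add, Nat.add_sub_cancel]
    field_simp

lemma hmon_le {x z : ℤ} {t : Fin r → ℤ} {H : ℝ} (hx : (|x| : ℝ) ≤ H) (ht : ∀ i, (|t i| : ℝ) ≤ H)
    (hz : (|z| : ℝ) ≤ H) {m : Ix r} (h : dg m ≤ D) :
    ((|x ^ (D - dg m) * mon t z m| : ℤ) : ℝ) ≤ H ^ D := by
  have h1 := Det.mon_le ht hz m
  push_cast at h1 ⊢
  rw [abs_mul, abs_pow, ← Nat.sub_add_cancel h, pow_add, Nat.add_sub_cancel]
  exact mul_le_mul (pow_le_pow_left₀ (abs_nonneg _) hx _) h1 (abs_nonneg _)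
    (pow_nonneg ((abs_nonneg _).trans hx) _)

lemma Gdh_le {x z : ℤ} {t : Fin r → ℤ} {c : Ix r → ℤ} {H C : ℝ} (h1 : 1 ≤ H) (hx : (|x| : ℝ) ≤ H)
    (ht : ∀ i, (|t i| : ℝ) ≤ H) (hz : (|z| : ℝ) ≤ H) (h : ∀ m ∈ M, dg m ≤ D)
    (hc : ∀ m ∈ M, (|c m| : ℝ) ≤ C) :
    |((Gdh M c D x t z : ℤ) : ℝ)| ≤ (∑ m ∈ M, m.2 : ℕ) * (C * H ^ (2 * D)) := by
  rw [Gdh]
  push_cast
  rw [Finset.sum_mul]
  refine (Finset.abs_sum_le_sum_abs _ _).trans (Finset.sum_le_sum fun m hm => ?_)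
  have h2 := Det.mon_le ht hz (m.1, m.2 - 1)
  have h3 : 0 ≤ C := (abs_nonneg _).trans (hc m hm)
  have h4 := h m hm
  have h5 : H ^ (D - dg m) * H ^ (∑ i, m.1 i + (m.2 - 1)) ≤ H ^ (2 * D) := by
    rw [← pow_add]
    exact pow_le_pow_right₀ h1 (by unfold dg at h4 ⊢; omega)
  simp only [mon, dmon] at h2 ⊢
  push_cast at h2 ⊢
  rw [abs_mul, abs_mul, abs_mul, abs_pow, Nat.abs_cast]
  calc _ ≤ C * (H ^ (D - dg m) * (m.2 * H ^ (∑ i, m.1 i + (m.2 - 1)))) := by gcongr; exact hc m hm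
    _ = m.2 * (C * (H ^ (D - dg m) * H ^ (∑ i, m.1 i + (m.2 - 1)))) := by ring
    _ ≤ _ := by gcongr

end Hom

section Fld

variable {K σ : Type} [Field K] {y : σ → K} {L L' : Subfield K} {d r e : ℕ}

lemma Tr.alg (h : Tr L y d) {t : Fin d → σ} (ht : AlgebraicIndependent L fun a => y (t a)) {u : K}
    (hu : u ∈ Subfield.closure (Set.range y)) :
    IsAlgebraic (Algebra.adjoin L (Set.range fun a => y (t a))) u := by
  have h1 : ∀ u ∈ Subring.closure (Set.range y),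
      IsAlgebraic (Algebra.adjoin L (Set.range fun a => y (t a))) u := fun u hu => by
    by_contra hn
    refine h.2 _ (fun a => ?_) (((ht.option_iff_transcendental u).2 hn).comp _
      (finSuccEquiv d).injective)
    rcases e : finSuccEquiv d a with _ | b
    · simpa [e] using hu
    · simpa [e] using Subring.subset_closure (Set.mem_range_self (t b))
  obtain ⟨a, ha, b, hb, rfl⟩ := Subfield.mem_closure_iff.1 hu
  rw [div_eq_mul_inv]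
  exact (h1 a ha).mul (h1 b hb).inv

open AlgebraicIndependent in
lemma Tr.dep (h : Tr L y d) {v : Fin (d + 1) → K} (hv : ∀ a, v a ∈ Subfield.closure (Set.range y)) :
    ¬ AlgebraicIndependent L v := fun hi => by
  obtain ⟨t, ht⟩ := h.1
  have h1 : (matroid L K).Indep (Set.range v) := hi.to_subtype_range
  have h2 : Set.range v ⊆ (matroid L K).closure (Set.range fun a => y (t a)) := by
    rintro _ ⟨a, rfl⟩
    rw [matroid_closure_eq]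
    exact h.alg ht (hv a)
  have h4 := h1.encard_le_eRk_of_subset h2
  rw [Matroid.eRk_closure_eq] at h4
  have h5 := h4.trans ((matroid L K).eRk_le_encard _)
  rw [← (Set.finite_range v).cast_ncard_eq, ← (Set.finite_range _).cast_ncard_eq,
    Set.ncard_range_of_injective hi.injective, Set.ncard_range_of_injective ht.injective,
    Nat.cast_le] at h5
  simp at h5

lemma ld2 [CharZero K] {ι : Type} {u : ι → K} (h : L ≤ L') (hL : ∀ c : K, IsAlgebraic L c → c ∈ L)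
    (h1 : Tr L y d) (h2 : Tr L' y d) (hu : ∀ i, u i ∈ Subfield.closure (Set.range y))
    (hi : LinearIndependent L u) : LinearIndependent L' u := by
  let _ : Algebra L L' := (Subfield.inclusion h).toAlgebra
  have _ : IsScalarTower L L' K := .of_algebraMap_eq fun _ => rfl
  obtain ⟨t, ht⟩ := h2.1
  exact Ld.ld_gen u (fun a => y (t a)) (fun c hc => ⟨⟨c, hL c hc.algebraMap⟩, rfl⟩) ht
    (fun i => h1.alg (Ld.down h ht) (hu i)) hi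

variable {T : Fin r → K} {Z : K} {M : Finset (Ix r)} {m₀ : Ix r} {c : Ix r → K}

lemma kept_iff2 [CharZero K] (hL : L ≤ L') (hc : ∀ c : K, IsAlgebraic L c → c ∈ L)
    (h1 : Tr L y d) (h2 : Tr L' y d) (hT : ∀ i, T i ∈ Subfield.closure (Set.range y))
    (hZ : Z ∈ Subfield.closure (Set.range y)) (h3 : m₀ ∈ M) (h4 : c m₀ = 1) (h5 : Gv M c T Z = 0) :
    Kept T Z e M m₀ c L ↔ Kept T Z e M m₀ c L' := by
  have h6 : ∀ m, mon T Z m ∈ Subfield.closure (Set.range y) := fun m =>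
    mul_mem (prod_mem fun i _ => pow_mem (hT i) _) (pow_mem hZ _)
  exact ⟨fun h => ⟨ld2 hL hc h1 h2 (fun _ => h6 _) h.1, ld2 hL hc h1 h2 (fun _ => h6 _) h.2.1,
    fun m hm => hL (h.2.2 m hm)⟩, fun h => ⟨li_down hL h.1, li_down hL h.2.1, circuit_down hL
      (ld2 hL hc h1 h2 fun _ => h6 _) h3 h4 h.2.2 h5 h.2.1⟩⟩

lemma Tr.not_LI (h : Tr L y r) (hT : ∀ i, T i ∈ Subfield.closure (Set.range y))
    (hZ : Z ∈ Subfield.closure (Set.range y)) : ∃ e, ¬ LI L T Z e := by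
  have := h.dep (v := Fin.cons Z T) (Fin.cases hZ hT)
  rw [algebraicIndependent_iff] at this
  push Not at this
  obtain ⟨g, h1, h2⟩ := this
  exact ex_not_LI h2 h1

end Fld

variable {Ω Γ : Type} {U : Ultrafilter Ω} {cl : Ω → Γ} {r : ℕ} {M : Finset (Ix r)}

variable (U) in
/-- The germ of a quotient of integral functions. -/
noncomputable abbrev gq (z x : Ω → ℤ) : GK U := gk U fun ω => z ω / x ω

variable {x z : Ω → ℤ} {t : Ω → Fin r → ℤ} {H : Ω → ℝ}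

/-- The size conditions. -/
def Sz (x : ℤ) (t : Fin r → ℤ) (z : ℤ) (H : ℝ) : Prop :=
  x ≠ 0 ∧ (|x| : ℝ) ≤ H ∧ (∀ i, (|t i| : ℝ) ≤ H) ∧ (|z| : ℝ) ≤ H

lemma Gh_cast {x z : ℤ} {t : Fin r → ℤ} {w : Ix r → ℤ} {D : ℕ} (hx : x ≠ 0)
    (h : ∀ m ∈ M, dg m ≤ D) : Gh M w D x t z = 0 ↔
      Gv M (fun m => (w m : ℚ)) (fun a => (t a : ℚ) / x) ((z : ℚ) / x) = 0 := by
  have h1 : (x : ℚ) ≠ 0 := Int.cast_ne_zero.2 hx
  have := map_Gh (M := M) (D := D) (Int.castRingHom ℚ) w x t z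
  simp only [eq_intCast] at this
  rw [← Int.cast_eq_zero (α := ℚ), this, Gh_eq h1 _ _ _ h, mul_eq_zero_iff_left (pow_ne_zero _ h1)]

/-- A relation with small integral coefficients. -/
lemma ex_W2 (hH : Tendsto H U atTop) (hb : ∀ᶠ ω in U, Sz (x ω) (t ω) (z ω) (H ω))
    {c : Ix r → GK U} {m₀ : Ix r} {D : ℕ} (hD : ∀ m ∈ M, dg m ≤ D) (h0 : m₀ ∈ M) (h1 : c m₀ = 1)
    (h2 : Gv M c (fun i => gq U (t · i) x) (gq U z x) = 0) :
    ∃ (W : Ω → Ix r → ℤ) (A : ℕ), (∀ (Γ : Type) (cl : Ω → Γ), BV U cl H →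
      (∀ m ∈ M, c m ∈ LL U cl) → BV U cl W) ∧ ∀ᶠ ω in U, (∃ m ∈ M, W ω m ≠ 0) ∧
        (∀ m ∈ M, (|W ω m| : ℝ) ≤ H ω ^ A) ∧ Gh M (W ω) D (x ω) (t ω) (z ω) = 0 := by
  classical
  choose f hf using fun m => gk_surj (c m)
  obtain rfl : c = fun m => gk U fun ω => f m ω := funext fun m => (hf m).symm
  let G : Ω → Prop := fun ω => Sz (x ω) (t ω) (z ω) (H ω) ∧ 1 ≤ H ω ∧
    M.card ≤ H ω ∧ f m₀ ω = 1 ∧ Gv M (f · ω) (fun i => t ω i / x ω) (z ω / x ω) = 0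
  obtain ⟨φ, hφ⟩ := cls_choice (fun ω => (H ω, fun m : M => f m ω)) (G := G)
    (R := fun ω (w : Ix r → ℤ) => (∃ m ∈ M, w m ≠ 0) ∧
      (∀ m ∈ M, (|w m| : ℝ) ≤ H ω ^ ((D + 1) * M.card)) ∧ Gh M w D (x ω) (t ω) (z ω) = 0) (by
    rintro ω ⟨-, h3, h4, h5, -⟩
    obtain ⟨w, h6, h7, h8⟩ := small _ M {v | ∃ ω', G ω' ∧ H ω' = H ω ∧
        (∀ m ∈ M, f m ω' = f m ω) ∧ v = fun m => x ω' ^ (D - dg m) * mon (t ω') (z ω') m}
        (H ω ^ D) (one_le_pow₀ h3) (by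
        rintro _ ⟨ω', h6, h7, -, rfl⟩ m hm
        have := hmon_le h6.1.2.1 h6.1.2.2.1 h6.1.2.2.2 (hD m hm)
        rw [h7] at this
        exact_mod_cast this) ⟨(f · ω), ⟨m₀, h0, by simp [h5]⟩, by
        rintro _ ⟨ω', h6, -, h7, rfl⟩
        have h9 : (x ω' : ℚ) ≠ 0 := Int.cast_ne_zero.2 h6.1.1
        rw [← mul_zero ((x ω' : ℚ) ^ D), ← h6.2.2.2.2, ← Gh_eq h9 _ _ _ hD, Gh]
        exact Finset.sum_congr rfl fun m hm => by
          rw [h7 m hm]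
          simp [mon]⟩
    refine ⟨w, fun ω' h9 h10 => ?_⟩
    rw [Prod.mk.injEq] at h10
    refine ⟨h6, fun m hm => (h7 m hm).trans ?_,
      h8 _ ⟨ω', h9, h10.1, fun m hm => congrFun h10.2 ⟨m, hm⟩, rfl⟩⟩
    have h11 : 0 ≤ H ω ^ D := pow_nonneg (zero_le_one.trans h3) _
    rw [h10.1, pow_mul, pow_succ']
    exact pow_le_pow_left₀ (mul_nonneg (Nat.cast_nonneg _) h11)
      (mul_le_mul_of_nonneg_right h4 h11) _)
  refine ⟨_, _, fun Γ cl h3 h4 => (h3.prod (BV.pi (f := fun ω (m : M) => f m ω) fun m =>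
    mem_LL.1 (h4 m m.2))).comp fun _ => φ, Eventually.mono ?_ hφ⟩
  rw [← gk_Gv (fun ω m => f m ω)] at h2
  filter_upwards [hb, hH.eventually_ge_atTop 1, hH.eventually_ge_atTop M.card,
    gk_eq.1 (h1.trans (map_one _).symm), gk_eq_zero.1 h2] with ω h3 h4 h5 h6 h7
  exact ⟨h3, h4, h5, h6, h7⟩

/-- The points of a class lie on an auxiliary hypersurface. -/
lemma not_LI2 (hd : Det2Stmt) {e D : ℕ} {a : ℝ} (hr : 0 < r) (ha : 0 < a)
    (he : 1 < (a * r / (r + 1)) ^ r * e) (hH : Tendsto H U atTop)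
    (hb : ∀ᶠ ω in U, Sz (x ω) (t ω) (z ω) (H ω)) (hD : ∀ m ∈ M, dg m ≤ D)
    {W : Ω → Ix r → ℤ} (hW : BV U cl W) {q : Ω → ℕ} {G : Ω → Prop}
    (hq : ∀ᶠ ω in U, G ω ∧ H ω ^ a ≤ q ω ∧ IsCoprime (x ω) (q ω) ∧
      IsCoprime (Gdh M (W ω) D (x ω) (t ω) (z ω)) (q ω) ∧ Gh M (W ω) D (x ω) (t ω) (z ω) = 0)
    (hc : ∀ ω ω', G ω → G ω' → cl ω' = cl ω → H ω' = H ω ∧ q ω' = q ω ∧
      (∀ i, t ω' i * x ω ≡ t ω i * x ω' [ZMOD q ω]) ∧ z ω' * x ω ≡ z ω * x ω' [ZMOD q ω]) :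
    ¬ LI (LL U cl) (fun i => gq U (t · i) x) (gq U z x) e := fun h => by
  obtain ⟨B, H₀, hB, h1⟩ := hd r e a hr ha he
  obtain ⟨φ, hφ⟩ := cls_choice (fun ω => (cl ω, W ω)) (G := fun ω =>
      Sz (x ω) (t ω) (z ω) (H ω) ∧ H₀ ≤ H ω ∧ G ω ∧ H ω ^ a ≤ q ω ∧ IsCoprime (x ω) (q ω) ∧
      IsCoprime (Gdh M (W ω) D (x ω) (t ω) (z ω)) (q ω) ∧ Gh M (W ω) D (x ω) (t ω) (z ω) = 0)
    (R := fun ω (d : Ix r → ℚ) => (∃ m ∈ B, d m ≠ 0) ∧
      Gv B d (fun i => t ω i / x ω) (z ω / x ω) = 0) (by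
    rintro ω ⟨-, h2, k, h3, h4, h4', -⟩
    obtain ⟨d, h5, h6⟩ := h1 _ _ D M _ _ _ _ h2 h3 hD h4 h4'
    refine ⟨d, fun ω' h7 h8 => ?_⟩
    rw [Prod.mk.injEq] at h8
    obtain ⟨h9, h9', h10, h11⟩ := hc ω ω' k h7.2.2.1 h8.1
    exact ⟨h5, h6 _ _ _ (h9 ▸ h7.1.2.1) (h9 ▸ h7.1.2.2.1) (h9 ▸ h7.1.2.2.2) h7.1.1
      (h9' ▸ h7.2.2.2.2.1) h10 h11 (h8.2 ▸ h7.2.2.2.2.2.2)⟩)
  have h2 := (hb.and ((hH.eventually_ge_atTop H₀).and hq)).mono hφ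
  obtain ⟨m, h3, h4⟩ := gk_ex_ne (h2.mono fun _ h => h.1)
  refine h4 (h.gv' hB (c := fun m => gk U fun ω => φ (cl ω, W ω) m)
    (fun m => mem_LL.2 (hW.comp fun γ w => φ (γ, w) m)) ?_ m h3)
  rw [← gk_Gv]
  exact gk_eq_zero.2 (h2.mono fun _ h => h.2)

/-- The equation of the hypersurface and its bad primes. -/
lemma ex_rel2 {e s : ℕ} {p : ℕ → ℕ → ℕ} {n : Ω → ℕ} (he : 0 < e) (hH : Tendsto H U atTop)
    (hb : ∀ᶠ ω in U, Sz (x ω) (t ω) (z ω) (H ω)) (hHb : BV U cl H)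
    (hL : LI (LL U cl) (fun i => gq U (t · i) x) (gq U z x) e)
    (hL' : ∃ e, ¬ LI (LL U cl) (fun i => gq U (t · i) x) (gq U z x) e)
    (hn : ∀ᶠ ω in U, 0 < n ω ∧ H ω ≤ n ω ^ s)
    (hp : ∀ n, 0 < n → ∀ (Q : Finset ℕ) (g : ℤ), g ≠ 0 → (∀ a ∈ Q, (p n a : ℤ) ∣ g) →
      (n : ℤ) ^ Q.card ≤ |g|) :
    ∃ (M : Finset (Ix r)) (m₀ : Ix r) (c : Ix r → GK U) (D : ℕ) (W : Ω → Ix r → ℤ) (B : Finset ℕ),
      m₀ ∈ M ∧ c m₀ = 1 ∧ Gv M c (fun i => gq U (t · i) x) (gq U z x) = 0 ∧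
      Kept (fun i => gq U (t · i) x) (gq U z x) e M m₀ c (LL U cl) ∧ (∀ m ∈ M, dg m ≤ D) ∧
      (∀ (Γ : Type) (cl : Ω → Γ), BV U cl H → (∀ m ∈ M, c m ∈ LL U cl) → BV U cl W) ∧
      (∀ᶠ ω in U, Gh M (W ω) D (x ω) (t ω) (z ω) = 0) ∧ ∀ a ∉ B, ∀ᶠ ω in U,
        ¬ (p (n ω) a : ℤ) ∣ x ω * Gdh M (W ω) D (x ω) (t ω) (z ω) := by
  obtain ⟨e', hD, h1, h2⟩ := ex_deg he hL hL'
  obtain ⟨M, m₀, c, h3, h4, h5, h6, h7, h8⟩ := ex_circuit h2
  have hM : ∀ m ∈ M, dg m ≤ M.sup dg := fun m hm => Finset.le_sup hm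
  generalize M.sup dg = D at hM
  obtain ⟨W, A, h9, h10⟩ := ex_W2 hH hb hM h4 h5 h7
  have h11 : ∀ᶠ ω in U, x ω * Gdh M (W ω) D (x ω) (t ω) (z ω) ≠ 0 := by
    have := h1.gd' hD h3 (c := fun m => gz U (W · m))
      (fun m => mem_LL.2 ((h9 _ _ hHb h6).comp fun _ w => (w m : ℚ)))
      (gk_ex_ne (h10.mono fun ω h => by exact_mod_cast h.1)) (by
        rw [← gk_Gv]
        exact gk_eq_zero.2 ((hb.and h10).mono fun ω h => (Gh_cast h.1.1 hM).1 h.2.2.2))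
    rw [← gk_Gd] at this
    filter_upwards [gk_ne_zero.1 this, hb] with ω k1 k2 k3
    have k4 : (x ω : ℚ) ≠ 0 := Int.cast_ne_zero.2 k2.1
    have k5 := map_Gdh (M := M) (D := D) (Int.castRingHom ℚ) (W ω) (x ω) (t ω) (z ω)
    simp only [eq_intCast] at k5
    refine mul_ne_zero (pow_ne_zero D k4) k1 ?_
    rw [← Gdh_eq k4 _ _ _ hM, ← k5]
    exact_mod_cast k3
  obtain ⟨B, hB⟩ := bad_fin hp (n := n) (g := fun ω => x ω * Gdh M (W ω) D (x ω) (t ω) (z ω))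
      (A := s * (A + 2 * D + 2)) (by
    filter_upwards [hn, h10, h11, hb, hH.eventually_ge_atTop 1,
      hH.eventually_gt_atTop (∑ m ∈ M, m.2 : ℕ)] with ω k1 k2 k3 k4 k5 k6
    refine ⟨k1.1, k3, ?_⟩
    have k7 : 0 < H ω := zero_lt_one.trans_le k5
    have := calc
      |((x ω * Gdh M (W ω) D (x ω) (t ω) (z ω) : ℤ) : ℝ)|
          ≤ H ω * ((∑ m ∈ M, m.2 : ℕ) * (H ω ^ A * H ω ^ (2 * D))) := by
        rw [Int.cast_mul, abs_mul]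
        exact mul_le_mul k4.2.1 (Gdh_le k5 k4.2.1 k4.2.2.1 k4.2.2.2 hM k2.2.1) (abs_nonneg _) k7.le
      _ < H ω * (H ω * (H ω ^ A * H ω ^ (2 * D))) := by gcongr
      _ = H ω ^ (A + 2 * D + 2) := by ring
      _ ≤ (n ω : ℝ) ^ (s * (A + 2 * D + 2)) := by
        rw [pow_mul]
        exact pow_le_pow_left₀ k7.le k1.2 _
    exact_mod_cast this)
  exact ⟨M, m₀, c, D, W, B, h4, h5, h7, ⟨hL, h8, h6⟩, hM, h9, h10.mono fun _ h => h.2.2, hB⟩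

end Pool.Agent.MP_4060c9_nt.H98
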