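import Pool.Agent.MP_4060c9_nt.H98.Spec

/-!
The smooth points of bounded height lie on few auxiliary hypersurfaces.
-/

set_option autoImplicit false

namespace Pool.Agent.MP_4060c9_nt.H98

open Finset

namespace Cov

theorem primes (n : ℕ) (hn : n ≠ 0) (L : ℕ) :
    ∃ P : Finset ℕ, P.card = L ∧ ∀ p ∈ P, p.Prime ∧ n < p ∧ p ≤ 2 ^ L * n := by
  induction L with
  | zero => exact ⟨∅, rfl, by simp⟩
  | succ L ih =>
    obtain ⟨P, hP, h⟩ := ih
    obtain ⟨q, hq, h1, h2⟩ := Nat.exists_prime_lt_and_le_two_mul (2 ^ L * n) (by positivity)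
    have h3 : n ≤ 2 ^ L * n := Nat.le_mul_of_pos_left n (by positivity)
    have h4 : 2 ^ (L + 1) * n = 2 * (2 ^ L * n) := by ring
    refine ⟨insert q P, ?_, fun p hp => ?_⟩
    · rw [card_insert_of_notMem fun hm => absurd (h q hm).2.2 (not_le.2 h1), hP]
    · rcases mem_insert.1 hp with rfl | hp
      · exact ⟨hq, by omega, by omega⟩
      · have := h p hp
        exact ⟨this.1, this.2.1, by omega⟩

theorem not_dvd {n L : ℕ} {P : Finset ℕ} (hP : P.card = L) (h : ∀ p ∈ P, p.Prime ∧ n < p)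
    {x : ℤ} (hx : x ≠ 0) (hb : x.natAbs < n ^ L) : ∃ p ∈ P, ¬ (p : ℤ) ∣ x := by
  by_contra hc
  push Not at hc
  have h1 : ∏ p ∈ P, p ∣ x.natAbs :=
    Finset.prod_primes_dvd _ (fun p hp => (h p hp).1.prime) fun p hp =>
      Int.natCast_dvd.1 (hc p hp)
  have h2 := Nat.le_of_dvd (Int.natAbs_pos.2 hx) h1
  have h3 : n ^ P.card ≤ ∏ p ∈ P, p := Finset.pow_card_le_prod P _ n fun p hp => (h p hp).2.le
  rw [hP] at h3
  omega

open Polynomial in
theorem roots {k : Type} [Field k] [Fintype k] [DecidableEq k] {r : ℕ} (M : Finset (Ix r))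
    (c : Ix r → k) (τ : Fin r → k) :
    (univ.filter fun ζ : k => Gv M c τ ζ = 0 ∧ Gd M c τ ζ ≠ 0).card ≤ M.sup fun m => m.2 := by
  set f : k[X] := ∑ m ∈ M, C (c m * ∏ a, τ a ^ m.1 a) * X ^ m.2 with hf
  have e1 : ∀ ζ, f.eval ζ = Gv M c τ ζ := fun ζ => by
    simp only [hf, eval_finsetSum, eval_mul, eval_C, eval_pow, eval_X, Gv, mon, mul_assoc]
  have e2 : ∀ ζ, (derivative f).eval ζ = Gd M c τ ζ := fun ζ => by
    simp only [hf, derivative_sum, derivative_C_mul_X_pow, eval_finsetSum, eval_mul, eval_C,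
      eval_pow, eval_X, Gd, dmon]
    exact sum_congr rfl fun m _ => by ring
  by_cases h0 : f = 0
  · rw [filter_eq_empty_iff.2, card_empty]
    · exact Nat.zero_le _
    · intro ζ _ h
      exact h.2 (by rw [← e2, h0]; simp)
  have h1 : f.natDegree ≤ M.sup fun m => m.2 :=
    natDegree_sum_le_of_forall_le _ _ fun m hm =>
      (natDegree_C_mul_X_pow_le _ _).trans (le_sup (f := fun m : Ix r => m.2) hm)
  refine le_trans (card_le_card fun ζ hζ => ?_)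
    ((Multiset.toFinset_card_le f.roots).trans ((card_roots' f).trans h1))
  rw [Multiset.mem_toFinset, mem_roots h0, IsRoot, e1]
  exact (mem_filter.1 hζ).2.1

theorem one_prime {r : ℕ} (M : Finset (Ix r)) (c : Ix r → ℤ) (p : ℕ) (hp : p.Prime)
    (Q : (Ix r → ℚ) → Prop) (Z : (Ix r → ℚ) → (Fin r → ℤ) → ℤ → Prop)
    (h : ∀ (τ : Fin r → ℤ) (ζ : ℤ), IsCoprime (Gd M c τ ζ) p → ∃ d, Q d ∧ ∀ t z,
      (∀ i, t i ≡ τ i [ZMOD p]) → z ≡ ζ [ZMOD p] → Z d t z) :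
    ∃ F : Finset (Ix r → ℚ), F.card ≤ p ^ r * (M.sup fun m => m.2) ∧ (∀ d ∈ F, Q d) ∧
      ∀ t z, Gv M c t z = 0 → ¬ (p : ℤ) ∣ Gd M c t z → ∃ d ∈ F, Z d t z := by
  classical
  have := Fact.mk hp
  have h' : ∀ (τ : Fin r → ZMod p) (ζ : ZMod p), ∃ d,
      Gd M (fun m => (c m : ZMod p)) τ ζ ≠ 0 → Q d ∧ ∀ (t : Fin r → ℤ) (z : ℤ),
        (fun i => (t i : ZMod p)) = τ → (z : ZMod p) = ζ → Z d t z := by
    intro τ ζ
    by_cases h0 : Gd M (fun m => (c m : ZMod p)) τ ζ = 0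
    · exact ⟨0, fun h => absurd h0 h⟩
    obtain ⟨d, h1, h2⟩ := h (fun i => (τ i).cast) ζ.cast (by
      refine ((Nat.prime_iff_prime_int.1 hp).coprime_iff_not_dvd.2 fun hd => h0 ?_).symm
      have := (ZMod.intCast_zmod_eq_zero_iff_dvd _ p).2 hd
      rw [← eq_intCast (Int.castRingHom (ZMod p)), map_Gd] at this
      simpa using this)
    refine ⟨d, fun _ => ⟨h1, fun t z ht hz => h2 t z (fun i => ?_) ?_⟩⟩
    · rw [← ZMod.intCast_eq_intCast_iff, ZMod.intCast_zmod_cast]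
      exact congrFun ht i
    · rw [← ZMod.intCast_eq_intCast_iff, ZMod.intCast_zmod_cast]
      exact hz
  choose ch hch using h'
  refine ⟨univ.biUnion fun τ : Fin r → ZMod p => (univ.filter fun ζ : ZMod p =>
    Gv M (fun m => (c m : ZMod p)) τ ζ = 0 ∧ Gd M (fun m => (c m : ZMod p)) τ ζ ≠ 0).image (ch τ),
    ?_, fun d hd => ?_, fun t z h1 h2 => ?_⟩
  · refine (card_biUnion_le_card_mul _ _ _ fun τ _ =>
      card_image_le.trans (roots M _ τ)).trans_eq ?_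
    simp
  · obtain ⟨τ, -, hd⟩ := mem_biUnion.1 hd
    obtain ⟨ζ, hζ, rfl⟩ := mem_image.1 hd
    exact (hch τ ζ (mem_filter.1 hζ).2.2).1
  · have a1 : Gv M (fun m => (c m : ZMod p)) (fun i => (t i : ZMod p)) (z : ZMod p) = 0 := by
      have := map_Gv (Int.castRingHom (ZMod p)) M c t z
      rw [h1, map_zero] at this
      exact this.symm
    have a2 : Gd M (fun m => (c m : ZMod p)) (fun i => (t i : ZMod p)) (z : ZMod p) ≠ 0 :=
      fun h0 => h2 ((ZMod.intCast_zmod_eq_zero_iff_dvd _ p).1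
        ((map_Gd (Int.castRingHom (ZMod p)) M c t z).trans h0))
    exact ⟨_, mem_biUnion.2 ⟨_, mem_univ _, mem_image_of_mem _
      (mem_filter.2 ⟨mem_univ _, a1, a2⟩)⟩, (hch _ _ a2).2 t z rfl rfl⟩

theorem size {r : ℕ} (M : Finset (Ix r)) (c : Ix r → ℤ) (t : Fin r → ℤ) (z : ℤ) {H Y : ℝ}
    (hH : 1 ≤ H) (hc : ∀ m ∈ M, (|c m| : ℝ) ≤ Y) (hY : 0 ≤ Y) (ht : ∀ i, (|t i| : ℝ) ≤ H)
    (hz : (|z| : ℝ) ≤ H) :
    |((Gd M c t z : ℤ) : ℝ)| ≤
      (∑ m ∈ M, m.2 : ℕ) * (Y * H ^ M.sup fun m => ∑ a, m.1 a + m.2) := by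
  have e : ((Gd M c t z : ℤ) : ℝ) =
      ∑ m ∈ M, (c m : ℝ) * ((m.2 : ℝ) * ((∏ a, (t a : ℝ) ^ m.1 a) * (z : ℝ) ^ (m.2 - 1))) := by
    simp [Gd, dmon]
  rw [e, Nat.cast_sum, sum_mul]
  refine (abs_sum_le_sum_abs _ _).trans (sum_le_sum fun m hm => ?_)
  have h1 : |∏ a, (t a : ℝ) ^ m.1 a| ≤ H ^ ∑ a, m.1 a := by
    rw [abs_prod, ← prod_pow_eq_pow_sum]
    refine prod_le_prod (fun _ _ => abs_nonneg _) fun a _ => ?_
    rw [abs_pow]
    exact pow_le_pow_left₀ (abs_nonneg _) (ht a) _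
  have h2 : |(z : ℝ) ^ (m.2 - 1)| ≤ H ^ m.2 := by
    rw [abs_pow]
    exact (pow_le_pow_left₀ (abs_nonneg _) hz _).trans (pow_le_pow_right₀ hH (Nat.sub_le _ _))
  have h3 : H ^ (∑ a, m.1 a) * H ^ m.2 ≤ H ^ M.sup fun m => ∑ a, m.1 a + m.2 := by
    rw [← pow_add]
    exact pow_le_pow_right₀ hH (le_sup (f := fun m : Ix r => ∑ a, m.1 a + m.2) hm)
  rw [abs_mul, abs_mul, abs_mul, Nat.abs_cast, mul_left_comm]
  refine mul_le_mul_of_nonneg_left (mul_le_mul (hc m hm) (le_trans ?_ h3) (by positivity) hY)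
    (Nat.cast_nonneg _)
  exact mul_le_mul h1 h2 (abs_nonneg _) (by positivity)

end Cov

theorem cov : DetStmt → CovStmt := by
  classical
  intro hD r e a A M hr ha he
  obtain ⟨B, H₀, hB, hD⟩ := hD r e a hr ha he
  set g : ℕ := M.sup fun m => ∑ a, m.1 a + m.2 with hg
  set S : ℕ := ∑ m ∈ M, m.2 with hS
  set D : ℕ := M.sup fun m => m.2 with hDd
  set L : ℕ := ⌈(A + g + 1) / a⌉₊ with hL
  refine ⟨B, L * ((2 ^ L * 2) ^ r * D), max H₀ (S + 1), hB, fun H c hH hc => ?_⟩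
  have hS1 : (S : ℝ) + 1 ≤ H := (le_max_right _ _).trans hH
  have h1 : (1 : ℝ) ≤ H := le_trans (by simp) hS1
  have h0 : (0 : ℝ) < H := by linarith
  have ha1 : 1 ≤ H ^ a := Real.one_le_rpow h1 ha.le
  set n : ℕ := ⌈H ^ a⌉₊ with hn
  have n1 : H ^ a ≤ n := Nat.le_ceil _
  have n2 : (n : ℝ) ≤ 2 * H ^ a := by
    have := Nat.ceil_lt_add_one (show 0 ≤ H ^ a by linarith)
    linarith
  have n0 : n ≠ 0 := by
    intro h
    rw [h, Nat.cast_zero] at n1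
    linarith
  obtain ⟨P, hP, hp⟩ := Cov.primes n n0 L
  have key : ∀ p : ℕ, ∃ F : Finset (Ix r → ℚ), p ∈ P → F.card ≤ p ^ r * D ∧
      (∀ d ∈ F, ∃ m ∈ B, d m ≠ 0) ∧ ∀ t z, Gv M c t z = 0 → ¬ (p : ℤ) ∣ Gd M c t z →
        ∃ d ∈ F, (∀ i, (|t i| : ℝ) ≤ H) → (|z| : ℝ) ≤ H → Gv M c t z = 0 →
          Gv B d (fun i => (t i : ℚ)) (z : ℚ) = 0 := fun p => by
    by_cases hm : p ∈ P
    swap
    · exact ⟨∅, fun h => absurd h hm⟩
    obtain ⟨F, hF⟩ := Cov.one_prime M c p (hp p hm).1 (fun d => ∃ m ∈ B, d m ≠ 0)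
      (fun d t z => (∀ i, (|t i| : ℝ) ≤ H) → (|z| : ℝ) ≤ H → Gv M c t z = 0 →
        Gv B d (fun i => (t i : ℚ)) (z : ℚ) = 0) fun τ ζ h => by
        obtain ⟨d, a1, a2⟩ := hD H p M c τ ζ ((le_max_left _ _).trans hH)
          (n1.trans (Nat.cast_le.2 (hp p hm).2.1.le)) h
        exact ⟨d, a1, fun t z b1 b2 b3 b4 b5 => a2 t z b3 b4 b1 b2 b5⟩
    exact ⟨F, fun _ => hF⟩
  choose F hF using key
  refine ⟨P.biUnion F, ?_, fun d hd => ?_, fun t z ht hz hv hd => ?_⟩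
  · have a1 : (P.biUnion F).card ≤ P.card * ((2 ^ L * n) ^ r * D) :=
      card_biUnion_le_card_mul _ _ _ fun p hm => (hF p hm).1.trans
        (Nat.mul_le_mul_right _ (Nat.pow_le_pow_left (hp p hm).2.2 r))
    rw [hP] at a1
    refine (Nat.cast_le.2 a1).trans ?_
    push_cast
    rw [mul_comm (r : ℝ) a, Real.rpow_mul_natCast h0.le]
    calc (L : ℝ) * ((2 ^ L * n) ^ r * D) ≤ L * ((2 ^ L * (2 * H ^ a)) ^ r * D) := by gcongr
      _ = _ := by rw [← mul_assoc (2 ^ L : ℝ), mul_pow]; ring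
  · obtain ⟨p, hm, hd⟩ := mem_biUnion.1 hd
    exact (hF p hm).2.1 d hd
  · have a1 := Cov.size M c t z h1 hc (by positivity) ht hz
    have a2 : (S : ℝ) * (H ^ A * H ^ g) < (n : ℝ) ^ L :=
      calc (S : ℝ) * (H ^ A * H ^ g) < H * (H ^ A * H ^ g) :=
            mul_lt_mul_of_pos_right (by linarith) (by positivity)
        _ = H ^ (A + g + 1) := by
            rw [Real.rpow_add h0, Real.rpow_add h0, Real.rpow_one, Real.rpow_natCast]
            ring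
        _ ≤ H ^ (a * L) := Real.rpow_le_rpow_of_exponent_le h1 (by
            have := Nat.le_ceil ((A + g + 1) / a)
            rw [div_le_iff₀ ha] at this
            linarith)
        _ ≤ (n : ℝ) ^ L := by
            rw [Real.rpow_mul_natCast h0.le]
            exact pow_le_pow_left₀ (by linarith) n1 L
    obtain ⟨p, hm, hnd⟩ := Cov.not_dvd hP (fun p hm => ⟨(hp p hm).1, (hp p hm).2.1⟩) hd (by
      have := a1.trans_lt a2
      rw [← Int.cast_abs, ← Nat.cast_natAbs] at this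
      exact_mod_cast this)
    obtain ⟨d, b1, b2⟩ := (hF p hm).2.2 t z hv hnd
    exact ⟨d, mem_biUnion.2 ⟨p, hm, b1⟩, b2 ht hz hv⟩

end Pool.Agent.MP_4060c9_nt.H98
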