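import Pool.Agent.MP_4060c9_nt.H98.Spec

/-!
From the additive energy to the number of sums, by the Cauchy-Schwarz inequality.
-/

set_option autoImplicit false

namespace Pool.Agent.MP_4060c9_nt.H98

open Finset

namespace Cs

lemma sq_card_le {α β : Type} [DecidableEq β] (T : Finset α) (g : α → β) :
    T.card ^ 2 ≤ (T.image g).card * #{x ∈ T ×ˢ T | g x.1 = g x.2} := by
  have h : #{x ∈ T ×ˢ T | g x.1 = g x.2} = ∑ b ∈ T.image g, #{a ∈ T | g a = b} ^ 2 := by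
    rw [card_eq_sum_card_fiberwise (f := fun x : α × α => g x.1) (t := T.image g)
      fun x hx => mem_image_of_mem g (mem_product.1 (mem_filter.1 hx).1).1]
    refine sum_congr rfl fun b _ => ?_
    rw [sq, ← card_product]
    refine congrArg card (Finset.ext fun x => ?_)
    simp only [mem_filter, mem_product]
    constructor
    · rintro ⟨⟨⟨a, c⟩, d⟩, e⟩
      exact ⟨⟨a, e⟩, c, d ▸ e⟩
    · rintro ⟨⟨a, e⟩, c, d⟩
      exact ⟨⟨⟨a, c⟩, e.trans d.symm⟩, e⟩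
  rw [h, card_eq_sum_card_image g T]
  exact sq_sum_le_card_mul_sum_sq

/-- The size of the box. -/
lemma box {k l : ℕ} (hk : 0 < k) (hl : 0 < l) {x : ℝ} (hx : (l : ℝ) ≤ x) :
    ∃ P : ℕ, 1 ≤ P ∧ (l : ℝ) * (P : ℝ) ^ k ≤ x ∧
      x ^ ((l : ℝ) / (k : ℝ)) ≤ (l : ℝ) ^ ((l : ℝ) / (k : ℝ)) * 2 ^ l * (P : ℝ) ^ l := by
  have l0 : (0 : ℝ) < l := Nat.cast_pos.2 hl
  have h1 : 1 ≤ x / l := (one_le_div l0).2 hx
  have h0 : 0 ≤ x / l := zero_le_one.trans h1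
  obtain ⟨y, hy⟩ : ∃ y : ℝ, y = (x / l) ^ ((k : ℝ)⁻¹) := ⟨_, rfl⟩
  have y1 : 1 ≤ y := hy ▸ Real.one_le_rpow h1 (by positivity)
  have y0 : 0 ≤ y := zero_le_one.trans y1
  have yk : y ^ k = x / l := hy ▸ Real.rpow_inv_natCast_pow h0 hk.ne'
  have p1 : 1 ≤ ⌊y⌋₊ := Nat.le_floor (by simpa using y1)
  refine ⟨⌊y⌋₊, p1, ?_, ?_⟩
  · rw [← le_div_iff₀' l0, ← yk]
    exact pow_le_pow_left₀ (Nat.cast_nonneg _) (Nat.floor_le y0) k
  · have e : x ^ ((l : ℝ) / (k : ℝ)) = (l : ℝ) ^ ((l : ℝ) / (k : ℝ)) * y ^ l := by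
      rw [hy, ← Real.rpow_natCast, ← Real.rpow_mul h0, inv_mul_eq_div, ← Real.mul_rpow l0.le h0,
        mul_div_cancel₀ _ l0.ne']
    have p2 : (1 : ℝ) ≤ ⌊y⌋₊ := by exact_mod_cast p1
    have : y ≤ 2 * ⌊y⌋₊ := by linarith [Nat.lt_floor_add_one y]
    rw [e, mul_assoc, ← mul_pow]
    exact mul_le_mul_of_nonneg_left (pow_le_pow_left₀ y0 this l) (by positivity)

end Cs

theorem cs : CsStmt := by
  rintro k l hk hl ⟨C, hC⟩
  have l0 : (0 : ℝ) < l := Nat.cast_pos.2 hl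
  obtain ⟨A, hA⟩ : ∃ A : ℝ, A = (l : ℝ) ^ ((l : ℝ) / (k : ℝ)) * 2 ^ l := ⟨_, rfl⟩
  have A0 : 0 < A := by rw [hA]; positivity
  have m1 : 0 < max C 1 := lt_max_of_lt_right one_pos
  refine ⟨(2 * A * max C 1)⁻¹, by positivity, ?_⟩
  filter_upwards [Filter.eventually_ge_atTop (l : ℝ)] with x hx
  obtain ⟨P, p1, p2, p3⟩ := Cs.box hk hl hx
  rw [← hA] at p3
  have hE := hC P p1
  obtain ⟨T, hT⟩ : ∃ T : Finset (Fin l → ℕ), T = Fintype.piFinset fun _ : Fin l => Icc 1 P :=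
    ⟨_, rfl⟩
  rw [← hT] at hE
  have cT : T.card = P ^ l := by simp [hT]
  have h1 := Cs.sq_card_le T fun f => ∑ i, f i ^ k
  obtain ⟨I, hI⟩ : ∃ I : Finset ℕ, I = T.image fun f => ∑ i, f i ^ k := ⟨_, rfl⟩
  rw [← hI, cT] at h1
  have P0 : (0 : ℝ) < (P : ℝ) ^ l := by positivity
  have h2 : (P : ℝ) ^ l ≤ I.card * max C 1 := by
    refine le_of_mul_le_mul_right ?_ P0
    calc (P : ℝ) ^ l * P ^ l = ((P ^ l) ^ 2 : ℕ) := by push_cast; ring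
      _ ≤ (I.card : ℝ) * (#{x ∈ T ×ˢ T | ∑ i, x.1 i ^ k = ∑ i, x.2 i ^ k} : ℝ) := by
          exact_mod_cast h1
      _ ≤ I.card * (max C 1 * P ^ l) := mul_le_mul_of_nonneg_left
          (hE.trans (mul_le_mul_of_nonneg_right (le_max_left _ _) P0.le)) (Nat.cast_nonneg _)
      _ = _ := (mul_assoc _ _ _).symm
  have h3 : I.card ≤ {n : ℕ | 1 ≤ n ∧ (n : ℝ) ≤ x ∧
      ∃ f : Fin l → ℕ, (∀ i, 0 < f i) ∧ ∑ i, f i ^ k = n}.ncard := by
    rw [← Set.ncard_coe_finset]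
    refine Set.ncard_le_ncard (fun n hn => ?_) ((Set.finite_Iic ⌊x⌋₊).subset fun n hn =>
      Nat.le_floor hn.2.1)
    rw [hI, mem_coe, mem_image] at hn
    obtain ⟨f, hf, rfl⟩ := hn
    rw [hT, Fintype.mem_piFinset] at hf
    have f0 : ∀ i, 0 < f i := fun i => (mem_Icc.1 (hf i)).1
    refine ⟨sum_pos (fun i _ => pow_pos (f0 i) k) ⟨⟨0, hl⟩, mem_univ _⟩, le_trans ?_ p2, f, f0, rfl⟩
    have : ∑ i, f i ^ k ≤ l * P ^ k := by
      simpa using sum_le_card_nsmul univ (fun i => f i ^ k) (P ^ k)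
        fun i _ => Nat.pow_le_pow_left (mem_Icc.1 (hf i)).2 k
    exact_mod_cast this
  refine lt_of_lt_of_le ?_ (Nat.cast_le.2 h3)
  rw [inv_mul_lt_iff₀ (by positivity)]
  have h4 := mul_le_mul_of_nonneg_left h2 A0.le
  have h5 := mul_pos A0 P0
  linarith

end Pool.Agent.MP_4060c9_nt.H98
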