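import Pool.Agent.MP_4060c9_nt.H98.Spec
import Pool.Agent.MP_c4d8e2_ag.H21.Der

/-!
Subvarieties of a diagonal hypersurface on which no subsum vanishes have large degree.
-/

set_option autoImplicit false

namespace Pool.Agent.MP_4060c9_nt.H98

open Finset

namespace DegAux

section Cst

variable {k K : Type} [Field k] [Field K] [Algebra k K]

/-- The constants of a derivation. -/
def Cst (D : Derivation k K K) : IntermediateField k K where
  carrier := {x | D x = 0}
  mul_mem' := by
    intro a b ha hb
    simp only [Set.mem_ofPred_eq] at ha hb ⊢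
    rw [D.leibniz, ha, hb]
    simp
  one_mem' := by simp
  add_mem' := by
    intro a b ha hb
    simp only [Set.mem_ofPred_eq] at ha hb ⊢
    rw [map_add, ha, hb, add_zero]
  zero_mem' := by simp
  algebraMap_mem' := by
    intro a
    simp
  inv_mem' := by
    intro a ha
    simp only [Set.mem_ofPred_eq] at ha ⊢
    rw [D.leibniz_inv, ha, smul_zero]

/-- A derivation is linear over its constants. -/
def Dres (D : Derivation k K K) : Derivation (Cst D) K K where
  toFun := D
  map_add' := map_add D
  map_smul' := by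
    intro a x
    have ha : D (a : K) = 0 := a.2
    change D ((a : K) * x) = (a : K) * D x
    rw [D.leibniz, ha]
    simp
  map_one_eq_zero' := D.map_one_eq_zero
  leibniz' := D.leibniz

lemma Dres_apply (D : Derivation k K K) (x : K) : Dres D x = D x := rfl

end Cst

/-- An element with nonzero derivative is transcendental over the constants. -/
lemma transc {F K : Type} [Field F] [CharZero F] [Field K] [Algebra F K] (D : Derivation F K K)
    {x : K} (hx : D x ≠ 0) : Transcendental F x := by
  intro h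
  have hi : IsIntegral F x := h.isIntegral
  have h1 := (minpoly.irreducible hi).separable.aeval_derivative_ne_zero (minpoly.aeval F x)
  have h2 := D.map_aeval (minpoly F x) x
  rw [minpoly.aeval, map_zero, smul_eq_mul] at h2
  exact mul_ne_zero h1 hx h2.symm

/-- Monomials in algebraically independent elements are linearly independent. -/
lemma mono_indep {k K : Type} [Field k] [Field K] [Algebra k K] {r : ℕ} {v : Fin r → K}
    (hv : AlgebraicIndependent k v) :
    LinearIndependent k fun α : Fin r → ℕ => ∏ a, v a ^ α a := by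
  have h1 := (MvPolynomial.basisMonomials (Fin r) k).linearIndependent.map'
    (MvPolynomial.aeval v : MvPolynomial (Fin r) k →ₐ[k] K).toLinearMap
    (LinearMap.ker_eq_bot.mpr hv)
  have h2 := h1.comp _ (Finsupp.equivFunOnFinite (α := Fin r) (M := ℕ)).symm.injective
  have h3 : (fun α : Fin r → ℕ => ∏ a, v a ^ α a) =
      (⇑(MvPolynomial.aeval v : MvPolynomial (Fin r) k →ₐ[k] K).toLinearMap ∘
        ⇑(MvPolynomial.basisMonomials (Fin r) k)) ∘
        (Finsupp.equivFunOnFinite (α := Fin r) (M := ℕ)).symm := by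
    funext α
    simp [MvPolynomial.aeval_monomial, Finsupp.prod_fintype]
  rw [h3]
  exact h2

/-- Independence over the constants gives independence over the ground field. -/
lemma li_of_indep {k F K : Type} [Field k] [Field F] [Field K] [Algebra k F] [Algebra F K]
    [Algebra k K] [IsScalarTower k F K] {r e : ℕ} {s : Fin r → F} {t : Fin (r + 1) → K} {z : K}
    (hs : LinearIndependent k fun α : Fin r → ℕ => ∏ a, s a ^ α a)
    (ht : ∀ a, t a.succ = algebraMap F K (s a))
    (h : LinearIndependent F fun m : ℕ × Fin e => t 0 ^ m.1 * z ^ (m.2 : ℕ)) :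
    LI k t z e := by
  have h1 := linearIndependent_smul hs h
  let φ : {m : Ix (r + 1) // m.2 < e} → (Fin r → ℕ) × (ℕ × Fin e) :=
    fun m => (fun a => m.1.1 a.succ, (m.1.1 0, ⟨m.1.2, m.2⟩))
  have hφ : Function.Injective φ := by
    rintro ⟨⟨α, b⟩, hb⟩ ⟨⟨α', b'⟩, hb'⟩ hm
    simp only [φ, Prod.mk.injEq, Fin.mk.injEq] at hm
    obtain ⟨h2, h3, h4⟩ := hm
    refine Subtype.ext (Prod.ext ?_ h4)
    funext a
    exact Fin.cases h3 (fun a => congrFun h2 a) a
  have h2 := h1.comp φ hφ
  unfold LI
  convert h2 using 2 with m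
  simp only [mon, φ, Function.comp, Fin.prod_univ_succ, ht, Algebra.smul_def, map_prod, map_pow]
  ring

/-- A shortest relation. -/
lemma exists_rel {F K σ : Type} [Field F] [Field K] [Algebra F K] (w : σ → K) (S : Set σ)
    (h : (1 : K) ∈ Submodule.span F (Set.range fun j : S => w j)) :
    ∃ (M : ℕ) (g : Fin (M + 1) → σ) (c : Fin (M + 1) → F), Function.Injective g ∧
      (∀ i, g i ∈ S) ∧ (∀ i, c i ≠ 0) ∧ ∑ i, c i • w (g i) = 1 ∧
      LinearIndependent F fun i => w (g i) := by
  classical
  obtain ⟨ι, a, ha, hsp, hli⟩ := exists_linearIndependent' F (fun j : S => w j)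
  rw [← hsp, Finsupp.mem_span_range_iff_exists_finsupp] at h
  obtain ⟨c, hc⟩ := h
  have hne : c.support.card ≠ 0 := by
    intro h0
    rw [Finset.card_eq_zero, Finsupp.support_eq_empty] at h0
    simp [h0] at hc
  obtain ⟨M, hM⟩ := Nat.exists_eq_succ_of_ne_zero hne
  let e : Fin (M + 1) ≃ c.support := (Finset.equivFinOfCardEq hM).symm
  have he : Function.Injective fun i => (e i : ι) := Subtype.val_injective.comp e.injective
  refine ⟨M, fun i => (a (e i) : σ), fun i => c (e i), ?_, fun i => (a (e i)).2,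
    fun i => Finsupp.mem_support_iff.mp (e i).2, ?_, hli.comp _ he⟩
  · exact Subtype.val_injective.comp (ha.comp he)
  · rw [← hc, Finsupp.sum, ← Finset.sum_coe_sort c.support]
    exact e.sum_comp fun i => c i • w (a i)

lemma numeric {M n E κ : ℕ} (hM : M ≤ n) (hE : E ≠ 0)
    (h : κ ≤ M + 2 * M * (2 * E - 1) + M * M * (2 * (2 * E - 1) + 1)) :
    κ ≤ 4 * n * (n + 1) * E := by
  obtain ⟨E, rfl⟩ := Nat.exists_eq_succ_of_ne_zero hE
  have h1 : 2 * E.succ - 1 = 2 * E + 1 := by omega
  rw [h1] at h
  calc κ ≤ M + 2 * M * (2 * E + 1) + M * M * (2 * (2 * E + 1) + 1) := h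
    _ = M * (M + 1) * (4 * E + 3) := by ring
    _ ≤ n * (n + 1) * (4 * E + 4) := by gcongr; omega
    _ = 4 * n * (n + 1) * E.succ := by rw [Nat.succ_eq_add_one]; ring

/-- The argument over the field of constants. -/
lemma core (hB : BiStmt) (hW : WrStmt) {k F K σ : Type} [Field k] [Field F] [CharZero F] [Field K]
    [Algebra k F] [Algebra F K] [Algebra k K] [IsScalarTower k F K] [Fintype σ]
    (D : Derivation F K K) (hker : ∀ x, D x = 0 → x ∈ Set.range (algebraMap F K))
    (y : σ → K) (ε : σ → k) (N : k) (κ r E : ℕ) (t₀ : Fin r → σ) (s : Fin r → F)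
    (hsum : ∑ j, ε j • y j ^ κ = algebraMap k K N)
    (hsub : ∀ T : Finset σ, T.Nonempty → ∑ j ∈ T, ε j • y j ^ κ ≠ 0)
    (hD : ∃ j, D (y j) ≠ 0) (ht₀ : Function.Injective t₀)
    (hs : LinearIndependent k fun α : Fin r → ℕ => ∏ a, s a ^ α a)
    (hts : ∀ a, y (t₀ a) = algebraMap F K (s a))
    (hno : ∀ (t : Fin (r + 1) → σ) (j : σ), ¬ LI k (fun a => y (t a)) (y j) (E + 1)) :
    κ ≤ 4 * (Fintype.card σ - (r + 1)) * (Fintype.card σ - (r + 1) + 1) * E := by
  classical
  have hk : ∀ (a : k) (x : K), a • x = algebraMap k F a • x := fun a x =>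
    (IsScalarTower.algebraMap_smul F a x).symm
  have hdep : ∀ i j : σ,
      ¬ LinearIndependent F fun m : ℕ × Fin (E + 1) => y i ^ m.1 * y j ^ (m.2 : ℕ) := by
    intro i j h
    refine hno (Fin.cons i t₀) j (li_of_indep hs (fun a => ?_) ?_)
    · simpa using hts a
    · simpa using h
  -- the relation over the constants
  set S : Finset σ := univ.filter fun j => D (y j) ≠ 0 with hS
  have hSne : S.Nonempty := by
    obtain ⟨j, hj⟩ := hD
    exact ⟨j, by simp [hS, hj]⟩
  have hcst : D (∑ j ∈ S, ε j • y j ^ κ) = 0 := by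
    have h1 : D (∑ j, ε j • y j ^ κ) = 0 := by
      rw [hsum, IsScalarTower.algebraMap_apply k F K, D.map_algebraMap]
    rw [← h1, map_sum, map_sum]
    refine Finset.sum_subset (subset_univ _) fun j _ hj => ?_
    have h2 : D (y j) = 0 := by simpa [hS] using hj
    rw [hk, D.map_smul, D.leibniz_pow, h2]
    simp
  obtain ⟨b, hb⟩ := hker _ hcst
  have hb0 : b ≠ 0 := by
    rintro rfl
    exact hsub S hSne (by rw [← hb, map_zero])
  have hone : (1 : K) ∈ Submodule.span F
      (Set.range fun j : {j | D (y j) ≠ 0} => y (j : σ) ^ κ) := by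
    have h1 : (1 : K) = b⁻¹ • ∑ j ∈ S, ε j • y j ^ κ := by
      rw [← hb, Algebra.smul_def, ← map_mul, inv_mul_cancel₀ hb0, map_one]
    rw [h1]
    refine Submodule.smul_mem _ _ (Submodule.sum_mem _ fun j hj => ?_)
    rw [hk]
    exact Submodule.smul_mem _ _ (Submodule.subset_span ⟨⟨j, by simpa [hS] using hj⟩, rfl⟩)
  obtain ⟨M, g, c, hg, hgS, hc, hrel, hli⟩ := exists_rel (fun j => y j ^ κ) _ hone
  have hgD : ∀ i, D (y (g i)) ≠ 0 := hgS
  -- the number of terms
  have hM : M ≤ Fintype.card σ - (r + 1) := by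
    have hinj : Function.Injective (Sum.elim g t₀) := by
      refine hg.sumElim ht₀ fun i a h => hgD i ?_
      rw [h, hts, D.map_algebraMap]
    have := Fintype.card_le_of_injective _ hinj
    simp only [Fintype.card_sum, Fintype.card_fin] at this
    omega
  have htr : ∀ i, Transcendental F (y (g i)) := fun i => transc D (hgD i)
  have hE : E ≠ 0 := by
    rintro rfl
    apply hdep (g 0) (g 0)
    have h1 : LinearIndependent F fun n : ℕ => y (g 0) ^ n := by
      have h2 := (Polynomial.basisMonomials F).linearIndependent.map'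
        (Polynomial.aeval (y (g 0)) : Polynomial F →ₐ[F] K).toLinearMap
        (LinearMap.ker_eq_bot.mpr (transcendental_iff_injective.mp (htr 0)))
      have h3 : (fun n : ℕ => y (g 0) ^ n) =
          ⇑(Polynomial.aeval (y (g 0)) : Polynomial F →ₐ[F] K).toLinearMap ∘
            ⇑(Polynomial.basisMonomials F) := by
        funext n
        simp
      rw [h3]
      exact h2
    have h3 : Function.Injective (Prod.fst : ℕ × Fin (0 + 1) → ℕ) := fun m m' h =>
      Prod.ext h (Subsingleton.elim (α := Fin 1) _ _)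
    convert h1.comp _ h3 using 2 with m
    simp
  -- normalised derivation
  let D' : Derivation F K K := (D (y (g 0)))⁻¹ • D
  have hD' : ∀ x, D' x = (D (y (g 0)))⁻¹ * D x := fun x => rfl
  have hD1 : D' (y (g 0)) = 1 := by rw [hD', inv_mul_cancel₀ (hgD 0)]
  refine numeric hM hE (hW F K D' M (2 * E - 1) κ (fun i => y (g i)) 0 c (fun x hx => ?_) hD1 hc
    hrel hli fun i => hB F K D' _ _ E (htr 0) hD1 (hdep _ _) (hdep _ _))
  rw [hD', mul_eq_zero] at hx
  exact hker x (hx.resolve_left (inv_ne_zero (hgD 0)))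

end DegAux

open DegAux in
theorem deg : BiStmt → WrStmt → DegStmt := by
  intro hB hW k K σ _ _ _ _ _ y ε N κ r E t₀ hsum hsub hind hκ
  by_contra hno
  push Not at hno
  obtain ⟨D, hD⟩ := Pool.Agent.MP_c4d8e2_ag.H21.der_exists_of_indep (M := K) hind
    (Fin.cons 1 fun _ => 0)
  have _ : CharZero (Cst D) := algebraRat.charZero _
  have hD0 : ∀ a : Fin r, D (y (t₀ a.succ)) = 0 := fun a => by simpa using hD a.succ
  let s : Fin r → Cst D := fun a => ⟨y (t₀ a.succ), hD0 a⟩
  have hs : LinearIndependent k fun α : Fin r → ℕ => ∏ a, s a ^ α a := by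
    refine LinearIndependent.of_comp (Cst D).val.toLinearMap ?_
    convert mono_indep (hind.comp Fin.succ (Fin.succ_injective r)) using 2 with α
    simp [s]
  have hinj : Function.Injective fun a : Fin r => t₀ a.succ := fun a b h =>
    Fin.succ_injective r (hind.injective (congrArg y h))
  have h := core hB hW (Dres D) (fun x hx => ⟨⟨x, hx⟩, rfl⟩) y ε N κ r E (fun a => t₀ a.succ) s
    hsum hsub ⟨t₀ 0, by rw [Dres_apply, hD 0]; simp⟩ hinj hs (fun a => rfl) hno
  omega

end Pool.Agent.MP_4060c9_nt.H98
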