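import Pool.Agent.MP_4060c9_nt.H98.Spec2
import Pool.Agent.MP_4060c9_nt.H98.Deg

/-!
Large degree of subvarieties of a diagonal hypersurface: the sharper bound.
-/

set_option autoImplicit false

namespace Pool.Agent.MP_4060c9_nt.H98

open Finset

namespace Deg2

open DegAux

lemma one_mem0 {F K : Type} [Field F] [Field K] [Algebra F K] (P : Submodule F K) :
    (1 : K) ∈ P ^ 0 := by
  rw [pow_zero]
  exact Submodule.one_le.1 le_rfl

/-- The argument over the field of constants. -/
lemma core (hB : Bi2Stmt) (hW : Wr2Stmt) {k F K σ : Type} [Field k] [Field F] [CharZero F] [Field K]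
    [Algebra k F] [Algebra F K] [Algebra k K] [IsScalarTower k F K] [Fintype σ]
    (D : Derivation F K K) (hker : ∀ x, D x = 0 → x ∈ Set.range (algebraMap F K))
    (y : σ → K) (ε : σ → k) (N : k) (κ r E : ℕ) (t₀ : Fin r → σ) (s : Fin r → F)
    (hsum : ∑ j, ε j • y j ^ κ = algebraMap k K N)
    (hsub : ∀ T : Finset σ, T.Nonempty → ∑ j ∈ T, ε j • y j ^ κ ≠ 0)
    (hD : ∃ j, D (y j) ≠ 0) (ht₀ : Function.Injective t₀)
    (hs : LinearIndependent k fun α : Fin r → ℕ => ∏ a, s a ^ α a)
    (hts : ∀ a, y (t₀ a) = algebraMap F K (s a))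
    (hno : ∀ (L : Fin (r + 1) → σ → ℤ) (j : σ),
      ¬ LI k (fun a => ∑ i, (L a i : K) * y i) (y j) (E + 1)) :
    2 * κ ≤ bnd (Fintype.card σ - (r + 1)) E := by
  classical
  have hk : ∀ (a : k) (x : K), a • x = algebraMap k F a • x := fun a x =>
    (IsScalarTower.algebraMap_smul F a x).symm
  have hdep : ∀ (i j : σ) (n : ℕ), ¬ LinearIndependent F
      fun m : ℕ × Fin (E + 1) => (y i - n * y j) ^ m.1 * y j ^ (m.2 : ℕ) := by
    intro i j n h
    refine hno (Fin.cons (Pi.single i 1 - n • Pi.single j 1) fun a => Pi.single (t₀ a) 1) j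
      (li_of_indep hs (fun a => ?_) ?_)
    · simpa [Pi.single_apply] using hts a
    · simpa [Pi.single_apply, sub_mul] using h
  -- the relation over the constants
  set S : Finset σ := univ.filter fun j => D (y j) ≠ 0 with hS
  have hSne : S.Nonempty := by
    obtain ⟨j, hj⟩ := hD
    exact ⟨j, by simp [hS, hj]⟩
  have hcst : D (∑ j ∈ S, ε j • y j ^ κ) = 0 := by
    have h1 : D (∑ j, ε j • y j ^ κ) = 0 := by
      rw [hsum, IsScalarTower.algebraMap_apply k F K, D.map_algebraMap]
    rw [← h1, map_sum, map_sum]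
    refine Finset.sum_subset (subset_univ _) fun j _ hj => ?_
    have h2 : D (y j) = 0 := by simpa [hS] using hj
    rw [hk, D.map_smul, D.leibniz_pow, h2]
    simp
  obtain ⟨b, hb⟩ := hker _ hcst
  have hb0 : b ≠ 0 := by
    rintro rfl
    exact hsub S hSne (by rw [← hb, map_zero])
  have hone : (1 : K) ∈ Submodule.span F
      (Set.range fun j : {j | D (y j) ≠ 0} => y (j : σ) ^ κ) := by
    have h1 : (1 : K) = b⁻¹ • ∑ j ∈ S, ε j • y j ^ κ := by
      rw [← hb, Algebra.smul_def, ← map_mul, inv_mul_cancel₀ hb0, map_one]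
    rw [h1]
    refine Submodule.smul_mem _ _ (Submodule.sum_mem _ fun j hj => ?_)
    rw [hk]
    exact Submodule.smul_mem _ _ (Submodule.subset_span ⟨⟨j, by simpa [hS] using hj⟩, rfl⟩)
  obtain ⟨M, g, c, hg, hgS, hc, hrel, hli⟩ := exists_rel (fun j => y j ^ κ) _ hone
  have hgD : ∀ i, D (y (g i)) ≠ 0 := hgS
  -- the number of terms
  have hM : M ≤ Fintype.card σ - (r + 1) := by
    have hinj : Function.Injective (Sum.elim g t₀) := by
      refine hg.sumElim ht₀ fun i a h => hgD i ?_
      rw [h, hts, D.map_algebraMap]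
    have := Fintype.card_le_of_injective _ hinj
    simp only [Fintype.card_sum, Fintype.card_fin] at this
    omega
  have htr : ∀ i, Transcendental F (y (g i)) := fun i => transc D (hgD i)
  -- normalised derivation
  let D' : Derivation F K K := (D (y (g 0)))⁻¹ • D
  have hD' : ∀ x, D' x = (D (y (g 0)))⁻¹ * D x := fun x => rfl
  have hD1 : D' (y (g 0)) = 1 := by rw [hD', inv_mul_cancel₀ (hgD 0)]
  have h := hW F K D' M κ (fun i => y (g i)) 0 c (Fin.cons 0 fun _ => E - 1) (fun x hx => by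
    rw [hD', mul_eq_zero] at hx
    exact hker x (hx.resolve_left (inv_ne_zero (hgD 0)))) hD1 hc hrel hli
    (Fin.cases ⟨1, 1, one_ne_zero, one_mem0 _, one_mem0 _, by rw [hD1, one_mul]⟩
      fun i => hB F K D' _ _ E (htr 0) hD1 (hdep _ _))
  simp only [Fin.sum_univ_succ, Fin.cons_zero, Fin.cons_succ, sum_const, card_univ,
    Fintype.card_fin, smul_eq_mul, zero_add] at h
  calc 2 * κ ≤ bnd M E := h.trans_eq (by rw [bnd]; ring)
    _ ≤ _ := by unfold bnd; gcongr

end Deg2

open DegAux in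
theorem deg2 : Bi2Stmt → Wr2Stmt → Deg2Stmt := by
  intro hB hW k K σ _ _ _ _ _ y ε N κ r E t₀ hsum hsub hind hκ
  by_contra hno
  push Not at hno
  obtain ⟨D, hD⟩ := Pool.Agent.MP_c4d8e2_ag.H21.der_exists_of_indep (M := K) hind
    (Fin.cons 1 fun _ => 0)
  have _ : CharZero (Cst D) := algebraRat.charZero _
  have hD0 : ∀ a : Fin r, D (y (t₀ a.succ)) = 0 := fun a => by simpa using hD a.succ
  let s : Fin r → Cst D := fun a => ⟨y (t₀ a.succ), hD0 a⟩
  have hs : LinearIndependent k fun α : Fin r → ℕ => ∏ a, s a ^ α a := by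
    refine LinearIndependent.of_comp (Cst D).val.toLinearMap ?_
    convert mono_indep (hind.comp Fin.succ (Fin.succ_injective r)) using 2 with α
    simp [s]
  have hinj : Function.Injective fun a : Fin r => t₀ a.succ := fun a b h =>
    Fin.succ_injective r (hind.injective (congrArg y h))
  have h := Deg2.core hB hW (Dres D) (fun x hx => ⟨⟨x, hx⟩, rfl⟩) y ε N κ r E (fun a => t₀ a.succ) s
    hsum hsub ⟨t₀ 0, by rw [Dres_apply, hD 0]; simp⟩ hinj hs (fun a => rfl) hno
  omega

end Pool.Agent.MP_4060c9_nt.H98
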