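import Pool.Agent.MP_4060c9_nt.H98.Spec4
import Pool.Agent.MP_c4d8e2_ag.H21.Der

/-!
From the degree bound on the cone to the degree bound for the ratios.
-/

set_option autoImplicit false

namespace Pool.Agent.MP_4060c9_nt.H98

open Finset

namespace Deg3

/-- Multiplying all members but one by that member keeps independence. -/
lemma scale {F L ι : Type} [Field F] [Field L] [Algebra F L] {x x' : ι → L}
    (hx : AlgebraicIndependent F x) (i₀ : ι) (h0 : x' i₀ = x i₀)
    (h : ∀ i, i ≠ i₀ → x' i = x i₀ * x i) : AlgebraicIndependent F x' := by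
  refine algebraicIndependent_of_set_of_finite {i₀} ?_ fun t _ _ i hi hit halg => ?_
  · have h1 : (fun i : ({i₀} : Set ι) => x' i) = x ∘ Subtype.val := by
      funext i
      obtain ⟨i, rfl⟩ := i
      exact h0
    rw [h1]
    exact hx.comp _ Subtype.val_injective
  · have hi' : i ≠ i₀ := hi
    have h1 : ∀ a, a ≠ i → x a ∈ Algebra.adjoin F (x '' {i}ᶜ) := fun a ha =>
      Algebra.subset_adjoin ⟨a, ha, rfl⟩
    refine hx.transcendental_adjoin (s := {i}ᶜ) (i := i) (by simp) ?_
    have hle : Algebra.adjoin F (x' '' t) ≤ Algebra.adjoin F (x '' {i}ᶜ) := by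
      refine Algebra.adjoin_le ?_
      rintro _ ⟨a, ha, rfl⟩
      by_cases h2 : a = i₀
      · rw [h2, h0]
        exact h1 _ hi'.symm
      · rw [h a h2]
        exact mul_mem (h1 _ hi'.symm) (h1 a fun e => hit (e ▸ ha))
    have h2 := halg.tower_top_of_subalgebra_le hle
    rw [h i hi'] at h2
    exact IsAlgebraic.of_mul (mem_nonZeroDivisors_of_ne_zero (hx.ne_zero i₀))
      (isAlgebraic_algebraMap (⟨_, h1 _ hi'.symm⟩ : Algebra.adjoin F (x '' {i}ᶜ))) h2

variable {k K L : Type} [Field k] [Field K] [Field L] [Algebra k K] [Algebra K L] [Algebra k L]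
  [IsScalarTower k K L]

/-- Homogenisation keeps independence. -/
lemma homog {lam : L} (hl : Transcendental K lam) {n : ℕ} {w : Fin n → K}
    (hw : AlgebraicIndependent k w) {x : Fin (n + 1) → L} (h0 : x 0 = lam)
    (h : ∀ a, x a.succ = lam * algebraMap K L (w a)) : AlgebraicIndependent k x := by
  have h1 := hw.sumElim_comp (algebraicIndependent_iff_transcendental.2 hl)
  have h2 := h1.comp (fun a : Fin (n + 1) => (Fin.cases (.inl 0) .inr a : Fin 1 ⊕ Fin n)) (by
    intro a b
    refine Fin.cases ?_ (fun a => ?_) a <;> refine Fin.cases ?_ (fun b => ?_) b <;> simp)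
  refine scale h2 0 h0 fun a ha => ?_
  obtain ⟨a, rfl⟩ := Fin.exists_succ_eq.2 ha
  exact h a

/-- Dehomogenisation of the independent monomials. -/
lemma dehom {j e : ℕ} {T : Fin (j + 1) → L} {Z : L} {τ : Fin j → K} {ζ : K}
    (h1 : ∀ a, T a.succ = T 0 * algebraMap K L (τ a)) (h2 : Z = T 0 * algebraMap K L ζ)
    (h : LI k T Z e) : LI k τ ζ e := by
  refine linearIndependent_iff'.2 fun s g hg => ?_
  obtain ⟨D, hD⟩ : ∃ D, ∀ m ∈ s, dg m.1 ≤ D :=
    ⟨s.sup fun m => dg m.1, fun m hm => le_sup (f := fun m : {m : Ix j // m.2 < e} => dg m.1) hm⟩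
  have h3 := LinearIndependent.comp h
    (fun m : {m : Ix j // m.2 < e} => ⟨(Fin.cons (D - dg m.1) m.1.1, m.1.2), m.2⟩) (by
      intro m m' hm
      have h4 := Prod.mk.inj (Subtype.mk.inj hm)
      exact Subtype.ext (Prod.ext (Fin.cons_injective2 h4.1).2 h4.2))
  refine linearIndependent_iff'.1 h3 s g ?_
  have h4 := congrArg (fun x => T 0 ^ D * algebraMap K L x) hg
  simp only [map_sum, map_zero, mul_zero, mul_sum] at h4
  refine (sum_congr rfl fun m hm => ?_).trans h4
  obtain ⟨q, hq⟩ := Nat.exists_eq_add_of_le (hD m hm)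
  rw [Algebra.smul_def, Algebra.smul_def, map_mul, ← IsScalarTower.algebraMap_apply, mul_left_comm]
  simp only [Function.comp_apply, mon, Fin.prod_univ_succ, Fin.cons_zero, Fin.cons_succ, h1, h2,
    hq, Nat.add_sub_cancel_left, dg, mul_pow, prod_mul_distrib, prod_pow_eq_pow_sum, map_mul,
    map_prod, map_pow, pow_add]
  ring

open Pool.Agent.MP_c4d8e2_ag.H21 in
lemma core (hC : CdStmt) [CharZero k] [CharZero K] [CharZero L] {σ : Type} [Fintype σ] {lam : L}
    (hl : Transcendental K lam) (hK : ∀ x : L, IsAlgebraic K x → x ∈ Set.range (algebraMap K L))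
    (hk : ∀ c : K, IsAlgebraic k c → c ∈ Set.range (algebraMap k K)) (y : σ → K) (j₀ : σ)
    (ε : σ → ℤ) (κ d j E : ℕ) (s : Fin d → σ) (t : Fin j → σ) (h1 : y j₀ = 1) (hκ : 0 < κ)
    (h2 : ∑ i, (ε i : K) * y i ^ κ = 0)
    (h3 : ∀ S : Finset σ, S.Nonempty → S ≠ univ → ∑ i ∈ S, (ε i : K) * y i ^ κ ≠ 0)
    (hs : AlgebraicIndependent ℚ (fun a => y (s a))) (ht : AlgebraicIndependent k fun a => y (t a))
    (ha : ∀ i, ¬ AlgebraicIndependent k fun o : Option (Fin j) => o.elim (y i) fun a => y (t a))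
    (hj : 0 < j) (hG : Good (Fintype.card σ) κ d j E) :
    ∃ (N : Fin (j + 1) → σ → ℤ) (n : σ → ℤ), fm y (N 0) ≠ 0 ∧
      LI k (fun a : Fin j => fm y (N a.succ) / fm y (N 0)) (fm y n / fm y (N 0)) (E + 1) := by
  have hφ := (algebraMap K L).injective
  have hl0 : lam ≠ 0 := fun e => hl (e ▸ isAlgebraic_zero)
  obtain ⟨D, hD⟩ := der_exists_of_indep (M := L)
    (algebraicIndependent_iff_transcendental.2 hl) fun _ => lam
  obtain ⟨u, hu⟩ : ∃ u : σ → L, ∀ i, u i = lam * algebraMap K L (y i) := ⟨_, fun _ => rfl⟩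
  have hu0 : u j₀ = lam := by rw [hu, h1, map_one, mul_one]
  have hsum : ∀ S : Finset σ, ∑ i ∈ S, (ε i : L) * u i ^ κ =
      lam ^ κ * algebraMap K L (∑ i ∈ S, (ε i : K) * y i ^ κ) := fun S => by
    rw [map_sum, mul_sum]
    refine sum_congr rfl fun i _ => ?_
    rw [hu, map_mul, map_intCast, map_pow]
    ring
  have hfm : ∀ n, fm u n = lam * algebraMap K L (fm y n) := fun n => by
    rw [fm, fm, map_sum, mul_sum]
    refine sum_congr rfl fun i _ => ?_
    rw [hu, map_mul, map_intCast]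
    ring
  have halg : ∀ i, IsAlgebraic (Algebra.adjoin k
      (Set.range fun a => u ((Fin.cons j₀ t : Fin (j + 1) → σ) a))) (u i) := fun i => by
    have h4 : IsAlgebraic (Algebra.adjoin k (Set.range fun a => algebraMap K L (y (t a))))
        (algebraMap K L (y i)) := by
      by_contra h5
      have h6 := ((ht.map' (f := IsScalarTower.toAlgHom k K L) hφ).option_iff_transcendental
        (algebraMap K L (y i))).2 h5
      refine ha i (AlgebraicIndependent.of_comp (IsScalarTower.toAlgHom k K L) ?_)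
      refine (congrArg (fun x => AlgebraicIndependent k x) (funext fun o => ?_)).mp h6
      rcases o with _ | o <;> rfl
    rw [← IntermediateField.isAlgebraic_adjoin_iff]
    have h5 : ∀ a, u ((Fin.cons j₀ t : Fin (j + 1) → σ) a) ∈ IntermediateField.adjoin k
        (Set.range fun a => u ((Fin.cons j₀ t : Fin (j + 1) → σ) a)) := fun a =>
      IntermediateField.subset_adjoin _ _ ⟨a, rfl⟩
    generalize IntermediateField.adjoin k
      (Set.range fun a => u ((Fin.cons j₀ t : Fin (j + 1) → σ) a)) = F at h5 ⊢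
    have h6 : lam ∈ F := hu0 ▸ h5 0
    have h7 : IsAlgebraic F (algebraMap K L (y i)) := by
      refine h4.tower_top_of_subalgebra_le (B := F.toSubalgebra) (Algebra.adjoin_le ?_)
      rintro _ ⟨a, rfl⟩
      have h8 := div_mem (h5 a.succ) h6
      rwa [Fin.cons_succ, hu, mul_div_cancel_left₀ _ hl0] at h8
    rw [hu]
    exact (isAlgebraic_algebraMap (⟨lam, h6⟩ : F)).mul h7
  obtain ⟨N, n, hN⟩ := hC k L σ u (D.restrictScalars k) ε κ d j E (Fin.cons j₀ s) (Fin.cons j₀ t)
    (fun x hx => by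
      obtain ⟨c, rfl⟩ := hK x (hx.extendScalars (algebraMap k K).injective)
      obtain ⟨b, rfl⟩ := hk c ((isAlgebraic_algebraMap_iff hφ).1 hx)
      exact ⟨b, IsScalarTower.algebraMap_apply _ _ _ _⟩)
    (fun i => by
      rw [Derivation.restrictScalars_apply, hu, Derivation.leibniz, Derivation.map_algebraMap,
        show D lam = lam from hD 0, smul_zero, zero_add, smul_eq_mul, mul_comm])
    hκ (by rw [hsum, h2, map_zero, mul_zero])
    (fun S h4 h5 => by
      rw [hsum]
      exact mul_ne_zero (pow_ne_zero _ hl0) ((map_ne_zero _).2 (h3 S h4 h5)))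
    (homog hl hs hu0 fun a => hu _) (homog hl ht hu0 fun a => hu _) halg hj hG
  have h4 : fm y (N 0) ≠ 0 := fun e => by
    refine hN.ne_zero ⟨(Pi.single 0 1, 0), Nat.succ_pos _⟩ ?_
    simp [mon, Fin.prod_univ_succ, hfm, e]
  have h5 := (map_ne_zero (algebraMap K L)).2 h4
  refine ⟨N, n, h4, dehom (fun a => ?_) ?_ hN⟩
  · rw [hfm, hfm, map_div₀, mul_assoc, mul_div_cancel₀ _ h5]
  · rw [hfm, hfm, map_div₀, mul_assoc, mul_div_cancel₀ _ h5]

end Deg3

theorem deg3 (hC : CdStmt) : Deg3Stmt := by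
  intro K σ _ _ _ k y j₀ ε κ d j E s hk h1 hκ h2 h3 hs hT hj hG
  obtain ⟨t, ht⟩ := hT.1
  refine Deg3.core (L := RatFunc K) hC (lam := RatFunc.X) RatFunc.transcendental_X
    (fun x hx => ?_) (fun c hc => ⟨⟨c, hk c hc⟩, rfl⟩) y j₀ ε κ d j E s t h1 hκ h2 h3 hs ht
    (fun i hi => ?_) hj hG
  · by_contra h4
    exact RatFunc.transcendental_of_ne_C x (fun ⟨c, e⟩ => h4 ⟨c, e.symm⟩) hx
  · refine hT.2 _ (fun a => ?_) (hi.comp _ (finSuccEquiv j).injective)
    rcases e : finSuccEquiv j a with _ | b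
    · simpa [e] using Subring.subset_closure (Set.mem_range_self i)
    · simpa [e] using Subring.subset_closure (Set.mem_range_self (t b))

end Pool.Agent.MP_4060c9_nt.H98
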