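import Pool.Agent.MP_4060c9_nt.H98.Spec4
import Pool.Agent.MP_c4d8e2_ag.H21.Der

/-!
The derivations of the constants and of the coordinates.
-/

set_option autoImplicit false

namespace Pool.Agent.MP_4060c9_nt.H98

open Finset Pool.Agent.MP_c4d8e2_ag.H21

namespace Der2P

theorem span_top {L J : Type} [Field L] {n : ℕ} (ρ : J → Fin n → L)
    (hsp : ∀ c : Fin n → L, (∀ j, ∑ l, c l * ρ j l = 0) → c = 0) :
    Submodule.span L (Set.range ρ) = ⊤ := by
  by_contra hne
  obtain ⟨g, hg0, hg⟩ := Submodule.exists_le_ker_of_lt_top _ (lt_top_iff_ne_top.mpr hne)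
  apply hg0
  have hc := hsp (fun l => g (Pi.single l 1)) fun j => by
    have h1 : g (ρ j) = 0 := hg (Submodule.subset_span ⟨j, rfl⟩)
    rw [LinearMap.pi_apply_eq_sum_univ] at h1
    rw [← h1]
    refine sum_congr rfl fun l _ => ?_
    rw [smul_eq_mul, mul_comm]
    congr 2
    funext m
    simp [Pi.single_apply, eq_comm]
  ext l
  simpa using congrFun hc l

open Classical in
theorem dual {L ι : Type} [Field L] [CharZero L] {v : ι → L} (hv : IsTranscendenceBasis ℚ v) :
    ∃ d : ι → Derivation ℚ L L, (∀ i j, d i (v j) = if j = i then 1 else 0) ∧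
      ∀ (n : ℕ) (x : Fin n → L), AlgebraicIndependent ℚ x →
        Submodule.span L (Set.range fun i q => d i (x q)) = ⊤ := by
  obtain ⟨b, hb⟩ := kaehler_basis hv
  refine ⟨fun i => (b.coord i).compDer (KaehlerDifferential.D ℚ L), fun i j => ?_,
    fun n x hx => span_top _ fun c hc => ?_⟩
  · change b.coord i (KaehlerDifferential.D ℚ L (v j)) = _
    rw [← hb]
    simp [Finsupp.single_apply]
  · have h1 : ∑ l, c l • KaehlerDifferential.D ℚ L (x l) = 0 :=
      b.ext_elem fun i => by simpa using hc i
    funext l
    obtain ⟨G, hG⟩ := der_exists_of_indep (M := L) hx (fun m => if m = l then 1 else 0)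
    have h2 := congrArg G.liftKaehlerDifferential h1
    simpa [hG] using h2

end Der2P

open Der2P in
theorem der2 : DerStmt := by
  classical
  intro k L _ _ _ _ _ r T hT ha
  obtain ⟨B, hB⟩ := exists_isTranscendenceBasis ℚ k
  have hv := hB.sumElim_comp (hT.isTranscendenceBasis_iff_isAlgebraic.2 ha)
  obtain ⟨d, hd, hsp⟩ := dual hv
  have h1 : ∀ i a, d i (T a) = if Sum.inl a = i then 1 else 0 := fun i a => by
    convert hd i (.inl a)
    rfl
  have h2 : ∀ i (b : B), d i (algebraMap k L b) = if Sum.inr b = i then 1 else 0 := fun i b => by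
    convert hd i (.inr b)
    rfl
  have hsp' : ∀ (n : ℕ) (x : Fin n → L), AlgebraicIndependent ℚ x →
      Submodule.span L (Set.range fun (w : B ⊕ Fin r) q => d w.swap (x q)) = ⊤ := fun n x hx => by
    rw [← hsp n x hx]
    exact congrArg _ ((Equiv.sumComm _ _).surjective.range_comp fun i q => d i (x q))
  refine ⟨B, fun w => d w.swap, fun w c => ?_, fun w a => by simp [h1], fun a c => ?_,
    fun b a => by simp [h1], fun x hx => ?_, hsp', fun E hE => ⟨fun w x => ?_, fun a x => ?_⟩⟩
  · obtain ⟨G, hG⟩ := der_exists (M := k) hB (fun i => if i = w then 1 else 0)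
    have : (d (.inr w)).compAlgebraMap k = (Algebra.linearMap k L).compDer G :=
      der_ext hB fun i => by
        change d (.inr w) (algebraMap k L i) = algebraMap k L (G i)
        rw [h2, hG]
        simp
    exact ⟨G c, (Derivation.congr_fun this c).symm⟩
  · have : (d (.inl a)).compAlgebraMap k = 0 := der_ext hB fun i => by
      change d (.inl a) (algebraMap k L i) = 0
      simp [h2]
    exact Derivation.congr_fun this c
  · by_contra hn
    have h3 := hsp' 1 ![x] (algebraicIndependent_iff_transcendental.2 hn)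
    have h4 : Submodule.span L (Set.range fun (w : B ⊕ Fin r) (q : Fin 1) =>
        d w.swap (![x] q)) = ⊥ := by
      rw [Submodule.span_eq_bot]
      rintro _ ⟨w, rfl⟩
      funext q
      simpa using hx w
    exact absurd (h4.symm.trans h3) bot_ne_top
  · have : ⁅E.restrictScalars ℚ, d (.inr w)⁆ = 0 := der_ext hv <| by
      rintro (a | b)
      · simp [Derivation.commutator_apply, h1, hE]
      · simp [Derivation.commutator_apply, h2, apply_ite E]
    exact sub_eq_zero.1 (Derivation.congr_fun this x)
  · have : ⁅E.restrictScalars ℚ, d (.inl a)⁆ = -d (.inl a) := der_ext hv <| by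
      rintro (a' | b)
      · simp [Derivation.commutator_apply, h1, hE, apply_ite E]
      · simp [Derivation.commutator_apply, h2]
    have h3 : E (d (.inl a) x) - d (.inl a) (E x) = -d (.inl a) x := Derivation.congr_fun this x
    change E (d (.inl a) x) = d (.inl a) (E x) - d (.inl a) x
    linear_combination h3

end Pool.Agent.MP_4060c9_nt.H98
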