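import Pool.Agent.MP_4060c9_nt.H98.Spec

/-!
The determinant method in one residue class.
-/

set_option autoImplicit false

namespace Pool.Agent.MP_4060c9_nt.H98

open Finset

namespace Det

/-- The exponents of degree at most `s`. -/
theorem simplex (r s : ℕ) : ∃ S : Finset (Fin r → ℕ), S.card = (s + r).choose r ∧
    (r + 1) * ∑ α ∈ S, ∑ i, α i = r * s * S.card := by
  let T : Finset (Fin (r + 1) → ℕ) := piAntidiag univ s
  have hT : ∀ β, β ∈ T ↔ ∑ i, β i = s := fun β => by simp [T]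
  have h1 : T.card = (s + r).choose r := by
    have := card_finsuppAntidiag_nat_eq_choose (s := (univ : Finset (Fin (r + 1)))) s
    rw [finsuppAntidiag, card_map, card_attach, card_univ, Fintype.card_fin] at this
    rw [this, show r + 1 + s - 1 = s + r by omega, Nat.choose_symm_add]
  have h2 : Set.InjOn (fun β : Fin (r + 1) → ℕ => Fin.tail β) T := by
    intro β hβ γ hγ e
    have e1 := (hT β).1 hβ
    have e2 := (hT γ).1 hγ
    have e3 : ∀ i : Fin r, β i.succ = γ i.succ := fun i => congrFun e i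
    rw [Fin.sum_univ_succ] at e1 e2
    simp only [e3] at e1
    funext i
    refine Fin.cases ?_ e3 i
    omega
  have h3 : ∀ j, ∑ β ∈ T, β j = ∑ β ∈ T, β 0 := fun j => by
    have h4 : ∀ β ∈ T, β ∘ Equiv.swap 0 j ∈ T := fun β hβ => by
      rw [hT] at hβ ⊢
      exact (Equiv.sum_comp (Equiv.swap 0 j) β).trans hβ
    refine sum_nbij' (fun β => β ∘ Equiv.swap 0 j) (fun β => β ∘ Equiv.swap 0 j) h4 h4
      (fun β _ => ?_) (fun β _ => ?_) fun β _ => by simp
    all_goals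
      funext i
      simp
  have h4 : (r + 1) * ∑ β ∈ T, β 0 = s * T.card := by
    have : ∑ β ∈ T, ∑ i, β i = s * T.card := by
      rw [sum_congr rfl fun β hβ => (hT β).1 hβ, sum_const, smul_eq_mul, mul_comm]
    rw [← this, sum_comm]
    simp [h3]
  refine ⟨T.image fun β => Fin.tail β, (card_image_of_injOn h2).trans h1, ?_⟩
  rw [sum_image h2, card_image_of_injOn h2, sum_comm, mul_assoc, ← h4]
  simp only [Fin.tail, h3, sum_const, card_univ, Fintype.card_fin, smul_eq_mul]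
  ring

theorem choose_le {l : ℝ} (hl : 1 ≤ l) {q s : ℕ} (h : (q : ℝ) ≤ l * s) (r : ℕ) :
    ((q + r).choose r : ℝ) ≤ l ^ r * (s + r).choose r := by
  induction r with
  | zero => simp
  | succ r ih =>
    have e : ∀ n : ℕ, ((n + (r + 1)).choose (r + 1) : ℝ) * (r + 1)
        = (n + r + 1) * (n + r).choose r := fun n => by
      exact_mod_cast (Nat.add_one_mul_choose_eq (n + r) r).symm
    have hr : (0 : ℝ) < r + 1 := by positivity
    refine le_of_mul_le_mul_right ?_ hr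
    rw [e, mul_assoc, e]
    have h1 : (q : ℝ) + r + 1 ≤ l * (s + r + 1) := by nlinarith
    calc _ ≤ (l * (s + r + 1)) * (l ^ r * (s + r).choose r) := by gcongr
      _ = _ := by ring

/-- The choice of the monomials. -/
theorem param (r e : ℕ) (a : ℝ) (hr : 0 < r) (ha : 0 < a) (he : 1 < a ^ r * e) :
    ∃ (B : Finset (Ix r)) (q : ℕ), (∀ m ∈ B, m.2 < e) ∧
      ((∑ m ∈ B, (∑ i, m.1 i + m.2) : ℕ) : ℝ)
        < a * ((q * B.card - (q + r).choose (r + 1) : ℕ) : ℝ) := by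
  have he0 : 0 < e := Nat.pos_of_ne_zero (by rintro rfl; norm_num at he)
  have he1 : (1 : ℝ) ≤ e := by exact_mod_cast he0
  have hr' : (0 : ℝ) < r := by exact_mod_cast hr
  obtain ⟨l, hl, hle⟩ : ∃ l : ℝ, 1 ≤ l ∧ l ^ r = e :=
    ⟨(e : ℝ) ^ (r : ℝ)⁻¹, Real.one_le_rpow he1 (by positivity),
      Real.rpow_inv_natCast_pow (by positivity) hr.ne'⟩
  have hal : 1 < a * l := by
    rw [← hle, ← mul_pow] at he
    exact (one_lt_pow_iff_of_nonneg (by positivity) hr.ne').1 he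
  obtain ⟨s, hs⟩ := exists_nat_ge ((a * r + e * (r + 1)) / ((a * l - 1) * r))
  rw [div_le_iff₀ (mul_pos (by linarith) hr')] at hs
  obtain ⟨S, hS, hS'⟩ := simplex r s
  let q := ⌊l * s⌋₊
  have hq : (q : ℝ) ≤ l * s := Nat.floor_le (by positivity)
  have hq' : l * s < q + 1 := Nat.lt_floor_add_one _
  refine ⟨S ×ˢ range e, q, fun m hm => mem_range.1 (mem_product.1 hm).2, ?_⟩
  have hN : (0 : ℝ) < S.card := by
    rw [hS]
    exact_mod_cast Nat.choose_pos (Nat.le_add_left _ _)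
  have h1 : ∑ m ∈ S ×ˢ range e, (∑ i, m.1 i + m.2) ≤ e * (∑ α ∈ S, ∑ i, α i) + e * (S.card * e) := by
    rw [sum_product_right, ← mul_add]
    refine (sum_le_card_nsmul _ _ (∑ α ∈ S, ∑ i, α i + S.card * e) fun b hb => ?_).trans (by simp)
    rw [sum_add_distrib]
    simp only [sum_const, smul_eq_mul]
    gcongr
    exact (mem_range.1 hb).le
  have h2 : ((q + r).choose (r + 1) : ℝ) * (r + 1) = (q + r).choose r * q := by
    have := Nat.choose_succ_right_eq (q + r) r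
    rw [Nat.add_sub_cancel] at this
    exact_mod_cast this
  have h3 := choose_le hl hq r
  rw [hle, ← hS] at h3
  have h4 : (q : ℝ) * (S.card * e) - (q + r).choose (r + 1)
      ≤ ((q * (S ×ˢ range e).card - (q + r).choose (r + 1) : ℕ) : ℝ) := by
    rw [card_product, card_range, sub_le_iff_le_add]
    exact_mod_cast le_tsub_add
  have h5 : ((r : ℝ) + 1) * ((∑ α ∈ S, ∑ i, α i : ℕ) : ℝ) = r * s * S.card := by
    exact_mod_cast hS'
  have h6 : ((∑ m ∈ S ×ˢ range e, (∑ i, m.1 i + m.2) : ℕ) : ℝ)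
      ≤ e * ((∑ α ∈ S, ∑ i, α i : ℕ) : ℝ) + e * (S.card * e) := by exact_mod_cast h1
  refine h6.trans_lt (lt_of_lt_of_le ?_ (mul_le_mul_of_nonneg_left h4 ha.le))
  have hr1 : (0 : ℝ) < r + 1 := by positivity
  refine lt_of_mul_lt_mul_left ?_ hr1.le
  have h7 : (r : ℝ) * s + e * (r + 1) < a * q * r := by
    have := mul_lt_mul_of_pos_left hq' (mul_pos ha hr')
    nlinarith
  have h8 : ((q + r).choose r : ℝ) * q ≤ e * S.card * q := by gcongr
  have h9 := mul_lt_mul_of_pos_left h7 (mul_pos (lt_of_lt_of_le one_pos he1) hN)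
  have h10 := mul_le_mul_of_nonneg_left h8 ha.le
  calc _ = e * (((r : ℝ) + 1) * ((∑ α ∈ S, ∑ i, α i : ℕ) : ℝ)) + e * (S.card * e) * (r + 1) := by
        ring
    _ < a * (q * (S.card * e)) * (r + 1) - a * ((q + r).choose r * q) := by
        rw [h5]
        linarith
    _ = _ := by
        rw [← h2]
        ring

theorem lin {ι : Type} [Fintype ι] [DecidableEq ι] (X : Set (ι → ℚ))
    (h : ∀ x : ι → ι → ℚ, (∀ j, x j ∈ X) → (Matrix.of fun i j => x j i).det = 0) :
    ∃ d : ι → ℚ, (∃ i, d i ≠ 0) ∧ ∀ v ∈ X, ∑ i, d i * v i = 0 := by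
  rcases (le_top : Submodule.span ℚ X ≤ ⊤).eq_or_lt with hX | hX
  · obtain ⟨b, hb, hb', hl⟩ := exists_linearIndependent ℚ X
    let β : Module.Basis b ℚ (ι → ℚ) := .mk hl (by rw [Subtype.range_coe, hb', hX])
    let e := (Pi.basisFun ℚ ι).indexEquiv β
    have h1 : IsUnit (Matrix.of fun i j => (e j).1 i) :=
      Matrix.linearIndependent_cols_iff_isUnit.1 (hl.comp e e.injective)
    exact absurd (h _ fun j => hb (e j).2) ((Matrix.isUnit_iff_isUnit_det _).1 h1).ne_zero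
  · obtain ⟨f, hf, hf'⟩ := Submodule.exists_le_ker_of_lt_top _ hX
    have h1 : ∀ v, f v = ∑ i, f (fun j => if i = j then 1 else 0) * v i := fun v => by
      rw [LinearMap.pi_apply_eq_sum_univ]
      simp [mul_comm]
    refine ⟨fun i => f fun j => if i = j then 1 else 0, ?_,
      fun v hv => (h1 v).symm.trans (hf' (Submodule.subset_span hv))⟩
    by_contra h2
    push Not at h2
    exact hf (LinearMap.ext fun v => by simp [h1 v, h2])

theorem det_le {ι : Type} [Fintype ι] [DecidableEq ι] (A : Matrix ι ι ℤ) (w : ι → ℝ)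
    (h : ∀ i j, ((|A i j| : ℤ) : ℝ) ≤ w i) :
    ((|A.det| : ℤ) : ℝ) ≤ (Fintype.card ι).factorial * ∏ i, w i := by
  rw [Matrix.det_apply']
  push_cast at h ⊢
  refine (abs_sum_le_sum_abs _ _).trans ((sum_le_card_nsmul _ _ (∏ i, w i) fun σ _ => ?_).trans ?_)
  · rw [abs_mul, abs_prod, ← Equiv.prod_comp σ w]
    have : |(((Equiv.Perm.sign σ : ℤˣ) : ℤ) : ℝ)| = 1 := by
      rcases Int.units_eq_one_or (Equiv.Perm.sign σ) with e | e <;> simp [e]
    rw [this, one_mul]
    exact prod_le_prod (fun _ _ => abs_nonneg _) fun i _ => h _ _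
  · simp [Fintype.card_perm]

theorem mon_le {r : ℕ} {t : Fin r → ℤ} {z : ℤ} {H : ℝ} (ht : ∀ i, (|t i| : ℝ) ≤ H)
    (hz : (|z| : ℝ) ≤ H) (m : Ix r) : ((|mon t z m| : ℤ) : ℝ) ≤ H ^ (∑ i, m.1 i + m.2) := by
  have h0 : 0 ≤ H := (abs_nonneg _).trans hz
  rw [mon, pow_add, ← prod_pow_eq_pow_sum]
  push_cast
  rw [abs_mul, abs_prod, abs_pow]
  gcongr with i
  rw [abs_pow]
  gcongr
  exact ht i

end Det

theorem det (hd : DivStmt) : DetStmt := by
  classical
  intro r e a hr ha he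
  obtain ⟨B, q, hB, hq⟩ := Det.param r e a hr ha he
  set δ := ∑ m ∈ B, (∑ i, m.1 i + m.2) with hδ
  set ν := q * B.card - (q + r).choose (r + 1) with hν
  obtain ⟨H₀, hH⟩ := Filter.eventually_atTop.1 (((tendsto_rpow_atTop (sub_pos.2 hq)).eventually_gt_atTop
    (B.card.factorial : ℝ)).and (Filter.eventually_gt_atTop 0))
  refine ⟨B, H₀, hB, fun H p M c τ ζ h1 h2 h3 => ?_⟩
  obtain ⟨h4, h5⟩ := hH H h1
  obtain ⟨d, ⟨i, hi⟩, hd'⟩ := Det.lin {v : B → ℚ | ∃ (t : Fin r → ℤ) (z : ℤ),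
      (∀ i, (|t i| : ℝ) ≤ H) ∧ (|z| : ℝ) ≤ H ∧ (∀ i, t i ≡ τ i [ZMOD p]) ∧ z ≡ ζ [ZMOD p] ∧
      Gv M c t z = 0 ∧ v = fun m => mon (fun i => (t i : ℚ)) (z : ℚ) m.1} fun x hx => by
    choose t z k1 k2 k3 k4 k5 k6 using hx
    have k7 := hd r p q M c τ ζ B t z Subtype.val h3 k3 k4 k5
    have k8 := Det.det_le (Matrix.of fun (i j : B) => mon (t j) (z j) i.1)
      (fun i => H ^ (∑ b, i.1.1 b + i.1.2)) fun i j => Det.mon_le (k1 j) (k2 j) i.1
    rw [prod_pow_eq_pow_sum, sum_coe_sort B fun m => ∑ b, m.1 b + m.2, ← hδ,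
      Fintype.card_coe] at k8
    rw [Fintype.card_coe, ← hν] at k7
    have k9 : (B.card.factorial : ℝ) * H ^ δ < (p : ℝ) ^ ν :=
      calc _ < H ^ (a * ν - δ) * H ^ δ := by gcongr
        _ = (H ^ a) ^ ν := by
          rw [← Real.rpow_natCast H δ, ← Real.rpow_add h5, sub_add_cancel,
            Real.rpow_mul_natCast h5.le]
        _ ≤ _ := by gcongr
    have k10 := Int.eq_zero_of_abs_lt_dvd k7 (by exact_mod_cast k8.trans_lt k9)
    have k11 := RingHom.map_det (Int.castRingHom ℚ) (Matrix.of fun (i j : B) => mon (t j) (z j) i.1)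
    rw [k10, map_zero] at k11
    rw [k11]
    congr 1
    ext i j
    rw [Matrix.of_apply, k6 j, RingHom.mapMatrix_apply, Matrix.map_apply, Matrix.of_apply, map_mon]
    rfl
  refine ⟨fun m => if h : m ∈ B then d ⟨m, h⟩ else 0, ⟨i.1, i.2, by simpa using hi⟩,
    fun t z k1 k2 k3 k4 k5 => ?_⟩
  rw [Gv, ← sum_coe_sort, ← hd' _ ⟨t, z, k1, k2, k3, k4, k5, rfl⟩]
  exact sum_congr rfl fun m _ => by rw [dif_pos m.2]

end Pool.Agent.MP_4060c9_nt.H98
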