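import Pool.Agent.MP_4060c9_nt.H98.Spec

/-!
Divisibility of the determinant of monomials at points of one residue class.
-/

set_option autoImplicit false

namespace Pool.Agent.MP_4060c9_nt.H98

open Finset

namespace Div

variable {r : ℕ}

lemma taylor (M : Finset (Ix r)) (c : Ix r → ℤ) (t : Fin r → ℤ) (x y : ℤ) :
    y ^ 2 ∣ Gv M c t (x + y) - Gd M c t x * y - Gv M c t x := by
  unfold Gv Gd
  rw [sum_mul, ← sum_sub_distrib, ← sum_sub_distrib]
  refine dvd_sum fun m _ => ?_
  have h := (sq_dvd_add_pow_sub_sub y x m.2).mul_left (c m * ∏ a, t a ^ m.1 a)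
  convert h using 1
  unfold mon dmon
  ring

lemma gd_congr (p : ℕ) (M : Finset (Ix r)) (c : Ix r → ℤ) {t τ : Fin r → ℤ} {x ζ : ℤ}
    (ht : ∀ a, t a ≡ τ a [ZMOD p]) (hx : x ≡ ζ [ZMOD p]) : Gd M c t x ≡ Gd M c τ ζ [ZMOD p] := by
  rw [← ZMod.intCast_eq_intCast_iff]
  have h1 := map_Gd (Int.castRingHom (ZMod p)) M c t x
  have h2 := map_Gd (Int.castRingHom (ZMod p)) M c τ ζ
  simp only [eq_intCast] at h1 h2
  rw [h1, h2, (ZMod.intCast_eq_intCast_iff _ _ _).2 hx]
  congr 1
  funext a
  exact (ZMod.intCast_eq_intCast_iff _ _ _).2 (ht a)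

lemma newton (p : ℕ) (M : Finset (Ix r)) (c : Ix r → ℤ) (τ : Fin r → ℤ) (ζ : ℤ) {ι : Type}
    (t : ι → Fin r → ℤ) (z : ι → ℤ) (hc : IsCoprime (Gd M c τ ζ) p)
    (ht : ∀ j a, t j a ≡ τ a [ZMOD p]) (hz : ∀ j, z j ≡ ζ [ZMOD p])
    (h0 : ∀ j, Gv M c (t j) (z j) = 0) (ν : ℕ) :
    ∃ φ : MvPolynomial (Fin r) ℤ, ∀ j,
      (p : ℤ) ^ (ν + 1) ∣ z j - MvPolynomial.eval (fun a => t j a - τ a) φ := by
  obtain ⟨u, w, huw⟩ := hc
  induction ν with
  | zero =>
    refine ⟨MvPolynomial.C ζ, fun j => ?_⟩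
    rw [MvPolynomial.eval_C, zero_add, pow_one]
    exact (hz j).symm.dvd
  | succ ν ih =>
    obtain ⟨φ, hφ⟩ := ih
    refine ⟨φ - MvPolynomial.C u * Gv M (fun m => MvPolynomial.C (c m))
      (fun a => MvPolynomial.X a + MvPolynomial.C (τ a)) φ, fun j => ?_⟩
    rw [map_sub, map_mul, map_Gv]
    simp only [MvPolynomial.eval_C, map_add, MvPolynomial.eval_X, sub_add_cancel]
    set x := MvPolynomial.eval (fun a => t j a - τ a) φ
    have hy := hφ j
    set y := z j - x with hyd
    have hpy : (p : ℤ) ∣ y := (dvd_pow_self (p : ℤ) (Nat.succ_ne_zero ν)).trans hy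
    obtain ⟨k, hk⟩ := taylor M c (t j) x y
    rw [show x + y = z j by rw [hyd]; ring, h0 j] at hk
    have hx : x ≡ ζ [ZMOD p] := by
      refine Int.ModEq.trans ?_ (hz j)
      exact Int.modEq_iff_dvd.2 hpy
    obtain ⟨l, hl⟩ := (gd_congr p M c (ht j) hx).dvd
    have e : z j - (x - u * Gv M c (fun a => t j a) x) = y * (w * p + u * (p * l) - u * k * y) := by
      have h1 : Gv M c (fun a => t j a) x = -(Gd M c (t j) x * y) - y ^ 2 * k := by
        change Gv M c (t j) x = _
        linear_combination -hk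
      rw [h1, ← hl]
      linear_combination hyd - y * huw
    rw [e, pow_succ]
    refine mul_dvd_mul hy (dvd_sub (dvd_add (dvd_mul_left _ _) ?_) (hpy.mul_left _))
    exact (dvd_mul_right _ _).mul_left _

lemma count {ι : Type} [Fintype ι] (g : ι → Fin r →₀ ℕ) (hg : Function.Injective g) (q : ℕ) :
    #{i | ∑ a, g i a ≤ q} ≤ (q + r).choose r := by
  classical
  have h : #((univ : Finset (Fin (r + 1))).finsuppAntidiag q) = (q + r).choose r := by
    rw [card_finsuppAntidiag_nat_eq_choose, card_univ, Fintype.card_fin,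
      show r + 1 + q - 1 = q + r by omega, Nat.choose_symm_add]
  rw [← h]
  refine card_le_card_of_injOn (fun i => (g i).cons (q - ∑ a, g i a)) (fun i hi => ?_)
    (fun i _ j _ e => hg ?_)
  · have hi' : ∑ a, g i a ≤ q := (mem_filter.1 hi).2
    rw [mem_coe, mem_finsuppAntidiag]
    refine ⟨?_, subset_univ _⟩
    rw [Fin.sum_univ_succ]
    simp only [Finsupp.cons_zero, Finsupp.cons_succ]
    omega
  · have := congrArg Finsupp.tail e
    simpa only [Finsupp.tail_cons] using this

lemma lower {ι : Type} [Fintype ι] (g : ι → Fin r →₀ ℕ) (hg : Function.Injective g) (q : ℕ) :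
    q * Fintype.card ι - (q + r).choose (r + 1) ≤ ∑ i, ∑ a, g i a := by
  have key : q * Fintype.card ι ≤ ∑ i, min (∑ a, g i a) q + (q + r).choose (r + 1) := by
    induction q with
    | zero => simp
    | succ q ih =>
      have h1 := count g hg q
      have h2 : ∑ i, min (∑ a, g i a) q + Fintype.card ι =
          ∑ i, min (∑ a, g i a) (q + 1) + #{i | ∑ a, g i a ≤ q} := by
        rw [card_filter, ← card_univ, card_eq_sum_ones, ← sum_add_distrib, ← sum_add_distrib]
        refine sum_congr rfl fun i _ => ?_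
        split_ifs <;> omega
      rw [show q + 1 + r = q + r + 1 by omega, Nat.choose_succ_succ', add_mul]
      omega
  have h3 : ∑ i, min (∑ a, g i a) q ≤ ∑ i, ∑ a, g i a := sum_le_sum fun i _ => min_le_left _ _
  omega

lemma det_mon (p : ℤ) (q : ℕ) {ι : Type} [Fintype ι] [DecidableEq ι] (v : ι → Fin r → ℤ)
    (hv : ∀ j a, p ∣ v j a) (g : ι → Fin r →₀ ℕ) :
    p ^ (q * Fintype.card ι - (q + r).choose (r + 1)) ∣
      (Matrix.of fun i j => ∏ a, v j a ^ g i a).det := by
  by_cases hg : Function.Injective g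
  · choose w hw using hv
    have e : (Matrix.of fun i j => ∏ a, v j a ^ g i a) =
        Matrix.of fun i j => p ^ (∑ a, g i a) * (Matrix.of fun i j => ∏ a, w j a ^ g i a) i j := by
      ext i j
      simp only [Matrix.of_apply, hw, mul_pow, prod_mul_distrib, prod_pow_eq_pow_sum]
    rw [e, Matrix.det_mul_column, prod_pow_eq_pow_sum]
    exact (pow_dvd_pow p (lower g hg q)).mul_right _
  · simp only [Function.Injective, not_forall] at hg
    obtain ⟨i, j, e, hij⟩ := hg
    rw [Matrix.det_zero_of_row_eq hij (by ext k; simp only [Matrix.of_apply, e])]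
    exact dvd_zero _

lemma det_poly (p : ℤ) (q : ℕ) {ι : Type} [Fintype ι] [DecidableEq ι] (v : ι → Fin r → ℤ)
    (hv : ∀ j a, p ∣ v j a) (ψ : ι → MvPolynomial (Fin r) ℤ) :
    p ^ (q * Fintype.card ι - (q + r).choose (r + 1)) ∣
      (Matrix.of fun i j => MvPolynomial.eval (v j) (ψ i)).det := by
  classical
  set S : Finset (Fin r →₀ ℕ) := univ.biUnion fun i => (ψ i).support
  have e : (Matrix.of fun i j => MvPolynomial.eval (v j) (ψ i)) =
      fun i => ∑ β ∈ S, (ψ i).coeff β • fun j => ∏ a, v j a ^ β a := by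
    ext i j
    rw [Matrix.of_apply, MvPolynomial.eval_eq', Finset.sum_apply]
    refine sum_subset (subset_biUnion_of_mem (fun i => (ψ i).support) (mem_univ i))
      fun β _ hβ => ?_
    rw [MvPolynomial.notMem_support_iff.1 hβ, zero_mul]
  have h := (Matrix.detRowAlternating (n := ι) (R := ℤ)).toMultilinearMap.map_sum_finset
    (fun i β => (ψ i).coeff β • fun j => ∏ a, v j a ^ β a) fun _ => S
  rw [e]
  change _ ∣ (Matrix.detRowAlternating (n := ι) (R := ℤ)).toMultilinearMap _
  rw [h]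
  refine dvd_sum fun g _ => ?_
  rw [MultilinearMap.map_smul_univ, smul_eq_mul]
  exact (det_mon p q v hv g).mul_left _

end Div

theorem div : DivStmt := by
  intro r p q M c τ ζ ι _ _ t z f hc ht hz h0
  set n := q * Fintype.card ι - (q + r).choose (r + 1) with hn
  obtain ⟨φ, hφ⟩ := Div.newton p M c τ ζ t z hc ht hz h0 n
  have h1 := Div.det_poly (p : ℤ) q (fun j a => t j a - τ a) (fun j a => (ht j a).symm.dvd)
    fun i => mon (fun a => MvPolynomial.X a + MvPolynomial.C (τ a)) φ (f i)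
  rw [← hn] at h1
  rw [← Ideal.mem_span_singleton, ← Ideal.Quotient.eq_zero_iff_mem, RingHom.map_det] at h1 ⊢
  rw [← h1]
  congr 1
  ext i j
  simp only [RingHom.mapMatrix_apply, Matrix.map_apply, Matrix.of_apply, map_mon, map_add,
    MvPolynomial.eval_X, MvPolynomial.eval_C, sub_add_cancel]
  congr 1
  rw [Ideal.Quotient.eq, Ideal.mem_span_singleton]
  exact (pow_dvd_pow _ (Nat.le_succ n)).trans (hφ j)

end Pool.Agent.MP_4060c9_nt.H98
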