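import Pool.Agent.MP_4060c9_nt.H98.Spec4
import Pool.Agent.MP_4060c9_nt.H98.Det
import Pool.Agent.MP_4060c9_nt.H98.Div

/-!
The projective determinant method in one residue class.
-/

set_option autoImplicit false

namespace Pool.Agent.MP_4060c9_nt.H98

open Finset

namespace Det2

/-- The exponents of degree at most `s`. -/
theorem simplex (r s : ℕ) : ∃ S : Finset (Fin r → ℕ), S.card = (s + r).choose r ∧
    ∀ α ∈ S, ∑ i, α i ≤ s := by
  let T : Finset (Fin (r + 1) → ℕ) := piAntidiag univ s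
  have hT : ∀ β, β ∈ T ↔ ∑ i, β i = s := fun β => by simp [T]
  have h1 : T.card = (s + r).choose r := by
    have := card_finsuppAntidiag_nat_eq_choose (s := (univ : Finset (Fin (r + 1)))) s
    rw [finsuppAntidiag, card_map, card_attach, card_univ, Fintype.card_fin] at this
    rw [this, show r + 1 + s - 1 = s + r by omega, Nat.choose_symm_add]
  have h2 : Set.InjOn (fun β : Fin (r + 1) → ℕ => Fin.tail β) T := by
    intro β hβ γ hγ e
    have e1 := (hT β).1 hβ
    have e2 := (hT γ).1 hγ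
    have e3 : ∀ i : Fin r, β i.succ = γ i.succ := fun i => congrFun e i
    rw [Fin.sum_univ_succ] at e1 e2
    simp only [e3] at e1
    funext i
    refine Fin.cases ?_ e3 i
    omega
  refine ⟨T.image fun β => Fin.tail β, (card_image_of_injOn h2).trans h1, fun α hα => ?_⟩
  obtain ⟨β, hβ, rfl⟩ := mem_image.1 hα
  have e1 := (hT β).1 hβ
  rw [Fin.sum_univ_succ] at e1
  exact e1 ▸ Nat.le_add_left _ _

/-- The choice of the monomials. -/
theorem param (r e : ℕ) (a : ℝ) (hr : 0 < r) (ha : 0 < a) (he : 1 < (a * r / (r + 1)) ^ r * e) :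
    ∃ (B : Finset (Ix r)) (q s : ℕ), (∀ m ∈ B, m.2 < e) ∧ (∀ m ∈ B, dg m ≤ s) ∧
      ((s * B.card : ℕ) : ℝ) < a * ((q * B.card - (q + r).choose (r + 1) : ℕ) : ℝ) := by
  have he0 : 0 < e := Nat.pos_of_ne_zero (by rintro rfl; norm_num at he)
  have he1 : (1 : ℝ) ≤ e := by exact_mod_cast he0
  have hr' : (0 : ℝ) < r := by exact_mod_cast hr
  have hr1 : (0 : ℝ) < r + 1 := by positivity
  obtain ⟨l, hl, hle⟩ : ∃ l : ℝ, 1 ≤ l ∧ l ^ r = e :=
    ⟨(e : ℝ) ^ (r : ℝ)⁻¹, Real.one_le_rpow he1 (by positivity),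
      Real.rpow_inv_natCast_pow (by positivity) hr.ne'⟩
  have hal : r + 1 < a * r * l := by
    rw [← hle, ← mul_pow] at he
    have := (one_lt_pow_iff_of_nonneg (by positivity) hr.ne').1 he
    rwa [div_mul_eq_mul_div, lt_div_iff₀ hr1, one_mul] at this
  obtain ⟨s, hs⟩ := exists_nat_ge ((a * r + e * (r + 1)) / (a * r * l - (r + 1)))
  rw [div_le_iff₀ (by linarith)] at hs
  obtain ⟨S, hS, hS'⟩ := simplex r s
  let q := ⌊l * s⌋₊
  have hq : (q : ℝ) ≤ l * s := Nat.floor_le (by positivity)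
  have hq' : l * s < q + 1 := Nat.lt_floor_add_one _
  refine ⟨S ×ˢ range e, q, s + e, fun m hm => mem_range.1 (mem_product.1 hm).2, fun m hm =>
    Nat.add_le_add (hS' _ (mem_product.1 hm).1) (mem_range.1 (mem_product.1 hm).2).le, ?_⟩
  have hN : (0 : ℝ) < S.card := by
    rw [hS]
    exact_mod_cast Nat.choose_pos (Nat.le_add_left _ _)
  have h2 : ((q + r).choose (r + 1) : ℝ) * (r + 1) = (q + r).choose r * q := by
    have := Nat.choose_succ_right_eq (q + r) r
    rw [Nat.add_sub_cancel] at this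
    exact_mod_cast this
  have h3 := Det.choose_le hl hq r
  rw [hle, ← hS] at h3
  have h4 : (q : ℝ) * (S.card * e) - (q + r).choose (r + 1)
      ≤ ((q * (S ×ˢ range e).card - (q + r).choose (r + 1) : ℕ) : ℝ) := by
    rw [card_product, card_range, sub_le_iff_le_add]
    exact_mod_cast le_tsub_add
  refine lt_of_lt_of_le ?_ (mul_le_mul_of_nonneg_left h4 ha.le)
  refine lt_of_mul_lt_mul_left ?_ hr1.le
  have h7 : ((s : ℝ) + e) * (r + 1) < a * q * r := by
    have := mul_lt_mul_of_pos_left hq' (mul_pos ha hr')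
    nlinarith
  have h8 : ((q + r).choose r : ℝ) * q ≤ e * S.card * q := by gcongr
  have h9 := mul_lt_mul_of_pos_left h7 (mul_pos (lt_of_lt_of_le one_pos he1) hN)
  have h10 := mul_le_mul_of_nonneg_left h8 ha.le
  rw [card_product, card_range]
  push_cast
  calc _ < a * (q * (S.card * e)) * (r + 1) - a * ((q + r).choose r * q) := by linarith
    _ = _ := by
        rw [← h2]
        ring

variable {R : Type} [CommRing R] {r : ℕ}

theorem mon_scale (y : R) (t : Fin r → R) (z : R) (m : Ix r) :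
    mon (fun a => y * t a) (y * z) m = y ^ dg m * mon t z m := by
  simp only [mon, dg, mul_pow, prod_mul_distrib, prod_pow_eq_pow_sum, pow_add]
  ring

theorem dmon_scale (y : R) (t : Fin r → R) (z : R) (m : Ix r) :
    y * dmon (fun a => y * t a) (y * z) m = y ^ dg m * dmon t z m := by
  obtain ⟨α, _ | n⟩ := m
  · simp [dmon]
  · simp only [dmon, dg, mul_pow, prod_mul_distrib, prod_pow_eq_pow_sum, pow_add,
      Nat.add_sub_cancel]
    ring

theorem pow_scale (y x : R) {n D : ℕ} (h : n ≤ D) :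
    (y * x) ^ (D - n) * y ^ n = y ^ D * x ^ (D - n) := by
  rw [mul_pow, mul_right_comm, ← pow_add, Nat.sub_add_cancel h]

theorem Gv_scale {M : Finset (Ix r)} {D : ℕ} (h : ∀ m ∈ M, dg m ≤ D) (c : Ix r → R) (y x : R)
    (t : Fin r → R) (z : R) : Gv M (fun m => c m * (y * x) ^ (D - dg m)) (fun a => y * t a) (y * z)
      = y ^ D * Gh M c D x t z := by
  rw [Gv, Gh, mul_sum]
  refine sum_congr rfl fun m hm => ?_
  rw [mon_scale]
  linear_combination (c m * mon t z m) * pow_scale y x (h m hm)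

theorem Gd_scale {M : Finset (Ix r)} {D : ℕ} (h : ∀ m ∈ M, dg m ≤ D) (c : Ix r → R) (y x : R)
    (t : Fin r → R) (z : R) :
    y * Gd M (fun m => c m * (y * x) ^ (D - dg m)) (fun a => y * t a) (y * z)
      = y ^ D * Gdh M c D x t z := by
  rw [Gd, Gdh, mul_sum, mul_sum]
  refine sum_congr rfl fun m hm => ?_
  linear_combination (c m * dmon t z m) * pow_scale y x (h m hm) +
    c m * (y * x) ^ (D - dg m) * dmon_scale y t z m

/-- Divisibility of the determinant of the homogeneous monomials. -/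
theorem dvd (p q D s : ℕ) (M : Finset (Ix r)) (c : Ix r → ℤ) (ξ : ℤ) (τ : Fin r → ℤ) (ζ : ℤ)
    {ι : Type} [Fintype ι] [DecidableEq ι] (x : ι → ℤ) (t : ι → Fin r → ℤ) (z : ι → ℤ)
    (f : ι → Ix r) (hM : ∀ m ∈ M, dg m ≤ D) (hf : ∀ i, dg (f i) ≤ s) (h1 : IsCoprime ξ p)
    (h2 : IsCoprime (Gdh M c D ξ τ ζ) p) (h3 : ∀ j, IsCoprime (x j) p)
    (h4 : ∀ j a, t j a * ξ ≡ τ a * x j [ZMOD p]) (h5 : ∀ j, z j * ξ ≡ ζ * x j [ZMOD p])
    (h6 : ∀ j, Gh M c D (x j) (t j) (z j) = 0) :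
    (p : ℤ) ^ (q * Fintype.card ι - (q + r).choose (r + 1)) ∣
      (Matrix.of fun i j => x j ^ (s - dg (f i)) * mon (t j) (z j) (f i)).det := by
  have hP : ∀ j, (∏ k ∈ univ.erase j, x k) * x j = ∏ k, x k := fun j =>
    prod_erase_mul _ _ (mem_univ j)
  have hX : ∀ j, (∏ k, x k) * ξ = ξ * (∏ k ∈ univ.erase j, x k) * x j := fun j => by
    rw [← hP j]
    ring
  have hc : ∀ j u v, u * ξ ≡ v * x j [ZMOD p] →
      ξ * (∏ k ∈ univ.erase j, x k) * u ≡ (∏ k, x k) * v [ZMOD p] := fun j u v h => by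
    have := h.mul_left (∏ k ∈ univ.erase j, x k)
    rw [← hP j]
    convert this using 1 <;> ring
  have hy : IsCoprime (∏ k, x k) (p : ℤ) := IsCoprime.prod_left fun k _ => h3 k
  have h7 := div r p q M (fun m => c m * ((∏ k, x k) * ξ) ^ (D - dg m)) (fun a => (∏ k, x k) * τ a)
    ((∏ k, x k) * ζ) ι (fun j a => ξ * (∏ k ∈ univ.erase j, x k) * t j a)
    (fun j => ξ * (∏ k ∈ univ.erase j, x k) * z j) f
    (IsCoprime.of_mul_left_right (x := ∏ k, x k) (by
      rw [Gd_scale hM]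
      exact hy.pow_left.mul_left h2)) (fun j a => hc j _ _ (h4 j a)) (fun j => hc j _ _ (h5 j))
    (fun j => by rw [hX j, Gv_scale hM, h6, mul_zero])
  have h8 := h7.mul_left (∏ i, ((∏ k, x k) * ξ) ^ (s - dg (f i)))
  rw [← Matrix.det_mul_column] at h8
  refine IsCoprime.dvd_of_dvd_mul_left (y := ∏ j, (ξ * ∏ k ∈ univ.erase j, x k) ^ s)
    (IsCoprime.prod_left fun j _ => (h1.mul_left
      (IsCoprime.prod_left fun k _ => h3 k)).pow_left).symm.pow_left ?_
  rw [← Matrix.det_mul_row]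
  convert h8 using 3
  funext i j
  simp only [Matrix.of_apply]
  rw [mon_scale, ← mul_assoc, ← mul_assoc, hX j, pow_scale _ _ (hf i)]

end Det2

theorem det2 : Det2Stmt := by
  classical
  intro r e a hr ha he
  obtain ⟨B, q, s, hB, hs, hq⟩ := Det2.param r e a hr ha he
  set δ := s * B.card with hδ
  set ν := q * B.card - (q + r).choose (r + 1) with hν
  obtain ⟨H₀, hH⟩ := Filter.eventually_atTop.1 (((tendsto_rpow_atTop (sub_pos.2 hq)).eventually_gt_atTop
    (B.card.factorial : ℝ)).and (Filter.eventually_gt_atTop 0))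
  refine ⟨B, H₀, hB, fun H p D M c ξ τ ζ h1 h2 hM hξ h3 => ?_⟩
  obtain ⟨h4, h5⟩ := hH H h1
  obtain ⟨d, ⟨i, hi⟩, hd'⟩ := Det.lin {v : B → ℚ | ∃ (x : ℤ) (t : Fin r → ℤ) (z : ℤ),
      (|x| : ℝ) ≤ H ∧ (∀ i, (|t i| : ℝ) ≤ H) ∧ (|z| : ℝ) ≤ H ∧ x ≠ 0 ∧ IsCoprime x p ∧
      (∀ i, t i * ξ ≡ τ i * x [ZMOD p]) ∧ z * ξ ≡ ζ * x [ZMOD p] ∧ Gh M c D x t z = 0 ∧
      v = fun m => mon (fun i => (t i : ℚ) / x) ((z : ℚ) / x) m.1} fun v hv => by
    choose x t z k0 k1 k2 kx kp k3 k4 k5 k6 using hv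
    have k7 := Det2.dvd p q D s M c ξ τ ζ x t z (Subtype.val : B → Ix r) hM (fun i => hs _ i.2) hξ
      h3 kp k3 k4 k5
    have k8 := Det.det_le
      (Matrix.of fun (i j : B) => x j ^ (s - dg i.1) * mon (t j) (z j) i.1) (fun _ => H ^ s)
      fun i j => by
        rw [Matrix.of_apply, abs_mul, abs_pow, ← Nat.sub_add_cancel (hs _ i.2), pow_add,
          Nat.add_sub_cancel, Int.cast_mul, Int.cast_pow, Int.cast_abs]
        exact mul_le_mul (pow_le_pow_left₀ (abs_nonneg _) (k0 j) _) (Det.mon_le (k1 j) (k2 j) i.1)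
          (by positivity) (by positivity)
    rw [prod_const, card_univ, Fintype.card_coe, ← pow_mul, ← hδ] at k8
    rw [Fintype.card_coe, ← hν] at k7
    have k9 : (B.card.factorial : ℝ) * H ^ δ < (p : ℝ) ^ ν :=
      calc _ < H ^ (a * ν - δ) * H ^ δ := by gcongr
        _ = (H ^ a) ^ ν := by
          rw [← Real.rpow_natCast H δ, ← Real.rpow_add h5, sub_add_cancel,
            Real.rpow_mul_natCast h5.le]
        _ ≤ _ := by gcongr
    have k10 := Int.eq_zero_of_abs_lt_dvd k7 (by exact_mod_cast k8.trans_lt k9)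
    have k11 := RingHom.map_det (Int.castRingHom ℚ)
      (Matrix.of fun (i j : B) => x j ^ (s - dg i.1) * mon (t j) (z j) i.1)
    rw [k10, map_zero] at k11
    have kq : ∀ j, (x j : ℚ) ≠ 0 := fun j => Int.cast_ne_zero.2 (kx j)
    refine (mul_eq_zero.1 ?_).resolve_left
      (prod_ne_zero_iff.2 fun j (_ : j ∈ univ) => pow_ne_zero s (kq j))
    rw [← Matrix.det_mul_row, k11]
    congr 1
    ext i j
    have e := Det2.mon_scale (x j : ℚ) (fun i => (t j i : ℚ) / x j) ((z j : ℚ) / x j) i.1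
    simp only [mul_div_cancel₀ _ (kq j)] at e
    rw [RingHom.mapMatrix_apply, Matrix.map_apply, Matrix.of_apply, Matrix.of_apply,
      Matrix.of_apply, map_mul, map_pow, map_mon, k6 j]
    simp only [eq_intCast]
    rw [e, ← mul_assoc, ← pow_add, Nat.sub_add_cancel (hs _ i.2)]
  refine ⟨fun m => if h : m ∈ B then d ⟨m, h⟩ else 0, ⟨i.1, i.2, by simpa using hi⟩,
    fun x t z k0 k1 k2 kx kp k3 k4 k5 => ?_⟩
  rw [Gv, ← sum_coe_sort, ← hd' _ ⟨x, t, z, k0, k1, k2, kx, kp, k3, k4, k5, rfl⟩]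
  exact sum_congr rfl fun m _ => by rw [dif_pos m.2]

end Pool.Agent.MP_4060c9_nt.H98
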