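import Pool.Agent.MP_4060c9_nt.H98.Spec4

/-!
Rows DL and VDM: the determinant at a place, and lines on a diagonal hypersurface.
-/

set_option autoImplicit false

namespace Pool.Agent.MP_4060c9_nt.H98

open Finset

namespace DlVdm

lemma det_mem {L : Type} [Field L] (O : Subring L) {n : ℕ} (M : Matrix (Fin n) (Fin n) L)
    (h : ∀ q i, M q i ∈ O) : M.det ∈ O := by
  rw [Matrix.det_apply']
  exact O.sum_mem fun σ _ => O.mul_mem (intCast_mem O _) (O.prod_mem fun i _ => h _ _)

lemma border {L : Type} [Field L] {n : ℕ} (A : Fin n → Fin (n + 1) → L) (j : Fin (n + 1)) :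
    (Matrix.of (Fin.cons (Pi.single j 1) A : Fin (n + 1) → Fin (n + 1) → L)).det =
      (-1) ^ (j : ℕ) * (Matrix.of fun q i => A q (j.succAbove i)).det := by
  rw [Matrix.det_succ_row_zero, sum_eq_single j]
  · simp only [Matrix.of_apply, Fin.cons_zero, Pi.single_eq_same, mul_one]
    rfl
  · intro i _ hi
    simp [Pi.single_eq_of_ne hi]
  · intro h
    exact absurd (mem_univ j) h

lemma minor_eq {L : Type} [Field L] {n : ℕ} (A : Fin n → Fin (n + 1) → L)
    (h : ∀ q, ∑ i, A q i = 0) (i j : Fin (n + 1)) :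
    (-1) ^ (i : ℕ) * (Matrix.of fun q a => A q (i.succAbove a)).det =
      (-1) ^ (j : ℕ) * (Matrix.of fun q a => A q (j.succAbove a)).det := by
  have hu : ∀ x : Fin (n + 1) → L,
      (Matrix.of (Fin.cons x A : Fin (n + 1) → Fin (n + 1) → L)) =
        (Matrix.of (Fin.cons 0 A : Fin (n + 1) → Fin (n + 1) → L)).updateRow 0 x := by
    intro x
    ext a b
    refine Fin.cases ?_ (fun a => ?_) a
    · simp
    · rw [Matrix.updateRow_ne (Fin.succ_ne_zero a)]
      simp
  have h0 : (Matrix.of (Fin.cons (Pi.single i 1 - Pi.single j 1) A :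
      Fin (n + 1) → Fin (n + 1) → L)).det = 0 := by
    refine Matrix.exists_mulVec_eq_zero_iff.1 ⟨fun _ => 1, fun e => one_ne_zero (congrFun e 0), ?_⟩
    funext a
    refine Fin.cases ?_ (fun a => ?_) a
    · simp [Matrix.mulVec, dotProduct, sum_sub_distrib]
    · simpa [Matrix.mulVec, dotProduct] using h a
  rw [← border, ← border, hu, hu (Pi.single j 1),
    show (Pi.single i 1 : Fin (n + 1) → L) = Pi.single j 1 + (Pi.single i 1 - Pi.single j 1) by
      simp, Matrix.det_updateRow_add, ← hu (Pi.single i 1 - Pi.single j 1), h0, add_zero]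

open Polynomial in
lemma moments {L ι : Type} [Field L] [CharZero L] [Fintype ι] (a ρ : ι → L) (κ : ℕ)
    (h : ∀ s : ℕ, ∑ i, a i * (1 + ρ i * s) ^ κ = 0) (p : ℕ) (hp : p ≤ κ) :
    ∑ i, a i * ρ i ^ p = 0 := by
  have hQ : (∑ i, C (a i) * (((1 + X) ^ κ : L[X]).comp (C (ρ i) * X))) = 0 := by
    refine eq_zero_of_infinite_isRoot _ ((Set.infinite_range_of_injective
      (Nat.cast_injective (R := L))).mono ?_)
    rintro _ ⟨s, rfl⟩
    simpa [IsRoot, eval_finsetSum] using h s
  have h1 := congrArg (fun P => coeff P p) hQ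
  simp only [finsetSum_coeff, coeff_C_mul, comp_C_mul_X_coeff, coeff_one_add_X_pow,
    coeff_zero] at h1
  have h2 : (κ.choose p : L) ≠ 0 := Nat.cast_ne_zero.2 (Nat.choose_pos hp).ne'
  refine (mul_eq_zero.1 ?_).resolve_left h2
  rw [mul_sum, ← h1]
  exact sum_congr rfl fun i _ => by ring

end DlVdm

open DlVdm in
theorem dl : DlStmt := by
  intro L _ O n A w g q₀ i₀ i₁ hs hw h1 hq hr
  have hr' : ∀ q, ∃ h : L, (q = q₀ → h = 0) ∧
      ∀ i, (if q = q₀ then g else 1) * ((w i)⁻¹ * (A q i - h * A q₀ i)) ∈ O := by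
    intro q
    by_cases e : q = q₀
    · subst e
      refine ⟨0, fun _ => rfl, fun i => ?_⟩
      rw [if_pos rfl]
      convert hq i using 1
      ring
    · obtain ⟨h, hh⟩ := hr q e
      refine ⟨h, fun e' => absurd e' e, fun i => ?_⟩
      rw [if_neg e]
      convert hh i using 1
      ring
  choose h h0 hO using hr'
  have e1 : (Matrix.of fun q i => A q (i₁.succAbove i)).det =
      (Matrix.of fun q i => A q (i₁.succAbove i) - h q * A q₀ (i₁.succAbove i)).det :=
    Matrix.det_eq_of_forall_row_eq_smul_add_const h q₀ (h0 q₀ rfl) fun q i => by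
      simp [h0 q₀ rfl]
  have e2 := det_mem O (Matrix.of fun q i => (if q = q₀ then g else 1) *
    ((w (i₁.succAbove i))⁻¹ * (A q (i₁.succAbove i) - h q * A q₀ (i₁.succAbove i))))
    fun q i => hO q _
  have e3 := Matrix.det_mul_column (fun q => if q = q₀ then g else 1)
    (Matrix.of fun q i => (w (i₁.succAbove i))⁻¹ *
      (A q (i₁.succAbove i) - h q * A q₀ (i₁.succAbove i)))
  have e4 := Matrix.det_mul_row (fun i => (w (i₁.succAbove i))⁻¹)
    (Matrix.of fun q i => A q (i₁.succAbove i) - h q * A q₀ (i₁.succAbove i))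
  simp only [Matrix.of_apply] at e3 e4
  rw [e3, e4, ← e1, prod_ite_eq', if_pos (mem_univ _)] at e2
  have e5 := minor_eq A hs i₀ i₁
  have e6 : (Matrix.of fun q i => A q (i₀.succAbove i)).det = (-1) ^ (i₀ : ℕ) * (-1) ^ (i₁ : ℕ) *
      (Matrix.of fun q i => A q (i₁.succAbove i)).det := by
    rw [mul_assoc, ← e5, ← mul_assoc, ← mul_pow]
    simp
  have hm : ∀ k : ℕ, (-1 : L) ^ k ∈ O := fun k => O.pow_mem (O.neg_mem O.one_mem) k
  rw [e6, Fin.prod_univ_succAbove w i₁]
  convert O.mul_mem (O.mul_mem (hm i₀) (hm i₁)) (O.mul_mem h1 e2) using 1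
  rw [prod_inv_distrib, div_eq_mul_inv, mul_inv]
  ring

open DlVdm Polynomial in
theorem vdm : VdmStmt := by
  classical
  intro L ι _ _ _ ε u v κ hc hu hS hl
  rcases isEmpty_or_nonempty ι with hι | ⟨⟨i₀⟩⟩
  · exact ⟨0, fun i => hι.elim i⟩
  have hm := moments (fun i => ε i * u i ^ κ) (fun i => v i / u i) κ fun s => by
    rw [← hl s]
    refine sum_congr rfl fun i _ => ?_
    rw [mul_assoc, ← mul_pow]
    congr 2
    field_simp [hu i]
  have hP : ∀ P : L[X], P.natDegree ≤ κ → ∑ i, ε i * u i ^ κ * P.eval (v i / u i) = 0 := by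
    intro P hP
    simp only [eval_eq_sum_range' (Nat.lt_succ_of_le hP), mul_sum]
    rw [sum_comm]
    refine sum_eq_zero fun p hp => ?_
    have := hm p (Nat.le_of_lt_succ (mem_range.1 hp))
    rw [← mul_zero (P.coeff p), ← this, mul_sum]
    exact sum_congr rfl fun i _ => by ring
  have h1 := hP (∏ c ∈ (univ.image fun i => v i / u i).erase (v i₀ / u i₀), (X - C c)) (by
    rw [natDegree_finsetProd_X_sub_C_eq_card, card_erase_of_mem (mem_image_of_mem _ (mem_univ _))]
    have := card_image_le (s := univ) (f := fun i => v i / u i)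
    rw [card_univ] at this
    omega)
  have h2 : ∑ i ∈ univ.filter fun i => v i / u i = v i₀ / u i₀, ε i * u i ^ κ = 0 := by
    have h3 : ∏ c ∈ (univ.image fun i => v i / u i).erase (v i₀ / u i₀), (v i₀ / u i₀ - c) ≠ 0 :=
      prod_ne_zero_iff.2 fun c hc => sub_ne_zero.2 (ne_of_mem_erase hc).symm
    refine (mul_eq_zero.1 ?_).resolve_right h3
    rw [← h1, sum_mul, sum_filter]
    refine sum_congr rfl fun i _ => ?_
    simp only [eval_prod, eval_sub, eval_X, eval_C]
    split_ifs with e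
    · rw [e]
    · rw [prod_eq_zero (mem_erase.2 ⟨e, mem_image_of_mem (fun i => v i / u i) (mem_univ i)⟩)
        (sub_self _), mul_zero]
  have h4 : (univ.filter fun i => v i / u i = v i₀ / u i₀) = univ := by
    by_contra e
    exact hS _ ⟨i₀, by simp⟩ e h2
  refine ⟨v i₀ / u i₀, fun i => ?_⟩
  have h5 : i ∈ univ.filter fun i => v i / u i = v i₀ / u i₀ := h4.symm ▸ mem_univ i
  rw [← (mem_filter.1 h5).2, div_mul_cancel₀ _ (hu i)]

end Pool.Agent.MP_4060c9_nt.H98
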