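import Pool.Agent.MP_4060c9_nt.H98.Spec4

/-!
Extension of the independent coordinates.
-/

set_option autoImplicit false

namespace Pool.Agent.MP_4060c9_nt.H98

open Finset

namespace ExtAux

/-- Monomials in algebraically independent elements are linearly independent. -/
lemma mono {S K ι : Type} [CommRing S] [CommRing K] [Algebra S K] [Fintype ι] {v : ι → K}
    (hv : AlgebraicIndependent S v) :
    LinearIndependent S fun α : ι → ℕ => ∏ a, v a ^ α a := by
  have h1 := (MvPolynomial.basisMonomials ι S).linearIndependent.map'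
    (MvPolynomial.aeval v : MvPolynomial ι S →ₐ[S] K).toLinearMap
    (LinearMap.ker_eq_bot.mpr hv)
  have h2 := h1.comp _ (Finsupp.equivFunOnFinite (α := ι) (M := ℕ)).symm.injective
  have h3 : (fun α : ι → ℕ => ∏ a, v a ^ α a) =
      (⇑(MvPolynomial.aeval v : MvPolynomial ι S →ₐ[S] K).toLinearMap ∘
        ⇑(MvPolynomial.basisMonomials ι S)) ∘
        (Finsupp.equivFunOnFinite (α := ι) (M := ℕ)).symm := by
    funext α
    simp [MvPolynomial.aeval_monomial, Finsupp.prod_fintype]
  rw [h3]
  exact h2

/-- New independent coordinates do not lower the degree. -/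
lemma li_sum {k L ι : Type} [Field k] [Field L] [Algebra k L] [Fintype ι] {r j e : ℕ}
    (T : Fin r → L) (w : ι → L) (Z : L) (h : AlgebraicIndependent k (Sum.elim w T))
    (hZ : IsAlgebraic (Algebra.adjoin k (Set.range T)) Z) (hL : LI k T Z e)
    (φ : Fin j ≃ ι ⊕ Fin r) : LI k (fun a => Sum.elim w T (φ a)) Z e := by
  let S := Subalgebra.algebraicClosure (Algebra.adjoin k (Set.range T)) L
  have hw : AlgebraicIndependent S w :=
    (AlgebraicIndependent.sumElim_iff.1 h).2.subalgebraAlgebraicClosure
  have hT : ∀ a, T a ∈ S := fun a => isAlgebraic_algebraMap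
    (⟨T a, Algebra.subset_adjoin ⟨a, rfl⟩⟩ : Algebra.adjoin k (Set.range T))
  have hm : ∀ m : Ix r, mon T Z m ∈ S := fun m =>
    S.mul_mem (S.prod_mem fun a _ => S.pow_mem (hT a) _) (S.pow_mem hZ _)
  have hx : LinearIndependent k fun m : {m : Ix r // m.2 < e} => (⟨mon T Z m.1, hm _⟩ : S) :=
    LinearIndependent.of_comp (S.val.toLinearMap.restrictScalars k) hL
  have h1 := linearIndependent_smul hx (mono hw)
  let ψ : {m : Ix j // m.2 < e} → {m : Ix r // m.2 < e} × (ι → ℕ) := fun m =>
    (⟨(fun a => m.1.1 (φ.symm (Sum.inr a)), m.1.2), m.2⟩, fun a => m.1.1 (φ.symm (Sum.inl a)))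
  have hψ : Function.Injective ψ := by
    rintro ⟨⟨α, b⟩, hb⟩ ⟨⟨α', b'⟩, hb'⟩ hm
    simp only [ψ, Prod.mk.injEq, Subtype.mk.injEq] at hm
    obtain ⟨⟨h2, h3⟩, h4⟩ := hm
    refine Subtype.ext (Prod.ext ?_ h3)
    funext a
    obtain ⟨c, rfl⟩ := φ.symm.surjective a
    rcases c with c | c
    · exact congrFun h4 c
    · exact congrFun h2 c
  have h2 := h1.comp ψ hψ
  have h3 : (fun m : {m : Ix j // m.2 < e} => mon (fun a => Sum.elim w T (φ a)) Z m.1) =
      (fun p : {m : Ix r // m.2 < e} × (ι → ℕ) =>
        (⟨mon T Z p.1.1, hm _⟩ : S) • ∏ a, w a ^ p.2 a) ∘ ψ := by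
    funext m
    have h4 : ∏ a, Sum.elim w T (φ a) ^ m.1.1 a =
        ∏ c, Sum.elim w T c ^ m.1.1 (φ.symm c) :=
      Fintype.prod_equiv φ _ _ fun a => by rw [φ.symm_apply_apply]
    change _ = mon T Z (ψ m).1.1 * ∏ a, w a ^ (ψ m).2 a
    simp only [mon, ψ, h4, Fintype.prod_sum_type, Sum.elim_inl, Sum.elim_inr]
    ring
  unfold LI
  rw [h3]
  exact h2

end ExtAux

open ExtAux AlgebraicIndependent in
theorem ext : ExtStmt := by
  refine ⟨fun k L _ _ _ p r w T hw ha => ?_, fun k L σ _ _ _ r j e u T Z t hT hTu hZ hL ht hu => ?_⟩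
  · have h1 : (matroid k L).Indep (Set.range w) := hw.to_subtype_range
    have h2 : Set.range w ⊆ (matroid k L).closure (Set.range T) := by
      rintro _ ⟨a, rfl⟩
      rw [matroid_closure_eq]
      exact ha a
    have h4 := (h1.encard_le_eRk_of_subset h2).trans
      (((matroid k L).eRk_closure_eq _).le.trans ((matroid k L).eRk_le_encard _))
    rw [← (Set.finite_range w).cast_ncard_eq, ← (Set.finite_range T).cast_ncard_eq,
      Set.ncard_range_of_injective hw.injective, Nat.cast_le, Nat.card_eq_fintype_card,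
      Fintype.card_fin] at h4
    refine h4.trans ?_
    rw [← Set.image_univ]
    refine (Set.ncard_image_le).trans ?_
    rw [Set.ncard_univ, Nat.card_eq_fintype_card, Fintype.card_fin]
  · have h1 : (matroid k L).Indep (Set.range T) := hT.to_subtype_range
    have h2 : (matroid k L).Indep (Set.range fun a => u (t a)) := ht.to_subtype_range
    obtain ⟨B, hB, hTB⟩ := h1.subset_isBasis_of_subset
      (X := Set.range T ∪ Set.range u) Set.subset_union_left
    have h3 : Set.range u ⊆ (matroid k L).closure (Set.range fun a => u (t a)) := by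
      rintro _ ⟨a, rfl⟩
      rw [matroid_closure_eq]
      exact hu a
    have h4 : Set.range T ⊆ (matroid k L).closure (Set.range u) := by
      rintro _ ⟨a, rfl⟩
      rw [matroid_closure_eq]
      exact isAlgebraic_algebraMap (⟨T a, hTu a⟩ : Algebra.adjoin k (Set.range u))
    have h5 : (matroid k L).IsBasis (Set.range fun a => u (t a)) (Set.range T ∪ Set.range u) :=
      h2.isBasis_of_subset_of_subset_closure
        (by rintro _ ⟨a, rfl⟩; exact Or.inr ⟨t a, rfl⟩)
        (Set.union_subset
          (h4.trans ((matroid k L).closure_subset_closure_of_subset_closure h3)) h3)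
    have h6 := hB.encard_eq_encard h5
    have hf : B.Finite := Set.finite_of_encard_le_coe (k := (Set.range fun a => u (t a)).ncard)
      (by rw [h6, (Set.finite_range _).cast_ncard_eq])
    rw [← hf.cast_ncard_eq, ← (Set.finite_range _).cast_ncard_eq,
      Set.ncard_range_of_injective ht.injective, Nat.cast_inj, Nat.card_eq_fintype_card,
      Fintype.card_fin] at h6
    have _ : Fintype ↥(B \ Set.range T) := (hf.subset Set.sdiff_subset).fintype
    let g : ↥(B \ Set.range T) ⊕ Fin r → B :=
      Sum.elim (fun c => ⟨c.1, c.2.1⟩) fun a => ⟨T a, hTB ⟨a, rfl⟩⟩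
    have hg : Function.Bijective g := by
      constructor
      · rintro (a | a) (b | b) hab <;> have h7 := congrArg Subtype.val hab
        · exact congrArg _ (Subtype.ext h7)
        · exact absurd ⟨b, h7.symm⟩ a.2.2
        · exact absurd ⟨a, h7⟩ b.2.2
        · exact congrArg _ (hT.injective h7)
      · intro b
        by_cases hb : b.1 ∈ Set.range T
        · obtain ⟨a, ha⟩ := hb
          exact ⟨Sum.inr a, Subtype.ext ha⟩
        · exact ⟨Sum.inl ⟨b.1, b.2, hb⟩, rfl⟩
    have hc : Nat.card (↥(B \ Set.range T) ⊕ Fin r) = j := by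
      rw [Nat.card_eq_of_bijective g hg, Nat.card_coe_set_eq, h6]
    have he : ∀ c, Sum.elim (fun c : ↥(B \ Set.range T) => c.1) T c = (g c).1 := by
      rintro (c | c) <;> rfl
    have hi : AlgebraicIndependent k (Sum.elim (fun c : ↥(B \ Set.range T) => c.1) T) := by
      rw [funext he]
      exact AlgebraicIndependent.comp (matroid_indep_iff.1 hB.indep) g hg.1
    refine ⟨_, fun a => ?_, li_sum T _ Z hi hZ hL (Finite.equivFinOfCardEq hc).symm⟩
    rw [he]
    exact hB.subset (g _).2

end Pool.Agent.MP_4060c9_nt.H98
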