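import Pool.Agent.MP_4060c9_nt.H98.Spec4
import Pool.Agent.MP_4060c9_nt.H98.Deg

/-!
The derivative of the equation of the hypersurface.
-/

set_option autoImplicit false

namespace Pool.Agent.MP_4060c9_nt.H98

open Finset

namespace GstAux

/-- the powers below the degree of the minimal polynomial are independent -/
lemma key {k L : Type} [Field k] [Field L] [Algebra k L] (A : Subalgebra k L)
    [IsIntegrallyClosed A] {Z : L} {n : ℕ} (hn : n ≤ (minpoly A Z).natDegree)
    (hZ : IsIntegral A Z) (a : ℕ → L) (ha : ∀ i, a i ∈ A)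
    (h0 : ∑ i ∈ range n, a i * Z ^ i = 0) : ∀ i < n, a i = 0 := by
  intro i hi
  set q : Polynomial A := ∑ j ∈ range n, Polynomial.monomial j (⟨a j, ha j⟩ : A) with hq
  have h1 : Polynomial.aeval Z q = 0 := by
    rw [hq, map_sum, ← h0]
    refine sum_congr rfl fun j _ => ?_
    rw [Polynomial.aeval_monomial]
    rfl
  have h2 : q = 0 := by
    refine Polynomial.eq_zero_of_dvd_of_degree_lt (minpoly.isIntegrallyClosed_dvd hZ h1) ?_
    rw [Polynomial.degree_eq_natDegree (minpoly.ne_zero hZ)]
    refine lt_of_lt_of_le (b := (n : WithBot ℕ)) ?_ (by exact_mod_cast hn)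
    rw [hq]
    refine (Polynomial.degree_sum_le _ _).trans_lt ?_
    refine (Finset.sup_lt_iff (WithBot.bot_lt_coe n)).2 fun j hj => ?_
    exact (Polynomial.degree_monomial_le _ _).trans_lt (WithBot.coe_lt_coe.2 (mem_range.1 hj))
  have h3 := congrArg (fun p => ((Polynomial.coeff p i : A) : L)) h2
  simpa [hq, Polynomial.finsetSum_coeff, Polynomial.coeff_monomial, hi] using h3

lemma der_sum {R L : Type} [CommRing R] [Field L] [Algebra R L] (δ : Derivation R L L) (Z : L)
    (G : ℕ → L) (N : ℕ) : δ (∑ i ∈ range (N + 1), G i * Z ^ i) =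
      ∑ i ∈ range (N + 1), δ (G i) * Z ^ i +
        (∑ i ∈ range N, ((i + 1 : ℕ) : L) * G (i + 1) * Z ^ i) * δ Z := by
  induction N with
  | zero => simp
  | succ N ih =>
    rw [sum_range_succ _ (N + 1), map_add, ih, sum_range_succ _ (N + 1),
      sum_range_succ (fun i => ((i + 1 : ℕ) : L) * G (i + 1) * Z ^ i) N,
      Derivation.leibniz, Derivation.leibniz_pow]
    simp only [smul_eq_mul, nsmul_eq_mul, Nat.add_sub_cancel]
    ring

lemma eul_pow {R L : Type} [CommRing R] [Field L] [Algebra R L] (E : Derivation R L L) {Z : L}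
    (h : E Z = Z) (i : ℕ) : E (Z ^ i) = i * Z ^ i := by
  induction i with
  | zero => simp
  | succ i ih =>
    rw [pow_succ, Derivation.leibniz, ih, h]
    simp only [smul_eq_mul]
    push_cast
    ring

end GstAux

open GstAux in
theorem gst : GstStmt := by
  intro k L _ _ _ _ _ r e T Z E hT hZ hET hEZ hLI
  set A := Algebra.adjoin k (Set.range T) with hA
  have : IsIntegrallyClosed A := IsIntegrallyClosed.of_equiv hT.aevalEquiv.toRingEquiv
  obtain ⟨e', he'⟩ : ∃ e', (minpoly A Z).natDegree = e' + 1 :=
    ⟨_, (Nat.succ_pred_eq_of_pos (minpoly.natDegree_pos hZ)).symm⟩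
  set G : ℕ → L := fun i => ((minpoly A Z).coeff i : A) with hG
  have hGA : ∀ i, G i ∈ A := fun i => ((minpoly A Z).coeff i).2
  have hG1 : G (e' + 1) = 1 := by
    have := (minpoly.monic hZ).coeff_natDegree
    rw [he'] at this
    simp [hG, this]
  have hG0 : ∑ i ∈ range (e' + 1 + 1), G i * Z ^ i = 0 := by
    have := minpoly.aeval A Z
    rw [Polynomial.aeval_eq_sum_range, he'] at this
    exact this
  have hAB : A ≤ Algebra.adjoin k (insert Z (Set.range T)) :=
    Algebra.adjoin_mono (Set.subset_insert _ _)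
  have hZB : Z ∈ Algebra.adjoin k (insert Z (Set.range T)) :=
    Algebra.subset_adjoin (Set.mem_insert _ _)
  have hEA : ∀ x ∈ A, E x ∈ A := by
    intro x hx
    induction hx using Algebra.adjoin_induction with
    | mem x hx => obtain ⟨a, rfl⟩ := hx; rw [hET]; exact Algebra.subset_adjoin ⟨a, rfl⟩
    | algebraMap c => rw [Derivation.map_algebraMap]; exact zero_mem _
    | add x y _ _ hx hy => rw [map_add]; exact add_mem hx hy
    | mul x y hx' hy' hx hy =>
      rw [Derivation.leibniz]
      exact add_mem (mul_mem hx' hy) (mul_mem hy' hx)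
  have hEG : ∀ i < e' + 1, E (G i) + (i : L) * G i - ((e' + 1 : ℕ) : L) * G i = 0 := by
    refine key A he'.ge hZ (fun i => E (G i) + (i : L) * G i - ((e' + 1 : ℕ) : L) * G i)
      (fun i => sub_mem (add_mem (hEA _ (hGA i)) (mul_mem (natCast_mem _ _) (hGA i)))
        (mul_mem (natCast_mem _ _) (hGA i))) ?_
    have h1 : ∑ i ∈ range (e' + 1 + 1), (E (G i) + (i : L) * G i) * Z ^ i = 0 := by
      have := congrArg E hG0
      rw [map_sum, map_zero] at this
      rw [← this]
      refine sum_congr rfl fun i _ => ?_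
      rw [Derivation.leibniz, eul_pow E hEZ]
      simp only [smul_eq_mul]
      ring
    have h2 : ∑ i ∈ range (e' + 1 + 1),
        (E (G i) + (i : L) * G i - ((e' + 1 : ℕ) : L) * G i) * Z ^ i = 0 := by
      simp only [sub_mul, sum_sub_distrib, h1, mul_assoc, ← mul_sum, hG0]
      simp
    rw [sum_range_succ, hG1] at h2
    simpa using h2
  refine ⟨∑ i ∈ range (e' + 1), ((i + 1 : ℕ) : L) * G (i + 1) * Z ^ i, e', ?_, fun h0 => ?_,
    ?_, ?_, fun δ hδ => ?_⟩
  · by_contra hn
    apply hLI
    have hb : LinearIndependent k fun α : Fin r → ℕ =>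
        (⟨∏ a, T a ^ α a, prod_mem fun a _ => pow_mem
          (Algebra.subset_adjoin (Set.mem_range_self a)) _⟩ : A) :=
      LinearIndependent.of_comp A.val.toLinearMap (DegAux.mono_indep hT)
    have hc : LinearIndependent A fun i : Fin (e + 1) => Z ^ (i : ℕ) := by
      rw [Fintype.linearIndependent_iff]
      intro c hc i
      have := key A (n := e + 1) (by omega) hZ
        (fun j => if h : j < e + 1 then (c ⟨j, h⟩ : L) else 0)
        (fun j => by split_ifs; exacts [(c _).2, zero_mem _]) (by
          rw [← hc, sum_range]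
          exact sum_congr rfl fun j _ => by rw [dif_pos j.2]; rfl) i i.2
      rw [dif_pos i.2] at this
      exact Subtype.ext this
    exact (linearIndependent_smul hb hc).comp
      (fun m : {m : Ix r // m.2 < e + 1} => (m.1.1, (⟨m.1.2, m.2⟩ : Fin (e + 1))))
      fun m m' h => by
        simp only [Prod.mk.injEq, Fin.mk.injEq] at h
        exact Subtype.ext (Prod.ext h.1 h.2)
  · have := key A he'.ge hZ (fun i => ((i + 1 : ℕ) : L) * G (i + 1))
      (fun i => mul_mem (natCast_mem _ _) (hGA _)) h0 e' (by omega)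
    rw [hG1, mul_one] at this
    exact Nat.cast_ne_zero.2 (Nat.succ_ne_zero e') this
  · exact sum_mem fun i _ => mul_mem (mul_mem (natCast_mem _ _) (hAB (hGA _))) (pow_mem hZB _)
  · rw [map_sum, mul_sum]
    refine sum_congr rfl fun i hi => ?_
    have h1 : E (G (i + 1)) = ((e' : L) - i) * G (i + 1) := by
      rcases Nat.lt_or_ge i e' with h | h
      · have := hEG (i + 1) (by omega)
        push_cast at this
        linear_combination this
      · obtain rfl : i = e' := by have := mem_range.1 hi; omega
        rw [hG1]; simp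
    rw [Derivation.leibniz, Derivation.leibniz, eul_pow E hEZ, h1, Derivation.map_natCast]
    simp only [smul_eq_mul]
    ring
  · have h1 := der_sum δ Z G (e' + 1)
    rw [hG0, map_zero] at h1
    rw [eq_neg_of_add_eq_zero_right h1.symm]
    exact neg_mem (sum_mem fun i _ => mul_mem (hAB (hδ _ (hGA i))) (pow_mem hZB _))

end Pool.Agent.MP_4060c9_nt.H98
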