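import Pool.Agent.MP_4060c9_nt.H98.Spec4

/-!
The covering Wronskian bound.
-/

set_option autoImplicit false

namespace Pool.Agent.MP_4060c9_nt.H98

open Finset

namespace GwAux

variable {k L J : Type} [Field k] [Field L] [CharZero L] [Algebra k L]

theorem der_alg (D : Derivation ℚ L L) {x : L} (hx : IsAlgebraic ℚ x) : D x = 0 := by
  have h := D.map_aeval (minpoly ℚ x) x
  rw [minpoly.aeval, map_zero, smul_eq_mul] at h
  exact (mul_eq_zero.1 h.symm).resolve_left
    ((minpoly.irreducible hx.isIntegral).separable.aeval_derivative_ne_zero (minpoly.aeval ℚ x))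

omit [CharZero L] in
theorem der_fm {R ι : Type} [CommRing R] [Algebra R L] [Fintype ι] (D : Derivation R L L)
    (u : ι → L) (n : ι → ℤ) : D (fm u n) = ∑ i, n i * D (u i) := by
  simp [fm, Derivation.leibniz]

theorem sum_app {ι : Type} [Fintype ι] (β : ι → L) (D : ι → Derivation ℚ L L) (y : L) :
    (∑ m, β m • D m) y = ∑ m, β m * D m y :=
  (congrFun (map_sum (Derivation.coeFnAddMonoidHom (R := ℚ) (A := L) (M := L))
    (fun m => β m • D m) univ) y).trans (by simp [Finset.sum_apply])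

theorem stabA (D : Derivation ℚ L L) (s : Set L)
    (h1 : ∀ c, D (algebraMap k L c) ∈ Set.range (algebraMap k L))
    (h2 : ∀ x ∈ s, D x ∈ Algebra.adjoin k s) : ∀ x ∈ Algebra.adjoin k s, D x ∈ Algebra.adjoin k s := by
  intro x hx
  induction hx using Algebra.adjoin_induction with
  | mem x hx => exact h2 x hx
  | algebraMap c =>
    obtain ⟨c', h⟩ := h1 c
    exact h ▸ Subalgebra.algebraMap_mem _ c'
  | add x y _ _ hx hy => exact map_add D x y ▸ add_mem hx hy
  | mul x y h3 h4 hx hy => exact D.leibniz x y ▸ add_mem (mul_mem h3 hy) (mul_mem h4 hx)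

theorem stabF (D : Derivation ℚ L L) (s : Set L) (N : AddSubgroup L)
    (hN : ∀ a ∈ IntermediateField.adjoin k s, ∀ y ∈ N, a * y ∈ N)
    (h1 : ∀ c, D (algebraMap k L c) ∈ N) (h2 : ∀ x ∈ s, D x ∈ N) :
    ∀ x ∈ IntermediateField.adjoin k s, D x ∈ N := by
  intro x hx
  induction hx using IntermediateField.adjoin_induction with
  | mem x hx => exact h2 x hx
  | algebraMap c => exact h1 c
  | add x y _ _ hx hy => exact map_add D x y ▸ add_mem hx hy
  | inv x h hx => exact D.leibniz_inv x ▸ hN _ (neg_mem (pow_mem (inv_mem h) 2)) _ hx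
  | mul x y h3 h4 hx hy => exact D.leibniz x y ▸ add_mem (hN _ h3 _ hy) (hN _ h4 _ hx)

omit [CharZero L] in
theorem int_mono {S : Type} [SetLike S L] [SubringClass S L] (A : Subalgebra k L) (B : S)
    (h : ∀ x ∈ A, x ∈ B) {x : L} (hx : IsIntegral A x) : IsIntegral B x :=
  hx.map_of_comp_eq ((algebraMap A L).codRestrict B fun a => h a a.2) (RingHom.id L) rfl

/-- The element has degree `a`. -/
def Dg (E : Derivation k L L) (x : L) (a : ℤ) : Prop := E x = a * x

section

variable {E : Derivation k L L}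

omit [CharZero L]

theorem Dg.mul {x y : L} {a b : ℤ} (h : Dg E x a) (h' : Dg E y b) : Dg E (x * y) (a + b) := by
  unfold Dg at *
  rw [E.leibniz, h, h', smul_eq_mul, smul_eq_mul]
  push_cast
  ring

theorem Dg.div {x y : L} {a b : ℤ} (h : Dg E x a) (h' : Dg E y b) (hy : y ≠ 0) :
    Dg E (x / y) (a - b) := by
  unfold Dg at *
  rw [E.leibniz_div, h, h', smul_eq_mul, smul_eq_mul, smul_eq_mul]
  push_cast
  field_simp

theorem Dg.prod {ι : Type} (s : Finset ι) {x : ι → L} {a : ι → ℤ} (h : ∀ i, Dg E (x i) (a i)) :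
    Dg E (∏ i ∈ s, x i) (∑ i ∈ s, a i) := by
  classical
  induction s using Finset.induction_on with
  | empty => simp [Dg]
  | insert i s hi ih =>
    rw [prod_insert hi, sum_insert hi]
    exact (h i).mul ih

theorem Dg.pow {x : L} (h : E x = x) (j : ℕ) : Dg E (x ^ j) j := by
  simpa using Dg.prod (range j) (x := fun _ => x) (a := fun _ => 1) fun _ => by simpa [Dg] using h

theorem Dg.det {n : ℕ} {A : Matrix (Fin n) (Fin n) L} {a : Fin n → ℤ}
    (h : ∀ q i, Dg E (A q i) (a q)) : Dg E A.det (∑ q, a q) := by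
  rw [Dg, Matrix.det_apply', map_sum, mul_sum]
  refine sum_congr rfl fun σ _ => ?_
  have := (show Dg E ((Equiv.Perm.sign σ : ℤ) : L) 0 by simp [Dg]).mul
    (Dg.prod univ fun i => h (σ i) i)
  rwa [Equiv.sum_comp σ a, zero_add] at this

end

theorem dg_wd {E : Derivation k L L} {g : L} {e : ℕ} (hg : Dg E g e) {δ : J → Derivation ℚ L L}
    (h : ∀ v, ∃ b ≤ (0 : ℤ), ∀ x a, Dg E x a → Dg E (δ v x) (a + b)) (l : List J) :
    ∃ b ≤ (l.length * e : ℤ), ∀ x a, Dg E x a → Dg E (wd g δ l x) (a + b) := by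
  induction l with
  | nil => exact ⟨0, by simp, fun x a hx => by simpa [wd] using hx⟩
  | cons v l ih =>
    obtain ⟨b, h1, h2⟩ := ih
    obtain ⟨b', h3, h4⟩ := h v
    refine ⟨e + b + b', by rw [List.length_cons]; push_cast; linarith, fun x a hx => ?_⟩
    rw [show a + (e + b + b') = e + (a + b + b') by ring]
    exact hg.mul (h4 _ _ (h2 x a hx))

theorem wd_sum {ι : Type} [Fintype ι] (g : L) (δ : J → Derivation ℚ L L) (f : ι → L)
    (l : List J) : ∑ i, wd g δ l (f i) = wd g δ l (∑ i, f i) := by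
  induction l with
  | nil => rfl
  | cons v l ih =>
    change ∑ i, g * δ v (wd g δ l (f i)) = g * δ v (wd g δ l _)
    rw [← ih, map_sum, mul_sum]

theorem wd_zero (g : L) (δ : J → Derivation ℚ L L) (l : List J) : wd g δ l 0 = 0 := by
  simpa using (wd_sum (ι := Fin 0) g δ (fun _ => 0) l).symm

omit [CharZero L] in
theorem div_mono {O : Subring L} {u x : L} (hu : u ∈ O) (h0 : u ≠ 0) {j j' : ℕ} (hj : j' ≤ j)
    (h : x / u ^ j ∈ O) : x / u ^ j' ∈ O := by
  obtain ⟨i, rfl⟩ := Nat.exists_eq_add_of_le hj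
  convert mul_mem h (pow_mem hu i) using 1
  field_simp
  ring

theorem wd_loc {O : Subring L} {g u x : L} {δ : J → Derivation ℚ L L}
    (h : ∀ v, ∀ y ∈ O, g * δ v y ∈ O) (hu : u ∈ O) (h0 : u ≠ 0) {κ : ℕ} (hx : x / u ^ κ ∈ O)
    (l : List J) : wd g δ l x / u ^ (κ - l.length) ∈ O := by
  induction l with
  | nil => exact hx
  | cons v l ih =>
    rw [List.length_cons, ← Nat.sub_sub]
    generalize κ - l.length = j at ih ⊢
    change g * δ v (wd g δ l x) / _ ∈ O
    obtain ⟨y, hy, e⟩ : ∃ y ∈ O, wd g δ l x = u ^ j * y := ⟨_, ih, by field_simp⟩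
    have h1 : u ^ j / u ^ (j - 1) ∈ O :=
      div_mono hu h0 (Nat.sub_le j 1) (by rw [div_self (pow_ne_zero _ h0)]; exact one_mem _)
    convert add_mem (mul_mem h1 (h v y hy)) (mul_mem (mul_mem hy (natCast_mem O j)) (h v u hu))
      using 1
    rw [e, Derivation.leibniz, Derivation.leibniz_pow]
    simp only [smul_eq_mul, nsmul_eq_mul]
    field_simp

theorem cnt (p d n : ℕ) : ∑ q ∈ range n, (if q < p then 1 else 0) = min n p ∧
    2 * ∑ q ∈ range n, (if q < d then 0 else q + 2 - d) + 2 = (n - d + 1) * (n - d + 2) := by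
  induction n with
  | zero => simp
  | succ n ih =>
    rw [sum_range_succ, sum_range_succ, ih.1, mul_add, add_right_comm, ih.2]
    refine ⟨by split_ifs <;> omega, ?_⟩
    split_ifs with h
    · rw [Nat.sub_eq_zero_of_le h, Nat.sub_eq_zero_of_le h.le]
    · obtain ⟨j, rfl⟩ := Nat.exists_eq_add_of_le (not_lt.1 h)
      simp only [add_assoc, Nat.add_sub_cancel_left]
      ring

omit [CharZero L] in
theorem ex_unit {ι : Type} [Fintype ι] (O : ValuationSubring L) {u : ι → L} {n : ι → ℤ}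
    (h0 : fm u n ≠ 0) (h : (fm u n)⁻¹ ∈ O) : ∃ i, (u i)⁻¹ ∈ O ∧ u i ≠ 0 := by
  by_contra hn
  have h1 : O.valuation (fm u n) < 1 := Valuation.map_sum_lt _ one_ne_zero fun i _ => by
    rw [map_mul]
    refine mul_lt_one_of_nonneg_of_lt_one_right
      ((O.valuation_le_one_iff _).2 (intCast_mem O _)) zero_le ?_
    by_contra h2
    refine hn ⟨i, (O.valuation_le_one_iff _).1 ?_, fun h3 => h2 (by simp [h3])⟩
    rw [map_inv₀]
    exact inv_le_one_of_one_le₀ (not_lt.1 h2)
  have h2 := (O.valuation_le_one_iff _).2 h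
  rw [map_inv₀, inv_le_one₀ (zero_lt_iff.2 ((map_ne_zero _).2 h0))] at h2
  exact absurd h1 (not_lt.2 h2)

theorem locp (hLoc : LocStmt) [CharZero k] {r : ℕ} {T : Fin r → L} {Z g φ : L}
    {δ : J → Derivation ℚ L L} {v₀ : J} {a : Fin r} {F : IntermediateField k L}
    (hF : F = IntermediateField.adjoin k (T '' {a}ᶜ)) (hi : AlgebraicIndependent k T)
    (hZ : IsIntegral (Algebra.adjoin k (Set.range T)) Z)
    (hg : IntermediateField.adjoin k (insert Z (Set.range T)) = ⊤) (g2 : g ≠ 0)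
    (g3 : g ∈ Algebra.adjoin k (insert Z (Set.range T)))
    (g5 : ∀ D : Derivation ℚ L L,
      (∀ x ∈ Algebra.adjoin k (Set.range T), D x ∈ Algebra.adjoin k (Set.range T)) →
      g * D Z ∈ Algebra.adjoin k (insert Z (Set.range T)))
    (e1 : ∀ v c, δ v (algebraMap k L c) ∈ Set.range (algebraMap k L))
    (e2 : ∀ v a, δ v (T a) ∈ Set.range (algebraMap k L))
    (d3 : ∀ c, δ v₀ (algebraMap k L c) = 0) (d4 : ∀ b, δ v₀ (T b) = if b = a then 1 else 0)
    (hO : ∀ O : ValuationSubring L, (∀ x ∈ F, x ∈ O) →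
      (∀ x ∈ Algebra.adjoin k (Set.range T), x ∈ O) → (∀ v, ∀ x ∈ O, g * δ v x ∈ O) →
      (∀ v, ∃ h : L, ∀ x ∈ O, δ v x - h * δ v₀ x ∈ O) → φ ∈ O) :
    IsIntegral (Algebra.adjoin F {T a}) φ := by
  have hk : ∀ c, algebraMap k L c ∈ F := F.algebraMap_mem
  have hFr : ∀ x ∈ F, x ∈ Set.range (algebraMap F L) := fun x hx => ⟨⟨x, hx⟩, rfl⟩
  have hsub : ∀ (S : Subalgebra F L) (t : Set L), T a ∈ S → t ⊆ S →
      ∀ x ∈ Algebra.adjoin k (t ∪ Set.range T), x ∈ S := fun S t h1 h2 =>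
    Algebra.adjoin_le (S := S.restrictScalars k) (Set.union_subset h2 (by
      rintro _ ⟨a', rfl⟩
      by_cases h : a' = a
      · exact h ▸ h1
      · exact S.algebraMap_mem ⟨_, hF ▸ IntermediateField.subset_adjoin _ _ ⟨a', h, rfl⟩⟩))
  have hA : ∀ x ∈ Algebra.adjoin k (Set.range T), x ∈ Algebra.adjoin F {T a} := by
    simpa only [Set.empty_union] using
      hsub (Algebra.adjoin F {T a}) ∅ (Algebra.subset_adjoin rfl) (Set.empty_subset _)
  have hA' : ∀ x ∈ Algebra.adjoin k (insert Z (Set.range T)), x ∈ Algebra.adjoin F {T a, Z} :=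
    hsub _ {Z} (Algebra.subset_adjoin (Or.inl rfl)) fun x hx => Algebra.subset_adjoin (Or.inr hx)
  refine hLoc F L _ (T a) Z g _ δ v₀ ?_ (int_mono _ _ hA hZ) ?_ g2 (hA' g g3) ?_ ?_ ?_ ?_
    (by simp [d4]) fun O o1 => hO O
      (fun x hx => o1 x (Subalgebra.algebraMap_mem _ (⟨x, hx⟩ : F))) fun x hx => o1 x (hA x hx)
  · subst hF
    exact IntermediateField.transcendental_adjoin_iff.2 (hi.transcendental_adjoin (by simp))
  · have : IntermediateField.adjoin k (insert Z (Set.range T)) ≤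
        (IntermediateField.adjoin F {T a, Z}).restrictScalars k :=
      IntermediateField.adjoin_le_iff.2 fun y hy =>
        IntermediateField.algebra_adjoin_le_adjoin F _ (hA' y (Algebra.subset_adjoin hy))
    rw [hg] at this
    exact eq_top_iff.2 fun x _ => this trivial
  · refine fun v x => hFr _ (stabF (k := k) (δ v) _ F.toSubfield.toAddSubgroup
      (fun x hx y hy => F.mul_mem (hF ▸ hx) hy) (fun c => ?_) ?_ _ (hF ▸ x.2))
    · obtain ⟨c', h⟩ := e1 v c
      exact h ▸ hk c'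
    · rintro _ ⟨a', -, rfl⟩
      obtain ⟨c', h⟩ := e2 v a'
      exact h ▸ hk c'
  · intro v
    obtain ⟨c', h⟩ := e2 v a
    exact hFr _ (h ▸ hk c')
  · refine fun v => hA' _ (g5 _ (stabA _ _ (e1 v) ?_))
    rintro _ ⟨a', rfl⟩
    obtain ⟨c', h⟩ := e2 v a'
    exact h ▸ Subalgebra.algebraMap_mem _ c'
  · refine fun x => stabF (k := k) (δ v₀) _ ⊥ (fun x _ y hy => by
      rw [AddSubgroup.mem_bot.1 hy, mul_zero]; rfl) d3 ?_ _ (hF.le x.2)
    rintro _ ⟨a', h, rfl⟩
    exact (d4 a').trans (if_neg h)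

end GwAux

open GwAux in
theorem gw (hDer : DerStmt) (hLoc : LocStmt) (hNeg : NegStmt) (hGst : GstStmt) (hWrk : WrkStmt)
    (hDl : DlStmt) : GwStmt := by
  intro k L _ _ _ _ _ n r κ d M e u T Z E c s hC hκ hc hc0 hsum hcir hs hM hLI
  choose N hN using hC.lin
  obtain ⟨NZ, hNZ⟩ := hC.linZ
  have hu0 : ∀ i, u i ≠ 0 := fun i hi => by
    obtain ⟨j, hj⟩ : ∃ j, u j ≠ 0 := by
      by_contra h
      exact hC.ind.ne_zero 0 (by simp [hN, fm, fun j => not_not.1 (not_exists.1 h j)])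
    have := hcir (Pi.single i 1) (fun a => by
      rw [Pi.single_apply]
      split_ifs
      exacts [isAlgebraic_one, isAlgebraic_zero]) (by simp [Pi.single_apply, hi, hκ.ne'])
      ⟨j, Pi.single_eq_of_ne (fun h : j = i => hj (h ▸ hi)) _⟩
    simpa using congrFun this i
  have hE : ∀ m, E (fm u m) = fm u m := fun m => by simp only [der_fm, hC.eul]; rfl
  have hET : ∀ a, E (T a) = T a := fun a => by rw [hN, hE]
  have hZ : IsIntegral (Algebra.adjoin k (Set.range T)) Z :=
    hNZ ▸ IsIntegral.sum _ fun i _ => (isIntegral_intCast _).mul (hC.int i)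
  have halg : Algebra.IsAlgebraic (Algebra.adjoin k (Set.range T)) L := ⟨fun x => by
    have hx : x ∈ IntermediateField.adjoin k (insert Z (Set.range T)) := hC.gen ▸ trivial
    induction hx using IntermediateField.adjoin_induction with
    | mem x hx =>
      rcases hx with rfl | hx
      · exact hZ.isAlgebraic
      · exact isAlgebraic_algebraMap (⟨x, Algebra.subset_adjoin hx⟩ : Algebra.adjoin k _)
    | algebraMap c => exact isAlgebraic_algebraMap (algebraMap k (Algebra.adjoin k _) c)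
    | add x y _ _ hx hy => exact hx.add hy
    | inv x _ hx => exact hx.inv
    | mul x y _ _ hx hy => exact hx.mul hy⟩
  obtain ⟨J, δ, d1, d2, d3, d4, d5, d6, d7⟩ := hDer k L (r + 2) T hC.ind halg
  obtain ⟨d7, d8⟩ := d7 E hET
  obtain ⟨g, e', g1, g2, g3, g4, g5⟩ := hGst k L (r + 2) e T Z E hC.ind hZ hET
    (by rw [hNZ, hE]) hLI
  have e1 : ∀ v c, δ v (algebraMap k L c) ∈ Set.range (algebraMap k L) := by
    rintro (v | v) c
    · exact d1 v c
    · exact ⟨0, by rw [d3, map_zero]⟩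
  have e2 : ∀ v a, δ v (T a) ∈ Set.range (algebraMap k L) := by
    rintro (v | v) a
    · exact ⟨0, by rw [d2, map_zero]⟩
    · exact ⟨if a = v then 1 else 0, by rw [d4]; split_ifs <;> simp⟩
  obtain ⟨f, hf⟩ : ∃ f : Fin (n + 1) → L, ∀ i, f i = algebraMap k L (c i) * u i ^ κ :=
    ⟨_, fun _ => rfl⟩
  have f0 : ∑ i, f i = 0 := by simpa only [hf, Algebra.smul_def] using hsum
  obtain ⟨γ, γ0, hγ, γ1⟩ : ∃ γ : Fin (n + 1) → L, (∀ i, γ i ≠ 0) ∧
      (∀ (D : Derivation ℚ L L) i, D (f i) = γ i * D (u i)) ∧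
      ∀ i, γ i / u i ^ (κ - 1) ∈ Set.range (algebraMap k L) := by
    refine ⟨fun i => algebraMap k L (c i * κ) * u i ^ (κ - 1), fun i => ?_, fun D i => ?_,
      fun i => ⟨c i * κ, by rw [mul_div_cancel_right₀ _ (pow_ne_zero _ (hu0 i))]⟩⟩
    · simp [hc0, hu0, hκ.ne']
    · rw [hf, D.leibniz, der_alg D ((hc i).algebraMap), D.leibniz_pow]
      simp only [smul_eq_mul, nsmul_eq_mul, map_mul, map_natCast]
      ring
  obtain ⟨i₀, hi₀⟩ : ∃ i₀, ∀ a, s a ≠ i₀ := by
    by_contra hn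
    have h1 : s.Bijective := ⟨hs.injective.of_comp, fun i => by
      by_contra h
      exact hn ⟨i, fun a ha => h ⟨a, ha⟩⟩⟩
    obtain ⟨a, -⟩ := h1.2 0
    have h2 : Submodule.span L (Set.range fun v q => δ v (u (s q))) ≤
        LinearMap.ker (Fintype.linearCombination L fun a => γ (s a)) := by
      refine Submodule.span_le.2 ?_
      rintro _ ⟨v, rfl⟩
      simp only [SetLike.mem_coe, LinearMap.mem_ker, Fintype.linearCombination_apply, smul_eq_mul]
      rw [← map_zero (δ v), ← f0, map_sum]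
      exact h1.sum_comp (fun i => δ v (u i) * γ i) ▸ sum_congr rfl fun i _ => by rw [hγ, mul_comm]
    rw [d6 d _ hs] at h2
    simpa [γ0] using h2 (Submodule.mem_top (x := Pi.single a 1))
  have hind : LinearIndependent L fun a i => δ (.inr a) (f (i₀.succAbove i)) := by
    refine Fintype.linearIndependent_iff.2 fun β hβ a => ?_
    have h1 : ∀ i, (∑ a, β a • δ (.inr a)) (f (i₀.succAbove i)) = 0 := fun i => by
      simpa [sum_app] using congrFun hβ i
    have h2 : (∑ a, β a • δ (.inr a)) (f i₀) = 0 := by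
      generalize (∑ a, β a • δ (.inr a)) = D at h1
      simpa only [Fin.sum_univ_succAbove _ i₀, map_add, map_sum, h1, map_zero, sum_const_zero,
        add_zero] using congrArg D f0
    have h3 : ∀ i, (∑ a, β a • δ (.inr a)) (u i) = 0 := fun i =>
      (mul_eq_zero.1 ((hγ _ i).symm.trans (Fin.succAboveCases i₀ h2 h1 i))).resolve_left (γ0 i)
    have h4 : (∑ a, β a • δ (.inr a)) (T a) = 0 := by simp only [hN, der_fm, h3]; simp
    simpa [sum_app, d4] using h4
  have hrk : max d (r + 2) ≤ Module.finrank L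
      (Submodule.span L (Set.range fun w i => δ w (f (i₀.succAbove i)))) := by
    refine max_le ?_ ?_
    · choose j hj using fun a => Fin.exists_succAbove_eq (hi₀ a)
      have := Submodule.finrank_map_le
        (LinearMap.pi fun a => (γ (s a))⁻¹ • (LinearMap.proj (j a) : (Fin n → L) →ₗ[L] L))
        (Submodule.span L (Set.range fun w i => δ w (f (i₀.succAbove i))))
      rw [Submodule.map_span, ← Set.range_comp, show (_ ∘ _) = fun v q => δ v (u (s q)) from
        funext fun v => funext fun q => by simp [hj, hγ, γ0], d6 d _ hs] at this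
      simpa using this
    · have := Submodule.finrank_mono (Submodule.span_mono (R := L)
        (Set.range_comp_subset_range Sum.inr fun w i => δ w (f (i₀.succAbove i))))
      rw [show (_ ∘ _) = fun a i => δ (.inr a) (f (i₀.succAbove i)) from rfl,
        finrank_span_eq_card hind, Fintype.card_fin] at this
      exact this
  have hn : max d (r + 2) ≤ n := hrk.trans ((Submodule.finrank_le _).trans (by simp))
  have hM1 : 1 ≤ M := by omega
  refine ⟨hM1, ?_⟩
  obtain ⟨ρ, ρ0, hρ⟩ := hWrk L _ δ n (r + 2) (max d (r + 2)) (fun i => f (i₀.succAbove i)) .inr g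
    g2 (le_max_right _ _) (fun a ha h0 => by
      choose a' ha' using fun i => hC.cl (a i) ((d5 _ fun v => ha v i).extendScalars
        (algebraMap ℚ k).injective)
      have h1 := hcir (i₀.insertNth 0 fun i => a' i * c (i₀.succAbove i))
        (fun i => Fin.succAboveCases i₀ (by simpa using isAlgebraic_zero) (fun i => by
          rw [Fin.insertNth_apply_succAbove]
          refine IsAlgebraic.mul ?_ (hc _)
          rw [← isAlgebraic_algebraMap_iff (algebraMap k L).injective, ha']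
          exact d5 _ fun v => ha v i) i) (by
          simpa [Fin.sum_univ_succAbove _ i₀, Algebra.smul_def, ha', hf, mul_assoc] using h0)
        ⟨i₀, by simp⟩
      funext i
      have h2 := congrFun h1 (i₀.succAbove i)
      simp only [Fin.insertNth_apply_succAbove, Pi.zero_apply, mul_eq_zero, hc0, or_false] at h2
      rw [← ha', h2, map_zero, Pi.zero_apply]) hind hrk
  have hdg : ∀ v, ∃ b ≤ (0 : ℤ), ∀ x a, Dg E x a → Dg E (δ v x) (a + b) ∧
      (v.isRight → b = -1) := by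
    rintro (v | v)
    · refine ⟨0, le_rfl, fun x a hx => ⟨?_, by simp⟩⟩
      rw [Dg, d7, hx, Derivation.leibniz]
      simp
    · refine ⟨-1, by simp, fun x a hx => ⟨?_, by simp⟩⟩
      rw [Dg, d8, hx, Derivation.leibniz]
      simp [add_mul, sub_eq_add_neg]
  have hfd : ∀ i, Dg E (f i) κ := fun i => by
    simpa [hf] using (show Dg E (algebraMap k L (c i)) 0 by simp [Dg]).mul (Dg.pow (hC.eul i) κ)
  have hrow : ∀ q : Fin n, ∃ b : ℤ, b + (if (q : ℕ) < r + 2 then 1 else 0 : ℕ) ≤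
      (if (q : ℕ) < max d (r + 2) then 0 else q + 2 - max d (r + 2) : ℕ) * e' ∧
      ∀ i, Dg E (ρ q (f i)) (κ + b) := fun q => by
    obtain ⟨h1, h2, h3⟩ := hρ q
    split_ifs with h4 h5 h5
    · obtain ⟨b, -, h6⟩ := hdg (.inr ⟨q, h4⟩)
      exact ⟨b, by simp [(h6 _ _ (hfd 0)).2], fun i => h1 h4 ▸ (h6 _ _ (hfd i)).1⟩
    · omega
    · obtain ⟨w, hw⟩ := h2 h5
      obtain ⟨b, h6, h7⟩ := hdg w
      exact ⟨b, by simpa using h6, fun i => hw ▸ (h7 _ _ (hfd i)).1⟩
    · obtain ⟨l, h6, hl⟩ := h3 (not_lt.1 h5)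
      obtain ⟨b, h7, h8⟩ := dg_wd (E := E) (g := g) (e := e') (by simpa [Dg] using g4)
        (fun v => (hdg v).imp fun b h => ⟨h.1, fun x a hx => (h.2 x a hx).1⟩) l
      refine ⟨b, ?_, fun i => hl ▸ h8 _ _ (hfd i)⟩
      rw [Nat.cast_zero, add_zero]
      refine h7.trans (mul_le_mul_of_nonneg_right ?_ (by positivity))
      omega
  choose b hb1 hb2 using hrow
  have hφ := ((show Dg E g e' by simpa [Dg] using g4).mul
    (Dg.det (A := Matrix.of fun q i => ρ q (f (i₀.succAbove i))) fun q i => hb2 q _)).div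
    (Dg.prod univ fun i => Dg.pow (hC.eul i) (κ - M))
    (prod_ne_zero_iff.2 fun i _ => pow_ne_zero _ (hu0 i))
  by_contra hlt
  obtain ⟨ν, hν⟩ : ∃ ν : ℕ, (e' : ℤ) + ∑ q, (κ + b q) - ∑ _i : Fin (n + 1), ((κ - M : ℕ) : ℤ) =
      -((ν + 1 : ℕ) : ℤ) := by
    have h1 := sum_le_sum (s := univ) fun q _ => hb1 q
    obtain ⟨h2, h3⟩ := cnt (r + 2) (max d (r + 2)) n
    rw [sum_add_distrib, ← sum_mul, ← Nat.cast_sum, ← Nat.cast_sum,
      Fin.sum_univ_eq_sum_range (fun q => if q < r + 2 then 1 else 0),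
      Fin.sum_univ_eq_sum_range (fun q => if q < max d (r + 2) then 0 else q + 2 - max d (r + 2)),
      h2, min_eq_right (by omega)] at h1
    generalize ∑ q ∈ range n, (if q < max d (r + 2) then 0 else q + 2 - max d (r + 2)) = S at h1 h3
    have h4 : (2 * S + 2) * e' ≤ M * (M + 1) * (e - 1) :=
      Nat.mul_le_mul (h3 ▸ Nat.mul_le_mul (by omega) (by omega)) (by omega)
    have h5 : (κ : ℤ) ≤ (κ - M : ℕ) + M := by omega
    rw [gb, not_le] at hlt
    zify at h4 hlt
    refine ⟨(-(e' + ∑ q, (κ + b q) - ∑ _i : Fin (n + 1), ((κ - M : ℕ) : ℤ)) - 1).toNat, ?_⟩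
    rw [Nat.cast_add, Int.toNat_of_nonneg]
    · simp
    · rw [sum_add_distrib]
      simp only [sum_const, card_univ, Fintype.card_fin, nsmul_eq_mul]
      push_cast at h1 ⊢
      nlinarith [mul_le_mul_of_nonneg_left h5 (show (0 : ℤ) ≤ n + 1 by positivity)]
  rw [hν, Dg, Int.cast_neg, Int.cast_natCast, neg_mul] at hφ
  refine absurd (hNeg k L (r + 1) ν T E _ hC.ind hET (fun a F hF => ?_) hφ)
    (div_ne_zero (mul_ne_zero g2 ρ0) (prod_ne_zero_iff.2 fun i _ => pow_ne_zero _ (hu0 i)))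
  refine locp hLoc hF hC.ind hZ hC.gen g2 g3 g5 e1 e2 (d3 a) (d4 a) fun O hFO o1 o2 o3 => ?_
  have hk : ∀ c, algebraMap k L c ∈ F := F.algebraMap_mem
  have huO : ∀ i, u i ∈ O.toSubring := fun i => by
    obtain ⟨y, hy⟩ := IsIntegrallyClosed.isIntegral_iff.1
      (int_mono _ O o1 (hC.int i))
    exact hy ▸ y.2
  obtain ⟨a', ha'⟩ := exists_ne a
  obtain ⟨i₁, hi₁, -⟩ := ex_unit O (hN a' ▸ hC.ind.ne_zero a')
    (hN a' ▸ hFO _ (F.inv_mem
      (hF ▸ IntermediateField.subset_adjoin _ _ ⟨a', ha', rfl⟩)))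
  have hγO : ∀ i, ∀ y ∈ O, γ i * y / u i ^ (κ - M) ∈ O.toSubring := fun i y hy => by
    obtain ⟨c', h⟩ := γ1 i
    refine div_mono (huO i) (hu0 i) (show _ ≤ κ - 1 by omega) ?_
    rw [mul_div_right_comm, ← h]
    exact mul_mem (hFO _ (hk c')) hy
  have hq : ρ ⟨a, by omega⟩ = δ (.inr a) := (hρ _).1 a.2
  refine hDl L O.toSubring n (fun q i => ρ q (f i)) (fun i => u i ^ (κ - M)) g ⟨a, by omega⟩ i₀ i₁
    (fun q => ?_) (fun i => pow_ne_zero _ (hu0 i)) (inv_pow (u i₁) _ ▸ pow_mem hi₁ _)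
    (fun i => ?_) fun q _ => ?_
  · rcases lt_or_ge (q : ℕ) (max d (r + 2)) with h | h
    · obtain ⟨w, hw⟩ := (hρ q).2.1 h
      rw [hw, ← map_sum, f0, map_zero]
    · obtain ⟨l, -, hl⟩ := (hρ q).2.2 h
      rw [hl, wd_sum, f0, wd_zero]
  · rw [hq, hγ, mul_left_comm]
    exact hγO i _ (o2 _ _ (huO i))
  · rcases lt_or_ge (q : ℕ) (max d (r + 2)) with h | h
    · obtain ⟨w, hw⟩ := (hρ q).2.1 h
      obtain ⟨y, hy⟩ := o3 w
      refine ⟨y, fun i => ?_⟩
      rw [hq, hw, hγ, hγ, mul_left_comm, ← mul_sub]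
      exact hγO i _ (hy _ (huO i))
    · obtain ⟨l, h1, hl⟩ := (hρ q).2.2 h
      refine ⟨0, fun i => ?_⟩
      rw [zero_mul, sub_zero, hl]
      refine div_mono (huO i) (hu0 i) (by omega) (wd_loc o2 (huO i) (hu0 i) (κ := κ) ?_ l)
      rw [hf, mul_div_cancel_right₀ _ (pow_ne_zero _ (hu0 i))]
      exact hFO _ (hk _)

end Pool.Agent.MP_4060c9_nt.H98
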