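import Pool.Agent.MP_4060c9_nt.H98.Spec4

/-!
Varieties of degree at most two.
-/

set_option autoImplicit false

namespace Pool.Agent.MP_4060c9_nt.H98

open Finset

namespace LinAux

section Euler

open MvPolynomial

variable {k L : Type} [Field k] [Field L] [Algebra k L] {r : ℕ}

/-- The Euler operator. -/
noncomputable def th (p : MvPolynomial (Fin r) k) : MvPolynomial (Fin r) k :=
  ∑ a, X a * pderiv a p

lemma th_add (p q : MvPolynomial (Fin r) k) : th (p + q) = th p + th q := by
  simp [th, mul_add, sum_add_distrib]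

lemma der_aeval {T : Fin r → L} {E : Derivation k L L} (h : ∀ a, E (T a) = T a)
    (p : MvPolynomial (Fin r) k) : E (aeval T p) = aeval T (th p) := by
  induction p using MvPolynomial.induction_on with
  | C c => simp [th]
  | add p q hp hq => rw [map_add, map_add, hp, hq, th_add, map_add]
  | mul_X p a hp =>
    have h1 : th (p * X a) = th p * X a + p * X a := by
      have h2 : ∀ b, X b * pderiv b (p * X a) =
          X b * pderiv b p * X a + if a = b then p * X a else 0 := fun b => by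
        rw [Derivation.leibniz, pderiv_X, Pi.single_apply]
        split_ifs with h3
        · subst h3
          simp only [smul_eq_mul]
          ring
        · simp only [smul_eq_mul]
          ring
      simp only [th, h2, sum_add_distrib, sum_mul, sum_ite_eq, mem_univ, if_true]
    rw [h1, map_mul, aeval_X, Derivation.leibniz, hp, h, map_add, map_mul, map_mul, aeval_X]
    simp only [smul_eq_mul]
    ring

lemma coeff_th (p : MvPolynomial (Fin r) k) (m : Fin r →₀ ℕ) :
    coeff m (th p) = ((∑ a, m a : ℕ) : k) * coeff m p := by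
  induction p using MvPolynomial.induction_on' with
  | monomial u c =>
    rw [th]
    simp only [X_mul_pderiv_monomial, ← sum_smul, coeff_smul, coeff_monomial]
    split_ifs with h
    · subst h
      simp
    · simp
  | add p q hp hq => rw [th_add, coeff_add, coeff_add, hp, hq, mul_add]

lemma hom [CharZero k] {p : MvPolynomial (Fin r) k} {d : ℕ} (h : th p = (d : MvPolynomial (Fin r) k) * p) :
    p.IsHomogeneous d := fun m hm => by
  have h1 := coeff_th p m
  rw [h, ← nsmul_eq_mul, coeff_smul, nsmul_eq_mul] at h1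
  have h2 : d = ∑ a, m a := by exact_mod_cast mul_right_cancel₀ hm h1
  rw [h2, Finsupp.weight_apply, Finsupp.sum_fintype _ _ (by simp)]
  simp

lemma h1 {T : Fin r → L} {p : MvPolynomial (Fin r) k} (h : p.IsHomogeneous 1) :
    aeval T p ∈ Submodule.span k (Set.range T) := by
  have h2 : p ∈ homogeneousSubmodule (Fin r) k 1 := h
  rw [homogeneousSubmodule_one_eq_span_X] at h2
  have h3 := Submodule.mem_map_of_mem (f := (aeval T).toLinearMap) h2
  rw [Submodule.map_span, ← Set.range_comp] at h3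
  simpa [Function.comp_def] using h3

lemma h2 {T : Fin r → L} {p : MvPolynomial (Fin r) k} (h : p.IsHomogeneous 2) :
    ∃ β : Fin r → Fin r → k, aeval T p = ∑ a, ∑ b, β a b • (T a * T b) := by
  have h2 : p ∈ homogeneousSubmodule (Fin r) k 2 := h
  rw [← homogeneousSubmodule_one_pow, homogeneousSubmodule_one_eq_span_X, pow_two,
    Submodule.span_mul_span] at h2
  have h3 : aeval T p ∈ Submodule.span k (Set.range fun ab : Fin r × Fin r => T ab.1 * T ab.2) := by
    have h4 := Submodule.mem_map_of_mem (f := (aeval T).toLinearMap) h2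
    rw [Submodule.map_span] at h4
    refine Submodule.span_mono ?_ h4
    rintro _ ⟨_, ⟨_, ⟨a, rfl⟩, _, ⟨b, rfl⟩, rfl⟩, rfl⟩
    exact ⟨(a, b), by simp⟩
  obtain ⟨c, hc⟩ := (Submodule.mem_span_range_iff_exists_fun k).1 h3
  exact ⟨fun a b => c (a, b), by rw [← hc, Fintype.sum_prod_type]⟩

lemma hz0 {p : MvPolynomial (Fin r) k} (h : p.IsHomogeneous 0) : ∃ c, p = C c :=
  ⟨_, totalDegree_eq_zero_iff_eq_C.1 ((totalDegree_zero_iff_isHomogeneous _).2 h)⟩

lemma rel {T : Fin r → L} {Z : L} {e : ℕ} (h : ¬ LI k T Z e) :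
    ∃ p : ℕ → MvPolynomial (Fin r) k, (∃ j < e, p j ≠ 0) ∧
      ∑ j ∈ range e, aeval T (p j) * Z ^ j = 0 := by
  classical
  obtain ⟨s, g, h1, i, h2, h3⟩ := not_linearIndependent_iff.1 h
  refine ⟨fun j => ∑ m ∈ s with m.1.2 = j, monomial (Finsupp.equivFunOnFinite.symm m.1.1) (g m),
    ⟨i.1.2, i.2, fun h4 => h3 ?_⟩, ?_⟩
  · have h5 := congrArg (coeff (Finsupp.equivFunOnFinite.symm i.1.1)) h4
    rw [coeff_sum, sum_eq_single_of_mem (s := {m ∈ s | m.1.2 = i.1.2}) i
      (mem_filter.2 ⟨h2, rfl⟩)] at h5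
    · simpa using h5
    · intro m hm hne
      rw [coeff_monomial, if_neg]
      intro h6
      exact hne (Subtype.ext (Prod.ext (Finsupp.equivFunOnFinite.symm.injective h6)
        (mem_filter.1 hm).2))
  · rw [← h1, ← sum_fiberwise_of_maps_to (s := s) (t := range e) (g := fun m => m.1.2)
      (fun m _ => mem_range.2 m.2)]
    refine sum_congr rfl fun j _ => ?_
    rw [map_sum, sum_mul]
    refine sum_congr rfl fun m hm => ?_
    rw [aeval_monomial, Finsupp.prod_fintype _ _ (by simp), mon, (mem_filter.1 hm).2,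
      Algebra.smul_def, mul_assoc]
    rfl

lemma sqf {Δ : MvPolynomial (Fin r) k} (h : Δ.IsHomogeneous 2) (h0 : Δ ≠ 0)
    (hs : ¬ Squarefree Δ) : ∃ (π : MvPolynomial (Fin r) k) (c : k), π ≠ 0 ∧ Δ = π * π * C c := by
  rw [Squarefree] at hs
  push Not at hs
  obtain ⟨π, ⟨c, hc⟩, hu⟩ := hs
  have hπ : π ≠ 0 := by
    rintro rfl
    exact h0 (by simpa using hc)
  have hc0 : c ≠ 0 := by
    rintro rfl
    exact h0 (by simpa using hc)
  have h1 := h.totalDegree h0
  rw [hc, totalDegree_mul_of_isDomain (mul_ne_zero hπ hπ) hc0,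
    totalDegree_mul_of_isDomain hπ hπ] at h1
  have h2 : π.totalDegree ≠ 0 := fun h3 => hu (by
    rw [totalDegree_eq_zero_iff_eq_C] at h3
    rw [h3] at hπ ⊢
    exact (IsUnit.mk0 _ (fun h4 => hπ (by rw [h4, C_0]))).map C)
  exact ⟨π, _, hπ, by rw [← totalDegree_eq_zero_iff_eq_C.1 (show c.totalDegree = 0 by omega), hc]⟩

end Euler

section Quad

open Polynomial

variable {P F L : Type} [CommRing P] [IsDomain P] [IsIntegrallyClosed P] [Field F] [Algebra P F]
  [IsFractionRing P F] [Field L] [Algebra P L] [Algebra F L] [IsScalarTower P F L]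

omit [CommRing P] [IsDomain P] [IsIntegrallyClosed P] [Algebra P F] [IsFractionRing P F]
  [Algebra P L] [IsScalarTower P F L] in
lemma ind {x : L} (hx : x ∉ Set.range (algebraMap F L)) {a b : F}
    (h : algebraMap F L a + algebraMap F L b * x = 0) : a = 0 ∧ b = 0 := by
  have hb : b = 0 := by
    by_contra hb
    refine hx ⟨-a / b, ?_⟩
    have h1 : algebraMap F L b ≠ 0 := (_root_.map_ne_zero _).2 hb
    rw [map_div₀, map_neg, div_eq_iff h1]
    linear_combination -h
  refine ⟨?_, hb⟩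
  rwa [hb, map_zero, zero_mul, add_zero, _root_.map_eq_zero] at h

lemma quad {x : L} (hi : IsIntegral P x) (hx : x ∉ Set.range (algebraMap F L)) {c₁ c₀ : F}
    (h : x ^ 2 + algebraMap F L c₁ * x + algebraMap F L c₀ = 0) :
    (∃ g, algebraMap P F g = c₁) ∧ ∃ g, algebraMap P F g = c₀ := by
  have hF : IsIntegral F x := hi.tower_top
  have h1 : (X ^ 2 + C c₁ * X + C c₀ : F[X]).natDegree = 2 := by compute_degree!
  have h2 : (X ^ 2 + C c₁ * X + C c₀ : F[X]).Monic := by monicity!
  have h3 := eq_of_monic_of_dvd_of_natDegree_le (minpoly.monic hF) h2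
    (minpoly.dvd F x (by simpa using h)) (h1.trans_le ((minpoly.two_le_natDegree_iff hF).2 hx))
  rw [minpoly.isIntegrallyClosed_eq_field_fractions' F hi] at h3
  refine ⟨⟨(minpoly P x).coeff 1, ?_⟩, (minpoly P x).coeff 0, ?_⟩
  · rw [← coeff_map, ← h3]
    simp [coeff_C]
  · rw [← coeff_map, ← h3]
    simp

omit [IsDomain P] in
lemma base {a : F} (hi : IsIntegral P (algebraMap F L a)) : ∃ g, algebraMap P F g = a :=
  IsIntegrallyClosed.isIntegral_iff.1
    ((isIntegral_algebraMap_iff (algebraMap F L).injective).1 hi)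

omit [CommRing P] [IsDomain P] [IsIntegrallyClosed P] [Algebra P F] [IsFractionRing P F]
  [Algebra P L] [IsScalarTower P F L] in
lemma two {Z : L} {c₁ c₀ : F} (h : Z ^ 2 + algebraMap F L c₁ * Z + algebraMap F L c₀ = 0) {x : L}
    (hx : x ∈ IntermediateField.adjoin F {Z}) :
    ∃ a b : F, x = algebraMap F L a + algebraMap F L b * Z := by
  have h1 : IsAlgebraic F Z := IsIntegral.isAlgebraic
    ⟨X ^ 2 + C c₁ * X + C c₀, by monicity!, by simpa using h⟩
  have h2 : x ∈ Algebra.adjoin F {Z} := by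
    rw [← IntermediateField.adjoin_simple_toSubalgebra_of_isAlgebraic h1]
    exact hx
  clear hx
  induction h2 using Algebra.adjoin_induction with
  | mem y hy => exact ⟨0, 1, by simpa using hy⟩
  | algebraMap c => exact ⟨c, 0, by simp⟩
  | add y z _ _ hy hz =>
    obtain ⟨a, b, rfl⟩ := hy
    obtain ⟨a', b', rfl⟩ := hz
    exact ⟨a + a', b + b', by simp only [map_add]; ring⟩
  | mul y z _ _ hy hz =>
    obtain ⟨a, b, rfl⟩ := hy
    obtain ⟨a', b', rfl⟩ := hz
    exact ⟨a * a' - b * b' * c₀, a * b' + a' * b - b * b' * c₁, by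
      simp only [map_add, map_sub, map_mul]
      linear_combination (algebraMap F L b * algebraMap F L b') * h⟩

/-- The integral elements of a quadratic extension. -/
lemma closure [DecompositionMonoid P] {W : L} (hW : W ∉ Set.range (algebraMap F L)) {Δ : P}
    (h0 : Δ ≠ 0) (hs : Squarefree Δ) (h : W ^ 2 = algebraMap P L Δ) {a b : F}
    (hi : IsIntegral P (algebraMap F L a + algebraMap F L b * W)) :
    (∃ g, algebraMap P F g = 2 * a) ∧ ∃ g, algebraMap P F g = 2 * b := by
  by_cases hb : b = 0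
  · rw [hb, map_zero, zero_mul, add_zero] at hi
    obtain ⟨g, hg⟩ := base hi
    exact ⟨⟨2 * g, by rw [map_mul, hg, map_ofNat]⟩, 0, by simp [hb]⟩
  rw [IsScalarTower.algebraMap_apply P F L] at h
  obtain ⟨⟨g₁, h1⟩, g₀, h2⟩ := quad (F := F) (c₁ := -(2 * a)) (c₀ := a ^ 2 - b ^ 2 * algebraMap P F Δ)
    hi (by
      rintro ⟨c, hc⟩
      exact hb (ind (a := a - c) (b := b) hW (by rw [map_sub, hc]; ring)).2) (by
      simp only [map_neg, map_mul, map_sub, map_pow, map_ofNat]
      linear_combination (algebraMap F L b) ^ 2 * h)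
  refine ⟨⟨-g₁, by rw [map_neg, h1, neg_neg]⟩, ?_⟩
  have h3 : (2 * b * algebraMap P F Δ) ^ 2 = algebraMap P F ((g₁ ^ 2 - 4 * g₀) * Δ) := by
    simp only [map_mul, map_sub, map_pow, map_ofNat, h1, h2]
    ring
  obtain ⟨n, hn⟩ := IsIntegrallyClosed.isIntegral_iff.1
    (IsIntegral.of_pow two_pos (h3 ▸ isIntegral_algebraMap (R := P) (A := F)))
  have h4 : n ^ 2 = (g₁ ^ 2 - 4 * g₀) * Δ :=
    IsFractionRing.injective P F (by rw [map_pow, hn, h3])
  obtain ⟨n', rfl⟩ := (hs.dvd_pow_iff_dvd two_ne_zero).1 (h4 ▸ dvd_mul_left _ _)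
  have h5 : algebraMap P F Δ ≠ 0 := fun h6 => h0 (IsFractionRing.injective P F (by simpa using h6))
  exact ⟨n', mul_left_cancel₀ h5 (by rw [← map_mul, hn]; ring)⟩

end Quad

end LinAux

open LinAux MvPolynomial in
theorem lin : LinStmt := by
  intro k L ι _ _ _ _ _ r u T Z E hC h3
  have hfm : ∀ n, E (fm u n) = fm u n := fun n => by
    simp only [fm, map_sum, Derivation.leibniz, Derivation.map_intCast, hC.eul, smul_eq_mul,
      mul_zero, add_zero]
  have hT : ∀ a, E (T a) = T a := fun a => by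
    obtain ⟨n, hn⟩ := hC.lin a
    rw [hn, hfm]
  have hZ : E Z = Z := by
    obtain ⟨n, hn⟩ := hC.linZ
    rw [hn, hfm]
  have inj : Function.Injective (aeval T : MvPolynomial (Fin r) k →ₐ[k] L) :=
    algebraicIndependent_iff_injective_aeval.1 hC.ind
  let _ : Algebra (MvPolynomial (Fin r) k) L := (aeval T : MvPolynomial (Fin r) k →ₐ[k] L).toAlgebra
  have _ : FaithfulSMul (MvPolynomial (Fin r) k) L :=
    (faithfulSMul_iff_algebraMap_injective _ _).2 inj
  let _ := FractionRing.liftAlgebra (MvPolynomial (Fin r) k) L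
  have _ := FractionRing.isScalarTower_liftAlgebra (MvPolynomial (Fin r) k) L
  have hψ : ∀ p, algebraMap (FractionRing (MvPolynomial (Fin r) k)) L
      (algebraMap (MvPolynomial (Fin r) k) _ p) = aeval T p :=
    fun p => (IsScalarTower.algebraMap_apply _ _ _ p).symm
  have injF := IsFractionRing.injective (MvPolynomial (Fin r) k)
    (FractionRing (MvPolynomial (Fin r) k))
  have hu : ∀ i, IsIntegral (MvPolynomial (Fin r) k) (u i) := fun i =>
    (RingEquiv.isIntegral_iff hC.ind.aevalEquiv.toRingEquiv (RingHom.ext fun _ => rfl) _).2 (hC.int i)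
  have hZi : IsIntegral (MvPolynomial (Fin r) k) Z := by
    obtain ⟨n, hn⟩ := hC.linZ
    rw [hn]
    exact IsIntegral.sum _ fun i _ => by simpa using (hu i).zsmul (n i)
  have hgen : ∀ x, x ∈ IntermediateField.adjoin (FractionRing (MvPolynomial (Fin r) k)) {Z} := by
    intro x
    have h1 : x ∈ (IntermediateField.adjoin k (insert Z (Set.range T))).toSubfield := by
      rw [hC.gen]
      trivial
    rw [IntermediateField.adjoin_toSubfield] at h1
    refine (Subfield.closure_le (t := (IntermediateField.adjoin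
      (FractionRing (MvPolynomial (Fin r) k)) {Z}).toSubfield)).2 ?_ h1
    have h2 : ∀ p : MvPolynomial (Fin r) k, aeval T p ∈ IntermediateField.adjoin
        (FractionRing (MvPolynomial (Fin r) k)) {Z} := fun p =>
      hψ p ▸ IntermediateField.algebraMap_mem _ _
    rintro _ (⟨c, rfl⟩ | rfl | ⟨a, rfl⟩)
    · exact aeval_C T c ▸ h2 (C c)
    · exact IntermediateField.mem_adjoin_simple_self _ _
    · exact aeval_X (R := k) T a ▸ h2 (X a)
  have hh : ∀ (p : MvPolynomial (Fin r) k) (d : ℕ), aeval T (th p) = d * aeval T p →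
      p.IsHomogeneous d := fun p d h => hom (inj (by rw [h, map_mul, map_natCast]))
  have hsub : Submodule.span k (Set.range T) ≤ Submodule.span k (insert Z (Set.range T)) :=
    Submodule.span_mono (Set.subset_insert _ _)
  by_cases hb : Z ∈ Set.range (algebraMap (FractionRing (MvPolynomial (Fin r) k)) L)
  · have h1 : ∀ x, IsIntegral (MvPolynomial (Fin r) k) x → E x = x →
        x ∈ Submodule.span k (Set.range T) := fun x hx hE => by
      obtain ⟨z, hz⟩ := hb
      obtain ⟨a, b, hab⟩ := two (c₁ := -z) (c₀ := 0) (by rw [← hz]; simp [sq]) (hgen x)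
      rw [← hz, ← map_mul, ← map_add] at hab
      rw [hab] at hx
      obtain ⟨g, hg⟩ := base hx
      rw [hab, ← hg, hψ] at hE ⊢
      exact LinAux.h1 (hh g 1 (by rw [← der_aeval hT, hE]; simp))
    have h2 := h1 Z hZi hZ
    obtain ⟨α, hα⟩ := (Submodule.mem_span_range_iff_exists_fun k).1 h2
    refine ⟨fun i => hsub (h1 _ (hu i) (hC.eul i)), ⟨α, 0, ?_⟩, fun _ => h2⟩
    simp only [Pi.zero_apply, zero_smul, sum_const_zero, add_zero]
    simp only [← smul_mul_assoc, ← sum_mul, hα, sq]
  have hi : ∀ p q : MvPolynomial (Fin r) k, aeval T p + aeval T q * Z = 0 → p = 0 ∧ q = 0 :=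
    fun p q h => by
      rw [← hψ, ← hψ] at h
      exact ⟨injF (by simpa using (ind hb h).1), injF (by simpa using (ind hb h).2)⟩
  obtain ⟨G₁, G₀, hG⟩ : ∃ G₁ G₀ : MvPolynomial (Fin r) k,
      Z ^ 2 + aeval T G₁ * Z + aeval T G₀ = 0 := by
    obtain ⟨p, ⟨j, hj, hp⟩, hs⟩ := rel h3
    simp only [sum_range_succ, range_zero, sum_empty, zero_add, pow_zero, mul_one, pow_one] at hs
    have h2 : p 2 ≠ 0 := fun h => by
      rw [h, map_zero, zero_mul, add_zero] at hs
      obtain ⟨h4, h5⟩ := hi _ _ hs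
      interval_cases j <;> contradiction
    have h4 : aeval T (p 2) ≠ 0 := fun h => h2 (inj (by simpa using h))
    have h5 : Z ^ 2 + algebraMap (FractionRing (MvPolynomial (Fin r) k)) L
        (algebraMap _ _ (p 1) / algebraMap _ _ (p 2)) * Z +
        algebraMap (FractionRing (MvPolynomial (Fin r) k)) L
        (algebraMap _ _ (p 0) / algebraMap _ _ (p 2)) = 0 := by
      rw [map_div₀, map_div₀, hψ, hψ, hψ]
      field_simp
      linear_combination hs
    obtain ⟨⟨g₁, h6⟩, g₀, h7⟩ := quad hZi hb h5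
    exact ⟨g₁, g₀, by rwa [← h6, ← h7, hψ, hψ] at h5⟩
  obtain ⟨hG₀, hG₁⟩ : G₀.IsHomogeneous 2 ∧ G₁.IsHomogeneous 1 := by
    have h1 := congrArg E hG
    simp only [map_add, sq, Derivation.leibniz, hZ, der_aeval hT, smul_eq_mul, map_zero] at h1
    obtain ⟨h4, h5⟩ := hi (th G₀ - 2 * G₀) (th G₁ - G₁) (by
      simp only [map_sub, map_mul, map_ofNat]
      linear_combination h1 - 2 * hG)
    exact ⟨hom (by simpa [sub_eq_zero] using h4), hom (by simpa [sub_eq_zero] using h5)⟩
  have hL : (2 : L) ≠ 0 := by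
    rw [← map_ofNat (algebraMap k L) 2, _root_.map_ne_zero]
    exact two_ne_zero
  refine ⟨fun i => ?_, ?_, fun h2 => ?_⟩
  · obtain ⟨W, hW⟩ : ∃ W, W = 2 * Z + aeval T G₁ := ⟨_, rfl⟩
    obtain ⟨Δ, hΔ⟩ : ∃ Δ, Δ = G₁ * G₁ - C 4 * G₀ := ⟨_, rfl⟩
    have h1 : W ^ 2 = aeval T Δ := by
      rw [hW, hΔ, map_sub, map_mul, map_mul, aeval_C, map_ofNat]
      linear_combination 4 * hG
    have hWb : W ∉ Set.range (algebraMap (FractionRing (MvPolynomial (Fin r) k)) L) := by
      rintro ⟨w, hw⟩
      refine hb ⟨(w - algebraMap _ _ G₁) / 2, ?_⟩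
      rw [map_div₀, map_sub, hψ, hw, hW, map_ofNat]
      field_simp
      ring
    have h0 : Δ ≠ 0 := fun h => hWb ⟨0, by
      rw [h, map_zero] at h1
      rw [map_zero, pow_eq_zero_iff two_ne_zero |>.1 h1]⟩
    have hs : Squarefree Δ := by
      by_contra hs
      obtain ⟨π, c, hπ, hc⟩ := sqf (hΔ ▸ (hG₁.mul hG₁).sub (hG₀.C_mul 4)) h0 hs
      have h4 : aeval T π ≠ 0 := fun h => hπ (inj (by simpa using h))
      obtain ⟨c', hc'⟩ := hC.cl (W / aeval T π) (IsAlgebraic.of_pow two_pos (by
        have : (W / aeval T π) ^ 2 = algebraMap k L c := by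
          rw [div_pow, h1, hc, map_mul, map_mul, aeval_C]
          field_simp
        rw [this]
        exact isAlgebraic_algebraMap c))
      refine hWb ⟨algebraMap _ _ (C c' * π), ?_⟩
      rw [hψ, map_mul, aeval_C, hc', div_mul_cancel₀ _ h4]
    obtain ⟨a, b, hab⟩ := two (c₁ := algebraMap _ _ G₁) (c₀ := algebraMap _ _ G₀)
      (by rw [hψ, hψ, hG]) (hgen (u i))
    have h4 : u i = algebraMap (FractionRing (MvPolynomial (Fin r) k)) L
        (a - b * algebraMap _ _ G₁ / 2) +
        algebraMap (FractionRing (MvPolynomial (Fin r) k)) L (b / 2) * W := by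
      rw [hab, hW, map_sub, map_div₀, map_div₀, map_mul, hψ, map_ofNat]
      field_simp
      ring
    obtain ⟨⟨g, hg⟩, g', hg'⟩ := closure hWb h0 hs h1 (h4 ▸ hu i)
    have h5 : 2 * u i = aeval T (g + g' * G₁) + aeval T (2 * g') * Z := by
      rw [h4, mul_add, ← mul_assoc, ← map_ofNat (algebraMap
        (FractionRing (MvPolynomial (Fin r) k)) L) 2, ← map_mul, ← map_mul, ← hg, ← hg', hψ, hψ, hW]
      simp only [map_add, map_mul, map_ofNat]
      ring
    obtain ⟨p, q, h6⟩ : ∃ p q : MvPolynomial (Fin r) k, u i = aeval T p + aeval T q * Z :=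
      ⟨C 2⁻¹ * (g + g' * G₁), C 2⁻¹ * (2 * g'), by
        rw [map_mul _ (C _), map_mul _ (C _), aeval_C, map_inv₀, map_ofNat, mul_assoc, ← mul_add,
          ← h5, inv_mul_cancel_left₀ hL]⟩
    have h7 := hC.eul i
    rw [h6] at h7 ⊢
    simp only [map_add, Derivation.leibniz, hZ, der_aeval hT, smul_eq_mul] at h7
    obtain ⟨h8, h9⟩ := hi (th p - p) (th q) (by
      rw [map_sub]
      linear_combination h7)
    obtain ⟨c, rfl⟩ := hz0 (p := q) (hom (by simpa using h9))
    refine add_mem (hsub (LinAux.h1 (hom (by simpa [sub_eq_zero] using h8)))) ?_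
    rw [aeval_C, ← Algebra.smul_def]
    exact Submodule.smul_mem _ _ (Submodule.subset_span (Set.mem_insert _ _))
  · obtain ⟨α, hα⟩ := (Submodule.mem_span_range_iff_exists_fun k).1 (h1 (T := T) hG₁.neg)
    obtain ⟨β, hβ⟩ := h2 (T := T) hG₀.neg
    refine ⟨α, β, ?_⟩
    simp only [← smul_mul_assoc, ← sum_mul, hα] at hβ ⊢
    rw [← hβ, map_neg, map_neg]
    linear_combination hG
  · obtain ⟨p, ⟨j, hj, hp⟩, hs⟩ := rel h2
    simp only [sum_range_succ, range_zero, sum_empty, zero_add, pow_zero, mul_one, pow_one] at hs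
    obtain ⟨h4, h5⟩ := hi _ _ hs
    interval_cases j <;> contradiction

end Pool.Agent.MP_4060c9_nt.H98
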