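import Pool.Agent.MP_4060c9_nt.H98.Spec4
import Pool.Agent.MP_c4d8e2_ag.H35.Seid

/-!
Derivations at the places of a function field of one variable.
-/

set_option autoImplicit false

namespace Pool.Agent.MP_4060c9_nt.H98

namespace LocAux

open Polynomial Pool.Agent.MP_c4d8e2_ag.H35

variable {L : Type} [Field L] [CharZero L]

lemma adq_comp (δ : Derivation ℚ L L) (u : L) (P : L → L) (k : ℕ) (x : L) :
    (ad u)^[k + 1] (δ ∘ P) x = δ ((ad u)^[k + 1] P x) + (k + 1) * δ u * (ad u)^[k] P x := by
  induction k generalizing x with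
  | zero =>
    simp only [zero_add, Function.iterate_one, ad, Function.comp_apply, map_sub,
      Derivation.leibniz, smul_eq_mul, Function.iterate_zero, id]
    ring
  | succ k ih =>
    rw [Function.iterate_succ_apply', ad, ih, ih, Function.iterate_succ_apply' _ (k + 1),
      Function.iterate_succ_apply' _ k]
    generalize (ad u)^[k] P = Q
    simp only [ad, map_sub, Derivation.leibniz, smul_eq_mul]
    push_cast
    ring

lemma adq_pow (δ : Derivation ℚ L L) (u : L) (n : ℕ) :
    (ad u)^[n] δ^[n] = fun x => n.factorial * δ u ^ n * x := by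
  induction n with
  | zero => ext x; simp
  | succ n ih =>
    ext x
    rw [Function.iterate_succ' δ, adq_comp, Function.iterate_succ_apply', ih]
    simp only [ad, Nat.factorial_succ]
    rw [mul_left_comm u, sub_self, map_zero]
    push_cast
    ring

open IsDedekindDomain in
/-- derivations which preserve an order preserve the places above it -/
theorem seidq {A K : Type} [CommRing A] [IsDedekindDomain A] [Field K] [CharZero K] [Algebra A K]
    [IsFractionRing A K] [Algebra K L] [Algebra A L] [IsScalarTower A K L] [FiniteDimensional K L]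
    (R : Subalgebra A L) (hint : R ≤ integralClosure A L) (hC : ∀ n : ℕ, (n : L)⁻¹ ∈ R)
    (hfr : ∀ x : L, ∃ b ∈ R, b ≠ 0 ∧ b * x ∈ R) {J : Type} (δ : J → Derivation ℚ L L)
    (hδ : ∀ j, ∀ x ∈ R, δ j x ∈ R) {c : L}
    (hc : ∀ (O : ValuationSubring L) (π : L), Unif O π → (∀ x ∈ R, x ∈ O) →
      (∀ j, ∀ x ∈ O, δ j x ∈ O) → c ∈ O) : IsIntegral A c := by
  classical
  let B := integralClosure A L
  have := integralClosure.isDedekindDomain A K L
  have := integralClosure.isFractionRing_of_finite_extension (A := A) K L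
  obtain ⟨s, hs⟩ := (IsIntegralClosure.finite A K L B).fg_top
  choose b hb hb0 hbx using hfr
  have hcond : ∀ x : B, (∏ y ∈ s, b y) * x ∈ R := fun x => by
    have hx : x ∈ Submodule.span A (s : Set B) := hs ▸ Submodule.mem_top
    induction hx using Submodule.span_induction with
    | mem y hy =>
      rw [← Finset.prod_erase_mul _ _ hy, mul_assoc]
      exact mul_mem (prod_mem fun _ _ => hb _) (hbx _)
    | zero => simp
    | add x y _ _ hx hy => simpa [mul_add] using add_mem hx hy
    | smul a x _ hx => simpa using R.smul_mem hx a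
  have h0 : ∏ y ∈ s, b y ≠ 0 := Finset.prod_ne_zero_iff.2 fun _ _ => hb0 _
  obtain ⟨x, rfl⟩ := HeightOneSpectrum.mem_integers_of_valuation_le_one (R := B) L c fun v => by
    rw [← Valuation.mem_valuationSubring_iff,
      ← HeightOneSpectrum.valuationSubringAtPrime_eq_valuationSubring]
    set O := HeightOneSpectrum.valuationSubringAtPrime L v
    have hd : IsDiscreteValuationRing O :=
      IsLocalization.AtPrime.isDiscreteValuationRing_of_dedekind_domain B v.ne_bot O
    obtain ⟨π, hU⟩ := exists_unif hd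
    have hB : ∀ x : B, (x : L) ∈ O := fun x => ⟨x, 1, one_mem _, by simp⟩
    have hR : ∀ x ∈ R, x ∈ O := fun x hx => hB ⟨x, hint hx⟩
    have h1 : ∀ j (x : B), δ j x ∈ O := fun j x => by
      refine hU.mem_of_pow h0 fun n => ?_
      have h2 := ad_mem (c := ∏ y ∈ s, b y) (hB x) n (P := (δ j)^[n]) (fun i => hR _ (by
        have h3 : ∀ m, ∀ y ∈ R, (δ j)^[m] y ∈ R := fun m => by
          induction m with
          | zero => exact fun _ h => h
          | succ m ih => exact fun y hy => ih _ (hδ j y hy)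
        rw [mul_comm]
        exact h3 _ _ (hcond (x ^ i)))) 0
      simp only [adq_pow] at h2
      have h3 := mul_mem (hR _ (hC n.factorial)) h2
      have h4 : (n.factorial : L) ≠ 0 := Nat.cast_ne_zero.2 n.factorial_ne_zero
      rw [mul_assoc, inv_mul_cancel_left₀ h4, pow_zero, one_mul, mul_comm] at h3
      exact h3
    refine hc O π hU hR ?_
    rintro j _ ⟨x, y, hy, rfl⟩
    have h2 : (y : L)⁻¹ ∈ O := ⟨1, y, hy, by simp⟩
    change δ j (x * (y : L)⁻¹) ∈ O
    rw [Derivation.leibniz, Derivation.leibniz_inv]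
    simp only [smul_eq_mul]
    exact add_mem (mul_mem (hB x) (mul_mem (neg_mem (pow_mem h2 2)) (h1 j y))) (mul_mem h2 (h1 j x))
  exact x.2

lemma stabq {F : Type} [CommRing F] [Algebra F L] (δ : Derivation ℚ L L) (E : Subring L)
    {s : Set L} (hF : ∀ c, algebraMap F L c ∈ E ∧ δ (algebraMap F L c) ∈ E)
    (hs : ∀ x ∈ s, x ∈ E ∧ δ x ∈ E) {x : L} (hx : x ∈ Algebra.adjoin F s) : x ∈ E ∧ δ x ∈ E := by
  induction hx using Algebra.adjoin_induction with
  | mem x hx => exact hs x hx
  | algebraMap c => exact hF c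
  | add x y _ _ hx hy => exact ⟨add_mem hx.1 hy.1, by rw [map_add]; exact add_mem hx.2 hy.2⟩
  | mul x y _ _ hx hy =>
    exact ⟨mul_mem hx.1 hy.1, by
      rw [δ.leibniz]; exact add_mem (mul_mem hx.1 hy.2) (mul_mem hy.1 hx.2)⟩

variable {F : Type} [Field F] [Algebra F L] {O : ValuationSubring L} {π : L}

omit [CharZero L] in
lemma adj_mem (hF : ∀ c, algebraMap F L c ∈ O) {x y : L} (hx : x ∈ O)
    (hy : y ∈ Algebra.adjoin F {x}) : y ∈ O := by
  induction hy using Algebra.adjoin_induction with
  | mem y hy => exact hy ▸ hx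
  | algebraMap c => exact hF c
  | add x y _ _ hx hy => exact add_mem hx hy
  | mul x y _ _ hx hy => exact mul_mem hx hy

omit [CharZero L] in
/-- transcendence degree one -/
lemma trd {t x : L} (h : ∀ y : L, IsAlgebraic (Algebra.adjoin F {t}) y) (hx : Transcendental F x)
    (y : L) : IsAlgebraic (Algebra.adjoin F {x}) y := by
  have h1 : Algebra.IsAlgebraic (Algebra.adjoin F {t}) L := ⟨h⟩
  have h2 := Algebra.IsAlgebraic.trdeg_le_cardinalMk F ({t} : Set L)
  have h3 : AlgebraicIndependent F (fun _ : Unit => x) :=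
    algebraicIndependent_unique_type_iff.2 hx
  have h4 := (h3.isTranscendenceBasis_of_trdeg_le_of_finite (by simpa using h2)).isAlgebraic
  rw [Set.range_const] at h4
  exact h4.1 y

omit [CharZero L] in
/-- an algebraic relation for the uniformiser gives an element of the maximal ideal -/
lemma rel (hU : Unif O π) (S : Subalgebra F L) (hS : ∀ a ∈ S, a ∈ O) (Q : S[X]) (h0 : Q ≠ 0)
    (hQ : aeval π Q = 0) : ∃ a ∈ S, a ≠ 0 ∧ a / π ∈ O := by
  have hO : ∀ Q : S[X], aeval π Q ∈ O := fun Q => by
    induction Q using Polynomial.induction_on' with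
    | add p q hp hq => rw [map_add]; exact add_mem hp hq
    | monomial n c => rw [aeval_monomial]; exact mul_mem (hS _ c.2) (pow_mem hU.mem _)
  induction hn : Q.natDegree using Nat.strong_induction_on generalizing Q with
  | _ n ih =>
    have h1 := congrArg (aeval π) (X_mul_divX_add Q)
    rw [hQ, map_add, map_mul, aeval_X, aeval_C] at h1
    by_cases hc : Q.coeff 0 = 0
    · rw [hc, map_zero, add_zero] at h1
      have h2 : Q.divX ≠ 0 := fun h => h0 (by rw [← X_mul_divX_add Q, h, hc]; simp)
      refine ih _ ?_ _ h2 ((mul_eq_zero.1 h1).resolve_left hU.ne) rfl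
      rw [← hn]
      exact natDegree_lt_natDegree h2 (degree_divX_lt h0)
    · refine ⟨Q.coeff 0, (Q.coeff 0).2, fun h => hc (Subtype.ext h), ?_⟩
      have h2 : ((Q.coeff 0 : S) : L) / π = -aeval π Q.divX := by
        rw [div_eq_iff hU.ne]
        have : algebraMap S L (Q.coeff 0) = (Q.coeff 0 : S) := rfl
        rw [← this]
        linear_combination h1
      rw [h2]
      exact neg_mem (hO _)

omit [CharZero L] in
/-- a separable equation for the residue class -/
lemma sep [CharZero F] (hU : Unif O π) (hF : ∀ c, algebraMap F L c ∈ O) {t : L}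
    (h : ∀ y : L, IsAlgebraic (Algebra.adjoin F {t}) y) {x : L} (hx : x ∈ O) :
    ∃ P : F[X], aeval x P / π ∈ O ∧ Un O (aeval x (derivative P)) := by
  have h1 : ∃ P : F[X], P ≠ 0 ∧ aeval x P / π ∈ O := by
    by_cases ha : IsAlgebraic F x
    · obtain ⟨P, h0, hP⟩ := ha
      exact ⟨P, h0, by rw [hP, zero_div]; exact zero_mem _⟩
    · obtain ⟨Q, h0, hQ⟩ := trd h ha π
      obtain ⟨a, ha1, ha2, ha3⟩ := rel hU _ (fun a => adj_mem hF hx) Q h0 hQ
      obtain ⟨P, rfl⟩ := (Algebra.adjoin_singleton_eq_range_aeval F x).le ha1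
      exact ⟨P, fun e => ha2 (by rw [e]; simp), ha3⟩
  obtain ⟨P, h0, hP⟩ := h1
  induction hn : P.natDegree using Nat.strong_induction_on generalizing P with
  | _ n ih =>
    have hd : P.natDegree ≠ 0 := fun hd => by
      rw [eq_C_of_natDegree_eq_zero hd] at h0 hP
      rw [aeval_C] at hP
      have h2 : algebraMap F L (P.coeff 0) ≠ 0 := by
        rw [_root_.map_ne_zero]; exact fun e => h0 (by rw [e, map_zero])
      have h3 := mul_mem (hF (P.coeff 0)⁻¹) hP
      rw [map_inv₀, div_eq_mul_inv, inv_mul_cancel_left₀ h2] at h3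
      exact hU.ninv h3
    by_cases h2 : aeval x (derivative P) / π ∈ O
    · exact ih _ (hn ▸ natDegree_derivative_lt hd) _
        (fun e => hd (derivative_eq_zero.1 e)) h2 rfl
    · refine ⟨P, hP, ?_⟩
      have h3 : aeval x (derivative P) ∈ O := adj_mem hF hx (aeval_mem_adjoin_singleton F x)
      obtain ⟨a, e, he, ha⟩ := hU.dec (aeval x (derivative P))
        fun e => h2 (by rw [e, zero_div]; exact zero_mem _)
      rw [ha] at h2 h3 ⊢
      rw [← ge_zero (π := π), hU.ge_dec he] at h3
      have h4 : ¬ Ge O π 1 (π ^ a * e) := by rwa [Ge, zpow_one]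
      rw [hU.ge_dec he] at h4
      obtain rfl : a = 0 := by omega
      simpa using he

/-- a derivation which kills the uniformiser and has bounded poles has no pole -/
lemma unr [CharZero F] (hU : Unif O π) (hF : ∀ c, algebraMap F L c ∈ O) {t : L}
    (h : ∀ y : L, IsAlgebraic (Algebra.adjoin F {t}) y) (ξ : Derivation ℚ L L) (hπ : ξ π = 0)
    (hξ : ∀ c, ξ (algebraMap F L c) ∈ O) (N : ℕ) (hN : ∀ x ∈ O, π ^ N * ξ x ∈ O) :
    ∀ x ∈ O, ξ x ∈ O := by
  induction N with
  | zero => simpa using hN
  | succ N ih =>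
    refine ih fun x hx => ?_
    have h1 : ∀ p : F[X], ξ (aeval x p) - aeval x (derivative p) * ξ x ∈ O := fun p => by
      induction p using Polynomial.induction_on' with
      | add p q hp hq =>
        convert add_mem hp hq using 1
        simp only [map_add]
        ring
      | monomial n c =>
        convert mul_mem (pow_mem hx n) (hξ c) using 1
        simp only [aeval_monomial, derivative_monomial, Derivation.leibniz, Derivation.leibniz_pow,
          smul_eq_mul, nsmul_eq_mul, map_mul, map_natCast]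
        ring
    obtain ⟨P, hP, hu⟩ := sep hU hF h hx
    have h2 : ξ (aeval x P) = π * ξ (aeval x P / π) := by
      conv_lhs => rw [← mul_div_cancel₀ (aeval x P) hU.ne]
      rw [Derivation.leibniz, hπ, smul_zero, add_zero, smul_eq_mul]
    have h3 := mul_mem hu.2.2 (sub_mem (hN _ hP) (mul_mem (pow_mem hU.mem N) (h1 P)))
    convert h3 using 1
    rw [h2]
    have := hu.1
    field_simp
    ring

omit [CharZero L] in
lemma exists_pow (hU : Unif O π) (c : L) : ∃ N : ℕ, π ^ N * c ∈ O := by
  by_cases h : c = 0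
  · exact ⟨0, by rw [h, mul_zero]; exact zero_mem _⟩
  obtain ⟨a, e, he, rfl⟩ := hU.dec c h
  refine ⟨(-a).toNat, ?_⟩
  rw [← mul_assoc, ← zpow_natCast, ← zpow_add₀ hU.ne, ← ge_zero (π := π), hU.ge_dec he]
  omega

/-- the derivations are regular modulo the derivation along the curve -/
lemma place [CharZero F] (hU : Unif O π) (hF : ∀ c, algebraMap F L c ∈ O) {t g : L} (ht : t ∈ O)
    (h : ∀ y : L, IsAlgebraic (Algebra.adjoin F {t}) y) (hg : g ≠ 0) (δ D : Derivation ℚ L L)
    (hδ : ∀ c, δ (algebraMap F L c) ∈ O) (hD : ∀ c, D (algebraMap F L c) = 0) (hDt : D t = 1)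
    (h1 : ∀ x ∈ O, g * δ x ∈ O) (h2 : ∀ x ∈ O, g * D x ∈ O) :
    ∃ c : L, ∀ x ∈ O, δ x - c * D x ∈ O := by
  have h0 : D π ≠ 0 := fun h0 => by
    obtain ⟨N, hN⟩ := exists_pow hU (π⁻¹ * g⁻¹)
    have h3 := unr hU hF h (π⁻¹ • D) (by simp [h0]) (fun c => by simp [hD c]) N (fun x hx => by
      convert mul_mem hN (h2 x hx) using 1
      simp only [Derivation.smul_apply, smul_eq_mul]
      field_simp) t ht
    exact hU.ninv (by simpa [hDt] using h3)
  obtain ⟨N, hN⟩ := exists_pow hU g⁻¹
  obtain ⟨N', hN'⟩ := exists_pow hU (δ π / D π * g⁻¹)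
  refine ⟨δ π / D π, fun x hx => ?_⟩
  have h3 := unr hU hF h (δ - (δ π / D π) • D) (by simp [h0]) (fun c => by simpa [hD c] using hδ c)
    (N + N') (fun x hx => by
      convert sub_mem (mul_mem (pow_mem hU.mem N') (mul_mem hN (h1 x hx)))
        (mul_mem (pow_mem hU.mem N) (mul_mem hN' (h2 x hx))) using 1
      simp only [Derivation.sub_apply, Derivation.smul_apply, smul_eq_mul]
      field_simp
      ring) x hx
  simpa using h3

end LocAux

open Polynomial LocAux in
open scoped IntermediateField.algebraAdjoinAdjoin in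
theorem loc : LocStmt := by
  intro F L J _ _ _ _ _ t Z g φ δ v₀ _ hZ hgen hg0 hg hF ht hδZ h0 h1 hφ
  let A := Algebra.adjoin F {t}
  let R := Algebra.adjoin A {Z}
  have hA : ∀ x ∈ A, x ∈ R := fun x hx => R.algebraMap_mem ⟨x, hx⟩
  have hZR : Z ∈ R := Algebra.subset_adjoin rfl
  have htA : t ∈ A := Algebra.subset_adjoin rfl
  have h2 : Algebra.adjoin F {t, Z} ≤ R.restrictScalars F := by
    rw [Algebra.adjoin_le_iff]
    rintro x (rfl | rfl)
    exacts [hA _ htA, hZR]
  have : IsPrincipalIdealRing A := by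
    refine IsPrincipalIdealRing.of_surjective
      ((aeval t : F[X] →ₐ[F] L).codRestrict A fun p => aeval_mem_adjoin_singleton F t) fun x => ?_
    obtain ⟨p, hp⟩ := (Algebra.adjoin_singleton_eq_range_aeval F t).le x.2
    exact ⟨p, Subtype.ext hp⟩
  have : FiniteDimensional (IntermediateField.adjoin F {t}) L := by
    have h3 := IntermediateField.adjoin.finiteDimensional (K := IntermediateField.adjoin F {t})
      (x := Z) hZ.tower_top
    rw [← Set.singleton_union, ← IntermediateField.adjoin_adjoin_left,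
      IntermediateField.restrictScalars_eq_top_iff] at hgen
    rw [hgen] at h3
    exact IntermediateField.topEquiv.toLinearEquiv.finiteDimensional
  have halg : ∀ y : L, IsAlgebraic A y := fun y =>
    (IsFractionRing.isAlgebraic_iff A (IntermediateField.adjoin F {t}) L).2
      (Algebra.IsAlgebraic.isAlgebraic y)
  have hFA : ∀ x ∈ Set.range (algebraMap F L), x ∈ A := by
    rintro _ ⟨c, rfl⟩; exact A.algebraMap_mem c
  refine seidq (K := IntermediateField.adjoin F {t}) R ?_ (fun n => ?_) (fun x => ?_)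
    (fun v => g • δ v) (fun v x hx => ?_) fun O π hU hR hO => ?_
  · rw [Algebra.adjoin_le_iff]
    rintro _ rfl
    exact hZ
  · exact hA _ (hFA _ ⟨(n : F)⁻¹, by simp⟩)
  · obtain ⟨r, hr, s, hs, rfl⟩ := IntermediateField.mem_adjoin_iff_div.1
      (hgen ▸ IntermediateField.mem_top : x ∈ IntermediateField.adjoin F {t, Z})
    by_cases h0 : s = 0
    · exact ⟨1, one_mem _, one_ne_zero, by rw [h0, div_zero, mul_zero]; exact zero_mem _⟩
    · exact ⟨s, h2 hs, h0, by rw [mul_div_cancel₀ _ h0]; exact h2 hr⟩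
  · refine (stabq (g • δ v) R.toSubring (fun c => ⟨hA _ c.2, mul_mem (h2 hg) (hA _ ?_)⟩) ?_ hx).2
    · refine (stabq (δ v) A.toSubring (fun c => ⟨A.algebraMap_mem c, hFA _ (hF v c)⟩) ?_ c.2).2
      rintro _ rfl
      exact ⟨htA, hFA _ (ht v)⟩
    · rintro _ rfl
      exact ⟨hZR, h2 (hδZ v)⟩
  · have hAO : ∀ x ∈ A, x ∈ O := fun x hx => hR x (hA x hx)
    exact hφ O hAO hO fun v => place hU (fun c => hAO _ (A.algebraMap_mem c)) (hAO t htA) halg hg0
      (δ v) (δ v₀) (fun c => hAO _ (hFA _ (hF v c))) h0 h1 (hO v) (hO v₀)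

end Pool.Agent.MP_4060c9_nt.H98
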