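import Pool.Agent.MP_4060c9_nt.H98.Spec4

/-!
No linear spaces and no quadrics.
-/

set_option autoImplicit false

namespace Pool.Agent.MP_4060c9_nt.H98

open Finset

namespace LqAux

/-- An isotropic vector in the intersection of two hyperplanes. -/
lemma iso {F V : Type} [Field F] [CharZero F] [IsAlgClosed F] [AddCommGroup V] [Module F V]
    [FiniteDimensional F V] (B : V →ₗ[F] V →ₗ[F] F) (f g : V →ₗ[F] F)
    (h : 4 ≤ Module.finrank F V) : ∃ v, v ≠ 0 ∧ f v = 0 ∧ g v = 0 ∧ B v v = 0 := by
  have h1 := LinearMap.finrank_range_add_finrank_ker (f.prod g)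
  have h2 : Module.finrank F (LinearMap.range (f.prod g)) ≤ 2 := by
    simpa using Submodule.finrank_le (LinearMap.range (f.prod g))
  obtain ⟨w, hw⟩ := exists_linearIndependent_of_le_finrank (R := F)
    (M := LinearMap.ker (f.prod g)) (n := 2) (by omega)
  have key : ∀ v : LinearMap.ker (f.prod g), v ≠ 0 → B v v = 0 →
      ∃ v, v ≠ 0 ∧ f v = 0 ∧ g v = 0 ∧ B v v = 0 := fun v h3 h4 => by
    have h5 := LinearMap.mem_ker.1 v.2
    exact ⟨v, fun h6 => h3 (Subtype.ext h6), congrArg Prod.fst h5, congrArg Prod.snd h5, h4⟩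
  by_cases h3 : B (w 1) (w 1) = 0
  · exact key _ (hw.ne_zero 1) h3
  · obtain ⟨x, hx⟩ := exists_quadratic_eq_zero (b := B (w 0) (w 1) + B (w 1) (w 0))
      (c := B (w 0) (w 0)) h3 (IsAlgClosed.exists_eq_mul_self _)
    refine key (w 0 + x • w 1) (fun h4 => ?_) ?_
    · have := Fintype.linearIndependent_iff.1 hw ![1, x] (by simpa [Fin.sum_univ_two] using h4) 0
      simp at this
    · simp only [Submodule.coe_add, Submodule.coe_smul, map_add, map_smul, LinearMap.add_apply,
        LinearMap.smul_apply, smul_eq_mul]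
      linear_combination hx

/-- A relation at the generic point of a quadric holds at every point. -/
lemma transfer {R A B : Type} [CommRing R] [CommRing A] [CommRing B] (f : R →+* A) (g : R →+* B)
    {z : A} {z' : B} {a b : R} (hz : z ^ 2 = f a * z + f b) (hz' : z' ^ 2 = g a * z' + g b)
    (hind : ∀ p0 p1, f p0 + f p1 * z = 0 → p0 = 0 ∧ p1 = 0) (Φ : Polynomial R)
    (h : Φ.eval₂ f z = 0) : Φ.eval₂ g z' = 0 := by
  have key : ∀ Φ : Polynomial R, ∃ p0 p1, Φ.eval₂ f z = f p0 + f p1 * z ∧
      Φ.eval₂ g z' = g p0 + g p1 * z' := fun Φ => by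
    induction Φ using Polynomial.induction_on with
    | C c => exact ⟨c, 0, by simp, by simp⟩
    | add p q hp hq =>
      obtain ⟨p0, p1, h1, h2⟩ := hp
      obtain ⟨q0, q1, h3, h4⟩ := hq
      refine ⟨p0 + q0, p1 + q1, ?_, ?_⟩
      · rw [Polynomial.eval₂_add, h1, h3, map_add, map_add]
        ring
      · rw [Polynomial.eval₂_add, h2, h4, map_add, map_add]
        ring
    | monomial n c hn =>
      obtain ⟨p0, p1, h1, h2⟩ := hn
      refine ⟨p1 * b, p0 + p1 * a, ?_, ?_⟩
      · rw [pow_succ, ← mul_assoc, Polynomial.eval₂_mul_X, h1, map_add, map_mul, map_mul]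
        linear_combination f p1 * hz
      · rw [pow_succ, ← mul_assoc, Polynomial.eval₂_mul_X, h2, map_add, map_mul, map_mul]
        linear_combination g p1 * hz'
  obtain ⟨p0, p1, h1, h2⟩ := key Φ
  obtain ⟨rfl, rfl⟩ := hind p0 p1 (h1 ▸ h)
  simpa using h2

variable {k L : Type} [Field k] [Field L] [Algebra k L]

lemma li_mono {r e e' : ℕ} {T : Fin r → L} {Z : L} (h : LI k T Z e) (he : e' ≤ e) :
    LI k T Z e' :=
  h.comp (fun m : {m : Ix r // m.2 < e'} => ⟨m.1, m.2.trans_le he⟩)
    (fun _ _ h1 => Subtype.ext (Subtype.mk.inj h1))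

lemma ind_two {r : ℕ} {T : Fin r → L} {Z : L} (hT : AlgebraicIndependent k T) (h : LI k T Z 2)
    (p0 p1 : MvPolynomial (Fin r) k)
    (h0 : MvPolynomial.aeval T p0 + MvPolynomial.aeval T p1 * Z = 0) : p0 = 0 ∧ p1 = 0 := by
  have key : ∀ (j : ℕ), j < 2 → ∀ p : MvPolynomial (Fin r) k, MvPolynomial.aeval T p * Z ^ j ∈
      Submodule.span k ((fun m : {m : Ix r // m.2 < 2} => mon T Z m.1) '' {m | m.1.2 = j}) := by
    intro j hj p
    rw [MvPolynomial.aeval_def, MvPolynomial.eval₂_eq', sum_mul]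
    refine Submodule.sum_mem _ (fun d _ => ?_)
    rw [mul_assoc, ← Algebra.smul_def]
    exact Submodule.smul_mem _ _ (Submodule.subset_span ⟨⟨(d, j), hj⟩, rfl, rfl⟩)
  have hd := h.disjoint_span_image (s := {m | m.1.2 = 0}) (t := {m | m.1.2 = 1})
    (Set.disjoint_left.2 (fun m h1 h2 => by
      simp only [Set.mem_ofPred_eq] at h1 h2
      omega))
  have h1 := key 0 (by omega) p0
  have h2 := neg_mem (key 1 (by omega) p1)
  rw [pow_zero, mul_one] at h1
  rw [pow_one, ← eq_neg_of_add_eq_zero_left h0] at h2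
  have h3 := Submodule.disjoint_def.1 hd _ h1 h2
  have hZ : Z ≠ 0 := by simpa [mon] using h.ne_zero ⟨(0, 1), by simp⟩
  rw [h3, zero_add, mul_eq_zero, or_iff_left hZ] at h0
  exact ⟨hT.eq_zero_of_aeval_eq_zero _ h3, hT.eq_zero_of_aeval_eq_zero _ h0⟩

/-- A line through the generic point passes through the vertex. -/
lemma line (hV : VdmStmt) [CharZero k] {L' ι σ : Type} [Field L'] [Algebra k L'] [Fintype ι]
    [Fintype σ] (φ : L →ₐ[k] L') {κ : ℕ} {u : ι → L} {ε : ι → k} {W : σ → L} {l : ι → σ → k}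
    (hc : Fintype.card ι ≤ κ + 1) (hu : ∀ i, u i ≠ 0)
    (hS : ∀ S : Finset ι, S.Nonempty → S ≠ univ → ∑ i ∈ S, ε i • u i ^ κ ≠ 0)
    (hW : LinearIndependent k W) (hn : ∀ c, ∃ n, W c = fm u n)
    (hl : ∀ i, ∑ c, l i c • W c = u i) (v : σ → L')
    (hv : ∀ s : ℕ, ∑ i, ε i • (∑ c, l i c • (φ (W c) + s * v c)) ^ κ = 0) :
    ∃ ρ, ∀ c, v c = ρ * φ (W c) := by
  classical
  have : CharZero L' := charZero_of_injective_algebraMap (algebraMap k L').injective
  obtain ⟨ρ, hρ⟩ := hV L' ι (fun i => algebraMap k L' (ε i)) (fun i => φ (u i))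
    (fun i => ∑ c, l i c • v c) κ hc (fun i => (map_ne_zero φ).2 (hu i)) (fun S h1 h2 h3 =>
      hS S h1 h2 ((map_eq_zero φ).1 (by
        rw [← h3, map_sum]
        exact sum_congr rfl (fun i _ => by rw [map_smul, map_pow, Algebra.smul_def])))) (fun s => by
      rw [← hv s]
      refine sum_congr rfl (fun i _ => ?_)
      rw [Algebra.smul_def, ← hl i, map_sum, mul_sum, ← sum_add_distrib]
      congr 2
      exact sum_congr rfl (fun c _ => by rw [map_smul, smul_add, mul_smul_comm]))
  refine ⟨ρ, fun c => ?_⟩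
  obtain ⟨n, hn⟩ := hn c
  have e : ∀ {A : Type} [CommRing A] [Algebra k A] (x : σ → A),
      ∑ b, (∑ i, (n i : k) * l i b) • x b = ∑ i, (n i : A) * ∑ b, l i b • x b := fun x => by
    simp only [sum_smul, mul_sum]
    rw [sum_comm]
    refine sum_congr rfl (fun i _ => sum_congr rfl (fun b _ => ?_))
    rw [mul_smul, Algebra.smul_def, map_intCast]
  have h1 := Fintype.linearIndependent_iff.1 hW
    (fun b => ∑ i, (n i : k) * l i b - if b = c then 1 else 0) (by
      simp only [sub_smul, sum_sub_distrib, e, hl, ite_smul, one_smul, zero_smul, sum_ite_eq',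
        mem_univ, if_true, hn, fm, sub_self])
  have h2 := e v
  simp only [fun b => sub_eq_zero.1 (h1 b), ite_smul, one_smul, zero_smul, sum_ite_eq', mem_univ,
    if_true, hρ] at h2
  rw [h2, hn, fm, map_sum, mul_sum]
  exact sum_congr rfl (fun i _ => by rw [map_mul, map_intCast]; ring)

/-- A quadric contains a line through the generic point. -/
lemma quad (hV : VdmStmt) [CharZero k] {F ι : Type} [Field F] [IsAlgClosed F] [Algebra k F]
    [Fintype ι] (φ : L →ₐ[k] F) {r κ : ℕ} (hr : 0 < r) {u : ι → L} {ε : ι → k}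
    {T : Fin (r + 2) → L} {Z : L} {E : Derivation k L L} (hC : Cone k u T Z E)
    (hc : Fintype.card ι ≤ κ + 1) (hu : ∀ i, u i ≠ 0) (h0 : ∑ i, ε i • u i ^ κ = 0)
    (hS : ∀ S : Finset ι, S.Nonempty → S ≠ univ → ∑ i ∈ S, ε i • u i ^ κ ≠ 0) (h2 : LI k T Z 2)
    (h4 : ∀ i, u i ∈ Submodule.span k (insert Z (Set.range T))) {α : Fin (r + 2) → k}
    {β : Fin (r + 2) → Fin (r + 2) → k}
    (h5 : Z ^ 2 = ∑ a, α a • (T a * Z) + ∑ a, ∑ b, β a b • (T a * T b)) : False := by
  classical
  have hT := hC.ind.linearIndependent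
  have hind := ind_two hC.ind h2
  obtain ⟨W, hW⟩ : ∃ W : Option (Fin (r + 2)) → L, W = fun o => o.elim Z T := ⟨_, rfl⟩
  have hWi : LinearIndependent k W := Fintype.linearIndependent_iff.2 (fun g hg => by
    rw [Fintype.sum_option, hW] at hg
    have h6 := (hind (∑ a, g (some a) • MvPolynomial.X a) (MvPolynomial.C (g none)) (by
      simpa [Algebra.smul_def, add_comm] using hg)).2
    rw [MvPolynomial.C_eq_zero] at h6
    rw [h6, zero_smul, zero_add] at hg
    rintro (_ | a)
    · exact h6
    · exact Fintype.linearIndependent_iff.1 hT _ hg a)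
  have hr' : insert Z (Set.range T) = Set.range W := by
    rw [hW, Option.range_eq]
    rfl
  rw [hr'] at h4
  choose l hl using fun i => (Submodule.mem_span_range_iff_exists_fun k).1 (h4 i)
  have : CharZero F := charZero_of_injective_algebraMap (algebraMap k F).injective
  let Q : Matrix (Option (Fin (r + 2))) (Option (Fin (r + 2))) F := fun c d =>
    c.elim (d.elim (-1) (fun _ => 0))
      (fun a => d.elim (algebraMap k F (α a)) (fun b => algebraMap k F (β a b)))
  have hQ : ∀ x : Option (Fin (r + 2)) → F, Matrix.toBilin' Q x x = 0 ↔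
      x none ^ 2 = (∑ a, α a • x (some a)) * x none + ∑ a, ∑ b, β a b • (x (some a) * x (some b)) :=
    fun x => by
      have e : Matrix.toBilin' Q x x = (∑ a, α a • x (some a)) * x none +
          ∑ a, ∑ b, β a b • (x (some a) * x (some b)) - x none ^ 2 := by
        simp only [Matrix.toBilin'_apply, Fintype.sum_option, Q, Option.elim, mul_zero, zero_mul,
          sum_const_zero, sum_add_distrib, Algebra.smul_def, sum_mul]
        simp only [mul_comm, mul_left_comm, mul_assoc]
        ring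
      rw [e, sub_eq_zero, eq_comm]
  have hw0 : Matrix.toBilin' Q (fun c => φ (W c)) (fun c => φ (W c)) = 0 := (hQ _).2 (by
    have := congrArg φ h5
    simpa [hW, sum_mul] using this)
  obtain ⟨v, hv0, hv1, hv2, hv3⟩ := iso (Matrix.toBilin' Q) (LinearMap.proj (some 0))
    (Matrix.toBilin' Q (fun c => φ (W c)) + LinearMap.flip (Matrix.toBilin' Q) (fun c => φ (W c))) (by
      rw [Module.finrank_fintype_fun_eq_card, Fintype.card_option, Fintype.card_fin]
      omega)
  obtain ⟨ρ, hρ⟩ := line hV φ hc hu hS hWi (by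
      rw [hW]
      rintro (_ | a)
      · exact hC.linZ
      · exact hC.lin a) hl v (fun s => by
    have h6 := (hQ ((fun c => φ (W c)) + (s : F) • v)).1 (by
      rw [LinearMap.add_apply, LinearMap.flip_apply] at hv2
      simp only [map_add, map_smul, LinearMap.add_apply, LinearMap.smul_apply, smul_eq_mul]
      linear_combination hw0 + s * hv2 + s * s * hv3)
    have h7 := transfer (MvPolynomial.aeval (R := k) T).toRingHom
      (MvPolynomial.aeval (R := k) (fun a => φ (W (some a)) + s * v (some a))).toRingHom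
      (z := Z) (z' := φ (W none) + s * v none) (a := ∑ a, α a • MvPolynomial.X a)
      (b := ∑ a, ∑ b, β a b • (MvPolynomial.X a * MvPolynomial.X b))
      (by simpa [sum_mul] using h5) (by simpa using h6) hind
      (∑ i, Polynomial.C (MvPolynomial.C (ε i)) *
        (Polynomial.C (MvPolynomial.C (l i none)) * Polynomial.X +
          Polynomial.C (∑ a, l i (some a) • MvPolynomial.X a)) ^ κ) (by
        rw [← h0, Polynomial.eval₂_finsetSum]
        refine sum_congr rfl (fun i _ => ?_)
        rw [← hl i, Fintype.sum_option, hW]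
        simp [Polynomial.eval₂_pow, Polynomial.eval₂_finsetSum, Algebra.smul_def])
    rw [← h7, Polynomial.eval₂_finsetSum]
    refine sum_congr rfl (fun i _ => ?_)
    rw [Fintype.sum_option]
    simp [Polynomial.eval₂_pow, Polynomial.eval₂_finsetSum, Algebra.smul_def])
  have h6 := hρ (some 0)
  rw [LinearMap.proj_apply] at hv1
  rw [hv1, eq_comm, mul_eq_zero, or_iff_left ((map_ne_zero φ).2 (hWi.ne_zero _))] at h6
  exact hv0 (funext fun c => by simpa [h6] using hρ c)

end LqAux

open LqAux in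
theorem lq (hV : VdmStmt) (hL : LinStmt) : LqStmt := by
  classical
  intro k L ι _ _ _ _ _ r κ u T Z E ε hC hc h0 hS
  have hT := hC.ind.linearIndependent
  have hc2 : 2 ≤ Fintype.card ι := by
    have h1 := linearIndependent_le_span_aux' T hT (Set.range u) (by
      rintro _ ⟨a, rfl⟩
      obtain ⟨n, hn⟩ := hC.lin a
      rw [hn, fm]
      refine Submodule.sum_mem _ (fun i _ => ?_)
      rw [← zsmul_eq_mul]
      exact zsmul_mem (Submodule.subset_span (Set.mem_range_self i)) _)
    have h2 := Fintype.card_range_le u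
    rw [Fintype.card_fin] at h1
    omega
  have hu : ∀ i, u i ≠ 0 := fun i hi => hS {i} (singleton_nonempty i) (fun h => by
      have := congrArg Finset.card h
      rw [card_singleton, card_univ] at this
      omega) (by rw [sum_singleton, hi, zero_pow (by omega), smul_zero])
  have h2 : LI k T Z 2 := by
    by_contra h2
    obtain ⟨h3, -, h4⟩ := hL k L ι _ u T Z E hC (fun h => h2 (li_mono h (by omega)))
    rw [Submodule.span_insert_eq_span (h4 h2)] at h3
    choose l hl using fun i => (Submodule.mem_span_range_iff_exists_fun k).1 (h3 i)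
    obtain ⟨ρ, hρ⟩ := line hV (AlgHom.id k L) hc hu hS hT hC.lin hl (Pi.single 1 1) (fun s => by
      have h5 := hC.ind.eq_zero_of_aeval_eq_zero
        (∑ i, ε i • (∑ a, l i a • MvPolynomial.X a) ^ κ) (by
          simpa [hl] using h0)
      simpa using congrArg (MvPolynomial.aeval
        (fun a => T a + s * (Pi.single 1 1 : Fin (r + 2) → L) a)) h5)
    have h5 := hρ 0
    have h6 := hρ 1
    rw [Pi.single_eq_of_ne zero_ne_one, eq_comm, mul_eq_zero,
      or_iff_left (by simpa using hT.ne_zero 0)] at h5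
    simp [h5] at h6
  refine ⟨h2, fun hr => ?_⟩
  by_contra h3
  obtain ⟨h4, ⟨α, β, h5⟩, -⟩ := hL k L ι _ u T Z E hC h3
  exact quad hV (IsScalarTower.toAlgHom k L (AlgebraicClosure L)) hr hC hc hu h0 hS h2 h4 h5

end Pool.Agent.MP_4060c9_nt.H98
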