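import Pool.Agent.MP_4060c9_nt.H98.Spec
import Pool.Agent.MP_c69980_ag.H60.Wr

/-!
Row WR: the Wronskian bound.
-/

set_option autoImplicit false

namespace Pool.Agent.MP_4060c9_nt.H98

open Finset

namespace WR

variable {F K : Type} [Field F] [Field K] [Algebra F K] {D : Derivation F K K}
  {V : Submodule F K} {a b d : ℕ} {x y : K}

lemma mul (hx : x ∈ V ^ a) (hy : y ∈ V ^ b) : x * y ∈ V ^ (a + b) :=
  pow_add V a b ▸ Submodule.mul_mem_mul hx hy

lemma mono (h1 : (1 : K) ∈ V) (hx : x ∈ V ^ a) (h : a ≤ b) : x ∈ V ^ b :=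
  pow_le_pow_right' (Submodule.one_le.2 h1) h hx

lemma pw (hx : x ∈ V ^ a) (n : ℕ) : x ^ n ∈ V ^ (a * n) := by
  rw [pow_mul]
  exact Submodule.pow_mem_pow _ hx n

lemma nat (hx : x ∈ V ^ a) (n : ℕ) : (n : K) * x ∈ V ^ a := by
  rw [← nsmul_eq_mul]
  exact nsmul_mem hx n

lemma der {Δ : K} (h : ∀ m ∈ V, Δ * D m ∈ V ^ (1 + d)) (hx : x ∈ V ^ a) :
    Δ * D x ∈ V ^ (a + d) := by
  induction hx using Submodule.pow_induction_on_left' with
  | algebraMap r => simp
  | add x y i _ _ h1 h2 => rw [map_add, mul_add]; exact add_mem h1 h2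
  | mem_mul m hm i x hx ih =>
    rw [show Δ * D (m * x) = m * (Δ * D x) + x * (Δ * D m) by
      rw [Derivation.leibniz, smul_eq_mul, smul_eq_mul]; ring]
    refine add_mem ?_ ?_
    · exact (by omega : 1 + (i + d) = i.succ + d) ▸ mul ((pow_one V).symm ▸ hm) ih
    · exact (by omega : i + (1 + d) = i.succ + d) ▸ mul hx (h m hm)

lemma row {τ u : K} (hτ : D τ = 1) (h : Quo D τ u d) {κ M : ℕ} (hM : M ≤ κ) :
    ∃ Δ : K, Δ ≠ 0 ∧ Δ ∈ Submodule.span F {1, τ, u} ^ d ∧ ∀ q ≤ M,
      ∃ N ∈ Submodule.span F {1, τ, u} ^ (M * (2 * d + 1)),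
        D^[q] (u ^ κ) = u ^ (κ - M) / Δ ^ (2 * M) * N := by
  obtain ⟨Δ, Γ, h0, h1, h2, h3⟩ := h
  refine ⟨Δ, h0, h1, ?_⟩
  have o1 : (1 : K) ∈ Submodule.span F {1, τ, u} := Submodule.subset_span (by simp)
  have ou : u ∈ Submodule.span F {1, τ, u} ^ 1 := by
    rw [pow_one]
    exact Submodule.subset_span (by simp)
  have hd : ∀ m ∈ Submodule.span F {1, τ, u}, Δ * D m ∈ Submodule.span F {1, τ, u} ^ (1 + d) := by
    intro m hm
    induction hm using Submodule.span_induction with
    | mem x hx =>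
      rcases hx with rfl | rfl | rfl
      · simp
      · rw [hτ, mul_one]
        exact mono o1 h1 (by omega)
      · rw [h3]
        exact mono o1 h2 (by omega)
    | zero => simp
    | add x y _ _ a b => rw [map_add, mul_add]; exact add_mem a b
    | smul c x _ a => rw [Derivation.map_smul, mul_smul_comm]; exact Submodule.smul_mem _ c a
  generalize Submodule.span F {1, τ, u} = V at *
  have key : ∀ q ≤ κ, ∃ Q ∈ V ^ (q * (2 * d + 1)), Δ ^ (2 * q) * D^[q] (u ^ κ) = u ^ (κ - q) * Q := by
    intro q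
    induction q with
    | zero => exact fun _ => ⟨1, by simp, by simp⟩
    | succ q ih =>
      intro hq
      obtain ⟨Q, a1, a2⟩ := ih (by omega)
      obtain ⟨n, hn⟩ : ∃ n, κ - q = n + 1 := ⟨κ - (q + 1), by omega⟩
      refine ⟨((n + 1 : ℕ) : K) * (Γ * Δ * Q) - ((2 * q : ℕ) : K) * (u * (Δ * D Δ) * Q) +
        u * Δ * (Δ * D Q), add_mem (sub_mem (nat ?_ _) (nat ?_ _)) ?_, ?_⟩
      · exact mono o1 (mul (mul h2 h1) a1) (by rw [add_mul]; omega)
      · exact mono o1 (mul (mul ou (der hd h1)) a1) (by rw [add_mul]; omega)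
      · exact mono o1 (mul (mul ou h1) (der hd a1)) (by rw [add_mul]; omega)
      · have e := congrArg D a2
        rw [hn] at e a2
        have e2 : Δ * D (Δ ^ (2 * q)) = ((2 * q : ℕ) : K) * (Δ ^ (2 * q) * D Δ) := by
          rw [Derivation.leibniz_pow, nsmul_eq_mul, smul_eq_mul]
          rcases q with _ | q
          · simp
          · rw [show 2 * (q + 1) - 1 = 2 * q + 1 by omega]
            ring
        rw [Derivation.leibniz, Derivation.leibniz, Derivation.leibniz_pow D u, nsmul_eq_mul] at e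
        simp only [smul_eq_mul, Nat.add_sub_cancel] at e
        rw [Function.iterate_succ_apply', show κ - (q + 1) = n by omega, ← h3]
        linear_combination Δ ^ 2 * e - Δ * D^[q] (u ^ κ) * e2 -
          ((2 * q : ℕ) : K) * (Δ * D Δ) * a2
  intro q hq
  obtain ⟨Q, a1, a2⟩ := key q (hq.trans hM)
  obtain ⟨n, rfl⟩ := Nat.exists_eq_add_of_le hq
  refine ⟨u ^ n * Δ ^ (2 * n) * Q, mono o1 (mul (mul (pw ou n) (pw h1 (2 * n))) a1)
    (le_of_eq (by ring)), ?_⟩
  rw [div_mul_eq_mul_div, eq_div_iff (pow_ne_zero _ h0)]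
  rw [show κ - q = κ - (q + n) + n by omega] at a2
  linear_combination Δ ^ (2 * n) * a2

lemma exists_val [CharZero F] (h : D x ≠ 0) :
    ∃ O : ValuationSubring K, (∀ c : F, algebraMap F K c ∈ O) ∧ x ∉ O := by
  have h1 : x ∉ (integralClosure F K).toSubring := fun hx => by
    have hi : IsIntegral F x := hx
    have e := D.map_aeval (minpoly F x) x
    rw [minpoly.aeval, map_zero, smul_eq_mul] at e
    exact mul_ne_zero ((minpoly.irreducible hi).separable.aeval_derivative_ne_zero
      (minpoly.aeval F x)) h e.symm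
  have : IsIntegrallyClosedIn (integralClosure F K).toSubring K :=
    inferInstanceAs (IsIntegrallyClosedIn (integralClosure F K) K)
  obtain ⟨O, h2, h3⟩ := Subring.exists_le_valuationSubring_of_isIntegrallyClosedIn h1
  exact ⟨O, fun c => h2 (Subalgebra.algebraMap_mem _ c), h3⟩

variable {O : ValuationSubring K} (hO : ∀ c : F, algebraMap F K c ∈ O)
include hO

lemma val_one {c : F} (hc : c ≠ 0) : O.valuation (algebraMap F K c) = 1 := by
  refine le_antisymm ((O.valuation_le_one_iff _).2 (hO c)) ?_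
  have h := (O.valuation_le_one_iff _).2 (hO c⁻¹)
  rwa [map_inv₀, map_inv₀, inv_le_one₀ (zero_lt_iff.2 (by simpa using hc))] at h

lemma val_le {S : Set K} {g : O.ValueGroup} (h : ∀ s ∈ S, O.valuation s ≤ g)
    (hx : x ∈ Submodule.span F S ^ a) : O.valuation x ≤ g ^ a := by
  induction hx using Submodule.pow_induction_on_left' with
  | algebraMap r => simpa using hO r
  | add x y i _ _ h1 h2 => exact Valuation.map_add_le _ h1 h2
  | mem_mul m hm i x hx ih =>
    rw [map_mul, pow_succ']
    refine mul_le_mul' ?_ ih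
    clear hx ih
    induction hm using Submodule.span_induction with
    | mem x hx => exact h x hx
    | zero => simp
    | add x y _ _ a b => exact Valuation.map_add_le _ a b
    | smul c x _ a =>
      rw [Algebra.smul_def, map_mul]
      exact (mul_le_of_le_one_left' ((O.valuation_le_one_iff _).2 (hO c))).trans a

omit hO in
lemma val_det {n : ℕ} (A : Matrix (Fin n) (Fin n) K) (g : Fin n → O.ValueGroup)
    (h : ∀ i j, O.valuation (A i j) ≤ g j) : O.valuation A.det ≤ ∏ j, g j := by
  rw [Matrix.det_apply']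
  refine Valuation.map_sum_le _ fun σ _ => ?_
  rw [map_mul, map_prod]
  refine (mul_le_of_le_one_left' ((O.valuation_le_one_iff _).2 (intCast_mem O _))).trans ?_
  exact prod_le_prod' fun j _ => h _ j

end WR

open WR in
theorem wr : WrStmt := by
  intro F K _ _ _ _ D M d κ u i₁ c hker hτ hc hs hli hq
  rcases le_or_gt M κ with hM | hM
  swap
  · omega
  choose Δ h0 h1 h2 using fun i => row hτ (hq i) hM
  choose N h3 h4 using fun (q i : Fin (M + 1)) => h2 i q (Nat.le_of_lt_succ q.2)
  have hW : (Matrix.of fun q i : Fin (M + 1) => D^[q] (u i ^ κ)).det ≠ 0 := by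
    refine MP_c69980_ag.H60.Leib.wr_ne (D := D.toLinearMap.toAddMonoidHom) (fun x y => ?_) _
      fun e he h => ?_
    · change D (x * y) = D x * y + x * D y
      rw [Derivation.leibniz, smul_eq_mul, smul_eq_mul]
      ring
    · choose e' he' using fun i => hker (e i) (he i)
      intro i
      rw [← he', Fintype.linearIndependent_iff.1 hli e' (by
        simpa only [Algebra.smul_def, he'] using h) i, map_zero]
  have hw : (Matrix.of N).det ≠ 0 := by
    simp only [h4] at hW
    rw [show (Matrix.of fun q i : Fin (M + 1) => u i ^ (κ - M) / Δ i ^ (2 * M) * N q i).det = _ from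
      Matrix.det_mul_row _ (Matrix.of N)] at hW
    exact right_ne_zero_of_mul hW
  have hD : ∀ q : ℕ, ∑ i, c i • D^[q] (u i ^ κ) = D^[q] 1 := by
    intro q
    induction q with
    | zero => exact hs
    | succ q ih =>
      simp only [Function.iterate_succ_apply', ← ih, map_sum, Derivation.map_smul]
  have hone : ∀ q : ℕ, D^[q] 1 = if q = 0 then 1 else 0 := by
    rintro (_ | q)
    · rfl
    · rw [Function.iterate_succ_apply, D.map_one_eq_zero, Function.iterate_fixed (map_zero D)]
      rfl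
  have hcol : ∀ i, ((Matrix.of N).updateCol i fun q => if (q : ℕ) = 0 then 1 else 0).det =
      algebraMap F K (c i) * (u i ^ (κ - M) / Δ i ^ (2 * M)) * (Matrix.of N).det := by
    intro i
    rw [← smul_eq_mul, ← Matrix.det_updateCol_sum (Matrix.of N) i
      fun i => algebraMap F K (c i) * (u i ^ (κ - M) / Δ i ^ (2 * M))]
    congr 2
    funext q
    rw [← hone, ← hD]
    exact sum_congr rfl fun i _ => by
      rw [h4, Algebra.smul_def, smul_eq_mul, mul_assoc, Matrix.of_apply]
  have hv : ∀ (O : ValuationSubring K) (g : O.ValueGroup), 1 ≤ g → (∀ i, O.valuation (u i) ≤ g) →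
      ∀ i, ∀ s ∈ ({1, u i₁, u i} : Set K), O.valuation s ≤ g := by
    rintro O g a b i s (rfl | rfl | rfl)
    exacts [(map_one _).trans_le a, b _, b _]
  obtain ⟨O, hO, o1, i, o2⟩ : ∃ O : ValuationSubring K, (∀ c : F, algebraMap F K c ∈ O) ∧
      1 ≤ O.valuation (Matrix.of N).det ∧ ∃ i, 1 < O.valuation (u i) := by
    by_cases h : D (Matrix.of N).det = 0
    · obtain ⟨O, a, b⟩ := exists_val (D := D) (x := u i₁) (hτ ▸ one_ne_zero)
      obtain ⟨e, he⟩ := hker _ h
      refine ⟨O, a, ?_, i₁, lt_of_not_ge fun e => b ((O.valuation_le_one_iff _).1 e)⟩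
      rw [← he, val_one a fun z => hw (by rw [← he, z, map_zero])]
    · obtain ⟨O, a, b⟩ := exists_val h
      rw [← O.valuation_le_one_iff] at b
      refine ⟨O, a, (not_le.1 b).le, by_contra fun e => b ?_⟩
      simpa using val_det (O := O) (Matrix.of N) _ fun q i =>
        val_le a (hv O 1 le_rfl (fun i => not_lt.1 fun z => e ⟨i, z⟩) i) (h3 q i)
  obtain ⟨j, hj⟩ := Finite.exists_max fun i => O.valuation (u i)
  have g1 : 1 < O.valuation (u j) := o2.trans_le (hj i)
  have b1 := val_det (O := O) ((Matrix.of N).updateCol j fun q => if (q : ℕ) = 0 then 1 else 0)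
    (Function.update (fun _ => O.valuation (u j) ^ (M * (2 * d + 1))) j 1) fun q i => by
      rcases eq_or_ne i j with rfl | h
      · rw [Matrix.updateCol_self, Function.update_self]
        split_ifs <;> simp
      · rw [Matrix.updateCol_ne h, Function.update_of_ne h]
        exact val_le hO (hv O _ g1.le hj i) (h3 q i)
  rw [prod_update_of_mem (mem_univ j), one_mul, prod_const, card_sdiff_of_subset (subset_univ _),
    card_univ, Fintype.card_fin, card_singleton, Nat.add_sub_cancel, hcol] at b1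
  have b2 := pow_le_pow_left' (val_le hO (hv O _ g1.le hj j) (h1 j)) (2 * M)
  have b3 := mul_le_mul' b2 b1
  rw [← map_pow, ← map_mul, ← mul_assoc, mul_left_comm, mul_div_cancel₀ _ (pow_ne_zero _ (h0 j)),
    map_mul, map_mul, val_one hO (hc j), one_mul, map_pow, ← pow_mul, ← pow_mul, ← pow_add] at b3
  have b4 := (pow_le_pow_iff_right₀ g1).1 ((le_mul_of_one_le_right' o1).trans b3)
  have : d * (2 * M) + M * (2 * d + 1) * M = 2 * M * d + M * M * (2 * d + 1) := by ring
  omega

end Pool.Agent.MP_4060c9_nt.H98
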