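import Pool.Agent.MP_4060c9_nt.H98.Step
import Pool.Agent.MP_4060c9_nt.H98.Bi
import Pool.Agent.MP_4060c9_nt.H98.Wr
import Pool.Agent.MP_4060c9_nt.H98.Deg

/-!
The uniform bound for the solutions with no vanishing subsum.
-/

set_option autoImplicit false

namespace Pool.Agent.MP_4060c9_nt.H98

open Filter MvPolynomial

variable {σ : Type} {κ : ℕ} {ε : σ → ℤ} {a : ℕ → ℝ} {P : ℕ → ℕ} {N : ℕ → ℤ}
  {S : ℕ → Finset (σ → ℤ)}

lemma rep_sum (T : Finset σ) (N : ℕ → ℤ) :
    Rep (∑ j ∈ T, C (ε j : UK) * X j ^ κ - C (gm fun i => N i))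
      fun i x => ((∑ j ∈ T, ε j * x j ^ κ - N i : ℤ) : ℚ) := fun x => by
  simp only [map_sub, map_sum, map_mul, map_pow, eval_C, eval_X, st]
  simp only [← map_intCast gm, ← map_pow, ← map_mul, ← map_sum, ← map_sub]
  congr 1
  funext i
  simp

variable [Fintype σ] [DecidableEq σ]

lemma mem_nd {P : ℕ} {N : ℤ} {x : σ → ℤ} : x ∈ nd κ ε P N ↔ (∀ j, 1 ≤ x j ∧ x j ≤ P) ∧
    ∑ j, ε j * x j ^ κ = N ∧ ∀ T : Finset σ, T.Nonempty → ∑ j ∈ T, ε j * x j ^ κ ≠ 0 := by
  simp [nd]

lemma eqn_mem (hS : ∀ i, S i ⊆ nd κ ε (P i) (N i)) :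
    ∑ j, C (ε j : UK) * X j ^ κ - C (gm fun i => N i) ∈ II S :=
  (rep_sum _ N).mem_iff.2 (.of_forall fun i x hx => by simp [(mem_nd.1 (hS i hx)).2.1])

lemma claim (hκ : 0 < κ) (hA : Adm (Fintype.card σ) κ a) (hP₁ : ∀ i, 1 ≤ P i)
    (hP : ∀ H : ℝ, ∀ᶠ i in UU, H ≤ P i) (r : ℕ) : r < Fintype.card σ →
    ∀ S : ℕ → Finset (σ → ℤ), (∀ i, S i ⊆ nd κ ε (P i) (N i)) → Dim S r →
      ¬ Big P S (∑ j ∈ Finset.range (r + 1), (j : ℝ) * a j) := by
  induction r with
  | zero => exact fun _ S _ h => by simpa using h.zero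
  | succ r ih =>
    intro hr S₀ hS₀ hD₀ hB
    obtain ⟨S, h0, hG⟩ := hB.gen
    have hS := fun i => (h0 i).trans (hS₀ i)
    have hD := hD₀.anti h0
    obtain ⟨ha, hA⟩ := hA (r + 1) r.succ_pos hr
    rw [Finset.sum_range_succ] at hG
    by_cases h1 : Dim S r
    · exact ih (by omega) S hS h1 (hG.1.mono hP₁ (le_add_of_nonneg_right (by positivity)))
    obtain ⟨t₀, h1⟩ := not_forall.1 h1
    have hp := hG.prime
    let K := FractionRing (MvPolynomial σ UK ⧸ II S)
    let ψ : MvPolynomial σ UK →ₐ[UK] K :=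
      (IsScalarTower.toAlgHom UK (MvPolynomial σ UK ⧸ II S) K).comp (Ideal.Quotient.mkₐ UK _)
    have hy : ∀ g, aeval (fun j => ψ (X j)) g = 0 ↔ g ∈ II S := fun g => by
      rw [show aeval (fun j => ψ (X j)) = ψ from (aeval_unique ψ).symm,
        ← Ideal.Quotient.eq_zero_iff_mem]
      exact map_eq_zero_iff _ (IsFractionRing.injective (MvPolynomial σ UK ⧸ II S) K)
    generalize (fun j => ψ (X j)) = y at hy
    obtain ⟨W, hW, hW'⟩ : ∃ W, W = 4 * (Fintype.card σ - (r + 1)) *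
        (Fintype.card σ - (r + 1) + 1) ∧ 0 < W := ⟨_, rfl, by
      have := Nat.sub_pos_of_lt hr
      positivity⟩
    obtain ⟨t, j, hL⟩ := deg bi wr UK K σ y (fun j => ε j) (gm fun i => N i) κ r ((κ - 1) / W) t₀
      (by simpa [sub_eq_zero, Algebra.smul_def] using (hy _).2 (eqn_mem hS))
      (fun T hT h => by
        obtain ⟨x, hx⟩ := hG.1.ex
        have := (rep_sum T 0).mem_iff.1 ((hy _).1 (by
          simpa [Algebra.smul_def, show (fun _ : ℕ => (0 : ℚ)) = 0 from rfl] using h))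
        obtain ⟨i, h2, h3⟩ := (hx.and this).exists
        exact (mem_nd.1 (hS i h2)).2.2 T hT
          (by simpa only [Int.cast_eq_zero, Pi.zero_apply, sub_zero] using h3 _ h2))
      (algebraicIndependent_iff.2 fun g hg => not_not.1 fun h =>
        h1 ⟨g, h, (hy _).1 (by rwa [aeval_rename])⟩)
      (by
        rw [← hW]
        exact (Nat.mul_div_le _ _).trans_lt (by omega))
    obtain ⟨g, h2, h3⟩ := hD (Fin.cons j t)
    obtain ⟨S', h4, h5, g', h6, h7⟩ := step t j y r.succ_pos ha (by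
        have h4 : κ ≤ W * ((κ - 1) / W + 1) := by
          have := Nat.lt_mul_div_succ (κ - 1) hW'
          omega
        have h5 : (W : ℝ) < κ * a (r + 1) ^ (r + 1) := by
          rw [hW]
          push_cast [hr.le] at hA ⊢
          exact hA
        have h6 : (κ : ℝ) ≤ W * ((κ - 1) / W + 1 : ℕ) := by exact_mod_cast h4
        have h7 : (0 : ℝ) < W := by exact_mod_cast hW'
        refine lt_of_mul_lt_mul_left ?_ h7.le
        nlinarith [pow_pos ha (r + 1)]) hP₁ hP
      (fun i x hx j => by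
        obtain ⟨h4, h5⟩ := (mem_nd.1 (hS i hx)).1 j
        exact_mod_cast abs_le.2 ⟨by omega, h5⟩) hG hy hL
      (ex_not_LI h2 (by
        rw [← (hy _).2 h3, aeval_rename]
        congr 2
        funext b
        exact Fin.cases rfl (fun _ => rfl) b))
    rw [add_sub_cancel_right] at h5
    exact ih (by omega) S' (fun i => (h4 i).trans (hS i)) (Dim.drop hp hD h4 h6 h7) h5

lemma dim_top (hκ : 0 < κ) {r : ℕ} (hr : Fintype.card σ = r + 1) (hε : ∀ j, ε j ≠ 0)
    (hS : ∀ i, S i ⊆ nd κ ε (P i) (N i)) : Dim S r := fun t => by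
  by_cases ht : t.Injective
  · have hb : t.Bijective := (Fintype.bijective_iff_injective_and_card t).2 ⟨ht, by simp [hr]⟩
    refine ⟨∑ b, C (ε (t b) : UK) * X b ^ κ - C (gm fun i => N i), fun h => hε (t 0) ?_, ?_⟩
    · have h1 := congrArg (eval 0) h
      have h2 := congrArg (eval (Pi.single 0 1)) h
      simp only [map_sub, map_sum, map_mul, map_pow, eval_C, eval_X, Pi.zero_apply,
        zero_pow hκ.ne', mul_zero, Finset.sum_const_zero, map_zero, zero_sub, neg_eq_zero] at h1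
      simpa [h1, Fin.sum_univ_succ, hκ.ne'] using h2
    · convert eqn_mem hS using 1
      simp only [map_sub, map_sum, map_mul, map_pow, rename_C, rename_X]
      rw [hb.sum_comp fun j => C (ε j : UK) * X j ^ κ]
  · obtain ⟨b, b', h1, h2⟩ := Function.not_injective_iff.1 ht
    exact ⟨X b - X b', sub_ne_zero.2 (X_injective.ne h2), by simp [h1]⟩

theorem ndStmt : NdStmt := by
  intro σ _ _ _ κ ε a hκ hA
  by_contra hn
  push Not at hn
  choose P N hP₁ h using fun i : ℕ => hn i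
  obtain ⟨r, hr⟩ := Nat.exists_eq_succ_of_ne_zero (Fintype.card_ne_zero (α := σ))
  have h0 : ∀ H : ℝ, ∀ᶠ i : ℕ in UU, H ≤ i := fun H =>
    Nat.hyperfilter_le_atTop (tendsto_natCast_atTop_atTop.eventually_ge_atTop H)
  have h1 : ∀ i, (1 : ℝ) ≤ P i := fun i => by exact_mod_cast hP₁ i
  have hB : Big P (fun i => nd κ ε (P i) (N i))
      (∑ j ∈ Finset.range (Fintype.card σ), (j : ℝ) * a j) := fun C =>
    (h0 C).mono fun i hi => lt_of_le_of_lt (mul_le_mul_of_nonneg_right hi (by positivity)) (h i)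
  have hP : ∀ H : ℝ, ∀ᶠ i in UU, H ≤ P i := fun H => by
    have := hB.mono hP₁ (β := 0) (Finset.sum_nonneg fun j hj => by
      rcases j.eq_zero_or_pos with rfl | h
      · simp
      · exact mul_nonneg j.cast_nonneg (hA j h (Finset.mem_range.1 hj)).1.le)
    filter_upwards [this (|H| ^ Fintype.card σ)] with i hi
    have h2 : (nd κ ε (P i) (N i)).card ≤ P i ^ Fintype.card σ :=
      (Finset.card_filter_le _ _).trans (by simp)
    rw [Real.rpow_zero, mul_one] at hi
    exact (le_abs_self H).trans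
      (lt_of_pow_lt_pow_left₀ _ (Nat.cast_nonneg _) (hi.trans_le (by exact_mod_cast h2))).le
  obtain ⟨x, hx⟩ := hB.ex
  obtain ⟨i, hi⟩ := hx.exists
  refine claim hκ hA hP₁ hP r (by omega) _ (fun _ => subset_rfl)
    (dim_top hκ hr (fun j hj => ?_) fun _ => subset_rfl) (by rwa [hr] at hB)
  simpa [hj] using (mem_nd.1 hi).2.2 {j} (Finset.singleton_nonempty j)

end Pool.Agent.MP_4060c9_nt.H98
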