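import Pool.Agent.MP_4060c9_nt.H98.Spec2

/-!
Ramsey: a walk through sets on which a decreasing function is constant.
-/

set_option autoImplicit false

namespace Pool.Agent.MP_4060c9_nt.H98

open Finset

namespace WalkAux

/-- The infinite Ramsey theorem for all sizes up to `N`, as a chain of homogeneous sets. -/
lemma ramsey {C : Type} [Finite C] (d : Finset ℕ → C) (N : ℕ) :
    ∃ (A : ℕ → Finset ℕ) (e : ℕ → C), Monotone A ∧ (∀ i, #(A i) = i) ∧
      ∀ i, ∀ Q ⊆ A i, #Q ≤ N → d Q = e #Q := by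
  have h1 : ∀ f : ℕ → C, ∃ v, ∀ᶠ a in (Filter.hyperfilter ℕ : Filter ℕ), f a = v := fun f => by
    obtain ⟨v, hv⟩ := Ultrafilter.eq_pure_of_finite ((Filter.hyperfilter ℕ).map f)
    refine ⟨v, ?_⟩
    have : {v} ∈ (Filter.hyperfilter ℕ).map f := by rw [hv]; simp
    exact this
  choose L hL using h1
  obtain ⟨c, c0, cs⟩ : ∃ c : ℕ → Finset ℕ → C, c 0 = d ∧
      ∀ k Q, c (k + 1) Q = L fun a => c k (insert a Q) :=
    ⟨fun k => Nat.rec d (fun _ g Q => L fun a => g (insert a Q)) k, rfl, fun _ _ => rfl⟩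
  have h2 : ∀ A : Finset ℕ, ∃ a, a ∉ A ∧ ∀ k ∈ range (N + 1), ∀ Q ∈ A.powerset,
      c k (insert a Q) = c (k + 1) Q := fun A => by
    refine Filter.Eventually.exists (f := (Filter.hyperfilter ℕ : Filter ℕ))
      (Filter.Eventually.and (Filter.hyperfilter_le_cofinite A.eventually_cofinite_notMem) ?_)
    rw [Filter.eventually_all_finset]
    intro k _
    rw [Filter.eventually_all_finset]
    intro Q _
    rw [cs]
    exact hL _
  choose nx n1 n2 using h2
  obtain ⟨A, A0, As⟩ : ∃ A : ℕ → Finset ℕ, A 0 = ∅ ∧ ∀ i, A (i + 1) = insert (nx (A i)) (A i) :=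
    ⟨fun i => Nat.rec ∅ (fun _ B => insert (nx B) B) i, rfl, fun _ => rfl⟩
  have h3 : ∀ i, ∀ Q ⊆ A i, ∀ k, k + #Q ≤ N → c k Q = c (k + #Q) ∅ := fun i => by
    induction i with
    | zero => intro Q hQ k _; rw [A0, subset_empty] at hQ; simp [hQ]
    | succ i ih =>
      intro Q hQ k hk
      rw [As] at hQ
      by_cases h : nx (A i) ∈ Q
      · have h4 : Q.erase (nx (A i)) ⊆ A i := subset_insert_iff.1 hQ
        have h5 := card_erase_add_one h
        have := n2 (A i) k (mem_range.2 (by omega)) _ (mem_powerset.2 h4)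
        rw [insert_erase h] at this
        rw [this, ih _ h4 _ (by omega)]
        congr 1
        omega
      · exact ih Q ((subset_insert_iff_of_notMem h).1 hQ) k hk
  refine ⟨A, fun s => c s ∅, monotone_nat_of_le_succ fun i => As i ▸ subset_insert _ _,
    fun i => ?_, fun i Q hQ h => ?_⟩
  · induction i with
    | zero => simp [A0]
    | succ i ih => rw [As, card_insert_of_notMem (n1 _), ih]
  · simpa [c0] using h3 i Q hQ 0 (by omega)

/-- Exchange steps connect any two subsets of the same size. -/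
lemma exch {T : Finset ℕ} {s : ℕ} {Φ : Finset ℕ → Prop}
    (h : ∀ Q Q', Q ⊆ Q' → Q' ⊆ T → #Q = s → #Q' = s + 1 → (Φ Q ↔ Φ Q')) {Q' : Finset ℕ}
    (hT : Q' ⊆ T) (hs : #Q' = s) (n : ℕ) :
    ∀ Q ⊆ T, #Q = s → #(Q \ Q') = n → Φ Q → Φ Q' := by
  induction n with
  | zero =>
    intro Q _ h1 h2 h3
    rw [card_eq_zero, sdiff_eq_empty_iff_subset] at h2
    rwa [← eq_of_subset_of_card_le h2 (by omega)]
  | succ n ih =>
    intro Q h0 h1 h2 h3
    obtain ⟨b, hb⟩ : (Q \ Q').Nonempty := card_pos.1 (by omega)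
    obtain ⟨a, ha⟩ : (Q' \ Q).Nonempty :=
      card_pos.1 (by rw [card_sdiff_comm (hs.trans h1.symm)]; omega)
    obtain ⟨a1, a2⟩ := mem_sdiff.1 ha
    have k1 : insert a Q ⊆ T := insert_subset (hT a1) h0
    have k2 : #(insert a Q) = s + 1 := by rw [card_insert_of_notMem a2, h1]
    have k3 : #((insert a Q).erase b) = s := by
      rw [card_erase_of_mem (mem_insert_of_mem (mem_sdiff.1 hb).1), k2]; rfl
    refine ih _ ((erase_subset _ _).trans k1) k3 ?_
      ((h _ _ (erase_subset _ _) k1 k3 k2).2 ((h _ _ (subset_insert _ _) k1 h1 k2).1 h3))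
    rw [erase_sdiff_comm, insert_sdiff_of_mem _ a1, card_erase_of_mem hb, h2]; rfl

end WalkAux

open WalkAux in
theorem walk : WalkStmt := by
  intro d r m hd hr
  obtain ⟨A, e, hA, hc, he⟩ :=
    ramsey (fun Q => (⟨d Q, Nat.lt_succ_of_le (hr Q)⟩ : Fin (r + 1))) (m + r + 1)
  have he' : ∀ i, ∀ Q ⊆ A i, #Q ≤ m + r + 1 → d Q = e #Q := fun i Q h1 h2 =>
    congrArg Fin.val (he i Q h1 h2)
  obtain ⟨s, s1, s2, hs⟩ : ∃ s, m ≤ s ∧ s ≤ m + r ∧ d (A (s + 1)) = d (A s) := by
    by_contra hn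
    push Not at hn
    have : ∀ j ≤ r + 1, d (A (m + j)) + j ≤ r := fun j => by
      induction j with
      | zero => exact fun _ => hr _
      | succ j ih =>
        intro hj
        have h1 := hn (m + j) (by omega) (by omega)
        have h2 := hd (hA (Nat.le_succ (m + j)))
        have h3 := ih (by omega)
        simp only [Nat.succ_eq_add_one] at h2
        rw [← add_assoc m j 1]
        omega
    have := this (r + 1) le_rfl
    omega
  refine ⟨A s, by rw [hc]; exact s1, by rw [hc]; exact s2, fun Φ hΦ h0 B => ?_⟩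
  obtain ⟨Q, hQ, hQs⟩ := exists_subset_card_eq (s := A (s + #B) \ B) (n := s)
    (by have := le_card_sdiff B (A (s + #B)); rw [hc] at this; omega)
  refine ⟨Q, by rw [hQs, hc], disjoint_of_subset_left hQ sdiff_disjoint,
    exch (T := A (s + #B)) (fun Q Q' h1 h2 h3 h4 => hΦ Q Q' h1 ?_ ?_) (hQ.trans sdiff_subset) hQs _
      (A s) (hA (Nat.le_add_right _ _)) (hc s) rfl h0⟩
  · rw [he' _ Q (h1.trans h2) (by omega), he' s _ subset_rfl (by rw [hc]; omega), h3, hc]
  · rw [← hs, he' _ Q' h2 (by omega), he' (s + 1) _ subset_rfl (by rw [hc]; omega), h4, hc]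

end Pool.Agent.MP_4060c9_nt.H98
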