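import Pool.Agent.MP_4060c9_nt.H98.Core
import Pool.Agent.MP_4060c9_nt.H98.Nd
import Pool.Agent.MP_4060c9_nt.H98.Walk
import Pool.Agent.MP_4060c9_nt.H98.Cls

/-!
The uniform bound for the solutions with no vanishing subsum, by the global determinant method.
-/

set_option autoImplicit false

namespace Pool.Agent.MP_4060c9_nt.H98

open Filter Finset

/-- The case of positive dimension. -/
lemma core (ld : LdStmt) {Ω Γ σ : Type} {U : Ultrafilter Ω} {y : σ → GK U}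
    {cl : Finset ℕ → Ω → Γ} {d : Finset ℕ → ℕ} {Q₀ : Finset ℕ} {r e : ℕ} {a : ℝ} {p : ℕ → ℕ → ℕ}
    {n : Ω → ℕ} {t : Ω → Fin r → ℤ} {z : Ω → ℤ} {H : Ω → ℝ} (hr : 0 < r) (ha : 0 < a)
    (he : 1 < a ^ r * e) (hH : Tendsto H U atTop)
    (hb : ∀ᶠ ω in U, (∀ i, (|t ω i| : ℝ) ≤ H ω) ∧ (|z ω| : ℝ) ≤ H ω) (hHb : ∀ Q, BV U (cl Q) H)
    (hm : ∀ Q Q', Q ⊆ Q' → LL U (cl Q) ≤ LL U (cl Q')) (hd : ∀ Q, Tr (LL U (cl Q)) y (d Q))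
    (hd₀ : d Q₀ = r) (hw : ∀ Φ : Finset ℕ → Prop,
      (∀ Q Q', Q ⊆ Q' → d Q = d Q₀ → d Q' = d Q₀ → (Φ Q ↔ Φ Q')) → Φ Q₀ →
      ∀ B : Finset ℕ, ∃ Q, #Q = #Q₀ ∧ Disjoint Q B ∧ Φ Q)
    (hT : ∀ i, gz U (t · i) ∈ Subring.closure (Set.range y))
    (hZ : gz U z ∈ Subring.closure (Set.range y))
    (hL : LI (LL U (cl Q₀)) (fun i => gz U (t · i)) (gz U z) e)
    (hn : ∀ᶠ ω in U, 0 < n ω ∧ H ω ^ a ≤ n ω ^ #Q₀) (hp₁ : ∀ n, 0 < n → ∀ a, n < p n a)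
    (hp₂ : ∀ n, 0 < n → ∀ (Q : Finset ℕ) (g : ℤ), g ≠ 0 → (∀ a ∈ Q, (p n a : ℤ) ∣ g) →
      (n : ℤ) ^ #Q ≤ |g|)
    (hp₃ : ∀ n, 0 < n → ∀ (Q : Finset ℕ) (g : ℤ), (∀ a ∈ Q, ¬ (p n a : ℤ) ∣ g) →
      IsCoprime g (∏ a ∈ Q, p n a : ℕ))
    (hc : ∀ Q ω ω', cl Q ω' = cl Q ω → H ω' = H ω ∧
      (∀ i, t ω' i ≡ t ω i [ZMOD (∏ a ∈ Q, p (n ω) a : ℕ)]) ∧
      z ω' ≡ z ω [ZMOD (∏ a ∈ Q, p (n ω) a : ℕ)]) : False := by
  obtain ⟨D, hD, h1, h2⟩ := ex_deg (Nat.pos_of_ne_zero (by rintro rfl; norm_num at he)) hL (by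
    have := (hd₀ ▸ hd Q₀).2 (Fin.cons (gz U z) fun i => gz U (t · i)) (Fin.cases hZ hT)
    rw [algebraicIndependent_iff] at this
    push Not at this
    obtain ⟨g, h1, h2⟩ := this
    exact ex_not_LI h2 h1)
  obtain ⟨M, m₀, c, h3, h4, h5, h6, h7, h8⟩ := ex_circuit h2
  obtain ⟨W, A, h9, h10⟩ := ex_W hH hb h4 h5 h7
  have h11 : ∀ᶠ ω in U, Gd M (W ω) (t ω) (z ω) ≠ 0 := by
    have := h1.gd' hD h3 (c := fun m => gz U (W · m))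
      (fun m => mem_LL.2 ((h9 _ _ (hHb Q₀) h6).comp fun _ w => (w m : ℚ)))
      (gk_ex_ne (h10.mono fun ω h => by exact_mod_cast h.1)) (by
        rw [← gk_Gv]
        exact gk_eq_zero.2 (h10.mono fun ω h =>
          (map_Gv (Int.castRingHom ℚ) M _ _ _).symm.trans (by rw [h.2.2, map_zero])))
    rw [← gk_Gd] at this
    exact (gk_ne_zero.1 this).mono fun ω h h' =>
      h ((map_Gd (Int.castRingHom ℚ) M _ _ _).symm.trans (by rw [h', map_zero]))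
  set s := M.sup fun m => ∑ a, m.1 a + m.2
  obtain ⟨B, hB⟩ := bad_fin hp₂ (n := n) (g := fun ω => Gd M (W ω) (t ω) (z ω))
      (A := #Q₀ * ⌈(A + s + 1 : ℕ) / a⌉₊) (by
    filter_upwards [hn, h10, h11, hb, hH.eventually_ge_atTop 1,
      hH.eventually_gt_atTop (∑ m ∈ M, m.2 : ℕ)] with ω k1 k2 k3 k4 k5 k6
    refine ⟨k1.1, k3, ?_⟩
    have k7 : 0 < H ω := zero_lt_one.trans_le k5
    have := calc
      |((Gd M (W ω) (t ω) (z ω) : ℤ) : ℝ)| ≤ _ :=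
        Cov.size M _ _ _ k5 k2.2.1 (pow_pos k7 _).le k4.1 k4.2
      _ < H ω * (H ω ^ A * H ω ^ s) := mul_lt_mul_of_pos_right k6 (by positivity)
      _ = H ω ^ ((A + s + 1 : ℕ) : ℝ) := by rw [Real.rpow_natCast]; ring
      _ ≤ H ω ^ (a * ⌈(A + s + 1 : ℕ) / a⌉₊) := Real.rpow_le_rpow_of_exponent_le k5
        ((div_le_iff₀' ha).1 (Nat.le_ceil _))
      _ ≤ (n ω : ℝ) ^ (#Q₀ * ⌈(A + s + 1 : ℕ) / a⌉₊) := by
        rw [Real.rpow_mul_natCast k7.le, pow_mul]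
        exact pow_le_pow_left₀ (by positivity) k1.2 _
    exact_mod_cast this)
  obtain ⟨Q, h12, h13, h14⟩ := hw (fun Q => Kept (fun i => gz U (t · i)) (gz U z) e M m₀ c
    (LL U (cl Q))) (fun Q Q' h k1 k2 => kept_iff ld (hm Q Q' h) LL_closed (k1 ▸ hd Q) (k2 ▸ hd Q')
      hT hZ h4 h5 h7) ⟨hL, h8, h6⟩ B
  refine not_LI (M := M) hr ha he hH hb (h9 _ _ (hHb Q) h14.2.2)
    (q := fun ω => ∏ a ∈ Q, p (n ω) a) ?_ (hc Q) h14.1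
  filter_upwards [hn, h10, (eventually_all_finset Q).2 fun a ha => hB a (disjoint_left.1 h13 ha)]
    with ω k1 k2 k3
  refine ⟨k1.2.trans ?_, hp₃ _ k1.1 Q _ k3, k2.2.2⟩
  exact_mod_cast h12 ▸ pow_card_le_prod Q _ _ fun a _ => (hp₁ _ k1.1 a).le

lemma params {n κ : ℕ} {a : ℝ} (hA : Adm2 n κ a) :
    ∃ (a' η : ℝ) (m : ℕ), Adm2 n κ a' ∧ 0 < η ∧ a' < η * m ∧ η * (m + n : ℕ) ≤ a := by
  choose E h1 h2 using hA.2
  have : ∀ᶠ b : ℝ in nhds a, ∀ j : Icc 1 n,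
      1 < b ^ j.1 * (E j (mem_Icc.1 j.2).1 (mem_Icc.1 j.2).2 + 1 : ℕ) :=
    eventually_all.2 fun j => ContinuousAt.eventually_lt continuousAt_const (by fun_prop) (h2 _ _ _)
  obtain ⟨b, h3, h4, h5⟩ := (((this.and (lt_mem_nhds hA.1)).filter_mono
    (nhdsWithin_le_nhds (s := Set.Iio a))).and self_mem_nhdsWithin).exists.imp fun _ => and_assoc.1
  obtain ⟨m, hm⟩ := exists_nat_gt (b * n / (a - b))
  have h6 : 0 < a - b := sub_pos.2 h5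
  have h7 : (0 : ℝ) < m := lt_of_le_of_lt (by positivity) hm
  have h8 : (0 : ℝ) < (m + n : ℕ) := by push_cast; positivity
  refine ⟨b, a / (m + n : ℕ), m, ⟨h4, fun j k1 k2 => ⟨_, h1 j k1 k2, h3 ⟨j, mem_Icc.2 ⟨k1, k2⟩⟩⟩⟩,
    div_pos hA.1 h8, ?_, (div_mul_cancel₀ _ h8.ne').le⟩
  rw [div_lt_iff₀ h6] at hm
  rw [div_mul_eq_mul_div, lt_div_iff₀ h8]
  push_cast
  linarith

variable {σ : Type} [Fintype σ] [DecidableEq σ] {κ : ℕ} {ε : σ → ℤ} {β : ℝ}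

/-- The sets of solutions which satisfy the bound. -/
def Sm (κ : ℕ) (ε : σ → ℤ) (β : ℝ) (T : Set (ℕ × ℤ × (σ → ℤ))) : Prop :=
  ∃ C : ℝ, ∀ (P : ℕ) (N : ℤ) (S : Finset (σ → ℤ)), 1 ≤ P → S ⊆ nd κ ε P N →
    (∀ x ∈ S, (P, N, x) ∈ T) → (#S : ℝ) ≤ C * (P : ℝ) ^ β

lemma ex_ultra (hβ : 0 ≤ β) (h : ¬ Sm κ ε β Set.univ) : ∃ U : Ultrafilter (ℕ × ℤ × (σ → ℤ)),
    (∀ᶠ ω : ℕ × ℤ × (σ → ℤ) in U, 1 ≤ ω.1 ∧ ω.2.2 ∈ nd κ ε ω.1 ω.2.1) ∧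
      Tendsto (fun ω : ℕ × ℤ × (σ → ℤ) => (ω.1 : ℝ)) U atTop ∧ ∀ T ∈ U, ¬ Sm κ ε β T := by
  classical
  let F := comk (Sm κ ε β) ⟨0, fun P N S _ _ h => by simp [eq_empty_of_forall_notMem h]⟩
    (fun T ⟨C, h⟩ T' hT => ⟨C, fun P N S hP h1 h2 => h P N S hP h1 fun x hx => hT (h2 x hx)⟩)
    fun T ⟨C, h⟩ T' ⟨C', h'⟩ => ⟨C + C', fun P N S hP h1 h2 => by
      rw [add_mul, ← card_filter_add_card_filter_not (s := S) fun x => (P, N, x) ∈ T, Nat.cast_add]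
      exact add_le_add (h P N _ hP ((filter_subset _ _).trans h1) fun x hx => (mem_filter.1 hx).2)
        (h' P N _ hP ((filter_subset _ _).trans h1) fun x hx =>
          (h2 x (mem_filter.1 hx).1).resolve_left (mem_filter.1 hx).2)⟩
  have : F.NeBot := ⟨fun h0 => h (by simpa using mem_comk.1 (empty_mem_iff_bot.2 h0))⟩
  have h1 : ∀ T ∈ Ultrafilter.of F, ¬ Sm κ ε β T := fun T hT h =>
    Ultrafilter.compl_notMem_iff.2 hT (Ultrafilter.of_le F (compl_mem_comk.2 h))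
  refine ⟨.of F, Ultrafilter.compl_notMem_iff.1 fun h => h1 _ h ⟨0, fun P N S hP h2 h3 => ?_⟩,
    tendsto_atTop.2 fun H => Ultrafilter.compl_notMem_iff.1 fun h => h1 _ h
      ⟨|H| ^ Fintype.card σ, fun P N S hP h2 h3 => ?_⟩, h1⟩
  · simp [eq_empty_of_forall_notMem fun x hx => h3 x hx ⟨hP, h2 hx⟩]
  · refine le_trans ?_ (le_mul_of_one_le_right (by positivity)
      (Real.one_le_rpow (by exact_mod_cast hP) hβ))
    by_cases h4 : H ≤ P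
    · simp [eq_empty_of_forall_notMem fun x hx => h3 x hx h4]
    · have h5 : #(nd κ ε P N) ≤ P ^ Fintype.card σ := (card_filter_le _ _).trans (by simp)
      exact le_trans (by exact_mod_cast (card_le_card h2).trans h5)
        (pow_le_pow_left₀ P.cast_nonneg ((not_le.1 h4).le.trans (le_abs_self H)) _)

/-- The case of dimension zero. -/
lemma sm_of_bv (hκ : 0 < κ) {η a : ℝ} (hη : 0 < η) {p : ℕ → ℕ → ℕ} {Q : Finset ℕ} (j₀ : σ)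
    (h0 : ε j₀ ≠ 0) (hQ : η * #Q ≤ a)
    (hp : ∀ n, 0 < n → ∀ a, (p n a).Prime ∧ n < p n a ∧ p n a ≤ 2 ^ (a + 1) * n) {D : ℕ}
    {F : ℕ × ℤ × (ℕ → σ → ℤ) → Finset (σ → ℤ)} (hF : ∀ γ, #(F γ) ≤ D) :
    Sm κ ε ((Fintype.card σ - 1 : ℕ) * a) {ω | (|ε j₀| : ℝ) ≤ (ω.1 : ℝ) ^ η ∧
      ω.2.2 ∈ F (ω.1, ω.2.1, rsd (p (⌊(ω.1 : ℝ) ^ η⌋₊ + 1)) Q ω.2.2)} := by
  classical
  generalize hν : Fintype.card σ - 1 = ν
  refine ⟨D * ∏ a ∈ Q, (κ * (2 ^ (a + 2)) ^ ν : ℝ), fun P N S hP hS hS' => ?_⟩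
  rcases S.eq_empty_or_nonempty with rfl | ⟨x, hx⟩
  · simp only [card_empty, Nat.cast_zero]
    positivity
  have h1 : (|ε j₀| : ℝ) ≤ (P : ℝ) ^ η := (hS' x hx).1
  have h2 : (1 : ℝ) ≤ P := by exact_mod_cast hP
  have h3 : (1 : ℝ) ≤ (P : ℝ) ^ η := Real.one_le_rpow h2 hη.le
  have k1 := Nat.lt_floor_add_one ((P : ℝ) ^ η)
  have k2 := Nat.floor_le (zero_le_one.trans h3)
  have h4 := hp _ ⌊(P : ℝ) ^ η⌋₊.succ_pos
  obtain ⟨T, h5, h6⟩ := cls σ κ ε N j₀ (p (⌊(P : ℝ) ^ η⌋₊ + 1)) Q S hκ (fun a _ =>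
    ⟨(h4 a).1, fun h => by
      have k3 : (p (⌊(P : ℝ) ^ η⌋₊ + 1) a : ℝ) ≤ |(ε j₀ : ℝ)| := by
        exact_mod_cast Int.le_of_dvd (abs_pos.2 h0) ((dvd_abs _ _).2 h)
      have k4 : (⌊(P : ℝ) ^ η⌋₊ + 1 : ℝ) < p (⌊(P : ℝ) ^ η⌋₊ + 1) a := by exact_mod_cast (h4 a).2.1
      linarith⟩) fun x hx => (mem_nd.1 (hS hx)).2.1
  rw [hν] at h5
  calc _ ≤ (#(T.biUnion fun γ => F (P, N, γ)) : ℝ) := Nat.cast_le.2 (card_le_card fun x hx =>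
        mem_biUnion.2 ⟨_, h6 x hx, (hS' x hx).2⟩)
    _ ≤ D * ∏ a ∈ Q, (κ * (p (⌊(P : ℝ) ^ η⌋₊ + 1) a : ℝ) ^ ν) := by
      exact_mod_cast (card_biUnion_le_card_mul _ _ _ fun _ _ => hF _).trans
        ((mul_comm _ _).trans_le (Nat.mul_le_mul_left _ h5))
    _ ≤ D * ∏ a ∈ Q, (κ * (2 ^ (a + 2) * (P : ℝ) ^ η) ^ ν) := by
      gcongr with a
      have k3 : (p (⌊(P : ℝ) ^ η⌋₊ + 1) a : ℝ) ≤ 2 ^ (a + 1) * (⌊(P : ℝ) ^ η⌋₊ + 1) := by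
        exact_mod_cast (h4 a).2.2
      rw [pow_succ _ (a + 1), mul_assoc]
      exact k3.trans (by gcongr; linarith)
    _ = D * (∏ a ∈ Q, (κ * (2 ^ (a + 2)) ^ ν : ℝ)) * (P : ℝ) ^ (ν * (η * #Q)) := by
      simp only [mul_pow, ← mul_assoc (κ : ℝ)]
      rw [prod_mul_distrib, prod_const, ← pow_mul, ← Real.rpow_mul_natCast P.cast_nonneg, mul_assoc]
      congr 3
      push_cast
      ring
    _ ≤ _ := by gcongr

theorem nd2 (tr : TrStmt) (ld : LdStmt) (dg : Deg2Stmt) : Nd2Stmt := by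
  intro σ _ _ _ κ ε a hκ hA
  rw [← Nat.cast_pred Fintype.card_pos]
  by_contra hn
  obtain ⟨U, h1, h2, h3⟩ := ex_ultra (κ := κ) (ε := ε) (mul_nonneg (Nat.cast_nonneg _) hA.1.le)
    fun ⟨C, h⟩ => hn ⟨C, fun P N hP => h P N _ hP subset_rfl fun _ _ => trivial⟩
  obtain ⟨b, η, m, ⟨hb, hA⟩, hη, h4, h5⟩ := params hA
  obtain ⟨p, hp⟩ := pr
  let cl : Finset ℕ → ℕ × ℤ × (σ → ℤ) → ℕ × ℤ × (ℕ → σ → ℤ) := fun Q ω =>
    (ω.1, ω.2.1, rsd (p (⌊(ω.1 : ℝ) ^ η⌋₊ + 1)) Q ω.2.2)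
  let y : σ → GK U := fun j => gz U (·.2.2 j)
  choose d hd₁ hd using fun Q => (tr (GK U) σ y).1 (LL U (cl Q))
  have hm : ∀ Q Q', Q ⊆ Q' → LL U (cl Q) ≤ LL U (cl Q') := fun Q Q' h =>
    LL_mono (fun γ => (γ.1, γ.2.1, fun a j => if a ∈ Q then γ.2.2 a j else 0)) fun ω => by
      simp only [cl, Prod.mk.injEq, true_and]
      funext a j
      by_cases ha : a ∈ Q <;> simp [rsd, ha, @h a]
  obtain ⟨Q₀, h6, h7, hw⟩ := walk d _ m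
    (fun Q Q' h => (tr (GK U) σ y).2 _ _ _ _ (hm Q Q' h) (hd Q) (hd Q')) hd₁
  have h8 := (tendsto_rpow_atTop hη).comp h2
  rcases (d Q₀).eq_zero_or_pos with h0 | h0
  · obtain ⟨j₀⟩ := ‹Nonempty σ›
    obtain ⟨ω, h9⟩ := h1.exists
    obtain ⟨D, F, h10, h11⟩ := (BV.pi (f := fun (ω : ℕ × ℤ × (σ → ℤ)) j => (ω.2.2 j : ℚ))
      fun j => mem_LL.1 (LL_closed (cl := cl Q₀) (y j) (not_not.1 fun h => (h0 ▸ hd Q₀).2 (fun _ => y j)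
        (fun _ => Subring.subset_closure ⟨j, rfl⟩)
        ((algebraicIndependent_unique_type_iff (ι := Fin 1)).2 h)))).comp fun _ v j => (v j).num
    refine h3 _ ((h8.eventually_ge_atTop _).and (by simpa using h11)) (sm_of_bv hκ hη j₀
      (fun h => ?_) (le_trans ?_ h5) (fun n hn => (hp n hn).1) h10)
    · simpa [h] using (mem_nd.1 h9.2).2.2 {j₀} (singleton_nonempty _)
    · exact mul_le_mul_of_nonneg_left (Nat.cast_le.2 h7) hη.le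
  obtain ⟨r, hr⟩ := Nat.exists_eq_succ_of_ne_zero h0.ne'
  obtain ⟨E, h9, h10⟩ := hA (r + 1) r.succ_pos (hr ▸ hd₁ Q₀ :)
  obtain ⟨t₀, h11⟩ := (hr ▸ hd Q₀).1
  have h12 : ∀ T : Finset σ, ∑ j ∈ T, (ε j : LL U (cl Q₀)) • y j ^ κ =
      gz U fun ω => ∑ j ∈ T, ε j * ω.2.2 j ^ κ := fun T => by
    simp only [Int.cast_smul_eq_zsmul, y, ← map_pow, ← map_zsmul, ← map_sum]
    congr 1
    funext ω
    simp
  obtain ⟨L, j, h13⟩ := dg (LL U (cl Q₀)) (GK U) σ y (fun j => ε j)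
    ⟨gz U (·.2.1), mem_LL.2 (bv_cl (cl := cl Q₀) fun γ => (γ.2.1 : ℚ))⟩ κ r E t₀
    ((h12 _).trans (gk_eq.2 (h1.mono fun ω h => congrArg _ (mem_nd.1 h.2).2.1)))
    (fun T hT => (h12 T).trans_ne (gk_ne_zero.2 (h1.mono fun ω h =>
      Int.cast_ne_zero.2 ((mem_nd.1 h.2).2.2 T hT)))) h11 h9
  have h14 : ∀ a, ∑ i, (L a i : GK U) * y i = gz U fun ω => ∑ i, L a i * ω.2.2 i := fun a => by
    simp only [y, ← map_intCast (gk U), ← map_mul, ← map_sum]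
    congr 1
    funext ω
    simp
  obtain ⟨Λ, h15, h16⟩ : ∃ Λ : ℝ, 1 ≤ Λ ∧ ∀ a, ∑ i, (|L a i| : ℝ) ≤ Λ :=
    ⟨1 + ∑ a, ∑ i, |(L a i : ℝ)|, le_add_of_nonneg_right (by positivity), fun a => le_add_of_nonneg_of_le
      zero_le_one (single_le_sum (f := fun a => ∑ i, (|L a i| : ℝ)) (fun _ _ => by positivity)
        (mem_univ a))⟩
  have h17 : 0 < Λ := zero_lt_one.trans_le h15
  refine core ld (U := U) (n := fun ω => ⌊(ω.1 : ℝ) ^ η⌋₊ + 1)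
    (t := fun ω a => ∑ i, L a i * ω.2.2 i) (z := (·.2.2 j)) (H := fun ω => Λ * ω.1) r.succ_pos hb h10 (h2.const_mul_atTop h17)
    (h1.mono fun ω h => ?_) (fun Q => bv_cl (cl := cl Q) fun γ => Λ * γ.1) hm hd hr hw
    (fun a => h14 a ▸ sum_mem fun i _ => mul_mem (intCast_mem _ _)
      (Subring.subset_closure ⟨i, rfl⟩)) (Subring.subset_closure ⟨j, rfl⟩)
    (by simpa only [h14] using h13) ?_ (fun n hn a => ((hp n hn).1 a).2.1)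
    (fun n hn => (hp n hn).2.2.1) (fun n hn => (hp n hn).2.2.2.1) fun Q ω ω' h => ?_
  · have k1 : ∀ i, (|ω.2.2 i| : ℝ) ≤ ω.1 := fun i => by
      obtain ⟨k1, k2⟩ := (mem_nd.1 h.2).1 i
      exact_mod_cast abs_le.2 ⟨by omega, k2⟩
    refine ⟨fun a => ?_, (k1 j).trans (le_mul_of_one_le_left (Nat.cast_nonneg _) h15)⟩
    push_cast
    refine (abs_sum_le_sum_abs _ _).trans (le_trans ?_
      (mul_le_mul_of_nonneg_right (h16 a) (Nat.cast_nonneg _)))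
    rw [sum_mul]
    exact sum_le_sum fun i _ => (abs_mul _ _).trans_le
      (mul_le_mul_of_nonneg_left (k1 i) (abs_nonneg _))
  · filter_upwards [h2.eventually_ge_atTop 1,
      ((tendsto_rpow_atTop (sub_pos.2 h4)).comp h2).eventually_ge_atTop (Λ ^ b)] with ω k1 k2
    have k3 : (0 : ℝ) < ω.1 := zero_lt_one.trans_le k1
    refine ⟨Nat.succ_pos _, ?_⟩
    calc (Λ * ω.1) ^ b ≤ (ω.1 : ℝ) ^ (η * m - b) * (ω.1 : ℝ) ^ b := by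
          rw [Real.mul_rpow h17.le k3.le]
          exact mul_le_mul_of_nonneg_right k2 (by positivity)
      _ ≤ (ω.1 : ℝ) ^ (η * #Q₀) := by
          rw [← Real.rpow_add k3, sub_add_cancel]
          gcongr
      _ ≤ _ := by
          rw [Real.rpow_mul_natCast k3.le]
          exact pow_le_pow_left₀ (by positivity) (by simpa using (Nat.lt_floor_add_one _).le) _
  · obtain ⟨k1, -, k2⟩ : ω'.1 = ω.1 ∧ ω'.2.1 = ω.2.1 ∧ rsd (p (⌊(ω'.1 : ℝ) ^ η⌋₊ + 1)) Q ω'.2.2 =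
      rsd (p (⌊(ω.1 : ℝ) ^ η⌋₊ + 1)) Q ω.2.2 := by simpa only [cl, Prod.mk.injEq] using h
    have k3 := fun i => (hp _ ⌊(ω.1 : ℝ) ^ η⌋₊.succ_pos).2.2.2.2 Q (ω'.2.2 i) (ω.2.2 i) fun a ha =>
      by simpa only [rsd, if_pos ha, k1] using congrFun (congrFun k2 a) i
    exact ⟨by rw [k1], fun a => Int.ModEq.sum fun i _ => (k3 i).mul_left _, k3 j⟩

end Pool.Agent.MP_4060c9_nt.H98
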