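import Pool.Agent.MP_4060c9_nt.H98.Core2
import Pool.Agent.MP_4060c9_nt.H98.Cls
import Pool.Agent.MP_4060c9_nt.H98.Deg

/-!
The bound for the primitive solutions, by the staged projective determinant method.
-/

set_option autoImplicit false

namespace Pool.Agent.MP_4060c9_nt.H98

open Filter Finset

/-- The determinant step. -/
lemma core3 (hdet : Det2Stmt) {Ω Γ σ : Type} {U : Ultrafilter Ω} {y : σ → GK U}
    {cl : Finset ℕ → Ω → Γ} {d : Finset ℕ → ℕ} {Q₀ : Finset ℕ} {r e s : ℕ} {a : ℝ}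
    {p : ℕ → ℕ → ℕ} {n : Ω → ℕ} {x z x₀ : Ω → ℤ} {t : Ω → Fin r → ℤ} {H : Ω → ℝ} (hr : 0 < r)
    (ha : 0 < a) (he : 1 < (a * r / (r + 1)) ^ r * e) (hH : Tendsto H U atTop)
    (hb : ∀ᶠ ω in U, Sz (x ω) (t ω) (z ω) (H ω)) (hHb : ∀ Q, BV U (cl Q) H)
    (hm : ∀ Q Q', Q ⊆ Q' → LL U (cl Q) ≤ LL U (cl Q')) (hd : ∀ Q, Tr (LL U (cl Q)) y (d Q))
    (hd₀ : d Q₀ = r) (hw : ∀ Φ : Finset ℕ → Prop,
      (∀ Q Q', Q ⊆ Q' → d Q = d Q₀ → d Q' = d Q₀ → (Φ Q ↔ Φ Q')) → Φ Q₀ →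
      ∀ B : Finset ℕ, ∃ Q, #Q = #Q₀ ∧ Disjoint Q B ∧ Φ Q)
    (hT : ∀ i, gq U (t · i) x ∈ Subfield.closure (Set.range y))
    (hZ : gq U z x ∈ Subfield.closure (Set.range y))
    (hL : LI (LL U (cl Q₀)) (fun i => gq U (t · i) x) (gq U z x) e)
    (hn : ∀ᶠ ω in U, H ω ^ a ≤ n ω ^ #Q₀) (hs : ∀ᶠ ω in U, 0 < n ω ∧ H ω ≤ n ω ^ s)
    (hx₀ : ∀ᶠ ω in U, x₀ ω ≠ 0 ∧ (|x₀ ω| : ℝ) < H ω) (hp₁ : ∀ n, 0 < n → ∀ a, n < p n a)
    (hp₂ : ∀ n, 0 < n → ∀ (Q : Finset ℕ) (g : ℤ), g ≠ 0 → (∀ a ∈ Q, (p n a : ℤ) ∣ g) →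
      (n : ℤ) ^ #Q ≤ |g|)
    (hp₃ : ∀ n, 0 < n → ∀ (Q : Finset ℕ) (g : ℤ), (∀ a ∈ Q, ¬ (p n a : ℤ) ∣ g) →
      IsCoprime g (∏ a ∈ Q, p n a : ℕ))
    (hc : ∀ Q ω ω', (∀ a ∈ Q, ¬ (p (n ω) a : ℤ) ∣ x₀ ω) → (∀ a ∈ Q, ¬ (p (n ω') a : ℤ) ∣ x₀ ω') →
      cl Q ω' = cl Q ω → H ω' = H ω ∧ n ω' = n ω ∧
      (∀ i, t ω' i * x ω ≡ t ω i * x ω' [ZMOD (∏ a ∈ Q, p (n ω) a : ℕ)]) ∧
      z ω' * x ω ≡ z ω * x ω' [ZMOD (∏ a ∈ Q, p (n ω) a : ℕ)]) : False := by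
  obtain ⟨M, m₀, c, D, W, B, h4, h5, h7, hK, hM, h9, h10, hB⟩ := ex_rel2
    (Nat.pos_of_ne_zero (by rintro rfl; norm_num at he)) hH hb (hHb Q₀) hL
    ((hd₀ ▸ hd Q₀).not_LI hT hZ) hs hp₂
  obtain ⟨B₀, hB₀⟩ := bad_fin hp₂ (n := n) (g := x₀) (A := s) (by
    filter_upwards [hs, hx₀] with ω k1 k2
    exact ⟨k1.1, k2.1, by exact_mod_cast k2.2.trans_le k1.2⟩)
  obtain ⟨Q, h12, h13, h14⟩ := hw (fun Q => Kept (fun i => gq U (t · i) x) (gq U z x) e M m₀ c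
    (LL U (cl Q))) (fun Q Q' h k1 k2 => kept_iff2 (hm Q Q' h) LL_closed (k1 ▸ hd Q) (k2 ▸ hd Q')
      hT hZ h4 h5 h7) hK (B ∪ B₀)
  rw [disjoint_union_right] at h13
  refine not_LI2 (M := M) hdet hr ha he hH hb hM (h9 _ _ (hHb Q) h14.2.2)
    (q := fun ω => ∏ a ∈ Q, p (n ω) a) (G := fun ω => ∀ a ∈ Q, ¬ (p (n ω) a : ℤ) ∣ x₀ ω) ?_
    (fun ω ω' k1 k2 k3 => ?_) h14.1
  · filter_upwards [hn, hs, h10,
      (eventually_all_finset Q).2 fun a ha => hB a (disjoint_left.1 h13.1 ha),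
      (eventually_all_finset Q).2 fun a ha => hB₀ a (disjoint_left.1 h13.2 ha)] with ω k0 k1 k2 k3 k4
    have k5 := hp₃ _ k1.1 Q _ k3
    refine ⟨k4, k0.trans ?_, k5.of_mul_left_left, k5.of_mul_left_right, k2⟩
    exact_mod_cast h12 ▸ pow_card_le_prod Q _ _ fun a _ => (hp₁ _ k1.1 a).le
  · obtain ⟨k4, k5, k6⟩ := hc Q ω ω' k1 k2 k3
    exact ⟨k4, by rw [k5], k6⟩

lemma li_one {k K : Type} [Field k] [Field K] [Algebra k K] {r : ℕ} {T : Fin r → K}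
    (h : AlgebraicIndependent k T) (Z : K) : LI k T Z 1 := by
  have := (DegAux.mono_indep h).comp (fun m : {m : Ix r // m.2 < 1} => m.1.1)
    fun a b e => Subtype.ext (Prod.ext e (by have := a.2; have := b.2; omega))
  unfold LI
  convert this using 1
  funext m
  simp [mon, Nat.lt_one_iff.1 m.2]

variable {σ : Type} [Fintype σ] {κ : ℕ} {ε : σ → ℤ} {β : ℝ}

lemma dim_le {k K : Type} [Field k] [CharZero k] [Field K] [Algebra k K] {d : ℕ} {y : σ → K}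
    {j₀ : σ} {t : Fin d → σ} (h1 : y j₀ = 1) (hκ : 0 < κ) (h2 : ∑ i, (ε i : K) * y i ^ κ = 0)
    (h3 : ε j₀ ≠ 0) (ht : AlgebraicIndependent k fun a => y (t a)) : d + 2 ≤ Fintype.card σ := by
  have h4 : Function.Injective (fun o : Option (Fin d) => o.elim j₀ t) := by
    have h5 : ∀ a, t a ≠ j₀ := fun a h => ht.transcendental a (by rw [h, h1]; exact isAlgebraic_one)
    rintro (_ | a) (_ | b) h
    exacts [rfl, (h5 b h.symm).elim, (h5 a h).elim, congrArg some (ht.injective (congrArg y h))]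
  by_contra hn
  have h5 := Fintype.card_le_of_injective _ h4
  have h6 := (Fintype.bijective_iff_injective_and_card _).2 ⟨h4, by simp at h5 ⊢; omega⟩
  rw [← h6.sum_comp, Fintype.sum_option] at h2
  have h7 := algebraicIndependent_iff.1 ht
    (MvPolynomial.C (ε j₀ : k) + ∑ a, MvPolynomial.C (ε (t a) : k) * MvPolynomial.X a ^ κ)
    (by simpa [h1] using h2)
  simpa [hκ.ne', h3] using congrArg (MvPolynomial.eval 0) h7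

lemma mem_pm {P : ℕ} {x : σ → ℤ} : x ∈ pm κ ε P ↔ ((∀ j, 1 ≤ x j ∧ x j ≤ P) ∧
    ∑ j, ε j * x j ^ κ = 0 ∧ ∀ T : Finset σ, T.Nonempty → T ≠ univ → ∑ j ∈ T, ε j * x j ^ κ ≠ 0) ∧
    univ.gcd x = 1 := by
  simp [pm, ms]

lemma pm_inj {P : ℕ} {x x' : σ → ℤ} (j₀ : σ) (h : x ∈ pm κ ε P) (h' : x' ∈ pm κ ε P)
    (e : (fun i => (x i : ℚ) / x j₀) = fun i => (x' i : ℚ) / x' j₀) : x = x' := by
  rw [mem_pm] at h h'
  have h1 := (h.1.1 j₀).1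
  have h2 := (h'.1.1 j₀).1
  have h3 : ∀ i, x i * x' j₀ = x' i * x j₀ := fun i => by
    have := congrFun e i
    rw [div_eq_div_iff (by exact_mod_cast (by omega)) (by exact_mod_cast (by omega))] at this
    exact_mod_cast this
  have h4 := congrArg univ.gcd (funext h3)
  rw [Finset.gcd_mul_right, Finset.gcd_mul_right, h.2, h'.2, one_mul, one_mul, Int.normalize_of_nonneg (by omega),
    Int.normalize_of_nonneg (by omega)] at h4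
  exact funext fun i => mul_right_cancel₀ (by omega : x j₀ ≠ 0) (by rw [← h3 i, h4])

/-- The sets of solutions which satisfy the bound. -/
def Sm3 (κ : ℕ) (ε : σ → ℤ) (β : ℝ) (T : Set (ℕ × (σ → ℤ))) : Prop :=
  ∃ C : ℝ, ∀ (P : ℕ) (S : Finset (σ → ℤ)), 1 ≤ P → S ⊆ pm κ ε P →
    (∀ x ∈ S, (P, x) ∈ T) → (#S : ℝ) ≤ C * (P : ℝ) ^ β

lemma ex_ultra3 (hβ : 0 ≤ β) (h : ¬ Sm3 κ ε β Set.univ) : ∃ U : Ultrafilter (ℕ × (σ → ℤ)),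
    (∀ᶠ ω : ℕ × (σ → ℤ) in U, 1 ≤ ω.1 ∧ ω.2 ∈ pm κ ε ω.1) ∧
      Tendsto (fun ω : ℕ × (σ → ℤ) => (ω.1 : ℝ)) U atTop ∧ ∀ T ∈ U, ¬ Sm3 κ ε β T := by
  classical
  let F := comk (Sm3 κ ε β) ⟨0, fun P S _ _ h => by simp [eq_empty_of_forall_notMem h]⟩
    (fun T ⟨C, h⟩ T' hT => ⟨C, fun P S hP h1 h2 => h P S hP h1 fun x hx => hT (h2 x hx)⟩)
    fun T ⟨C, h⟩ T' ⟨C', h'⟩ => ⟨C + C', fun P S hP h1 h2 => by
      rw [add_mul, ← card_filter_add_card_filter_not (s := S) fun x => (P, x) ∈ T, Nat.cast_add]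
      exact add_le_add (h P _ hP ((filter_subset _ _).trans h1) fun x hx => (mem_filter.1 hx).2)
        (h' P _ hP ((filter_subset _ _).trans h1) fun x hx =>
          (h2 x (mem_filter.1 hx).1).resolve_left (mem_filter.1 hx).2)⟩
  have : F.NeBot := ⟨fun h0 => h (by simpa using mem_comk.1 (empty_mem_iff_bot.2 h0))⟩
  have h1 : ∀ T ∈ Ultrafilter.of F, ¬ Sm3 κ ε β T := fun T hT h =>
    Ultrafilter.compl_notMem_iff.2 hT (Ultrafilter.of_le F (compl_mem_comk.2 h))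
  refine ⟨.of F, Ultrafilter.compl_notMem_iff.1 fun h => h1 _ h ⟨0, fun P S hP h2 h3 => ?_⟩,
    tendsto_atTop.2 fun H => Ultrafilter.compl_notMem_iff.1 fun h => h1 _ h
      ⟨|H| ^ Fintype.card σ, fun P S hP h2 h3 => ?_⟩, h1⟩
  · simp [eq_empty_of_forall_notMem fun x hx => h3 x hx ⟨hP, h2 hx⟩]
  · refine le_trans ?_ (le_mul_of_one_le_right (by positivity)
      (Real.one_le_rpow (by exact_mod_cast hP) hβ))
    by_cases h4 : H ≤ P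
    · simp [eq_empty_of_forall_notMem fun x hx => h3 x hx h4]
    · have h5 : #(pm κ ε P) ≤ P ^ Fintype.card σ :=
        (card_filter_le _ _).trans ((card_filter_le _ _).trans (by simp))
      exact le_trans (by exact_mod_cast (card_le_card h2).trans h5)
        (pow_le_pow_left₀ P.cast_nonneg ((not_le.1 h4).le.trans (le_abs_self H)) _)

/-- The classes. -/
noncomputable def cl3 (p : ℕ → ℕ → ℕ) (η : ℝ) (j₀ : σ) (Q : Finset ℕ) (ω : ℕ × (σ → ℤ)) :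
    ℕ × (ℕ → σ → ℕ) :=
  (ω.1, fun a => if a ∈ Q then rt (p (⌊(ω.1 : ℝ) ^ η⌋₊ + 1) a) j₀ ω.2 else 0)

/-- The number of classes. -/
def NC (U : Ultrafilter (ℕ × (σ → ℤ))) (cl : ℕ × (σ → ℤ) → ℕ × (ℕ → σ → ℕ)) (β : ℝ) : Prop :=
  ∃ (C : ℝ) (T : ℕ → Finset (ℕ → σ → ℕ)), (∀ P : ℕ, 1 ≤ P → (#(T P) : ℝ) ≤ C * (P : ℝ) ^ β) ∧
    ∀ᶠ ω in U, (cl ω).2 ∈ T ω.1

variable {U : Ultrafilter (ℕ × (σ → ℤ))} {p : ℕ → ℕ → ℕ} {η : ℝ} {j₀ : σ} {Q : Finset ℕ}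

omit [Fintype σ] in
lemma ev_pow {Λ : ℝ} (hη : 0 < η) (h2 : Tendsto (fun ω : ℕ × (σ → ℤ) => (ω.1 : ℝ)) U atTop) :
    ∀ᶠ ω : ℕ × (σ → ℤ) in U, 0 < ⌊(ω.1 : ℝ) ^ η⌋₊ + 1 ∧
      Λ * ω.1 ≤ ((⌊(ω.1 : ℝ) ^ η⌋₊ + 1 : ℕ) : ℝ) ^ ⌈2 / η⌉₊ := by
  filter_upwards [h2.eventually_ge_atTop 1, h2.eventually_ge_atTop Λ] with ω k1 k2
  have k3 : (0 : ℝ) < ω.1 := zero_lt_one.trans_le k1
  refine ⟨Nat.succ_pos _, ?_⟩
  calc Λ * ω.1 ≤ (ω.1 : ℝ) ^ (2 : ℝ) := by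
        rw [Real.rpow_two, sq]
        gcongr
    _ ≤ (ω.1 : ℝ) ^ (η * ⌈2 / η⌉₊) :=
        Real.rpow_le_rpow_of_exponent_le k1 ((div_le_iff₀' hη).1 (Nat.le_ceil _))
    _ ≤ _ := by
        rw [Real.rpow_mul_natCast k3.le]
        exact pow_le_pow_left₀ (by positivity) (by simpa using (Nat.lt_floor_add_one _).le) _

/-- The counting step. -/
lemma nc_step (cnt : CntStmt) (hη : 0 < η) {d : ℕ}
    (h1 : ∀ᶠ ω : ℕ × (σ → ℤ) in U, 1 ≤ ω.1 ∧ ω.2 ∈ pm κ ε ω.1)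
    (h2 : Tendsto (fun ω : ℕ × (σ → ℤ) => (ω.1 : ℝ)) U atTop)
    (hp : ∀ n, 0 < n → ∀ a, (p n a).Prime ∧ n < p n a ∧ p n a ≤ 2 ^ (a + 1) * n)
    (hp₂ : ∀ n, 0 < n → ∀ (Q : Finset ℕ) (g : ℤ), g ≠ 0 → (∀ a ∈ Q, (p n a : ℤ) ∣ g) →
      (n : ℤ) ^ #Q ≤ |g|)
    (hd : Tr (LL U (cl3 p η j₀ Q)) (fun i => gq U (·.2 i) (·.2 j₀)) d)
    (h : NC U (cl3 p η j₀ Q) β) :
    ∃ B : Finset ℕ, ∀ a ∉ B, NC U (cl3 p η j₀ (insert a Q)) (β + η * d) := by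
  classical
  obtain ⟨t, ht⟩ := hd.1
  have hH : BV U (cl3 p η j₀ Q) fun ω => (ω.1 : ℝ) := bv_cl (cl := cl3 p η j₀ Q) fun γ => (γ.1 : ℝ)
  choose M m₀ c D W B _ _ _ hK hM h9 h10 hB using fun i => ex_rel2 (cl := cl3 p η j₀ Q)
    (x := (·.2 j₀)) (t := fun ω a => ω.2 (t a)) (z := (·.2 i)) (p := p)
    (n := fun ω => ⌊(ω.1 : ℝ) ^ η⌋₊ + 1) one_pos h2 (h1.mono fun ω h => by
      have k1 : ∀ i, (|ω.2 i| : ℝ) ≤ ω.1 := fun i => by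
        obtain ⟨k1, k2⟩ := (mem_pm.1 h.2).1.1 i
        exact_mod_cast abs_le.2 ⟨by omega, k2⟩
      exact ⟨by have := ((mem_pm.1 h.2).1.1 j₀).1; omega, k1 _, fun _ => k1 _, k1 _⟩) hH
    (li_one ht _) (hd.not_LI (fun a => Subfield.subset_closure ⟨t a, rfl⟩)
      (Subfield.subset_closure ⟨i, rfl⟩)) (by simpa using ev_pow (Λ := 1) hη h2) hp₂
  obtain ⟨D₀, F, h3, h4⟩ := BV.pi (f := fun ω i => W i ω) fun i => h9 i _ _ hH (hK i).2.2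
  obtain ⟨C, T, h5, h6⟩ := h
  refine ⟨univ.biUnion B, fun a ha => ?_⟩
  choose R h7 h8 using fun (P : ℕ) (w : σ → Ix d → ℤ) => cnt.1 σ d _ j₀ t M w D
    (hp _ ⌊(P : ℝ) ^ η⌋₊.succ_pos a).1 hM
  refine ⟨C * (D₀ * ((∏ i, D i : ℕ) * (2 ^ (a + 2)) ^ d)), fun P => (T P).biUnion fun γ =>
    (F (P, γ)).biUnion fun w => (R P w).image (Function.update γ a), fun P hP => ?_, ?_⟩
  · have k1 : (1 : ℝ) ≤ P := by exact_mod_cast hP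
    have k2 : (1 : ℝ) ≤ (P : ℝ) ^ η := Real.one_le_rpow k1 hη.le
    have k3 := Nat.floor_le (zero_le_one.trans k2)
    have k4 : (p (⌊(P : ℝ) ^ η⌋₊ + 1) a : ℝ) ≤ 2 ^ (a + 2) * (P : ℝ) ^ η := by
      have k5 : (p (⌊(P : ℝ) ^ η⌋₊ + 1) a : ℝ) ≤ 2 ^ (a + 1) * (⌊(P : ℝ) ^ η⌋₊ + 1) := by
        exact_mod_cast (hp _ ⌊(P : ℝ) ^ η⌋₊.succ_pos a).2.2
      rw [pow_succ _ (a + 1), mul_assoc]
      exact k5.trans (by gcongr; linarith)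
    calc _ ≤ (#(T P) : ℝ) * (D₀ * ((∏ i, D i : ℕ) * (p (⌊(P : ℝ) ^ η⌋₊ + 1) a : ℝ) ^ d)) := by
          exact_mod_cast card_biUnion_le_card_mul _ _ _ fun γ _ =>
            (card_biUnion_le_card_mul _ _ _ fun w _ => card_image_le.trans (h7 P w)).trans
              (Nat.mul_le_mul_right _ (h3 _))
      _ ≤ C * (P : ℝ) ^ β * (D₀ * ((∏ i, D i : ℕ) * (2 ^ (a + 2) * (P : ℝ) ^ η) ^ d)) :=
          mul_le_mul (h5 P hP) (by gcongr) (by positivity) ((Nat.cast_nonneg _).trans (h5 P hP))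
      _ = _ := by
          rw [Real.rpow_add (zero_lt_one.trans_le k1), Real.rpow_mul_natCast P.cast_nonneg, mul_pow]
          ring
  · filter_upwards [h4, h6, eventually_all.2 h10,
      eventually_all.2 fun i => hB i a fun h => ha (mem_biUnion.2 ⟨i, mem_univ _, h⟩)]
      with ω k1 k2 k3 k4
    refine mem_biUnion.2 ⟨_, k2, mem_biUnion.2 ⟨_, k1, mem_image.2 ⟨_, h8 _ _ ω.2
      (fun h => k4 j₀ (h.mul_right _)) fun i => ⟨k3 i, fun h => k4 i (h.mul_left _)⟩, ?_⟩⟩⟩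
    funext b
    by_cases hb : b = a <;> simp [cl3, hb]

/-- The case of dimension zero. -/
lemma sm_of_nc {cl : ℕ × (σ → ℤ) → ℕ × (ℕ → σ → ℕ)} {β' : ℝ} (hβ : β' ≤ β) (j₀ : σ)
    (hc : ∀ ω, (cl ω).1 = ω.1) (h : NC U cl β')
    (hb : BV U cl fun ω i => (ω.2 i : ℚ) / ω.2 j₀) : ∃ T ∈ U, Sm3 κ ε β T := by
  classical
  obtain ⟨C, T, h1, h2⟩ := h
  obtain ⟨D, F, h3, h4⟩ := hb
  refine ⟨_, h2.and h4, C * D, fun P S hP hS hS' => ?_⟩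
  have k1 : (1 : ℝ) ≤ P := by exact_mod_cast hP
  have k2 : 0 ≤ C := by simpa using (Nat.cast_nonneg _).trans (h1 1 le_rfl)
  calc (#S : ℝ) ≤ #((T P).biUnion fun γ => F (P, γ)) := Nat.cast_le.2 (card_le_card_of_injOn
        (fun x i => (x i : ℚ) / x j₀) (fun x hx => mem_coe.2 (mem_biUnion.2 ⟨_, (hS' x hx).1, by
          have := (hS' x hx).2
          rwa [← Prod.mk.eta (p := cl _), hc] at this⟩)) fun x hx x' hx' => pm_inj j₀ (hS hx) (hS hx'))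
    _ ≤ #(T P) * D := by exact_mod_cast card_biUnion_le_card_mul _ _ _ fun _ _ => h3 _
    _ ≤ C * (P : ℝ) ^ β * D := mul_le_mul_of_nonneg_right ((h1 P hP).trans (by gcongr)) D.cast_nonneg
    _ = _ := by ring

lemma ex_A {m d : ℕ} (hA : Adm3 m κ β) (hd : 0 < d → d + 2 ≤ m) : ∃ (A : ℕ → ℝ) (η : ℝ), 0 < η ∧
    (∀ j, 0 < A j) ∧ (∀ i j, 0 < i → i ≤ j → j ≤ d → A j ≤ A i) ∧
    ∑ j ∈ Icc 1 d, A j + η * (d * (d + 1) : ℕ) ≤ β ∧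
    ∀ j, 0 < j → j ≤ d → ∃ E, Good m κ d j E ∧ 1 < (A j * j / (j + 1)) ^ j * (E + 1 : ℕ) := by
  rcases d.eq_zero_or_pos with rfl | h0
  · exact ⟨fun _ => 1, 1, one_pos, fun _ => one_pos, fun _ _ _ _ _ => le_rfl, by simpa using hA.1.le,
      fun j h1 h2 => by omega⟩
  obtain ⟨A, h1, h2, h3, h4⟩ := hA.2 d h0 (hd h0)
  have h5 : (0 : ℝ) < (d * (d + 1) : ℕ) := by positivity
  exact ⟨A, _, div_pos (sub_pos.2 h3) h5, h1, h2, by rw [div_mul_cancel₀ _ h5.ne']; simp, h4⟩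

theorem nd3 (hdet : Det2Stmt) (walk : Walk2Stmt) (cnt : CntStmt) (dg : Deg3Stmt) : Nd3Stmt := by
  intro σ _ κ ε β hκ hσ hA
  classical
  by_contra hn
  obtain ⟨U, h1, h2, h3⟩ := ex_ultra3 (κ := κ) (ε := ε) hA.1.le
    fun ⟨C, h⟩ => hn ⟨C, fun P hP => h P _ hP subset_rfl fun _ _ => trivial⟩
  obtain ⟨p, hp⟩ := pr
  obtain ⟨j₀⟩ : Nonempty σ := Fintype.card_pos_iff.1 (by omega)
  let y : σ → GK U := fun j => gq U (·.2 j) (·.2 j₀)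
  have hx : ∀ᶠ ω : ℕ × (σ → ℤ) in U, (ω.2 j₀ : ℚ) ≠ 0 := h1.mono fun ω h => by
    have := ((mem_pm.1 h.2).1.1 j₀).1
    exact_mod_cast (by omega)
  have hy : y j₀ = 1 := (gk_eq.2 (hx.mono fun ω h => div_self h)).trans (map_one _)
  have h12 : ∀ T : Finset σ, ∑ j ∈ T, (ε j : GK U) * y j ^ κ =
      gk U fun ω => (∑ j ∈ T, ε j * ω.2 j ^ κ : ℤ) / ω.2 j₀ ^ κ := fun T => by
    simp only [y, ← map_pow, ← map_intCast (gk U), ← map_mul, ← map_sum]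
    congr 1
    funext ω
    simp [div_pow, sum_div, mul_div_assoc]
  have hs : ∑ j, (ε j : GK U) * y j ^ κ = 0 := (h12 _).trans (gk_eq_zero.2 (h1.mono fun ω h => by
    rw [(mem_pm.1 h.2).1.2.1, Int.cast_zero, zero_div]))
  have hs' : ∀ T : Finset σ, T.Nonempty → T ≠ univ → ∑ j ∈ T, (ε j : GK U) * y j ^ κ ≠ 0 :=
    fun T k1 k2 => (h12 T).trans_ne (gk_ne_zero.2 ((h1.and hx).mono fun ω h =>
      div_ne_zero (Int.cast_ne_zero.2 ((mem_pm.1 h.1.2).1.2.2 T k1 k2)) (pow_ne_zero _ h.2)))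
  obtain ⟨d₀, -, hd₀⟩ := (trStmt (GK U) σ y).1 (LL U (cl3 p 0 j₀ ∅))
  obtain ⟨s, hs₀⟩ := hd₀.1
  obtain ⟨A, η, hη, hA₁, hA₂, hA₃, hA₄⟩ := ex_A hA fun _ => dim_le hy hκ hs (fun h => by
    simpa [h] using hs' {j₀} (singleton_nonempty _) fun e => by
      have := congrArg card e
      rw [card_singleton, card_univ] at this
      omega) hs₀
  choose d hd₁ hd using fun Q => (trStmt (GK U) σ y).1 (LL U (cl3 p η j₀ Q))
  have hm : ∀ Q Q', Q ⊆ Q' → LL U (cl3 p η j₀ Q) ≤ LL U (cl3 p η j₀ Q') := fun Q Q' h =>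
    LL_mono (fun γ => (γ.1, fun a => if a ∈ Q then γ.2 a else 0)) fun ω => by
      simp only [cl3, Prod.mk.injEq, true_and]
      funext a
      by_cases ha : a ∈ Q <;> simp [ha, @h a]
  have he : cl3 p 0 j₀ ∅ = cl3 p η j₀ ∅ := funext fun ω => by simp [cl3]
  rw [he] at hd₀
  obtain rfl : d ∅ = d₀ := le_antisymm ((trStmt (GK U) σ y).2 _ _ _ _ le_rfl hd₀ (hd ∅))
    ((trStmt (GK U) σ y).2 _ _ _ _ le_rfl (hd ∅) hd₀)
  have ha : Antitone d := fun Q Q' h => (trStmt (GK U) σ y).2 _ _ _ _ (hm Q Q' h) (hd Q) (hd Q')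
  refine (walk d A η (fun Q β => NC U (cl3 p η j₀ Q) β) ha hη
    (fun j => (hA₁ j).le) hA₂ (fun Q₀ h0 hw => ?_)
    ⟨1, fun _ => {fun _ => 0}, fun _ _ => by simp, .of_forall fun ω => by simp [cl3]⟩
    fun Q β => nc_step cnt hη h1 h2 (fun n hn => (hp n hn).1) (fun n hn => (hp n hn).2.2.1)
      (hd Q)).elim fun Q ⟨β', h4, h5, h6⟩ => ?_
  swap
  · obtain ⟨T, h7, h8⟩ := sm_of_nc (κ := κ) (ε := ε) (h6.trans hA₃) j₀ (fun _ => rfl) h5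
      (BV.pi fun j => mem_LL.1 (LL_closed (cl := cl3 p η j₀ Q) (y j) (not_not.1 fun h =>
        (h4 ▸ hd Q).2 (fun _ => y j) (fun _ => Subring.subset_closure ⟨j, rfl⟩)
          ((algebraicIndependent_unique_type_iff (ι := Fin 1)).2 h))))
    exact h3 T h7 h8
  by_contra h4
  rw [not_le] at h4
  obtain ⟨E, h9, h10⟩ := hA₄ _ h0 (ha (empty_subset Q₀))
  obtain ⟨N, n, h11, h13⟩ := dg (GK U) σ (LL U (cl3 p η j₀ Q₀)) y j₀ ε κ _ _ E s LL_closed hy hκ hs hs'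
    (hs₀.restrictScalars (algebraMap ℚ _).injective) (hd Q₀) h0 h9
  have h14 : ∀ n : σ → ℤ, fm y n = gq U (fun ω => ∑ i, n i * ω.2 i) (·.2 j₀) := fun n => by
    simp only [fm, y, ← map_intCast (gk U), ← map_mul, ← map_sum]
    congr 1
    funext ω
    simp [sum_div, mul_div_assoc]
  have h15 : ∀ n : σ → ℤ, fm y n / fm y (N 0) =
      gq U (fun ω => ∑ i, n i * ω.2 i) fun ω => ∑ i, N 0 i * ω.2 i := fun n => by
    rw [div_eq_iff h11, h14, h14, ← map_mul]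
    rw [h14] at h11
    refine gk_eq.2 ((gk_ne_zero.1 h11).mono fun ω h => ?_)
    rw [Pi.mul_apply, div_mul_div_cancel₀ (left_ne_zero_of_mul (div_eq_mul_inv (G := ℚ) _ _ ▸ h))]
  have h16 : ∀ n : σ → ℤ, fm y n ∈ Subfield.closure (Set.range y) := fun n =>
    sum_mem fun i _ => mul_mem (intCast_mem _ _) (Subfield.subset_closure ⟨i, rfl⟩)
  obtain ⟨Λ, h17, h18, h19⟩ : ∃ Λ : ℝ, 2 ≤ Λ ∧ (∀ a, ∑ i, (|N a i| : ℝ) ≤ Λ) ∧
      ∑ i, (|n i| : ℝ) ≤ Λ := by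
    have k1 : (0 : ℝ) ≤ ∑ a, ∑ i, |(N a i : ℝ)| := by positivity
    have k2 : (0 : ℝ) ≤ ∑ i, |(n i : ℝ)| := by positivity
    refine ⟨2 + ∑ a, ∑ i, |(N a i : ℝ)| + ∑ i, |(n i : ℝ)|, by linarith, fun a => ?_, by linarith⟩
    linarith [single_le_sum (f := fun a => ∑ i, (|N a i| : ℝ)) (fun _ _ => by positivity)
      (mem_univ a)]
  have h20 : 0 < Λ := by linarith
  have k0 : ∀ ω : ℕ × (σ → ℤ), ω.2 ∈ pm κ ε ω.1 → ∀ i, (|ω.2 i| : ℝ) ≤ ω.1 := fun ω h i => by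
    obtain ⟨k1, k2⟩ := (mem_pm.1 h).1.1 i
    exact_mod_cast abs_le.2 ⟨by omega, k2⟩
  have h21 : ∀ (ω : ℕ × (σ → ℤ)) (n : σ → ℤ), ω.2 ∈ pm κ ε ω.1 → ∑ i, (|n i| : ℝ) ≤ Λ →
      |((∑ i, n i * ω.2 i : ℤ) : ℝ)| ≤ Λ * ω.1 := fun ω n h h' => by
    push_cast
    refine (abs_sum_le_sum_abs _ _).trans (le_trans ?_
      (mul_le_mul_of_nonneg_right h' (Nat.cast_nonneg _)))
    rw [sum_mul]
    exact sum_le_sum fun i _ => (abs_mul _ _).trans_le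
      (mul_le_mul_of_nonneg_left (k0 ω h i) (abs_nonneg _))
  refine core3 hdet (U := U) (n := fun ω => ⌊(ω.1 : ℝ) ^ η⌋₊ + 1) (x := fun ω => ∑ i, N 0 i * ω.2 i)
    (t := fun ω a => ∑ i, N a.succ i * ω.2 i) (z := fun ω => ∑ i, n i * ω.2 i) (x₀ := (·.2 j₀))
    (H := fun ω => Λ * ω.1) h0 (hA₁ _) h10 (h2.const_mul_atTop h20) ?_
    (fun Q => bv_cl (cl := cl3 p η j₀ Q) fun γ => Λ * γ.1) hm hd rfl hw
    (fun a => h15 _ ▸ div_mem (h16 _) (h16 _)) (h15 _ ▸ div_mem (h16 _) (h16 _))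
    (by simpa only [h15] using h13) ?_ (ev_pow hη h2) ?_ (fun n hn a => ((hp n hn).1 a).2.1)
    (fun n hn => (hp n hn).2.2.1) (fun n hn => (hp n hn).2.2.2.1) fun Q ω ω' k1 k2 h => ?_
  · rw [h14] at h11
    filter_upwards [h1, gk_ne_zero.1 h11] with ω k1 k2
    exact ⟨fun h => k2 (by rw [h, Int.cast_zero, zero_div]), h21 ω _ k1.2 (h18 _),
      fun a => h21 ω _ k1.2 (h18 _), h21 ω _ k1.2 h19⟩
  · filter_upwards [h2.eventually_ge_atTop 1, ((tendsto_rpow_atTop (sub_pos.2 h4)).comp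
      h2).eventually_ge_atTop (Λ ^ A (d Q₀))] with ω k1 k2
    have k3 : (0 : ℝ) < ω.1 := zero_lt_one.trans_le k1
    calc (Λ * ω.1) ^ A (d Q₀) ≤ (ω.1 : ℝ) ^ (η * #Q₀ - A (d Q₀)) * (ω.1 : ℝ) ^ A (d Q₀) := by
          rw [Real.mul_rpow h20.le k3.le]
          exact mul_le_mul_of_nonneg_right k2 (by positivity)
      _ = (ω.1 : ℝ) ^ (η * #Q₀) := by rw [← Real.rpow_add k3, sub_add_cancel]
      _ ≤ _ := by
          rw [Real.rpow_mul_natCast k3.le]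
          exact pow_le_pow_left₀ (by positivity) (by simpa using (Nat.lt_floor_add_one _).le) _
  · filter_upwards [h1, hx] with ω k1 k2
    have k3 : (1 : ℝ) ≤ ω.1 := by exact_mod_cast k1.1
    exact ⟨Int.cast_ne_zero.1 k2, (k0 ω k1.2 j₀).trans_lt (by nlinarith)⟩
  · obtain ⟨k3, k4⟩ := Prod.mk.inj h
    rw [k3] at k2 k4
    have k5 := fun n n' => (hp _ ⌊(ω.1 : ℝ) ^ η⌋₊.succ_pos).2.2.2.2 Q _ _ fun a ha =>
      cnt.2 σ _ j₀ ω.2 ω'.2 n n' ((hp _ ⌊(ω.1 : ℝ) ^ η⌋₊.succ_pos).1 a).1 (k1 a ha) (k2 a ha)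
        (by simpa only [if_pos ha] using congrFun k4 a)
    exact ⟨by rw [k3], by rw [k3], fun a => k5 _ _, k5 _ _⟩

end Pool.Agent.MP_4060c9_nt.H98
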