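import Pool.Agent.MP_4060c9_nt.H98.Spec4

/-!
An element of negative degree which is integral in codimension one vanishes.
-/

set_option autoImplicit false

namespace Pool.Agent.MP_4060c9_nt.H98

namespace NegAux

open Polynomial

/-- The ideal of the relations of an algebraic element over a gcd domain is principal. -/
theorem gen {R L : Type} [CommRing R] [IsDomain R] [IsGCDMonoid R] [Field L] [Algebra R L]
    [FaithfulSMul R L] (φ : L) (h : IsAlgebraic R φ) :
    ∃ Q : R[X], Q ≠ 0 ∧ aeval φ Q = 0 ∧ ∀ P : R[X], aeval φ P = 0 → Q ∣ P := by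
  let _ : NormalizedGCDMonoid R := Nonempty.some inferInstance
  let K := FractionRing R
  let _ : Algebra K L := FractionRing.liftAlgebra R L
  have hK : IsIntegral K φ := ((IsFractionRing.isAlgebraic_iff R K L).1 h).isIntegral
  have hM := minpoly.ne_zero hK
  obtain ⟨b, hb, e⟩ := IsLocalization.integerNormalization_spec (nonZeroDivisors R) (minpoly K φ)
  have h0 := IsLocalization.integerNormalization_aeval_eq_zero (nonZeroDivisors R) (minpoly K φ)
    (minpoly.aeval K φ)
  have h1 : IsLocalization.integerNormalization (nonZeroDivisors R) (minpoly K φ) ≠ 0 :=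
    fun h => hM (IsFractionRing.integerNormalization_eq_zero_iff.1 h)
  generalize IsLocalization.integerNormalization (nonZeroDivisors R) (minpoly K φ) = Q at e h0 h1
  refine ⟨Q.primPart, Q.primPart_ne_zero, aeval_primPart_eq_zero h1 h0, fun P hP => ?_⟩
  apply Q.isPrimitive_primPart.dvd_of_fraction_map_dvd_fraction_map (K := K)
  refine (Polynomial.map_dvd _ Q.primPart_dvd).trans ?_
  have hb' : algebraMap R K b ≠ 0 :=
    (map_ne_zero_iff _ (IsFractionRing.injective R K)).2 (nonZeroDivisors.ne_zero hb)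
  rw [e, Algebra.smul_def, Polynomial.algebraMap_apply, (isUnit_C.2 hb'.isUnit).mul_left_dvd]
  exact minpoly.dvd K φ (by rwa [aeval_map_algebraMap])

variable {k L σ : Type} [Field k] [Field L] [Algebra k L]

/-- Elements with a denominator free of the variable `b`. -/
def den (T : σ → L) (b : σ) : Subring L where
  carrier := {x | ∃ s p : MvPolynomial σ k, s ≠ 0 ∧ s.degreeOf b = 0 ∧
    MvPolynomial.aeval T s * x = MvPolynomial.aeval T p}
  mul_mem' := by
    rintro x y ⟨s, p, h1, h2, h3⟩ ⟨s', p', h1', h2', h3'⟩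
    refine ⟨s * s', p * p', mul_ne_zero h1 h1', ?_, ?_⟩
    · rw [MvPolynomial.degreeOf_mul_eq h1 h1', h2, h2']
    · rw [map_mul, map_mul, ← h3, ← h3']; ring
  one_mem' := ⟨1, 1, one_ne_zero, MvPolynomial.degreeOf_one b, by simp⟩
  add_mem' := by
    rintro x y ⟨s, p, h1, h2, h3⟩ ⟨s', p', h1', h2', h3'⟩
    refine ⟨s * s', p * s' + p' * s, mul_ne_zero h1 h1', ?_, ?_⟩
    · rw [MvPolynomial.degreeOf_mul_eq h1 h1', h2, h2']
    · rw [map_add, map_mul, map_mul, map_mul, ← h3, ← h3']; ring
  zero_mem' := ⟨1, 0, one_ne_zero, MvPolynomial.degreeOf_one b, by simp⟩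
  neg_mem' := by
    rintro x ⟨s, p, h1, h2, h3⟩
    exact ⟨s, -p, h1, h2, by rw [map_neg, ← h3]; ring⟩

theorem free (T : σ → L) (b : σ) (x : L) (hx : x ∈ Algebra.adjoin k (T '' {b}ᶜ)) :
    ∃ p : MvPolynomial σ k, p.degreeOf b = 0 ∧ MvPolynomial.aeval T p = x := by
  induction hx using Algebra.adjoin_induction with
  | mem x hx =>
    obtain ⟨a, ha, rfl⟩ := hx
    exact ⟨.X a, MvPolynomial.degreeOf_X_of_ne (Ne.symm ha), by simp⟩
  | algebraMap c => exact ⟨.C c, MvPolynomial.degreeOf_C c b, by simp⟩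
  | add x y _ _ hx hy =>
    obtain ⟨p, h1, rfl⟩ := hx
    obtain ⟨q, h2, rfl⟩ := hy
    refine ⟨p + q, ?_, map_add _ _ _⟩
    have := MvPolynomial.degreeOf_add_le b p q
    omega
  | mul x y _ _ hx hy =>
    obtain ⟨p, h1, rfl⟩ := hx
    obtain ⟨q, h2, rfl⟩ := hy
    refine ⟨p * q, ?_, map_mul _ _ _⟩
    have := MvPolynomial.degreeOf_mul_le b p q
    omega

theorem mem_den (T : σ → L) (b : σ) (F : IntermediateField k L)
    (hF : F = IntermediateField.adjoin k (T '' {b}ᶜ)) (x : L)
    (hx : x ∈ Algebra.adjoin F ({T b} : Set L)) : x ∈ den (k := k) T b := by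
  induction hx using Algebra.adjoin_induction with
  | mem x hx =>
    obtain rfl : x = T b := hx
    exact ⟨1, .X b, one_ne_zero, MvPolynomial.degreeOf_one b, by simp⟩
  | algebraMap c =>
    obtain ⟨c, hc⟩ := c
    subst hF
    obtain ⟨u, hu, v, hv, rfl⟩ := IntermediateField.mem_adjoin_iff_div.1 hc
    obtain ⟨p, -, rfl⟩ := free T b u hu
    obtain ⟨q, h2, rfl⟩ := free T b v hv
    change MvPolynomial.aeval T p / MvPolynomial.aeval T q ∈ _
    by_cases h : MvPolynomial.aeval T q = 0
    · rw [h, div_zero]; exact zero_mem _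
    · exact ⟨q, p, fun h' => h (by rw [h', map_zero]), h2, by field_simp⟩
  | add x y _ _ hx hy => exact add_mem hx hy
  | mul x y _ _ hx hy => exact mul_mem hx hy

theorem common (T : σ → L) (b : σ) (x : ℕ → L) (hx : ∀ i, x i ∈ den (k := k) T b) (n : ℕ) :
    ∃ s : MvPolynomial σ k, s ≠ 0 ∧ s.degreeOf b = 0 ∧
      ∀ i < n, ∃ p : MvPolynomial σ k, MvPolynomial.aeval T p = MvPolynomial.aeval T s * x i := by
  induction n with
  | zero => exact ⟨1, one_ne_zero, MvPolynomial.degreeOf_one b, by simp⟩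
  | succ n ih =>
    obtain ⟨s, h1, h2, h3⟩ := ih
    obtain ⟨s', p', h1', h2', h3'⟩ := hx n
    refine ⟨s * s', mul_ne_zero h1 h1', ?_, fun i hi => ?_⟩
    · rw [MvPolynomial.degreeOf_mul_eq h1 h1', h2, h2']
    · rcases Nat.lt_succ_iff_lt_or_eq.1 hi with h | rfl
      · obtain ⟨p, hp⟩ := h3 i h
        exact ⟨p * s', by rw [map_mul, map_mul, hp]; ring⟩
      · exact ⟨s * p', by rw [map_mul, map_mul, ← h3']; ring⟩

/-- A relation whose leading coefficient is free of the variable `b`. -/
theorem rel (T : σ → L) (hT : AlgebraicIndependent k T) (b : σ) (F : IntermediateField k L)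
    (hF : F = IntermediateField.adjoin k (T '' {b}ᶜ)) (φ : L)
    (h : IsIntegral (Algebra.adjoin F ({T b} : Set L)) φ) :
    ∃ P : (MvPolynomial σ k)[X], P.leadingCoeff ≠ 0 ∧ P.leadingCoeff.degreeOf b = 0 ∧
      eval₂ (MvPolynomial.aeval T : MvPolynomial σ k →ₐ[k] L).toRingHom φ P = 0 := by
  obtain ⟨P, hP, h0⟩ := h
  set f := (MvPolynomial.aeval T : MvPolynomial σ k →ₐ[k] L).toRingHom with hf
  have hi : Function.Injective f := hT
  rw [eval₂_eq_eval_map] at h0
  have hm := hP.map (algebraMap _ L)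
  have hc : ∀ i, (P.map (algebraMap _ L)).coeff i ∈ den (k := k) T b := fun i => by
    rw [coeff_map]; exact mem_den T b F hF _ (P.coeff i).2
  generalize P.map (algebraMap _ L) = P' at h0 hm hc
  obtain ⟨s, h1, h2, h3⟩ := common T b _ hc (P'.natDegree + 1)
  have : C (f s) * P' ∈ lifts f := by
    rw [lifts_iff_coeff_lifts]
    intro i
    rw [coeff_C_mul]
    by_cases hi : i < P'.natDegree + 1
    · exact h3 i hi
    · exact ⟨0, by rw [coeff_eq_zero_of_natDegree_lt (by omega), mul_zero, map_zero]⟩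
  obtain ⟨Q, hQ⟩ := (mem_lifts _).1 this
  have hl : Q.leadingCoeff = s := hi (by
    rw [← leadingCoeff_map_of_injective hi, hQ, leadingCoeff_mul, leadingCoeff_C, hm, mul_one])
  refine ⟨Q, hl ▸ h1, hl ▸ h2, ?_⟩
  rw [eval₂_eq_eval_map, hQ, eval_mul, h0, mul_zero]

/-- The Euler operator. -/
noncomputable def eu (p : MvPolynomial σ k) : MvPolynomial σ k :=
  ∑ m ∈ p.support, MvPolynomial.monomial m ((m.degree : k) * p.coeff m)

theorem coeff_eu (p : MvPolynomial σ k) (m : σ →₀ ℕ) :
    (eu p).coeff m = (m.degree : k) * p.coeff m := by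
  classical
  simp only [eu, MvPolynomial.coeff_sum, MvPolynomial.coeff_monomial, Finset.sum_ite_eq']
  split_ifs with h
  · rfl
  · rw [MvPolynomial.notMem_support_iff.1 h, mul_zero]

theorem euler (T : σ → L) (E : Derivation k L L) (hE : ∀ a, E (T a) = T a)
    (p : MvPolynomial σ k) : E (MvPolynomial.aeval T p) = MvPolynomial.aeval T (eu p) := by
  have h : ∀ (m : σ →₀ ℕ) (s : Finset σ),
      E (∏ a ∈ s, T a ^ m a) = (∑ a ∈ s, m a : ℕ) * ∏ a ∈ s, T a ^ m a := by
    intro m s
    classical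
    induction s using Finset.induction_on with
    | empty => simp
    | insert a s ha ih =>
      rw [Finset.prod_insert ha, Finset.sum_insert ha, E.leibniz, ih, E.leibniz_pow, hE]
      rcases m a with _ | n
      · simp
      · simp only [smul_eq_mul, nsmul_eq_mul, Nat.add_sub_cancel]; push_cast; ring
  conv_lhs => rw [p.as_sum]
  rw [eu, map_sum, map_sum, map_sum]
  refine Finset.sum_congr rfl fun m _ => ?_
  rw [MvPolynomial.aeval_monomial, MvPolynomial.aeval_monomial, ← Algebra.smul_def, E.map_smul,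
    Finsupp.prod, h, Algebra.smul_def, map_mul, map_natCast, Finsupp.degree_apply]
  ring

end NegAux

open Polynomial NegAux in
theorem neg : NegStmt := by
  intro k L _ _ _ _ r ν T E φ hT hE hI hφ
  let f := (MvPolynomial.aeval T : MvPolynomial (Fin (r + 1)) k →ₐ[k] L).toRingHom
  have hi : Function.Injective f := hT
  let _ : Algebra (MvPolynomial (Fin (r + 1)) k) L := f.toAlgebra
  have : FaithfulSMul (MvPolynomial (Fin (r + 1)) k) L :=
    (faithfulSMul_iff_algebraMap_injective _ _).2 hi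
  have ha : ∀ p, algebraMap (MvPolynomial (Fin (r + 1)) k) L p = MvPolynomial.aeval T p :=
    fun _ => rfl
  choose P h1 h2 h3 using fun b => rel T hT b _ rfl φ (hI b _ rfl)
  obtain ⟨Q, hQ, h0, hd⟩ := gen φ ⟨P 0, leadingCoeff_ne_zero.1 (h1 0), h3 0⟩
  have hl : ∀ m ∈ Q.leadingCoeff.support, m = 0 := fun m hm => by
    ext b
    obtain ⟨D, hD⟩ := hd (P b) (h3 b)
    have e1 := h1 b
    have e2 := h2 b
    rw [hD, leadingCoeff_mul] at e1 e2
    rw [MvPolynomial.degreeOf_mul_eq (left_ne_zero_of_mul e1) (right_ne_zero_of_mul e1)] at e2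
    have := MvPolynomial.monomial_le_degreeOf b hm
    simp only [Finsupp.coe_zero, Pi.zero_apply]
    omega
  have hl' : eu Q.leadingCoeff = 0 :=
    Finset.sum_eq_zero fun m hm => by rw [hl m hm]; simp
  set N := Q.natDegree with hN
  let g : ℕ → MvPolynomial (Fin (r + 1)) k := fun i =>
    eu (Q.coeff i) + .C (((ν + 1 : ℕ) : k) * (N - i)) * Q.coeff i
  let Q' : (MvPolynomial (Fin (r + 1)) k)[X] := ∑ i ∈ Finset.range (N + 1), monomial i (g i)
  have hc : ∀ i, Q'.coeff i = if i ∈ Finset.range (N + 1) then g i else 0 := fun i => by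
    simp only [Q', finsetSum_coeff, coeff_monomial, Finset.sum_ite_eq']
  have h0' := h0
  rw [aeval_eq_sum_range, ← hN] at h0'
  have hQ' : aeval φ Q' = 0 := by
    have e := congrArg E h0'
    rw [map_sum, map_zero] at e
    have : aeval φ Q' = ∑ i ∈ Finset.range (N + 1), E (Q.coeff i • φ ^ i) +
        ((ν + 1 : ℕ) * N : L) * ∑ i ∈ Finset.range (N + 1), Q.coeff i • φ ^ i := by
      rw [map_sum, Finset.mul_sum, ← Finset.sum_add_distrib]
      refine Finset.sum_congr rfl fun i _ => ?_
      rw [aeval_monomial, Algebra.smul_def, ha, ha, E.leibniz, E.leibniz_pow, hφ, euler T E hE]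
      simp only [g, map_add, map_mul, map_sub, map_natCast]
      rcases i with _ | i
      · simp
      · simp only [smul_eq_mul, nsmul_eq_mul, Nat.add_sub_cancel]; push_cast; ring
    rw [this, e, h0', mul_zero, add_zero]
  have hz : Q' = 0 := by
    refine eq_zero_of_dvd_of_degree_lt (hd _ hQ') ?_
    rw [degree_eq_natDegree hQ, degree_lt_iff_coeff_zero]
    intro m hm
    rw [hc]
    split_ifs with h
    · obtain rfl : m = N := by have := Finset.mem_range.1 h; omega
      simp only [g, sub_self, mul_zero, map_zero, zero_mul, add_zero]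
      exact hl'
    · rfl
  have hN0 : N ≠ 0 := fun h => by
    rw [h, Finset.sum_range_one, pow_zero, Algebra.smul_def, mul_one] at h0'
    apply hQ
    rw [eq_C_of_natDegree_eq_zero h, hi (h0'.trans (map_zero _).symm), map_zero]
  have hq : Q.coeff 0 = 0 := by
    have e := hc 0
    rw [hz, if_pos (by simp)] at e
    ext m
    have e' := congrArg (MvPolynomial.coeff m) e
    simp only [g, coeff_zero, MvPolynomial.coeff_zero, MvPolynomial.coeff_add, coeff_eu,
      MvPolynomial.coeff_C_mul, Nat.cast_zero, sub_zero, ← add_mul] at e'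
    rcases mul_eq_zero.1 e'.symm with h | h
    · exfalso
      have h' : m.degree + (ν + 1) * N = 0 := by exact_mod_cast h
      have := Nat.pos_of_ne_zero hN0
      nlinarith
    · simpa using h
  obtain ⟨Q₁, hQ₁⟩ := X_dvd_iff.2 hq
  by_contra hne
  rw [hQ₁, map_mul, aeval_X, mul_eq_zero, or_iff_right hne] at h0
  have h4 : Q₁ ≠ 0 := fun h => hQ (by rw [hQ₁, h, mul_zero])
  have := natDegree_le_of_dvd (hd _ h0) h4
  rw [hQ₁, natDegree_X_mul h4] at this
  omega

end Pool.Agent.MP_4060c9_nt.H98
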