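import Pool.Agent.MP_4060c9_nt.H98.Spec4

/-!
Linear Noether normalisation with integral coefficients.
-/

set_option autoImplicit false

namespace Pool.Agent.MP_4060c9_nt.H98

open Finset Polynomial

namespace NnAux

lemma mono {R σ : Type} [CommRing R] (s : Finset σ) (e : σ → ℕ) (b c : σ → R) :
    (∏ i ∈ s, (C (b i) + C (c i) * X) ^ e i).natDegree ≤ ∑ i ∈ s, e i ∧
      (∏ i ∈ s, (C (b i) + C (c i) * X) ^ e i).coeff (∑ i ∈ s, e i) = ∏ i ∈ s, c i ^ e i := by
  classical
  have h1 : ∀ i, (C (b i) + C (c i) * X).natDegree ≤ 1 := fun i => by compute_degree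
  have h2 : ∀ i, ((C (b i) + C (c i) * X) ^ e i).natDegree ≤ e i := fun i => by
    simpa using natDegree_pow_le_of_le (e i) (h1 i)
  have h3 : ∀ i, ((C (b i) + C (c i) * X) ^ e i).coeff (e i) = c i ^ e i := fun i => by
    simpa using coeff_pow_of_natDegree_le (m := e i) (h1 i)
  induction s using Finset.induction_on with
  | empty => simp
  | insert a s ha ih =>
    rw [prod_insert ha, sum_insert ha, prod_insert ha]
    exact ⟨natDegree_mul_le.trans (add_le_add (h2 a) ih.1),
      by rw [coeff_mul_add_eq_of_natDegree_le (h2 a) ih.1, h3, ih.2]⟩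

lemma lead {k R σ : Type} [Field k] [CommRing R] [Algebra k R] (P : MvPolynomial σ k)
    (b : σ → R) (c : σ → k) :
    (MvPolynomial.aeval (fun i => C (b i) + C (algebraMap k R (c i)) * X) P).natDegree ≤
        P.totalDegree ∧
      (MvPolynomial.aeval (fun i => C (b i) + C (algebraMap k R (c i)) * X) P).coeff
        P.totalDegree = algebraMap k R
          (MvPolynomial.eval c (MvPolynomial.homogeneousComponent P.totalDegree P)) := by
  classical
  have hle : ∀ d ∈ P.support, ∑ i ∈ d.support, d i ≤ P.totalDegree := fun d hd =>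
    MvPolynomial.le_totalDegree hd
  rw [MvPolynomial.aeval_def, MvPolynomial.eval₂_eq, MvPolynomial.homogeneousComponent_apply]
  simp only [Polynomial.algebraMap_apply]
  refine ⟨natDegree_sum_le_of_forall_le _ _ fun d hd =>
    (natDegree_C_mul_le _ _).trans ((mono _ _ _ _).1.trans (hle d hd)), ?_⟩
  rw [finsetSum_coeff, map_sum, map_sum, sum_filter]
  refine sum_congr rfl fun d hd => ?_
  rw [coeff_C_mul]
  split_ifs with h
  · have h' : P.totalDegree = ∑ i ∈ d.support, d i := h.symm
    rw [h', (mono _ _ _ _).2, MvPolynomial.eval_monomial, map_mul, Finsupp.prod, map_prod]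
    simp only [map_pow]
  · have h' : ∑ i ∈ d.support, d i < P.totalDegree := lt_of_le_of_ne (hle d hd) h
    rw [coeff_eq_zero_of_natDegree_lt ((mono _ _ _ _).1.trans_lt h'), mul_zero]

lemma top_ne {k σ : Type} [Field k] {P : MvPolynomial σ k} (h : P ≠ 0) :
    MvPolynomial.homogeneousComponent P.totalDegree P ≠ 0 := by
  obtain ⟨d, hd, he⟩ := exists_mem_eq_sup P.support (MvPolynomial.support_nonempty.2 h)
    fun s : σ →₀ ℕ => s.sum fun _ e => e
  intro h0
  have h1 := MvPolynomial.coeff_homogeneousComponent P.totalDegree P d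
  rw [h0, if_pos (show d.degree = P.totalDegree from he.symm), MvPolynomial.coeff_zero] at h1
  exact MvPolynomial.mem_support_iff.1 hd h1.symm

lemma int_pt {k σ : Type} [Field k] [CharZero k] {P : MvPolynomial σ k} (h : P ≠ 0) :
    ∃ c : σ → ℤ, MvPolynomial.eval (fun i => (c i : k)) P ≠ 0 := by
  by_contra hc
  push Not at hc
  refine h (MvPolynomial.funext_set (fun _ => Set.range (Int.cast : ℤ → k))
    (fun _ => Set.infinite_range_of_injective Int.cast_injective) fun x hx => ?_)
  choose c hc' using fun i => hx i (Set.mem_univ i)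
  obtain rfl : x = fun i => (c i : k) := funext fun i => (hc' i).symm
  rw [hc, map_zero]

lemma trans {k L : Type} [Field k] [Field L] [Algebra k L] (A : Subalgebra k L) (S : Set L)
    (h : ∀ y ∈ S, IsIntegral A y) {x : L} (hx : IsIntegral (Algebra.adjoin k S) x) :
    IsIntegral A x := by
  have hle : Algebra.adjoin k S ≤ (integralClosure A L).restrictScalars k := Algebra.adjoin_le h
  refine isIntegral_trans (A := integralClosure A L) x ?_
  exact hx.map_of_comp_eq (RingHom.codRestrict (algebraMap (Algebra.adjoin k S) L)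
    (integralClosure A L) fun r => hle r.2) (RingHom.id L) rfl

lemma root {k L σ : Type} [Field k] [Field L] [Algebra k L] (A : Subalgebra k L)
    (P : MvPolynomial σ k) (b : σ → A) (c : σ → k) (Y : L)
    (hc : MvPolynomial.eval c (MvPolynomial.homogeneousComponent P.totalDegree P) ≠ 0)
    (hP : MvPolynomial.aeval (fun i => (b i : L) + algebraMap k L (c i) * Y) P = 0) :
    IsIntegral A Y := by
  obtain ⟨h1, h2⟩ := lead P b c
  set e := MvPolynomial.eval c (MvPolynomial.homogeneousComponent P.totalDegree P)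
  set Q := MvPolynomial.aeval (fun i => C (b i) + C (algebraMap k A (c i)) * X) P with hQ
  have h3 : aeval Y Q = 0 := by
    rw [← hP, hQ, ← AlgHom.restrictScalars_apply k (aeval Y), ← AlgHom.comp_apply,
      MvPolynomial.comp_aeval]
    simp
  refine ⟨C (algebraMap k A e⁻¹) * Q, monic_of_natDegree_le_of_coeff_eq_one _
    ((natDegree_C_mul_le _ _).trans h1) ?_, ?_⟩
  · rw [coeff_C_mul, h2, ← map_mul, inv_mul_cancel₀ hc, map_one]
  · rw [← aeval_def, map_mul, h3, mul_zero]

lemma step {k L : Type} [Field k] [CharZero k] [Field L] [Algebra k L] {n : ℕ}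
    (w : Fin (n + 1) → L) (h : ¬ AlgebraicIndependent k w) :
    ∃ c : Fin (n + 1) → ℤ, ∀ i, IsIntegral (Algebra.adjoin k
      (Set.range fun a : Fin n => (c 0 : L) * w a.succ - c a.succ * w 0)) (w i) := by
  rw [algebraicIndependent_iff] at h
  push Not at h
  obtain ⟨P, hP, h0⟩ := h
  obtain ⟨c, hc⟩ := int_pt (mul_ne_zero (top_ne h0) (MvPolynomial.X_ne_zero (0 : Fin (n + 1))))
  rw [map_mul, MvPolynomial.eval_X] at hc
  obtain ⟨hc1, hc0⟩ := mul_ne_zero_iff.1 hc
  have hL : (c 0 : L) ≠ 0 := by
    rw [← map_intCast (algebraMap k L)]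
    exact (_root_.map_ne_zero _).2 hc0
  refine ⟨c, ?_⟩
  set A := Algebra.adjoin k (Set.range fun a : Fin n => (c 0 : L) * w a.succ - c a.succ * w 0)
  have hb : ∀ i, w i - c i * (w 0 / c 0) ∈ A := fun i => by
    refine Fin.cases ?_ (fun a => ?_) i
    · rw [mul_div_cancel₀ _ hL, sub_self]
      exact zero_mem _
    · have : w a.succ - c a.succ * (w 0 / c 0) =
          algebraMap k L (c 0 : k)⁻¹ * ((c 0 : L) * w a.succ - c a.succ * w 0) := by
        rw [map_inv₀, map_intCast]
        field_simp
      rw [this]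
      exact mul_mem (A.algebraMap_mem _) (Algebra.subset_adjoin ⟨a, rfl⟩)
  have hY : IsIntegral A (w 0 / c 0) :=
    root A P (fun i => ⟨_, hb i⟩) (fun i => (c i : k)) _ hc1 (by simpa using hP)
  intro i
  have : w i = algebraMap A L ⟨_, hb i⟩ + algebraMap A L (c i) * (w 0 / c 0) := by simp
  rw [this]
  exact isIntegral_algebraMap.add (isIntegral_algebraMap.mul hY)

end NnAux

theorem nn : NnStmt := by
  intro k L ι _ _ _ _ _ u
  classical
  have key : ∀ (n : ℕ) (N : Fin n → ι → ℤ),
      (∀ i, IsIntegral (Algebra.adjoin k (Set.range fun a => fm u (N a))) (u i)) →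
      ∃ (r : ℕ) (N : Fin r → ι → ℤ), AlgebraicIndependent k (fun a => fm u (N a)) ∧
        ∀ i, IsIntegral (Algebra.adjoin k (Set.range fun a => fm u (N a))) (u i) := by
    intro n
    induction n with
    | zero => exact fun N h => ⟨0, N, algebraicIndependent_empty_type, h⟩
    | succ n ih =>
      intro N h
      by_cases hi : AlgebraicIndependent k fun a => fm u (N a)
      · exact ⟨_, N, hi, h⟩
      obtain ⟨c, hc⟩ := NnAux.step _ hi
      refine ih (fun a i => c 0 * N a.succ i - c a.succ * N 0 i) fun i => ?_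
      have he : (fun a : Fin n => fm u fun i => c 0 * N a.succ i - c a.succ * N 0 i) =
          fun a : Fin n => (c 0 : L) * fm u (N a.succ) - c a.succ * fm u (N 0) := by
        funext a
        simp only [fm, mul_sum, ← sum_sub_distrib]
        exact sum_congr rfl fun j _ => by push_cast; ring
      rw [he]
      exact NnAux.trans _ _ (by rintro _ ⟨a, rfl⟩; exact hc a) (h i)
  refine key _ (fun a => Pi.single ((Fintype.equivFin ι).symm a) 1) fun i => ?_
  have hu : u i ∈ Algebra.adjoin k
      (Set.range fun a => fm u (Pi.single ((Fintype.equivFin ι).symm a) 1)) :=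
    Algebra.subset_adjoin ⟨Fintype.equivFin ι i, by simp [fm, Pi.single_apply]⟩
  exact isIntegral_algebraMap (x := (⟨u i, hu⟩ : Algebra.adjoin k _))

end Pool.Agent.MP_4060c9_nt.H98
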