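import Pool.Agent.MP_4060c9_nt.H98.Spec

/-!
The numerical condition holds for `k ≥ (4 l) ^ l`.
-/

set_option autoImplicit false

namespace Pool.Agent.MP_4060c9_nt.H98

open Finset

namespace Num

def Good (L : ℕ) : Prop :=
  ∃ (t s r : ℕ) (a : ℝ), 1 ≤ t ∧ t + 2 ≤ L ∧ r + 1 = L + t ∧ 3 * (11 / 4) ^ s ≤ a ∧
    ∑ j ∈ range (r + 1), (j : ℝ) ^ (s + 1) ≤ a * t * r ^ s ∧ 8 * a ^ r < (4 * L) ^ L

def chk (L : ℕ) : Bool :=
  let s := Nat.log 3 L
  let t := 3 * L / (4 * (s + 2))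
  let r := L + t - 1
  let S := ∑ j ∈ range (r + 1), j ^ (s + 1)
  let u := max (12 * S / (t * r ^ s)) (36 * 11 ^ s / 4 ^ s) + 1
  decide (1 ≤ t ∧ t + 2 ≤ L ∧ 36 * 11 ^ s ≤ u * 4 ^ s ∧ 12 * S ≤ u * t * r ^ s ∧
    8 * u ^ r < (4 * L) ^ L * 12 ^ r)

lemma chk_all : ∀ L < 438, 4 ≤ L → chk L = true := by decide +kernel

lemma good_small {L : ℕ} (h : chk L = true) : Good L := by
  simp only [chk, decide_eq_true_eq] at h
  generalize Nat.log 3 L = s at h
  generalize 3 * L / (4 * (s + 2)) = t at h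
  generalize hr : L + t - 1 = r at h
  generalize max _ _ + 1 = u at h
  obtain ⟨h1, h2, h3, h4, h5⟩ := h
  refine ⟨t, s, r, u / 12, h1, h2, by omega, ?_, ?_, ?_⟩
  · have : (36 * 11 ^ s : ℝ) ≤ u * 4 ^ s := by exact_mod_cast h3
    rw [div_pow, ← mul_div_assoc, div_le_div_iff₀ (by positivity) (by positivity)]
    linarith
  · have : (12 * ∑ j ∈ range (r + 1), (j : ℝ) ^ (s + 1)) ≤ u * t * r ^ s := by exact_mod_cast h4
    linarith
  · have : (8 * u ^ r : ℝ) < (4 * L) ^ L * 12 ^ r := by exact_mod_cast h5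
    rwa [div_pow, ← mul_div_assoc, div_lt_iff₀ (by positivity)]

lemma sum_le (p r : ℕ) : (p + 1) * ∑ j ∈ range r, (j : ℝ) ^ p ≤ r ^ (p + 1) := by
  induction r with
  | zero => simp
  | succ r ih =>
    have := pow_add_mul_le_add_pow (a := (r : ℝ)) (b := 1) r.cast_nonneg (by positivity) (p + 1)
    rw [sum_range_succ, mul_add]
    simp only [Nat.add_sub_cancel, mul_one, Nat.cast_add, Nat.cast_one] at this ⊢
    linarith

lemma pow3 (b : ℕ) : 30 * (b + 6 + 1) ≤ 3 ^ (b + 6) := by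
  induction b with
  | zero => norm_num
  | succ b ih => rw [show b + 1 + 6 = b + 6 + 1 by ring, pow_succ]; omega

lemma good_large {L : ℕ} (h : 438 ≤ L) : Good L := by
  have h1 : 3 ^ Nat.log 3 (5 * L / 3) ≤ 5 * L / 3 := Nat.pow_log_le_self 3 (by omega)
  have h2 : 5 * L / 3 < 3 ^ (Nat.log 3 (5 * L / 3) + 1) := Nat.lt_pow_succ_log_self (by norm_num) _
  have h3 : 6 ≤ Nat.log 3 (5 * L / 3) := Nat.le_log_of_pow_le (by norm_num) (by omega)
  obtain ⟨b, hb⟩ := Nat.exists_eq_add_of_le' h3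
  rw [hb] at h1 h2
  have h4 := pow3 b
  have h5 := Nat.mul_div_le (7 * L) (9 * (b + 7))
  have h6 := Nat.lt_mul_div_succ (7 * L) (show 0 < 9 * (b + 7) by omega)
  generalize 7 * L / (9 * (b + 7)) = t at h5 h6
  have h7 : 9 * t ≤ L := by nlinarith
  have h8 : (3 : ℝ) ^ (b + 6) ≤ 5 * L / 3 := by
    have : 3 ^ (b + 6) * 3 ≤ 5 * L := by omega
    rw [le_div_iff₀ (by norm_num)]
    exact_mod_cast this
  have h9 : (5 * L / 3 : ℝ) ≤ 3 ^ (b + 7) := by
    have : 5 * L ≤ 3 ^ (b + 6 + 1) * 3 := by omega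
    rw [div_le_iff₀ (by norm_num)]
    exact_mod_cast this
  have hL : (438 : ℝ) ≤ L := by exact_mod_cast h
  refine ⟨t + 1, b + 5, L + t, 5 * L / 3, by omega, by omega, by omega, ?_, ?_, ?_⟩
  · refine le_trans ?_ h8
    rw [pow_succ' 3 (b + 5)]
    gcongr
    norm_num
  · have e1 := sum_le (b + 5 + 1) (L + t)
    have e2 : 18 * ((b : ℝ) + 7) ≤ L := by
      have : 18 * (b + 7) ≤ L := by omega
      exact_mod_cast this
    have e3 : (7 * L : ℝ) ≤ 9 * (b + 7) * (t + 1) := by exact_mod_cast h6.le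
    have e4 : (9 * t : ℝ) ≤ L := by exact_mod_cast h7
    rw [sum_range_succ]
    refine le_of_mul_le_mul_left ?_ (show (0 : ℝ) < b + 7 by positivity)
    have e5 : ((L : ℝ) + t) * (L + t) + (b + 7) * (L + t) ≤ (b + 7) * (5 * L / 3 * (t + 1)) := by
      have : (0 : ℝ) ≤ t := t.cast_nonneg
      nlinarith
    have e6 := mul_le_mul_of_nonneg_right e5 (show (0 : ℝ) ≤ (L + t) ^ (b + 5) by positivity)
    push_cast at e1 ⊢
    rw [pow_succ, pow_succ] at e1
    rw [pow_succ]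
    nlinarith
  · have e1 : (5 * L / 3 : ℝ) ^ t ≤ 3 ^ ((b + 7) * t) := by
      rw [pow_mul]
      gcongr
    have e2 : (8 * 3 ^ ((b + 7) * t) : ℝ) < (12 / 5) ^ L := by
      refine lt_of_pow_lt_pow_left₀ 9 (by positivity) ?_
      calc (8 * 3 ^ ((b + 7) * t) : ℝ) ^ 9 = 8 ^ 9 * 3 ^ (9 * (b + 7) * t) := by
            rw [mul_pow, ← pow_mul]
            congr 2
            ring
        _ < (6 / 5) ^ 200 * 3 ^ (7 * L) :=
            mul_lt_mul (by norm_num) (pow_le_pow_right₀ (by norm_num) h5) (by positivity)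
              (by positivity)
        _ ≤ (6 / 5) ^ L * 3 ^ (7 * L) :=
            mul_le_mul_of_nonneg_right (pow_le_pow_right₀ (by norm_num) (by omega)) (by positivity)
        _ ≤ ((12 / 5) ^ L) ^ 9 := by
            rw [pow_mul, ← mul_pow, ← pow_mul, mul_comm L, pow_mul]
            gcongr
            norm_num
    calc (8 * (5 * L / 3) ^ (L + t) : ℝ) = (5 * L / 3) ^ L * (8 * (5 * L / 3) ^ t) := by ring
      _ < (5 * L / 3) ^ L * (12 / 5) ^ L := by
          gcongr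
          linarith
      _ = (4 * L) ^ L := by
          rw [← mul_pow]
          congr 1
          ring

lemma tri (i : ℕ) : (i + 1) * (i + 1 + 1) ≤ 2 * 3 ^ i := by
  induction i with
  | zero => norm_num
  | succ i ih => rw [pow_succ]; nlinarith

lemma Good.adm {L κ : ℕ} (h : Good L) (hκ : (4 * L) ^ L ≤ κ) :
    ∃ (t : ℕ) (a : ℕ → ℝ), 1 ≤ t ∧ t + 2 ≤ L ∧ Adm (L + t) κ a ∧
      ∑ j ∈ range (L + t), (j : ℝ) * a j ≤ t := by
  obtain ⟨t, s, r, a, h1, h2, h3, h4, h5, h6⟩ := h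
  have ha : 0 < a := lt_of_lt_of_le (by positivity) h4
  have hr : (0 : ℝ) < r := by exact_mod_cast (by omega : 0 < r)
  refine ⟨t, fun j => (j / r) ^ s / a, h1, h2, fun j h7 h8 => ⟨by positivity, ?_⟩, ?_⟩
  · obtain ⟨i, rfl⟩ := Nat.exists_eq_add_of_le (show j ≤ r by omega)
    have hj : (0 : ℝ) < j := by exact_mod_cast h7
    have e1 : ((j + i : ℕ) / j : ℝ) ^ j ≤ (11 / 4) ^ i := by
      calc ((j + i : ℕ) / j : ℝ) ^ j ≤ Real.exp (i / j) ^ j := by
            gcongr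
            refine le_trans (le_of_eq ?_) (Real.add_one_le_exp _)
            push_cast
            field_simp
            ring
        _ = Real.exp 1 ^ i := by
            rw [← Real.exp_nat_mul, ← Real.exp_nat_mul]
            congr 1
            field_simp
        _ ≤ _ := by
            gcongr
            linarith [Real.exp_one_lt_d9]
    have e2 : 3 ^ i * (((j + i : ℕ) / j : ℝ) ^ s) ^ j ≤ a ^ i := by
      calc _ = 3 ^ i * (((j + i : ℕ) / j : ℝ) ^ j) ^ s := by rw [← pow_mul, mul_comm s, pow_mul]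
        _ ≤ 3 ^ i * ((11 / 4) ^ i) ^ s := by gcongr
        _ = (3 * (11 / 4) ^ s) ^ i := by rw [← pow_mul, mul_comm i, pow_mul, mul_pow]
        _ ≤ _ := by gcongr
    have e3 : 8 * a ^ (j + i) < κ := h6.trans_le (by exact_mod_cast hκ)
    have e4 : ((i : ℝ) + 1) * (i + 1 + 1) ≤ 2 * 3 ^ i := by exact_mod_cast tri i
    have e5 : ((L + t : ℕ) : ℝ) - j = i + 1 := by
      rw [← h3]
      push_cast
      ring
    rw [e5]
    dsimp only
    rw [← inv_div ((j + i : ℕ) : ℝ) (j : ℝ), inv_pow, div_pow, inv_pow, ← mul_div_assoc,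
      lt_div_iff₀ (by positivity),
      ← div_eq_mul_inv, lt_div_iff₀ (by positivity)]
    refine lt_of_le_of_lt ?_ e3
    calc _ = 4 * ((i + 1) * (i + 1 + 1)) * (a ^ j * (((j + i : ℕ) / j : ℝ) ^ s) ^ j) := by ring
      _ ≤ 4 * (2 * 3 ^ i) * (a ^ j * (((j + i : ℕ) / j : ℝ) ^ s) ^ j) := by gcongr
      _ = 8 * a ^ j * (3 ^ i * (((j + i : ℕ) / j : ℝ) ^ s) ^ j) := by ring
      _ ≤ 8 * a ^ j * a ^ i := by gcongr
      _ = _ := by ring
  · rw [← h3]
    have : ∑ j ∈ range (r + 1), (j : ℝ) * ((j / r) ^ s / a) =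
        (∑ j ∈ range (r + 1), (j : ℝ) ^ (s + 1)) / (a * r ^ s) := by
      rw [sum_div]
      refine sum_congr rfl fun j _ => ?_
      rw [div_pow]
      field_simp
      ring
    rw [this, div_le_iff₀ (by positivity)]
    linarith

lemma crit_small {κ m : ℕ} (hκ : 1728 ≤ κ) (h2 : 2 ≤ m) (h6 : m ≤ 6) : Crit κ m := by
  have hk : (1728 : ℝ) ≤ κ := by exact_mod_cast hκ
  refine ⟨min (m - 1) 4, fun j => if j = 1 then 1 / 30 else if j = 2 then 1 / 8 else 1 / 5,
    by omega, by omega, fun j h1 h3 => ?_, ?_⟩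
  · have : j < 4 := by omega
    interval_cases m <;> interval_cases j <;> first | omega | (norm_num; linarith)
  · interval_cases m <;> norm_num [sum_range_succ]

end Num

theorem num : NumStmt := by
  intro k l m hl hk h2 hm
  have h0 : ∀ L, 1 ≤ L → L ≤ l → (4 * L) ^ L ≤ k := fun L h1 h =>
    le_trans ((Nat.pow_le_pow_left (by omega) _).trans (Nat.pow_le_pow_right (by omega) h)) hk
  by_cases h6 : m ≤ 6
  · exact Num.crit_small (h0 3 (by omega) hl) h2 h6
  obtain ⟨L, h3, h4⟩ : ∃ L, m ≤ 2 * L ∧ 2 * L ≤ m + 1 := ⟨(m + 1) / 2, by omega, by omega⟩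
  have h5 : Num.Good L := by
    rcases lt_or_ge L 438 with h | h
    · exact Num.good_small (Num.chk_all L h (by omega))
    · exact Num.good_large h
  obtain ⟨t, a, h7, h8, h9, h10⟩ := h5.adm (h0 L (by omega) (by omega))
  refine ⟨L + t, a, by omega, by omega, h9, ?_⟩
  have : (m : ℝ) ≤ 2 * L := by exact_mod_cast h3
  push_cast
  linarith

end Pool.Agent.MP_4060c9_nt.H98
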