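import Pool.Agent.MP_4060c9_nt.H98.Spec4

/-!
The arithmetic of the admissible exponents.
-/

set_option autoImplicit false

namespace Pool.Agent.MP_4060c9_nt.H98

open Finset Filter

namespace Num3

/-- The critical degree. -/
noncomputable def H (x : ℝ) (j : ℕ) : ℝ := (x * ((j + 1) / j)) ^ j

lemma H_one (x : ℝ) : H x 1 = 2 * x := by
  simp only [H, Nat.cast_one, pow_one]
  ring

lemma H_succ {x : ℝ} {j : ℕ} (hx : 0 ≤ x) (hj : 1 ≤ j) : x * H x j ≤ H x (j + 1) := by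
  have h0 : (0 : ℝ) < j := by exact_mod_cast hj
  have h1 := one_add_mul_le_pow (a := -(1 / ((j : ℝ) + 1) ^ 2)) (by
    have : 1 / ((j : ℝ) + 1) ^ 2 ≤ 1 := (div_le_one (by positivity)).2 (by nlinarith)
    linarith) (j + 1)
  have e1 : x * ((((j + 1 : ℕ) : ℝ) + 1) / (j + 1 : ℕ)) =
      x * ((j + 1) / j) * (1 + -(1 / ((j : ℝ) + 1) ^ 2)) := by
    push_cast
    field_simp
    ring
  have e2 : x * (x * ((j + 1) / j)) ^ j = (x * ((j + 1) / j)) ^ (j + 1) *
      (1 + ((j + 1 : ℕ) : ℝ) * -(1 / ((j : ℝ) + 1) ^ 2)) := by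
    rw [pow_succ]
    push_cast
    field_simp
    ring
  rw [H, H, e1, mul_pow _ _ (j + 1), e2]
  exact mul_le_mul_of_nonneg_left h1 (by positivity)

lemma H_ge {x : ℝ} (hx : 1 ≤ x) {j : ℕ} (hj : 1 ≤ j) : 2 * x ≤ H x j := by
  induction j, hj using Nat.le_induction with
  | base => exact (H_one x).ge
  | succ j hj ih => nlinarith [H_succ (zero_le_one.trans hx) hj]

lemma H_gap {x c : ℝ} (hx : 1 ≤ x) (hc : c ≤ (x - 1) * (2 * x)) {j d : ℕ} (hj : 1 ≤ j)
    (hd : j ≤ d) : H x j + c * d ≤ H x d + c * j := by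
  induction d, hd using Nat.le_induction with
  | base => exact le_rfl
  | succ d hd ih =>
    have h1 := H_succ (zero_le_one.trans hx) (hj.trans hd)
    have h2 := mul_le_mul_of_nonneg_left (H_ge hx (hj.trans hd)) (sub_nonneg.2 hx)
    push_cast
    linarith

lemma H_lt {x : ℝ} (h0 : 0 ≤ x) (h1 : x ≤ 1) {j : ℕ} (hj : 1 ≤ j) : H x j < 3 := by
  have h2 : (0 : ℝ) < j := by exact_mod_cast hj
  have h3 : x * (((j : ℝ) + 1) / j) ≤ Real.exp (1 / j) := by
    refine (mul_le_of_le_one_left (by positivity) h1).trans (le_trans (le_of_eq ?_)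
      (Real.add_one_le_exp _))
    field_simp
    ring
  refine (pow_le_pow_left₀ (by positivity) h3 j).trans_lt ?_
  rw [← Real.exp_nat_mul, mul_one_div_cancel h2.ne']
  linarith [Real.exp_one_lt_d9]

/-- The hypothesis for smaller numbers of variables. -/
lemma hyp {k l n : ℕ} (h : (2 * l - 1) ^ (2 * l - 2) < l ^ (2 * l - 2) * k) (h1 : 2 ≤ n)
    (h2 : n ≤ 2 * l) : (2 * ((n : ℝ) - 1) / n) ^ (n - 2) < k := by
  have h3 : (2 : ℝ) ≤ n := by exact_mod_cast h1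
  have h4 : (n : ℝ) ≤ 2 * l := by exact_mod_cast h2
  have h5 : (0 : ℝ) < l := by linarith
  have h6 : ((2 * (l : ℝ) - 1) / l) ^ (2 * l - 2) < k := by
    rw [div_pow, div_lt_iff₀' (by positivity)]
    have e : (2 * (l : ℝ) - 1) = ((2 * l - 1 : ℕ) : ℝ) := by
      rw [Nat.cast_sub (by omega)]
      push_cast
      ring
    rw [e]
    exact_mod_cast h
  have h7 : 1 ≤ 2 * ((n : ℝ) - 1) / n := by
    rw [le_div_iff₀ (by linarith)]
    linarith
  refine lt_of_le_of_lt ((pow_le_pow_right₀ h7 (Nat.sub_le_sub_right h2 2)).trans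
    (pow_le_pow_left₀ (by linarith) ?_ _)) h6
  rw [div_le_div_iff₀ (by linarith) h5]
  linarith

lemma sq_le (t : ℕ) : 2 * ((t : ℝ) + 12) ^ 2 ≤ (11 / 6) ^ (t + 10) := by
  induction t with
  | zero => norm_num
  | succ t ih =>
    rw [add_right_comm, pow_succ _ (t + 10)]
    push_cast
    nlinarith [t.cast_nonneg (α := ℝ)]

lemma big {k l m : ℕ} (h : (2 * l - 1) ^ (2 * l - 2) < l ^ (2 * l - 2) * k) (h1 : 11 ≤ m)
    (h2 : m ≤ 2 * l) : 2 * m ^ 2 ≤ k := by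
  obtain ⟨t, h3, h4⟩ : ∃ t, m ≤ t + 12 ∧ t + 12 ≤ 2 * l := ⟨2 * l - 12, by omega, by omega⟩
  have h5 := hyp h (by omega) h4
  have h6 : (11 / 6 : ℝ) ≤ 2 * (((t + 12 : ℕ) : ℝ) - 1) / (t + 12 : ℕ) := by
    rw [le_div_iff₀ (by positivity)]
    push_cast
    linarith [t.cast_nonneg (α := ℝ)]
  have h7 := (sq_le t).trans_lt ((pow_le_pow_left₀ (by norm_num) h6 _).trans_lt h5)
  have h8 : 2 * (t + 12) ^ 2 < k := by exact_mod_cast h7
  nlinarith

lemma small {k m d j : ℕ} (h1 : m ≤ 10) (h2 : m < 2 * d) (h3 : d + 2 ≤ m) (h4 : 1 ≤ j)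
    (h5 : j ≤ d) (k6 : 5 ≤ m → 8 ≤ k) (k8 : 7 ≤ m → 29 ≤ k) (k10 : 9 ≤ m → 111 ≤ k) :
    gb m (m - 1 - d) ((2 * d * (j + 1)) ^ j / (m * j) ^ j) < 2 * (k + j + 1) := by
  have h6 : d ≤ 8 := by omega
  interval_cases d <;> interval_cases j <;> interval_cases m <;> norm_num [gb] at * <;> omega

/-- Codimension at least two. -/
lemma codim {k d N : ℕ} (h1 : 11 ≤ d + 2 + N) (h2 : d + 2 + N < 2 * d) (h3 : 1 ≤ N)
    (h4 : 2 * (d + 2 + N) ^ 2 ≤ k)
    (h5 : (2 * (((d + 2 + N : ℕ) : ℝ) - 1) / (d + 2 + N : ℕ)) ^ (d + 2 + N - 2) < k) :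
    2 * (d + 2 + N : ℕ) * ((N : ℝ) + 1) + (N + 1) * (N + 2) * H (2 * d / (d + 2 + N : ℕ)) d ≤
      2 * k := by
  have a1 : (11 : ℝ) ≤ (d + 2 + N : ℕ) := by exact_mod_cast h1
  have a2 : (6 : ℝ) ≤ d := by exact_mod_cast (by omega : 6 ≤ d)
  have a3 : 2 * ((N : ℝ) + 1) ≤ (d + 2 + N : ℕ) := by
    exact_mod_cast (by omega : 2 * (N + 1) ≤ d + 2 + N)
  have a4 : 2 * ((d + 2 + N : ℕ) : ℝ) ^ 2 ≤ k := by exact_mod_cast h4
  have a5 : (0 : ℝ) ≤ N := N.cast_nonneg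
  have e1 : 2 * (((d + 2 + N : ℕ) : ℝ) - 1) / (d + 2 + N : ℕ) =
      2 * d / (d + 2 + N : ℕ) * ((d + 1) / d) * (1 + N / (d + 1)) := by
    have : (d : ℝ) ≠ 0 := by linarith
    field_simp
    push_cast
    ring
  have b1 : (20 / 11 : ℝ) ≤ 2 * (((d + 2 + N : ℕ) : ℝ) - 1) / (d + 2 + N : ℕ) := by
    rw [le_div_iff₀ (by linarith)]
    linarith
  have b2 : 1 + 6 / 7 * (N : ℝ) ≤ (1 + N / (d + 1)) ^ d := by
    refine le_trans ?_ (one_add_mul_le_pow (le_trans (by norm_num) (by positivity : (0 : ℝ) ≤ _)) d)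
    rw [← mul_div_assoc, add_le_add_iff_left, le_div_iff₀ (by linarith)]
    nlinarith
  have b3 : 0 ≤ H (2 * d / (d + 2 + N : ℕ)) d := by
    rw [H]
    positivity
  have b4 : (20 / 11) ^ N * (H (2 * d / (d + 2 + N : ℕ)) d * (1 + 6 / 7 * (N : ℝ))) ≤ k := by
    refine le_trans ?_ h5.le
    rw [show d + 2 + N - 2 = N + d by omega, pow_add]
    refine mul_le_mul (pow_le_pow_left₀ (by norm_num) b1 N) ?_ (by positivity) (by positivity)
    rw [e1, mul_pow]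
    exact mul_le_mul_of_nonneg_left b2 b3
  generalize H (2 * d / (d + 2 + N : ℕ)) d = y at *
  generalize ((d + 2 + N : ℕ) : ℝ) = m at *
  rcases h3.eq_or_lt with rfl | h6
  · push_cast at *
    nlinarith
  · obtain ⟨n, rfl⟩ : ∃ n, N = n + 2 := ⟨N - 2, by omega⟩
    have c1 := one_add_mul_le_pow (a := (9 / 11 : ℝ)) (by norm_num) n
    have c2 : (0 : ℝ) ≤ n := n.cast_nonneg
    have c3 : 2 / 3 * (((n : ℝ) + 3) * (n + 4)) ≤ (20 / 11) ^ (n + 2) * (1 + 6 / 7 * (n + 2)) := by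
      rw [pow_add]
      norm_num at c1 ⊢
      nlinarith [mul_le_mul_of_nonneg_right c1 (by positivity : (0 : ℝ) ≤ 1 + 6 / 7 * (n + 2))]
    have c4 := mul_le_mul_of_nonneg_right c3 b3
    push_cast at *
    nlinarith

/-- The degree which is needed is available. -/
lemma key {k l m d j : ℕ} (h1 : 3 ≤ m) (h2 : m ≤ 2 * l)
    (h : (2 * l - 1) ^ (2 * l - 2) < l ^ (2 * l - 2) * k) (h3 : d + 2 ≤ m) (h4 : 1 ≤ j)
    (h5 : j ≤ d) : ∃ E, Good m k d j E ∧ H (2 * d / m) j ≤ (E + 1 : ℕ) ∧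
      (2 ≤ j ∨ d = 1 → H (2 * d / m) j < (E + 1 : ℕ)) := by
  have kk : ∀ n c : ℕ, 2 ≤ n → n ≤ 2 * l → (c : ℝ) ≤ (2 * ((n : ℝ) - 1) / n) ^ (n - 2) →
      c + 1 ≤ k := fun n c a1 a2 a3 => by exact_mod_cast a3.trans_lt (hyp h a1 a2)
  have k4 : 3 ≤ k := kk 4 2 (by norm_num) (by omega) (by norm_num)
  have k6 : 5 ≤ m → 8 ≤ k := fun _ => kk 6 7 (by norm_num) (by omega) (by norm_num)
  have k8 : 7 ≤ m → 29 ≤ k := fun _ => kk 8 28 (by norm_num) (by omega) (by norm_num)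
  have k10 : 9 ≤ m → 111 ≤ k := fun _ => kk 10 110 (by norm_num) (by omega) (by norm_num)
  have km : m ≤ k + 1 := by
    by_cases a1 : 11 ≤ m
    · nlinarith [big h a1 h2]
    · omega
  have m0 : (3 : ℝ) ≤ m := by exact_mod_cast h1
  rcases le_or_gt (2 * d) m with hA | hB
  · have a1 : (2 * d / m : ℝ) ≤ 1 := (div_le_one (by linarith)).2 (by exact_mod_cast hA)
    rcases h4.eq_or_lt with rfl | h6
    · refine ⟨1, Or.inr (Or.inl ⟨km, le_rfl⟩), ?_, fun a2 => ?_⟩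
      · rw [H_one]
        push_cast
        linarith
      · obtain rfl : d = 1 := by omega
        have : (2 * (1 : ℕ) / m : ℝ) < 1 := (div_lt_one (by linarith)).2 (by push_cast; linarith)
        rw [H_one]
        push_cast at this ⊢
        linarith
    · have a2 := H_lt (by positivity) a1 h4
      exact ⟨2, Or.inr (Or.inr ⟨km, h6, le_rfl⟩), by push_cast; linarith,
        fun _ => by push_cast; linarith⟩
  · have a1 : (1 : ℝ) ≤ 2 * d / m := (one_le_div (by linarith)).2 (by exact_mod_cast hB.le)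
    have a2 : H (2 * d / m) j < (⌊H (2 * d / m) j⌋₊ + 1 : ℕ) := by
      push_cast
      exact Nat.lt_floor_add_one _
    have a3 : (⌊H (2 * d / m) j⌋₊ : ℝ) ≤ H (2 * d / m) j := Nat.floor_le (by rw [H]; positivity)
    refine ⟨_, Or.inl ?_, a2.le, fun _ => a2⟩
    rcases le_or_gt m 10 with b1 | b1
    · have e : H (2 * d / m) j = ((2 * d * (j + 1)) ^ j : ℕ) / ((m * j) ^ j : ℕ) := by
        rw [H, div_mul_div_comm, div_pow]
        push_cast
        rfl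
      rw [e, Nat.floor_div_eq_div]
      exact small b1 hB h3 h4 h5 k6 k8 k10
    obtain ⟨N, rfl⟩ := Nat.exists_eq_add_of_le h3
    have b2 := hyp h (by omega) h2
    rw [gb, show d + 2 + N - 1 - d = N + 1 by omega]
    generalize ⌊H (2 * d / (d + 2 + N : ℕ)) j⌋₊ = E at a3
    rcases Nat.eq_zero_or_pos N with rfl | b3
    · have c0 : (9 : ℝ) ≤ d := by exact_mod_cast (by omega : 9 ≤ d)
      have c1 : (18 / 11 : ℝ) ≤ 2 * d / (d + 2 + 0 : ℕ) := by
        rw [le_div_iff₀ (by linarith)]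
        push_cast
        linarith
      have c2 := H_gap a1 (c := 1) (by nlinarith) h4 h5
      have c3 : H (2 * d / (d + 2 + 0 : ℕ)) d < k := by
        refine lt_of_eq_of_lt ?_ b2
        rw [H, show d + 2 + 0 - 2 = d by omega]
        congr 1
        have : (d : ℝ) ≠ 0 := by linarith
        field_simp
        push_cast
        ring
      have c4 : E + d < k + j := by exact_mod_cast (by linarith : (E : ℝ) + d < k + j)
      omega
    · have c1 := codim (by omega) hB b3 (big h b1 h2) b2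
      have c2 := H_gap a1 (c := 0) (by nlinarith) h4 h5
      have c3 : ((N : ℝ) + 1) * (N + 2) * E ≤ (N + 1) * (N + 2) * H (2 * d / (d + 2 + N : ℕ)) d :=
        mul_le_mul_of_nonneg_left (by linarith) (by positivity)
      have c4 : 2 * (d + 2 + N) * (N + 1) + (N + 1) * (N + 2) * E ≤ 2 * k := by
        exact_mod_cast (by linarith :
          2 * (d + 2 + N : ℕ) * ((N : ℝ) + 1) + (N + 1) * (N + 2) * E ≤ 2 * k)
      have c5 : (N + 1) * (N + 2) * (E - 1) ≤ (N + 1) * (N + 2) * E :=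
        Nat.mul_le_mul_left _ (Nat.sub_le _ _)
      rw [show N + 1 + 1 = N + 2 from rfl]
      omega

/-- The exponents for one dimension. -/
lemma one {k m d : ℕ} (h1 : 0 < d) (h2 : d + 2 ≤ m)
    (h : ∀ j, 1 ≤ j → j ≤ d → ∃ E, Good m k d j E ∧ H (2 * d / m) j ≤ (E + 1 : ℕ) ∧
      (2 ≤ j ∨ d = 1 → H (2 * d / m) j < (E + 1 : ℕ))) :
    ∃ A : ℕ → ℝ, (∀ j, 0 < A j) ∧ (∀ i j, 0 < i → i ≤ j → j ≤ d → A j ≤ A i) ∧
      ∑ j ∈ Icc 1 d, A j < m / 2 ∧
      ∀ j, 0 < j → j ≤ d → ∃ E, Good m k d j E ∧ 1 < (A j * j / (j + 1)) ^ j * (E + 1 : ℕ) := by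
  choose! E g1 g2 g3 using h
  have d0 : (1 : ℝ) ≤ d := by exact_mod_cast h1
  have m0 : (0 : ℝ) < m := by exact_mod_cast (by omega : 0 < m)
  obtain ⟨a, ha⟩ : ∃ a : ℝ, a = m / (2 * d) := ⟨_, rfl⟩
  have a0 : 0 < a := by rw [ha]; positivity
  have a1 : a * d = m / 2 := by rw [ha]; field_simp
  have a2 : ∀ j : ℕ, 1 ≤ j → (a * j / (j + 1)) ^ j * H (2 * d / m) j = 1 := by
    intro j hj
    have : (0 : ℝ) < j := by exact_mod_cast hj
    rw [H, ← mul_pow, ha]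
    refine (congrArg (· ^ j) ?_).trans (one_pow j)
    field_simp
  have ev : ∀ᶠ b : ℝ in nhds a, ∀ j ∈ Icc 1 d, 2 ≤ j ∨ d = 1 →
      1 < (b * j / (j + 1)) ^ j * (E j + 1 : ℕ) := by
    refine (eventually_all_finset _).2 fun j hj => ?_
    obtain ⟨j1, j2⟩ := mem_Icc.1 hj
    by_cases hc : 2 ≤ j ∨ d = 1
    · have : (0 : ℝ) < j := by exact_mod_cast j1
      refine (ContinuousAt.eventually_lt (f := fun _ => (1 : ℝ))
        (g := fun b : ℝ => (b * j / (j + 1)) ^ j * (E j + 1 : ℕ)) continuousAt_const (by fun_prop)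
        ?_).mono fun b hb _ => hb
      exact (a2 j j1).symm.trans_lt (mul_lt_mul_of_pos_left (g3 j j1 j2 hc) (by positivity))
    · exact Eventually.of_forall fun b hb => absurd hb hc
  obtain ⟨b, b1, b2, b3⟩ := (((ev.and (lt_mem_nhds a0)).filter_mono
    (nhdsWithin_le_nhds (s := Set.Iio a))).and self_mem_nhdsWithin).exists.imp fun _ => and_assoc.1
  have b4 : b < a := b3
  refine ⟨fun j => if j ≤ 1 ∧ 2 ≤ d then a + (a - b) / 2 else b, fun j => ?_,
    fun i j _ c1 _ => ?_, ?_, fun j c1 c2 => ⟨E j, g1 j c1 c2, ?_⟩⟩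
  · beta_reduce
    split_ifs <;> linarith
  · beta_reduce
    split_ifs with c2 c3
    · exact le_rfl
    · exact absurd ⟨c1.trans c2.1, c2.2⟩ c3
    · linarith
    · exact le_rfl
  · rcases (Nat.succ_le_of_lt h1).eq_or_lt with rfl | c1
    · simp at a1 ⊢
      linarith
    · have c2 : (2 : ℝ) ≤ d := by exact_mod_cast c1
      rw [← insert_Icc_succ_left_eq_Icc h1, sum_insert (by simp), if_pos ⟨le_rfl, c1⟩,
        sum_congr rfl (g := fun _ => b) (fun j hj => if_neg (fun c3 => by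
          have := (mem_Icc.1 hj).1
          simp at this
          omega)), sum_const, Nat.card_Icc, nsmul_eq_mul, Nat.cast_sub (by simp; omega)]
      simp
      nlinarith
  · beta_reduce
    split_ifs with c3
    · obtain rfl : j = 1 := by omega
      have c4 := a2 1 le_rfl
      have c5 := g2 1 le_rfl c2
      have c6 : (0 : ℝ) < (E 1 + 1 : ℕ) := by positivity
      simp only [Nat.cast_one, pow_one] at c4 ⊢
      nlinarith
    · exact b1 j (mem_Icc.2 ⟨c1, c2⟩) (by omega)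

end Num3

theorem num3 : Num3Stmt := by
  intro k l m h1 h2 h
  choose! A g1 g2 g3 g4 using fun d (a1 : 0 < d) (a2 : d + 2 ≤ m) =>
    Num3.one a1 a2 (fun j => Num3.key h1 h2 h a2)
  have m0 : (3 : ℝ) ≤ m := by exact_mod_cast h1
  have ev : ∀ᶠ β : ℝ in nhds (m / 2 : ℝ), ∀ d ∈ Icc 1 (m - 2), ∑ j ∈ Icc 1 d, A d j < β :=
    (eventually_all_finset _).2 fun d hd =>
      lt_mem_nhds (g3 d (mem_Icc.1 hd).1 (by have := (mem_Icc.1 hd).2; omega))
  obtain ⟨β, b1, b2, b3⟩ := (((ev.and (lt_mem_nhds (show (1 : ℝ) < m / 2 by linarith))).filter_mono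
    (nhdsWithin_le_nhds (s := Set.Iio (m / 2 : ℝ)))).and self_mem_nhdsWithin).exists.imp
      fun _ => and_assoc.1
  exact ⟨β, b2, b3, zero_lt_one.trans b2, fun d a1 a2 =>
    ⟨A d, g1 d a1 a2, g2 d a1 a2, b1 d (mem_Icc.2 ⟨a1, by omega⟩), g4 d a1 a2⟩⟩

end Pool.Agent.MP_4060c9_nt.H98
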