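import Pool.Agent.MP_4060c9_nt.H98.Spec

/-!
A small integral solution of a linear system.
-/

set_option autoImplicit false

namespace Pool.Agent.MP_4060c9_nt.H98

open Finset Matrix

attribute [local instance] Matrix.seminormedAddCommGroup

namespace Small

lemma siegel {α β : Type} [Fintype α] [Fintype β] (A : Matrix α β ℤ) {B : ℝ} (hB : 1 ≤ B)
    (hA : ∀ i j, (|A i j| : ℝ) ≤ B) (h : Fintype.card α < Fintype.card β) :
    ∃ t : β → ℤ, t ≠ 0 ∧ A *ᵥ t = 0 ∧
      ∀ j, (|t j| : ℝ) ≤ (Fintype.card β * B) ^ Fintype.card β := by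
  classical
  have h1 : (1 : ℝ) ≤ Fintype.card β := by exact_mod_cast (show 1 ≤ Fintype.card β by omega)
  have h2 : (1 : ℝ) ≤ Fintype.card β * B := one_le_mul_of_one_le_of_one_le h1 hB
  rcases Nat.eq_zero_or_pos (Fintype.card α) with h0 | h0
  · have := Fintype.card_eq_zero_iff.1 h0
    have : Nonempty β := Fintype.card_pos_iff.1 (by omega)
    exact ⟨fun _ => 1, one_ne_zero (α := β → ℤ), Subsingleton.elim _ _,
      fun j => by simpa using one_le_pow₀ h2⟩
  obtain ⟨t, t0, t1, t2⟩ := Int.Matrix.exists_ne_zero_int_vec_norm_le A h h0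
  refine ⟨t, t0, t1, fun j => ((Int.norm_eq_abs (t j)).ge.trans (norm_le_pi_norm t j)).trans
    (t2.trans ?_)⟩
  have h3 : ‖A‖ ≤ B := (Matrix.norm_le_iff (by linarith)).2 fun i j =>
    (Int.norm_eq_abs _).le.trans (hA i j)
  have h4 : (Fintype.card α : ℝ) + 1 ≤ Fintype.card β := by exact_mod_cast h
  rw [← Real.rpow_natCast]
  refine (Real.rpow_le_rpow (by positivity) (mul_le_mul_of_nonneg_left (max_le hB h3)
    (by positivity)) (div_nonneg (by positivity) (by linarith))).trans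
    (Real.rpow_le_rpow_of_exponent_le h2 ?_)
  rw [div_le_iff₀ (by linarith)]
  nlinarith

end Small

theorem small : SmallStmt := by
  classical
  rintro I M X B hB hX ⟨c, ⟨m₀, hm₀, hc₀⟩, hc⟩
  let φ : (I → ℤ) → M → ℚ := fun v m => v m
  let ψ : (M → ℚ) → (M → ℚ) →ₗ[ℚ] ℚ := fun t => dotProductBilin ℚ ℚ t
  have hψ : ∀ t w, ψ t w = ∑ m, t m * w m := fun _ _ => rfl
  obtain ⟨b, hb, hs, hl⟩ := exists_linearIndependent ℚ (φ '' X)
  have : Finite b := hl.finite
  have := Fintype.ofFinite b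
  have h1 : Submodule.span ℚ (φ '' X) ≤ LinearMap.ker (ψ fun m => c m) := by
    rw [Submodule.span_le]
    rintro _ ⟨v, hv, rfl⟩
    exact (sum_coe_sort M fun m => c m * v m).trans (hc v hv)
  have h2 : Fintype.card b < Fintype.card M := by
    have e := finrank_span_eq_card hl
    rw [Subtype.range_coe_subtype, Set.ofPred_mem_eq, hs] at e
    rw [← e, ← Module.finrank_fintype_fun_eq_card ℚ]
    refine Submodule.finrank_lt fun h => hc₀ ?_
    have := h1 (h ▸ Submodule.mem_top : (Pi.single ⟨m₀, hm₀⟩ 1 : M → ℚ) ∈ _)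
    simpa [hψ, Pi.single_apply] using this
  choose v hv hv' using fun w : b => hb w.2
  obtain ⟨t, t0, t1, t2⟩ := Small.siegel (Matrix.of fun (w : b) (m : M) => v w m) hB
    (fun w m => hX _ (hv w) _ m.2) h2
  have h3 : Submodule.span ℚ (φ '' X) ≤ LinearMap.ker (ψ fun m => t m) := by
    rw [← hs, Submodule.span_le]
    intro w hw
    have := congrFun t1 ⟨w, hw⟩
    simp only [mulVec, dotProduct, of_apply, Pi.zero_apply] at this
    have e : w = φ (v ⟨w, hw⟩) := (hv' ⟨w, hw⟩).symm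
    rw [SetLike.mem_coe, LinearMap.mem_ker, hψ, e]
    simp only [φ, mul_comm (t _ : ℚ)]
    exact_mod_cast this
  refine ⟨fun m => if h : m ∈ M then t ⟨m, h⟩ else 0, ?_, fun m hm => ?_, fun w hw => ?_⟩
  · obtain ⟨m, hm⟩ := Function.ne_iff.1 t0
    exact ⟨m, m.2, by simpa using hm⟩
  · simpa [hm] using t2 ⟨m, hm⟩
  · have := h3 (Submodule.subset_span ⟨w, hw, rfl⟩)
    rw [LinearMap.mem_ker, hψ] at this
    rw [← sum_coe_sort]
    simp only [coe_mem, dif_pos]
    simp only [φ] at this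
    exact_mod_cast this

end Pool.Agent.MP_4060c9_nt.H98
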