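import Mathlib

/-!
Sums of `l` positive `k`-th powers for large `k`: definitions and the statements of the modules.
-/

set_option autoImplicit false

namespace Pool.Agent.MP_4060c9_nt.H98

open Finset

/-- Exponents of the monomials `t ^ α * z ^ b`. -/
abbrev Ix (r : ℕ) : Type := (Fin r → ℕ) × ℕ

section

variable {R : Type*} [CommRing R] {r : ℕ}

/-- The monomial `t ^ α * z ^ b`. -/
def mon (t : Fin r → R) (z : R) (m : Ix r) : R := (∏ a, t a ^ m.1 a) * z ^ m.2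

/-- Its derivative in `z`. -/
def dmon (t : Fin r → R) (z : R) (m : Ix r) : R :=
  (m.2 : R) * ((∏ a, t a ^ m.1 a) * z ^ (m.2 - 1))

/-- The value of the polynomial with support in `M` and coefficients `c`. -/
def Gv (M : Finset (Ix r)) (c : Ix r → R) (t : Fin r → R) (z : R) : R :=
  ∑ m ∈ M, c m * mon t z m

/-- The value of its derivative in `z`. -/
def Gd (M : Finset (Ix r)) (c : Ix r → R) (t : Fin r → R) (z : R) : R :=
  ∑ m ∈ M, c m * dmon t z m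

lemma map_mon {R' : Type*} [CommRing R'] (φ : R →+* R') (t : Fin r → R) (z : R) (m : Ix r) :
    φ (mon t z m) = mon (fun a => φ (t a)) (φ z) m := by
  simp [mon]

lemma map_Gv {R' : Type*} [CommRing R'] (φ : R →+* R') (M : Finset (Ix r)) (c : Ix r → R)
    (t : Fin r → R) (z : R) :
    φ (Gv M c t z) = Gv M (fun m => φ (c m)) (fun a => φ (t a)) (φ z) := by
  simp [Gv, mon]

lemma map_Gd {R' : Type*} [CommRing R'] (φ : R →+* R') (M : Finset (Ix r)) (c : Ix r → R)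
    (t : Fin r → R) (z : R) :
    φ (Gd M c t z) = Gd M (fun m => φ (c m)) (fun a => φ (t a)) (φ z) := by
  simp [Gd, dmon]

end

/-- The `t a` are algebraically independent and `z` has degree at least `e` over them. -/
def LI (k : Type) {K : Type} [Field k] [Field K] [Algebra k K] {r : ℕ} (t : Fin r → K) (z : K)
    (e : ℕ) : Prop :=
  LinearIndependent k fun m : {m : Ix r // m.2 < e} => mon t z m.1

/-- The derivative of `u` is a quotient of two polynomials of degree `d` in `τ` and `u`. -/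
def Quo {F K : Type} [Field F] [Field K] [Algebra F K] (D : Derivation F K K) (τ u : K)
    (d : ℕ) : Prop :=
  ∃ Δ Γ : K, Δ ≠ 0 ∧ Δ ∈ Submodule.span F {1, τ, u} ^ d ∧ Γ ∈ Submodule.span F {1, τ, u} ^ d ∧
    Δ * D u = Γ

/-- A plane curve of bidegree at most `(E, E)`. -/
def BiStmt : Prop :=
  ∀ (F K : Type) [Field F] [CharZero F] [Field K] [Algebra F K] (D : Derivation F K K) (τ u : K)
    (E : ℕ), Transcendental F τ → D τ = 1 →
    ¬ LinearIndependent F (fun m : ℕ × Fin (E + 1) => τ ^ m.1 * u ^ (m.2 : ℕ)) →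
    ¬ LinearIndependent F (fun m : ℕ × Fin (E + 1) => u ^ m.1 * τ ^ (m.2 : ℕ)) →
    Quo D τ u (2 * E - 1)

/-- The Wronskian bound. -/
def WrStmt : Prop :=
  ∀ (F K : Type) [Field F] [CharZero F] [Field K] [Algebra F K] (D : Derivation F K K)
    (M d κ : ℕ) (u : Fin (M + 1) → K) (i₁ : Fin (M + 1)) (c : Fin (M + 1) → F),
    (∀ x, D x = 0 → x ∈ Set.range (algebraMap F K)) → D (u i₁) = 1 → (∀ i, c i ≠ 0) →
    ∑ i, c i • u i ^ κ = 1 → LinearIndependent F (fun i => u i ^ κ) →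
    (∀ i, Quo D (u i₁) (u i) d) → κ ≤ M + 2 * M * d + M * M * (2 * d + 1)

/-- Subvarieties of a diagonal hypersurface on which no subsum vanishes have large degree. -/
def DegStmt : Prop :=
  ∀ (k K σ : Type) [Field k] [CharZero k] [Field K] [Algebra k K] [Fintype σ] (y : σ → K)
    (ε : σ → k) (N : k) (κ r E : ℕ) (t₀ : Fin (r + 1) → σ),
    ∑ j, ε j • y j ^ κ = algebraMap k K N →
    (∀ T : Finset σ, T.Nonempty → ∑ j ∈ T, ε j • y j ^ κ ≠ 0) →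
    AlgebraicIndependent k (fun a => y (t₀ a)) →
    4 * (Fintype.card σ - (r + 1)) * (Fintype.card σ - (r + 1) + 1) * E < κ →
    ∃ (t : Fin (r + 1) → σ) (j : σ), LI k (fun a => y (t a)) (y j) (E + 1)

/-- Divisibility of the determinant of monomials at points of one residue class. -/
def DivStmt : Prop :=
  ∀ (r p q : ℕ) (M : Finset (Ix r)) (c : Ix r → ℤ) (τ : Fin r → ℤ) (ζ : ℤ) (ι : Type)
    [Fintype ι] [DecidableEq ι] (t : ι → Fin r → ℤ) (z : ι → ℤ) (f : ι → Ix r),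
    IsCoprime (Gd M c τ ζ) p → (∀ j a, t j a ≡ τ a [ZMOD p]) → (∀ j, z j ≡ ζ [ZMOD p]) →
    (∀ j, Gv M c (t j) (z j) = 0) →
    (p : ℤ) ^ (q * Fintype.card ι - (q + r).choose (r + 1)) ∣
      (Matrix.of fun i j => mon (t j) (z j) (f i)).det

/-- The points of one residue class lie on an auxiliary hypersurface. -/
def DetStmt : Prop :=
  ∀ (r e : ℕ) (a : ℝ), 0 < r → 0 < a → 1 < a ^ r * e →
    ∃ (B : Finset (Ix r)) (H₀ : ℝ), (∀ m ∈ B, m.2 < e) ∧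
      ∀ (H : ℝ) (p : ℕ) (M : Finset (Ix r)) (c : Ix r → ℤ) (τ : Fin r → ℤ) (ζ : ℤ),
        H₀ ≤ H → H ^ a ≤ p → IsCoprime (Gd M c τ ζ) p →
        ∃ d : Ix r → ℚ, (∃ m ∈ B, d m ≠ 0) ∧ ∀ (t : Fin r → ℤ) (z : ℤ),
          (∀ i, (|t i| : ℝ) ≤ H) → (|z| : ℝ) ≤ H → (∀ i, t i ≡ τ i [ZMOD p]) → z ≡ ζ [ZMOD p] →
          Gv M c t z = 0 → Gv B d (fun i => (t i : ℚ)) (z : ℚ) = 0

/-- The smooth points of bounded height lie on few auxiliary hypersurfaces. -/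
def CovStmt : Prop :=
  ∀ (r e : ℕ) (a A : ℝ) (M : Finset (Ix r)), 0 < r → 0 < a → 1 < a ^ r * e →
    ∃ (B : Finset (Ix r)) (C H₀ : ℝ), (∀ m ∈ B, m.2 < e) ∧
      ∀ (H : ℝ) (c : Ix r → ℤ), H₀ ≤ H → (∀ m ∈ M, (|c m| : ℝ) ≤ H ^ A) →
        ∃ F : Finset (Ix r → ℚ), (F.card : ℝ) ≤ C * H ^ (r * a) ∧ (∀ d ∈ F, ∃ m ∈ B, d m ≠ 0) ∧
          ∀ (t : Fin r → ℤ) (z : ℤ), (∀ i, (|t i| : ℝ) ≤ H) → (|z| : ℝ) ≤ H → Gv M c t z = 0 →
            Gd M c t z ≠ 0 → ∃ d ∈ F, Gv B d (fun i => (t i : ℚ)) (z : ℚ) = 0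

/-- A small integral solution of a linear system. -/
def SmallStmt : Prop :=
  ∀ (I : Type) (M : Finset I) (X : Set (I → ℤ)) (B : ℝ), 1 ≤ B →
    (∀ v ∈ X, ∀ m ∈ M, (|v m| : ℝ) ≤ B) →
    (∃ c : I → ℚ, (∃ m ∈ M, c m ≠ 0) ∧ ∀ v ∈ X, ∑ m ∈ M, c m * v m = 0) →
    ∃ c : I → ℤ, (∃ m ∈ M, c m ≠ 0) ∧ (∀ m ∈ M, (|c m| : ℝ) ≤ (M.card * B) ^ M.card) ∧
      ∀ v ∈ X, ∑ m ∈ M, c m * v m = 0

/-- Admissible exponents for `n` variables and `κ`-th powers. -/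
def Adm (n κ : ℕ) (a : ℕ → ℝ) : Prop :=
  ∀ j, 0 < j → j < n → 0 < a j ∧ (4 * (n - j) * (n - j + 1) : ℝ) < κ * a j ^ j

/-- The solutions in the box with no vanishing subsum. -/
noncomputable def nd {σ : Type} [Fintype σ] [DecidableEq σ] (κ : ℕ) (ε : σ → ℤ) (P : ℕ) (N : ℤ) :
    Finset (σ → ℤ) :=
  {x ∈ Fintype.piFinset fun _ => Icc (1 : ℤ) P | ∑ j, ε j * x j ^ κ = N ∧
    ∀ T : Finset σ, T.Nonempty → ∑ j ∈ T, ε j * x j ^ κ ≠ 0}

/-- The uniform bound for these solutions. -/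
def NdStmt : Prop :=
  ∀ (σ : Type) [Fintype σ] [DecidableEq σ] [Nonempty σ] (κ : ℕ) (ε : σ → ℤ) (a : ℕ → ℝ),
    0 < κ → Adm (Fintype.card σ) κ a → ∃ C : ℝ, ∀ (P : ℕ) (N : ℤ), 1 ≤ P →
      ((nd κ ε P N).card : ℝ) ≤ C * (P : ℝ) ^ ∑ j ∈ range (Fintype.card σ), (j : ℝ) * a j

/-- The numerical condition for blocks of `m` variables. -/
def Crit (κ m : ℕ) : Prop :=
  ∃ (n : ℕ) (a : ℕ → ℝ), 0 < n ∧ n < m ∧ Adm n κ a ∧
    (m - n : ℝ) + ∑ j ∈ range n, (j : ℝ) * a j ≤ m / 2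

/-- The lower bound for the number of sums of `l` positive `k`-th powers. -/
def Low (k l : ℕ) : Prop :=
  ∃ c : ℝ, 0 < c ∧ ∀ᶠ x : ℝ in Filter.atTop,
    c * x ^ ((l : ℝ) / (k : ℝ)) <
      (({n : ℕ | 1 ≤ n ∧ (n : ℝ) ≤ x ∧
        ∃ f : Fin l → ℕ, (∀ i, 0 < f i) ∧ ∑ i, f i ^ k = n}.ncard : ℕ) : ℝ)

/-- The additive energy of the `k`-th powers is diagonal. -/
def En (k l : ℕ) : Prop :=
  ∃ C : ℝ, ∀ P : ℕ, 1 ≤ P →
    (#{x ∈ (Fintype.piFinset fun _ : Fin l => Icc 1 P) ×ˢ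
        (Fintype.piFinset fun _ : Fin l => Icc 1 P) |
      ∑ i, x.1 i ^ k = ∑ i, x.2 i ^ k} : ℝ) ≤ C * (P : ℝ) ^ l

def BlockStmt : Prop :=
  ∀ k l : ℕ, 0 < k → (∀ m, 2 ≤ m → m ≤ 2 * l → Crit k m) → En k l

def CsStmt : Prop :=
  ∀ k l : ℕ, 0 < k → 0 < l → En k l → Low k l

def NumStmt : Prop :=
  ∀ k l m : ℕ, 3 ≤ l → (4 * l) ^ l ≤ k → 2 ≤ m → m ≤ 2 * l → Crit k m

end Pool.Agent.MP_4060c9_nt.H98
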