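import Pool.Agent.MP_4060c9_nt.H98.Spec2

/-!
The asymptotic formula: statements of the modules.
-/

set_option autoImplicit false

namespace Pool.Agent.MP_4060c9_nt.H98

open Finset

/-- The solutions which are not diagonal are rare. -/
def Pau (k l : ℕ) : Prop :=
  ∃ δ C : ℝ, 0 < δ ∧ ∀ P : ℕ, 1 ≤ P →
    (#{x ∈ (Fintype.piFinset fun _ : Fin l => Icc 1 P) ×ˢ
        (Fintype.piFinset fun _ : Fin l => Icc 1 P) |
      ∑ i, x.1 i ^ k = ∑ i, x.2 i ^ k ∧ ∀ π : Equiv.Perm (Fin l), x.2 ≠ x.1 ∘ π} : ℝ) ≤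
        C * (P : ℝ) ^ ((l : ℝ) - δ)

def Block3Stmt : Prop :=
  ∀ k l : ℕ, 4 ^ l ≤ k → Pau k l

/-- The number of lattice points in the positive part of the ball. -/
def VolStmt : Prop :=
  ∀ k l : ℕ, 0 < k → 0 < l → ∃ C : ℝ, ∀ x : ℝ, 1 ≤ x →
    |(#{f ∈ Fintype.piFinset fun _ : Fin l => Icc 1 ⌊x ^ (k : ℝ)⁻¹⌋₊ |
        ((∑ i, f i ^ k : ℕ) : ℝ) ≤ x} : ℝ) -
      Real.Gamma (1 + 1 / k) ^ l / Real.Gamma (1 + l / k) * x ^ ((l : ℝ) / k)| ≤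
        C * x ^ (((l : ℝ) - 1) / k)

end Pool.Agent.MP_4060c9_nt.H98
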