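import Pool.Agent.MP_4060c9_nt.H98.Spec3

/-!
The projective staged determinant method and covering Wronskians: statements of the modules.
-/

set_option autoImplicit false

namespace Pool.Agent.MP_4060c9_nt.H98

open Finset

/-- The total degree. -/
def dg {r : ℕ} (m : Ix r) : ℕ := ∑ a, m.1 a + m.2

section

variable {R : Type*} [CommRing R] {r : ℕ}

/-- The homogenised polynomial. -/
def Gh (M : Finset (Ix r)) (c : Ix r → R) (D : ℕ) (x : R) (t : Fin r → R) (z : R) : R :=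
  ∑ m ∈ M, c m * (x ^ (D - dg m) * mon t z m)

/-- Its derivative in `z`. -/
def Gdh (M : Finset (Ix r)) (c : Ix r → R) (D : ℕ) (x : R) (t : Fin r → R) (z : R) : R :=
  ∑ m ∈ M, c m * (x ^ (D - dg m) * dmon t z m)

end

/-- The projective points of one residue class lie on an auxiliary hypersurface. -/
def Det2Stmt : Prop :=
  ∀ (r e : ℕ) (a : ℝ), 0 < r → 0 < a → 1 < (a * r / (r + 1)) ^ r * e →
    ∃ (B : Finset (Ix r)) (H₀ : ℝ), (∀ m ∈ B, m.2 < e) ∧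
      ∀ (H : ℝ) (q D : ℕ) (M : Finset (Ix r)) (c : Ix r → ℤ) (ξ : ℤ) (τ : Fin r → ℤ) (ζ : ℤ),
        H₀ ≤ H → H ^ a ≤ q → (∀ m ∈ M, dg m ≤ D) → IsCoprime ξ q →
        IsCoprime (Gdh M c D ξ τ ζ) q →
        ∃ d : Ix r → ℚ, (∃ m ∈ B, d m ≠ 0) ∧ ∀ (x : ℤ) (t : Fin r → ℤ) (z : ℤ),
          (|x| : ℝ) ≤ H → (∀ i, (|t i| : ℝ) ≤ H) → (|z| : ℝ) ≤ H → x ≠ 0 → IsCoprime x q →
          (∀ i, t i * ξ ≡ τ i * x [ZMOD q]) → z * ξ ≡ ζ * x [ZMOD q] → Gh M c D x t z = 0 →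
          Gv B d (fun i => (t i : ℚ) / x) ((z : ℚ) / x) = 0

/-- The staged walk. -/
def Walk2Stmt : Prop :=
  ∀ (d : Finset ℕ → ℕ) (A : ℕ → ℝ) (η : ℝ) (Ψ : Finset ℕ → ℝ → Prop), Antitone d → 0 < η →
    (∀ j, 0 ≤ A j) → (∀ i j, 0 < i → i ≤ j → j ≤ d ∅ → A j ≤ A i) →
    (∀ Q₀, 0 < d Q₀ → (∀ Φ : Finset ℕ → Prop,
      (∀ Q Q', Q ⊆ Q' → d Q = d Q₀ → d Q' = d Q₀ → (Φ Q ↔ Φ Q')) → Φ Q₀ →
      ∀ B : Finset ℕ, ∃ Q, #Q = #Q₀ ∧ Disjoint Q B ∧ Φ Q) → η * #Q₀ ≤ A (d Q₀)) →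
    Ψ ∅ 0 → (∀ Q β, Ψ Q β → ∃ B : Finset ℕ, ∀ a ∉ B, Ψ (insert a Q) (β + η * d Q)) →
    ∃ Q β, d Q = 0 ∧ Ψ Q β ∧ β ≤ ∑ j ∈ Icc 1 (d ∅), A j + η * (d ∅ * (d ∅ + 1) : ℕ)

/-- The ratios of the coordinates modulo `p`. -/
def rt {σ : Type} (p : ℕ) (j₀ : σ) (x : σ → ℤ) (i : σ) : ℕ :=
  ((x i : ZMod p) * (x j₀ : ZMod p)⁻¹).val

/-- The number of residue classes of smooth points of a variety of dimension `r`. -/
def CntStmt : Prop :=
  (∀ (σ : Type) [Fintype σ] (r p : ℕ) (j₀ : σ) (t : Fin r → σ) (M : σ → Finset (Ix r))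
    (c : σ → Ix r → ℤ) (D : σ → ℕ), p.Prime → (∀ i, ∀ m ∈ M i, dg m ≤ D i) →
    ∃ T : Finset (σ → ℕ), #T ≤ (∏ i, D i) * p ^ r ∧ ∀ x : σ → ℤ, ¬ (p : ℤ) ∣ x j₀ →
      (∀ i, Gh (M i) (c i) (D i) (x j₀) (fun a => x (t a)) (x i) = 0 ∧
        ¬ (p : ℤ) ∣ Gdh (M i) (c i) (D i) (x j₀) (fun a => x (t a)) (x i)) → rt p j₀ x ∈ T) ∧
  ∀ (σ : Type) [Fintype σ] (p : ℕ) (j₀ : σ) (x x' n n' : σ → ℤ), p.Prime → ¬ (p : ℤ) ∣ x j₀ →
    ¬ (p : ℤ) ∣ x' j₀ → rt p j₀ x' = rt p j₀ x →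
    (∑ i, n i * x' i) * ∑ i, n' i * x i ≡ (∑ i, n i * x i) * ∑ i, n' i * x' i [ZMOD p]

open Classical in
/-- The solutions in the box with no vanishing proper subsum. -/
noncomputable def ms {σ : Type} [Fintype σ] (κ : ℕ) (ε : σ → ℤ) (P : ℕ) : Finset (σ → ℤ) :=
  {x ∈ Fintype.piFinset fun _ => Icc (1 : ℤ) P | ∑ j, ε j * x j ^ κ = 0 ∧
    ∀ T : Finset σ, T.Nonempty → T ≠ univ → ∑ j ∈ T, ε j * x j ^ κ ≠ 0}

open Classical in
/-- The primitive ones. -/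
noncomputable def pm {σ : Type} [Fintype σ] (κ : ℕ) (ε : σ → ℤ) (P : ℕ) : Finset (σ → ℤ) :=
  {x ∈ ms κ ε P | univ.gcd x = 1}

/-- From the primitive solutions to all solutions. -/
def PrimStmt : Prop :=
  ∀ (σ : Type) [Fintype σ] [Nonempty σ] (κ : ℕ) (ε : σ → ℤ) (β C : ℝ), 1 < β →
    (∀ P : ℕ, 1 ≤ P → (#(pm κ ε P) : ℝ) ≤ C * (P : ℝ) ^ β) →
    ∃ C' : ℝ, ∀ P : ℕ, 1 ≤ P → (#(ms κ ε P) : ℝ) ≤ C' * (P : ℝ) ^ β

/-- From the minimal blocks to paucity. -/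
def Blk4Stmt : Prop :=
  ∀ k l : ℕ, 0 < k → (∀ (σ : Type) [Fintype σ] (ε : σ → ℤ), 3 ≤ Fintype.card σ →
    Fintype.card σ ≤ 2 * l → ∃ β C : ℝ, β < (Fintype.card σ : ℝ) / 2 ∧
      ∀ P : ℕ, 1 ≤ P → (#(ms k ε P) : ℝ) ≤ C * (P : ℝ) ^ β) → Pau k l

/-- The Wronskian bound for `m` terms, codimension `M` and degree `e`. -/
def gb (m M e : ℕ) : ℕ := 2 * m * M + M * (M + 1) * (e - 1)

/-- A variety of dimension `j` of a family of dimension `d` has degree larger than `E`. -/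
def Good (m κ d j E : ℕ) : Prop :=
  gb m (m - 1 - d) E < 2 * (κ + j + 1) ∨ (m ≤ κ + 1 ∧ E ≤ 1) ∨ (m ≤ κ + 1 ∧ 2 ≤ j ∧ E ≤ 2)

/-- An admissible exponent for `m` variables and `κ`-th powers. -/
def Adm3 (m κ : ℕ) (β : ℝ) : Prop :=
  0 < β ∧ ∀ d, 0 < d → d + 2 ≤ m → ∃ A : ℕ → ℝ, (∀ j, 0 < A j) ∧
    (∀ i j, 0 < i → i ≤ j → j ≤ d → A j ≤ A i) ∧ ∑ j ∈ Icc 1 d, A j < β ∧
    ∀ j, 0 < j → j ≤ d → ∃ E, Good m κ d j E ∧ 1 < (A j * j / (j + 1)) ^ j * (E + 1 : ℕ)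

def Num3Stmt : Prop :=
  ∀ k l m : ℕ, 3 ≤ m → m ≤ 2 * l → (2 * l - 1) ^ (2 * l - 2) < l ^ (2 * l - 2) * k →
    ∃ β : ℝ, 1 < β ∧ β < (m : ℝ) / 2 ∧ Adm3 m k β

/-- The bound for the primitive solutions. -/
def Nd3Stmt : Prop :=
  ∀ (σ : Type) [Fintype σ] (κ : ℕ) (ε : σ → ℤ) (β : ℝ), 0 < κ → 2 ≤ Fintype.card σ →
    Adm3 (Fintype.card σ) κ β → ∃ C : ℝ, ∀ P : ℕ, 1 ≤ P → (#(pm κ ε P) : ℝ) ≤ C * (P : ℝ) ^ β

/-- The integral linear form with coefficients `n`. -/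
def fm {L ι : Type} [Field L] [Fintype ι] (u : ι → L) (n : ι → ℤ) : L := ∑ i, (n i : L) * u i

/-- Linear Noether normalisation with integral coefficients. -/
def NnStmt : Prop :=
  ∀ (k L ι : Type) [Field k] [CharZero k] [Field L] [Algebra k L] [Fintype ι] (u : ι → L),
    ∃ (r : ℕ) (N : Fin r → ι → ℤ), AlgebraicIndependent k (fun a => fm u (N a)) ∧
      ∀ i, IsIntegral (Algebra.adjoin k (Set.range fun a => fm u (N a))) (u i)

/-- A primitive element with integral coefficients. -/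
def PeStmt : Prop :=
  ∀ (F L ι : Type) [Field F] [CharZero F] [Field L] [Algebra F L] [Fintype ι] (u : ι → L),
    (∀ i, IsAlgebraic F (u i)) → ∃ n : ι → ℤ, ∀ i, u i ∈ IntermediateField.adjoin F {fm u n}

/-- The cone over a projective variety with a finite projection to a hypersurface. -/
structure Cone (k : Type) {L ι : Type} [Field k] [Field L] [Algebra k L] [Fintype ι] {r : ℕ}
    (u : ι → L) (T : Fin r → L) (Z : L) (E : Derivation k L L) : Prop where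
  lin : ∀ a, ∃ n, T a = fm u n
  linZ : ∃ n, Z = fm u n
  ind : AlgebraicIndependent k T
  int : ∀ i, IsIntegral (Algebra.adjoin k (Set.range T)) (u i)
  gen : IntermediateField.adjoin k (insert Z (Set.range T)) = ⊤
  eul : ∀ i, E (u i) = u i
  cl : ∀ x : L, IsAlgebraic k x → x ∈ Set.range (algebraMap k L)

/-- The existence of the projection. -/
def ConeStmt : Prop :=
  ∀ (k L ι : Type) [Field k] [CharZero k] [Field L] [Algebra k L] [Fintype ι] (u : ι → L)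
    (E : Derivation k L L), (∀ i, E (u i) = u i) →
    (∀ x : L, IsAlgebraic k x → x ∈ Set.range (algebraMap k L)) →
    ∃ (L₀ : IntermediateField k L) (u₀ : ι → L₀) (r : ℕ) (T : Fin r → L₀) (Z : L₀)
      (E₀ : Derivation k L₀ L₀), (∀ i, (u₀ i : L) = u i) ∧ Cone k u₀ T Z E₀

/-- The derivations of the constants and of the coordinates. -/
def DerStmt : Prop :=
  ∀ (k L : Type) [Field k] [CharZero k] [Field L] [CharZero L] [Algebra k L] (r : ℕ)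
    (T : Fin r → L), AlgebraicIndependent k T →
    Algebra.IsAlgebraic (Algebra.adjoin k (Set.range T)) L →
    ∃ (J : Type) (δ : J ⊕ Fin r → Derivation ℚ L L),
      (∀ v c, δ (.inl v) (algebraMap k L c) ∈ Set.range (algebraMap k L)) ∧
      (∀ v a, δ (.inl v) (T a) = 0) ∧ (∀ b c, δ (.inr b) (algebraMap k L c) = 0) ∧
      (∀ b a, δ (.inr b) (T a) = if a = b then 1 else 0) ∧
      (∀ x, (∀ v, δ v x = 0) → IsAlgebraic ℚ x) ∧
      (∀ (n : ℕ) (x : Fin n → L), AlgebraicIndependent ℚ x →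
        Submodule.span L (Set.range fun v q => δ v (x q)) = ⊤) ∧
      ∀ E : Derivation k L L, (∀ a, E (T a) = T a) →
        (∀ v x, E (δ (.inl v) x) = δ (.inl v) (E x)) ∧
          ∀ b x, E (δ (.inr b) x) = δ (.inr b) (E x) - δ (.inr b) x

/-- Derivations at the places of a function field of one variable. -/
def LocStmt : Prop :=
  ∀ (F L J : Type) [Field F] [CharZero F] [Field L] [CharZero L] [Algebra F L] (t Z g φ : L)
    (δ : J → Derivation ℚ L L) (v₀ : J), Transcendental F t →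
    IsIntegral (Algebra.adjoin F {t}) Z → IntermediateField.adjoin F {t, Z} = ⊤ → g ≠ 0 →
    g ∈ Algebra.adjoin F {t, Z} → (∀ v c, δ v (algebraMap F L c) ∈ Set.range (algebraMap F L)) →
    (∀ v, δ v t ∈ Set.range (algebraMap F L)) → (∀ v, g * δ v Z ∈ Algebra.adjoin F {t, Z}) →
    (∀ c, δ v₀ (algebraMap F L c) = 0) → δ v₀ t = 1 →
    (∀ O : ValuationSubring L, (∀ x ∈ Algebra.adjoin F {t}, x ∈ O) →
      (∀ v, ∀ x ∈ O, g * δ v x ∈ O) → (∀ v, ∃ h : L, ∀ x ∈ O, δ v x - h * δ v₀ x ∈ O) → φ ∈ O) →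
    IsIntegral (Algebra.adjoin F {t}) φ

/-- An integral element of negative degree vanishes. -/
def NegStmt : Prop :=
  ∀ (k L : Type) [Field k] [CharZero k] [Field L] [Algebra k L] (r ν : ℕ) (T : Fin (r + 1) → L)
    (E : Derivation k L L) (φ : L), AlgebraicIndependent k T → (∀ a, E (T a) = T a) →
    (∀ (b : Fin (r + 1)) (F : IntermediateField k L), F = IntermediateField.adjoin k (T '' {b}ᶜ) →
      IsIntegral (Algebra.adjoin F ({T b} : Set L)) φ) →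
    E φ = -((ν + 1 : ℕ) * φ) → φ = 0

/-- The derivative of the equation of the hypersurface. -/
def GstStmt : Prop :=
  ∀ (k L : Type) [Field k] [CharZero k] [Field L] [CharZero L] [Algebra k L] (r e : ℕ)
    (T : Fin r → L) (Z : L) (E : Derivation k L L), AlgebraicIndependent k T →
    IsIntegral (Algebra.adjoin k (Set.range T)) Z → (∀ a, E (T a) = T a) → E Z = Z →
    ¬ LI k T Z (e + 1) → ∃ (g : L) (e' : ℕ), e' + 1 ≤ e ∧ g ≠ 0 ∧
      g ∈ Algebra.adjoin k (insert Z (Set.range T)) ∧ E g = e' * g ∧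
      ∀ δ : Derivation ℚ L L,
        (∀ x ∈ Algebra.adjoin k (Set.range T), δ x ∈ Algebra.adjoin k (Set.range T)) →
        g * δ Z ∈ Algebra.adjoin k (insert Z (Set.range T))

/-- A word in the derivations `g * δ v`. -/
def wd {L J : Type} [Field L] [CharZero L] (g : L) (δ : J → Derivation ℚ L L) (l : List J)
    (x : L) : L :=
  l.foldr (fun v y => g * δ v y) x

/-- A generalised Wronskian which does not vanish. -/
def WrkStmt : Prop :=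
  ∀ (L J : Type) [Field L] [CharZero L] (δ : J → Derivation ℚ L L) (n p d : ℕ) (f : Fin n → L)
    (v : Fin p → J) (g : L), g ≠ 0 → p ≤ d →
    (∀ a : Fin n → L, (∀ w i, δ w (a i) = 0) → ∑ i, a i * f i = 0 → a = 0) →
    LinearIndependent L (fun a i => δ (v a) (f i)) →
    d ≤ Module.finrank L (Submodule.span L (Set.range fun w i => δ w (f i))) →
    ∃ ρ : Fin n → L → L, (Matrix.of fun q i => ρ q (f i)).det ≠ 0 ∧ ∀ q : Fin n,
      (∀ h : (q : ℕ) < p, ρ q = δ (v ⟨q, h⟩)) ∧ ((q : ℕ) < d → ∃ w, ρ q = δ w) ∧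
        (d ≤ (q : ℕ) → ∃ l : List J, l.length + d ≤ q + 2 ∧ ρ q = wd g δ l)

/-- The determinant at a place. -/
def DlStmt : Prop :=
  ∀ (L : Type) [Field L] (O : Subring L) (n : ℕ) (A : Fin n → Fin (n + 1) → L)
    (w : Fin (n + 1) → L) (g : L) (q₀ : Fin n) (i₀ i₁ : Fin (n + 1)), (∀ q, ∑ i, A q i = 0) →
    (∀ i, w i ≠ 0) → (w i₁)⁻¹ ∈ O → (∀ i, g * A q₀ i / w i ∈ O) →
    (∀ q, q ≠ q₀ → ∃ h : L, ∀ i, (A q i - h * A q₀ i) / w i ∈ O) →
    g * (Matrix.of fun q i => A q (i₀.succAbove i)).det / ∏ i, w i ∈ O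

/-- The covering Wronskian bound. -/
def GwStmt : Prop :=
  ∀ (k L : Type) [Field k] [CharZero k] [Field L] [CharZero L] [Algebra k L] (n r κ d M e : ℕ)
    (u : Fin (n + 1) → L) (T : Fin (r + 2) → L) (Z : L) (E : Derivation k L L)
    (c : Fin (n + 1) → k) (s : Fin d → Fin (n + 1)), Cone k u T Z E → 0 < κ →
    (∀ i, IsAlgebraic ℚ (c i)) → (∀ i, c i ≠ 0) → ∑ i, c i • u i ^ κ = 0 →
    (∀ a : Fin (n + 1) → k, (∀ i, IsAlgebraic ℚ (a i)) → ∑ i, a i • u i ^ κ = 0 →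
      (∃ i, a i = 0) → a = 0) →
    AlgebraicIndependent ℚ (fun a => u (s a)) → n + 1 ≤ M + d → ¬ LI k T Z (e + 1) →
    1 ≤ M ∧ 2 * (κ + r + 2) ≤ gb (n + 1) M e

/-- A line on the hypersurface gives a vanishing subsum. -/
def VdmStmt : Prop :=
  ∀ (L ι : Type) [Field L] [CharZero L] [Fintype ι] (ε u v : ι → L) (κ : ℕ),
    Fintype.card ι ≤ κ + 1 → (∀ i, u i ≠ 0) →
    (∀ S : Finset ι, S.Nonempty → S ≠ univ → ∑ i ∈ S, ε i * u i ^ κ ≠ 0) →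
    (∀ s : ℕ, ∑ i, ε i * (u i + s * v i) ^ κ = 0) → ∃ ρ : L, ∀ i, v i = ρ * u i

/-- Varieties of degree at most two. -/
def LinStmt : Prop :=
  ∀ (k L ι : Type) [Field k] [CharZero k] [Field L] [Algebra k L] [Fintype ι] (r : ℕ) (u : ι → L)
    (T : Fin r → L) (Z : L) (E : Derivation k L L), Cone k u T Z E → ¬ LI k T Z 3 →
    (∀ i, u i ∈ Submodule.span k (insert Z (Set.range T))) ∧
      (∃ (α : Fin r → k) (β : Fin r → Fin r → k),
        Z ^ 2 = ∑ a, α a • (T a * Z) + ∑ a, ∑ b, β a b • (T a * T b)) ∧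
      (¬ LI k T Z 2 → Z ∈ Submodule.span k (Set.range T))

/-- No linear spaces and no quadrics. -/
def LqStmt : Prop :=
  ∀ (k L ι : Type) [Field k] [CharZero k] [Field L] [Algebra k L] [Fintype ι] (r κ : ℕ) (u : ι → L)
    (T : Fin (r + 2) → L) (Z : L) (E : Derivation k L L) (ε : ι → k), Cone k u T Z E →
    Fintype.card ι ≤ κ + 1 → ∑ i, ε i • u i ^ κ = 0 →
    (∀ S : Finset ι, S.Nonempty → S ≠ univ → ∑ i ∈ S, ε i • u i ^ κ ≠ 0) →
    LI k T Z 2 ∧ (0 < r → LI k T Z 3)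

/-- Extension of the independent coordinates. -/
def ExtStmt : Prop :=
  (∀ (k L : Type) [Field k] [Field L] [Algebra k L] (p r : ℕ) (w : Fin p → L) (T : Fin r → L),
    AlgebraicIndependent k w → (∀ a, IsAlgebraic (Algebra.adjoin k (Set.range T)) (w a)) → p ≤ r) ∧
  ∀ (k L σ : Type) [Field k] [Field L] [Algebra k L] (r j e : ℕ) (u : σ → L) (T : Fin r → L) (Z : L)
    (t : Fin j → σ), AlgebraicIndependent k T → (∀ a, T a ∈ Algebra.adjoin k (Set.range u)) →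
    IsAlgebraic (Algebra.adjoin k (Set.range T)) Z → LI k T Z e →
    AlgebraicIndependent k (fun a => u (t a)) →
    (∀ i, IsAlgebraic (Algebra.adjoin k (Set.range fun a => u (t a))) (u i)) →
    ∃ T' : Fin j → L, (∀ a, T' a ∈ Set.range T ∪ Set.range u) ∧ LI k T' Z e

/-- A circuit which meets two classes. -/
def CircStmt : Prop :=
  ∀ (C V σ Γ : Type) [Field C] [AddCommGroup V] [Module C V] [Fintype σ] (f : σ → V) (γ : σ → Γ),
    ∑ i, f i = 0 → (∀ S : Finset σ, S.Nonempty → S ≠ univ → ∑ i ∈ S, f i ≠ 0) →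
    (∃ i i', γ i ≠ γ i') → ∃ (n : ℕ) (g : Fin (n + 1) → σ) (c : Fin (n + 1) → C),
      g.Injective ∧ (∀ i, c i ≠ 0) ∧ ∑ i, c i • f (g i) = 0 ∧
      (∀ a : Fin (n + 1) → C, ∑ i, a i • f (g i) = 0 → (∃ i, a i = 0) → a = 0) ∧
      ∃ i i', γ (g i) ≠ γ (g i')

/-- The degree bound on the cone. -/
def CdStmt : Prop :=
  ∀ (k L σ : Type) [Field k] [CharZero k] [Field L] [CharZero L] [Algebra k L] [Fintype σ]
    (u : σ → L) (D : Derivation k L L) (ε : σ → ℤ) (κ d j E : ℕ) (s : Fin (d + 1) → σ)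
    (t : Fin (j + 1) → σ), (∀ x : L, IsAlgebraic k x → x ∈ Set.range (algebraMap k L)) →
    (∀ i, D (u i) = u i) → 0 < κ → ∑ i, (ε i : L) * u i ^ κ = 0 →
    (∀ S : Finset σ, S.Nonempty → S ≠ univ → ∑ i ∈ S, (ε i : L) * u i ^ κ ≠ 0) →
    AlgebraicIndependent ℚ (fun a => u (s a)) → AlgebraicIndependent k (fun a => u (t a)) →
    (∀ i, IsAlgebraic (Algebra.adjoin k (Set.range fun a => u (t a))) (u i)) → 0 < j →
    Good (Fintype.card σ) κ d j E →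
    ∃ (N : Fin (j + 1) → σ → ℤ) (n : σ → ℤ), LI k (fun a => fm u (N a)) (fm u n) (E + 1)

/-- The degree bound for the ratios. -/
def Deg3Stmt : Prop :=
  ∀ (K σ : Type) [Field K] [CharZero K] [Fintype σ] (k : Subfield K) (y : σ → K) (j₀ : σ)
    (ε : σ → ℤ) (κ d j E : ℕ) (s : Fin d → σ), (∀ c : K, IsAlgebraic k c → c ∈ k) → y j₀ = 1 →
    0 < κ → ∑ i, (ε i : K) * y i ^ κ = 0 →
    (∀ S : Finset σ, S.Nonempty → S ≠ univ → ∑ i ∈ S, (ε i : K) * y i ^ κ ≠ 0) →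
    AlgebraicIndependent ℚ (fun a => y (s a)) → Tr k y j → 0 < j →
    Good (Fintype.card σ) κ d j E →
    ∃ (N : Fin (j + 1) → σ → ℤ) (n : σ → ℤ), fm y (N 0) ≠ 0 ∧
      LI k (fun a : Fin j => fm y (N a.succ) / fm y (N 0)) (fm y n / fm y (N 0)) (E + 1)

end Pool.Agent.MP_4060c9_nt.H98
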