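import Pool.Agent.MP_4060c9_nt.H98.Ultra
import Pool.Agent.MP_4060c9_nt.H98.Div
import Pool.Agent.MP_4060c9_nt.H98.Det
import Pool.Agent.MP_4060c9_nt.H98.Cov
import Pool.Agent.MP_4060c9_nt.H98.Small

/-!
One step of the determinant method in the ultrapower.
-/

set_option autoImplicit false

namespace Pool.Agent.MP_4060c9_nt.H98

open Filter MvPolynomial

section

variable {k K : Type} [Field k] [Field K] [Algebra k K] {r e : ℕ} {t : Fin r → K} {z : K}
  {M : Finset (Ix r)} {c : Ix r → k}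

lemma LI.gv (h : LI k t z e) (hM : ∀ m ∈ M, m.2 < e)
    (h0 : Gv M (fun m => algebraMap k K (c m)) t z = 0) : ∀ m ∈ M, c m = 0 := fun m hm => by
  classical
  refine linearIndependent_iff'.1 h (M.subtype fun m => m.2 < e) (fun m => c m.1) ?_ ⟨m, hM m hm⟩
    (Finset.mem_subtype.2 hm)
  rw [Finset.sum_subtype_of_mem (fun m => c m • mon t z m) hM, ← h0, Gv]
  simp only [Algebra.smul_def]

lemma of_not_LI (h : ¬ LI k t z e) : ∃ (M : Finset (Ix r)) (c : Ix r → k), (∀ m ∈ M, m.2 < e) ∧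
    (∃ m ∈ M, c m ≠ 0) ∧ Gv M (fun m => algebraMap k K (c m)) t z = 0 := by
  obtain ⟨s, g, h1, i, h2, h3⟩ := not_linearIndependent_iff.1 h
  refine ⟨s.map (.subtype _), fun m => if h : m.2 < e then g ⟨m, h⟩ else 0, fun m hm => ?_,
    ⟨i.1, Finset.mem_map_of_mem _ h2, by simpa [i.2] using h3⟩, ?_⟩
  · obtain ⟨m, -, rfl⟩ := Finset.mem_map.1 hm
    exact m.2
  · rw [Gv, Finset.sum_map, ← h1]
    exact Finset.sum_congr rfl fun m _ => by simp [m.2, Algebra.smul_def]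

lemma LI.gd [CharZero k] (h : LI k t z e) (he : 0 < e) (hM : ∀ m ∈ M, m.2 < e + 1)
    (hc : ∃ m ∈ M, c m ≠ 0) (h0 : Gv M (fun m => algebraMap k K (c m)) t z = 0) :
    Gd M (fun m => algebraMap k K (c m)) t z ≠ 0 := fun h1 => by
  classical
  have h2 : ∀ m ∈ M, m.2 ≠ 0 → c m = 0 := fun m hm hm' => by
    have := h.gv (M := ({m ∈ M | m.2 ≠ 0}).image fun m => (m.1, m.2 - 1))
      (c := fun m => c (m.1, m.2 + 1) * (m.2 + 1 : ℕ)) (fun m hm => by
        obtain ⟨m', hm', rfl⟩ := Finset.mem_image.1 hm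
        have := hM m' (Finset.mem_filter.1 hm').1
        dsimp only
        omega) (by
        rw [Gv, Finset.sum_image fun a ha b hb hab => by
          have h3 := (Finset.mem_filter.1 ha).2
          have h4 := (Finset.mem_filter.1 hb).2
          rw [Prod.mk.injEq] at hab
          exact Prod.ext hab.1 (by omega), ← h1, Gd, Finset.sum_filter]
        refine Finset.sum_congr rfl fun m _ => ?_
        split_ifs with h3
        · rw [Nat.sub_add_cancel (Nat.one_le_iff_ne_zero.2 h3), map_mul, map_natCast, mon, dmon,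
            mul_assoc]
        · simp [dmon, not_not.1 h3]) _
      (Finset.mem_image_of_mem _ (Finset.mem_filter.2 ⟨hm, hm'⟩))
    rw [Nat.sub_add_cancel (Nat.one_le_iff_ne_zero.2 hm')] at this
    exact (mul_eq_zero.1 this).resolve_right (Nat.cast_ne_zero.2 hm')
  obtain ⟨m, hm, hc⟩ := hc
  refine hc (h.gv (M := {m ∈ M | m.2 = 0}) (fun m hm => (Finset.mem_filter.1 hm).2 ▸ he) ?_ m
    (Finset.mem_filter.2 ⟨hm, not_not.1 (mt (h2 m hm) hc)⟩))
  rw [← h0, Gv, Gv, Finset.sum_filter]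
  refine Finset.sum_congr rfl fun m hm => ?_
  split_ifs with h3
  · rfl
  · simp [h2 m hm h3]

lemma ex_not_LI {g : MvPolynomial (Fin (r + 1)) k} (hg : g ≠ 0)
    (h0 : aeval (Fin.cons z t : Fin (r + 1) → K) g = 0) : ∃ e, ¬ LI k t z e := by
  classical
  by_contra hn
  push Not at hn
  obtain ⟨d, hd⟩ := support_nonempty.2 hg
  have h1 : ∀ d : Fin (r + 1) →₀ ℕ,
      Finsupp.equivFunOnFinite.symm (Fin.cons (d 0) fun a => d a.succ) = d := fun d => by
    ext a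
    refine Fin.cases ?_ (fun a => ?_) a <;> simp
  have := (hn (g.totalDegree + 1)).gv (M := g.support.image fun d => (fun a => d a.succ, d 0))
    (c := fun m => coeff (Finsupp.equivFunOnFinite.symm (Fin.cons m.2 m.1)) g) (fun m hm => by
      obtain ⟨d, hd, rfl⟩ := Finset.mem_image.1 hm
      exact Nat.lt_succ_of_le ((monomial_le_degreeOf 0 hd).trans (degreeOf_le_totalDegree _ _)))
    (by
      rw [Gv, Finset.sum_image fun a _ b _ hab => by
        rw [Prod.mk.injEq] at hab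
        rw [← h1 a, ← h1 b, hab.1, hab.2], ← h0, aeval_def, eval₂_eq']
      refine Finset.sum_congr rfl fun d _ => ?_
      simp [h1, mon, Fin.prod_univ_succ, mul_comm]) _ (Finset.mem_image_of_mem _ hd)
  rw [h1] at this
  exact mem_support_iff.1 hd this

end

variable {σ : Type} {r : ℕ} (t : Fin r → σ) (j : σ) (M : Finset (Ix r)) (c : ℕ → Ix r → ℚ)

lemma rep_Gv : Rep (Gv M (fun m => C (gm fun i => c i m)) (fun a => X (t a)) (X j))
    fun i x => Gv M (c i) (fun a => x (t a)) (x j) := fun x => by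
  rw [map_Gv]
  simp only [eval_C, eval_X, st]
  rw [← map_Gv]
  congr 1
  funext i
  exact map_Gv (Pi.evalRingHom (fun _ => ℚ) i) _ _ _ _

lemma rep_Gd : Rep (Gd M (fun m => C (gm fun i => c i m)) (fun a => X (t a)) (X j))
    fun i x => Gd M (c i) (fun a => x (t a)) (x j) := fun x => by
  rw [map_Gd]
  simp only [eval_C, eval_X, st]
  rw [← map_Gd]
  congr 1
  funext i
  exact map_Gd (Pi.evalRingHom (fun _ => ℚ) i) _ _ _ _

variable {M c} in
lemma ex_ne (h : ∀ᶠ i in UU, ∃ m ∈ M, c i m ≠ 0) : ∃ m ∈ M, gm (fun i => c i m) ≠ 0 := by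
  simpa only [gm_ne_zero, Finset.mem_coe] using (Ultrafilter.eventually_exists_mem_iff M.finite_toSet).1 h

variable {K : Type} [Field K] [Algebra UK K] (y : σ → K)

lemma aeval_Gv (c : Ix r → UK) : aeval y (Gv M (fun m => C (c m)) (fun a => X (t a)) (X j)) =
    Gv M (fun m => algebraMap UK K (c m)) (fun a => y (t a)) (y j) := by
  simpa using map_Gv (aeval y : MvPolynomial σ UK →ₐ[UK] K).toRingHom M (fun m => C (c m))
    (fun a => X (t a)) (X j)

lemma aeval_Gd (c : Ix r → UK) : aeval y (Gd M (fun m => C (c m)) (fun a => X (t a)) (X j)) =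
    Gd M (fun m => algebraMap UK K (c m)) (fun a => y (t a)) (y j) := by
  simpa using map_Gd (aeval y : MvPolynomial σ UK →ₐ[UK] K).toRingHom M (fun m => C (c m))
    (fun a => X (t a)) (X j)

variable {S : ℕ → Finset (σ → ℤ)} {P : ℕ → ℕ} {α : ℝ}

/-- A relation with small integral coefficients. -/
lemma small_rel (hP : ∀ H : ℝ, ∀ᶠ i in UU, H ≤ P i) (hbox : ∀ i, ∀ x ∈ S i, ∀ j, (|x j| : ℝ) ≤ P i)
    (c : Ix r → UK) (hc : ∃ m ∈ M, c m ≠ 0)
    (h : Gv M (fun m => C (c m)) (fun a => X (t a)) (X j) ∈ II S) :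
    ∃ (c : ℕ → Ix r → ℤ) (A : ℝ), ∀ᶠ i in UU, (∃ m ∈ M, c i m ≠ 0) ∧
      (∀ m ∈ M, (|c i m| : ℝ) ≤ (P i : ℝ) ^ A) ∧
      ∀ x ∈ S i, Gv M (c i) (fun a => x (t a)) (x j) = 0 := by
  choose f hf using fun m => gm_surj (c m)
  obtain rfl : c = fun m => gm fun i => f m i := funext fun m => (hf m).symm
  obtain ⟨m, hm, hc⟩ := hc
  set D := M.sup fun m => ∑ a, m.1 a + m.2
  have h1 := (rep_Gv t j M fun i m => f m i).mem_iff.1 h
  have : ∀ᶠ i in UU, ∃ c : Ix r → ℤ, (∃ m ∈ M, c m ≠ 0) ∧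
      (∀ m ∈ M, (|c m| : ℝ) ≤ (P i : ℝ) ^ (((D + 1) * M.card : ℕ) : ℝ)) ∧
      ∀ x ∈ S i, Gv M c (fun a => x (t a)) (x j) = 0 := by
    filter_upwards [h1, gm_ne_zero.1 hc, hP 1, hP M.card] with i h1 h2 h3 h4
    obtain ⟨c, h5, h6, h7⟩ := small _ M {v | ∃ x ∈ S i, v = mon (fun a => x (t a)) (x j)}
      ((P i : ℝ) ^ D) (one_le_pow₀ h3) (by
        rintro _ ⟨x, hx, rfl⟩ m hm
        have := Det.mon_le (fun a => hbox i x hx (t a)) (hbox i x hx j) m
        push_cast at this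
        exact this.trans (pow_le_pow_right₀ h3 (Finset.le_sup (f := fun m : Ix r =>
          ∑ a, m.1 a + m.2) hm))) ⟨fun m => f m i, ⟨m, hm, h2⟩, by
        rintro _ ⟨x, hx, rfl⟩
        rw [← h1 x hx, Gv]
        exact Finset.sum_congr rfl fun m _ => congrArg _ (map_mon (Int.castRingHom ℚ) _ _ _)⟩
    refine ⟨c, h5, fun m hm => (h6 m hm).trans ?_, fun x hx => h7 _ ⟨x, hx, rfl⟩⟩
    rw [Real.rpow_natCast, pow_mul, pow_succ']
    have h8 : (0 : ℝ) ≤ (P i : ℝ) ^ D := pow_nonneg (Nat.cast_nonneg _) _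
    exact pow_le_pow_left₀ (mul_nonneg (Nat.cast_nonneg _) h8) (mul_le_mul_of_nonneg_right h4 h8) _
  obtain ⟨c, hc⟩ := this.choice
  exact ⟨c, _, hc⟩

lemma step {e : ℕ} {a : ℝ} (hr : 0 < r) (ha : 0 < a) (he : 1 < a ^ r * e) (hP₁ : ∀ i, 1 ≤ P i)
    (hP : ∀ H : ℝ, ∀ᶠ i in UU, H ≤ P i) (hbox : ∀ i, ∀ x ∈ S i, ∀ j, (|x j| : ℝ) ≤ P i)
    (hG : Gen P S α) (hy : ∀ g, aeval y g = 0 ↔ g ∈ II S)
    (hL : LI UK (fun a => y (t a)) (y j) e) (hN : ∃ e, ¬ LI UK (fun a => y (t a)) (y j) e) :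
    ∃ S', (∀ i, S' i ⊆ S i) ∧ Big P S' (α - r * a) ∧ ∃ g ∈ II S', g ∉ II S := by
  classical
  have he0 : 0 < e := Nat.pos_of_ne_zero (by rintro rfl; norm_num at he)
  obtain ⟨D, hD, hD₁, hD₂⟩ : ∃ D, 0 < D ∧ LI UK (fun a => y (t a)) (y j) D ∧
      ¬ LI UK (fun a => y (t a)) (y j) (D + 1) := by
    by_contra hn
    push Not at hn
    obtain ⟨e', he'⟩ := hN
    have : ∀ n, LI UK (fun a => y (t a)) (y j) (e + n) := fun n => by
      induction n with
      | zero => exact hL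
      | succ n ih => exact hn (e + n) (by omega) ih
    obtain ⟨M, c, h1, ⟨m, h2, h3⟩, h4⟩ := of_not_LI he'
    exact h3 ((this e').gv (fun m hm => (h1 m hm).trans_le (Nat.le_add_left _ _)) h4 m h2)
  obtain ⟨M, c₀, hM, h1, h2⟩ := of_not_LI hD₂
  obtain ⟨c, A, hc⟩ := small_rel t j M hP hbox c₀ h1 ((hy _).1 (by rwa [aeval_Gv]))
  have h3 := (rep_Gv t j M fun i m => c i m).mem_iff.2 (hc.mono fun i hi x hx =>
    (map_Gv (Int.castRingHom ℚ) M (c i) _ _).symm.trans (by rw [hi.2.2 x hx, map_zero]))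
  have h4 := hD₁.gd hD hM (ex_ne (c := fun i m => c i m) (hc.mono fun i hi => by
    exact_mod_cast hi.1)) (by rw [← aeval_Gv]; exact (hy _).2 h3)
  rw [← aeval_Gd] at h4
  have h5 := hG.avoid (mt (hy _).2 h4) (rep_Gd t j M fun i m => c i m)
  obtain ⟨B, C, H₀, hB, h6⟩ := cov (det div) r e a A M hr ha he
  have h7 : ∀ᶠ i in UU, ∃ F : Finset (Ix r → ℚ), (∀ d ∈ F, ∃ m ∈ B, d m ≠ 0) ∧
      (F.card : ℝ) ≤ C * (P i : ℝ) ^ (r * a) ∧
      ∀ x ∈ ({x ∈ S i | Gd M (fun m => (c i m : ℚ)) (fun a => x (t a)) (x j) ≠ 0} : Finset _),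
        ∃ d ∈ F, Gv B d (fun a => (x (t a) : ℚ)) (x j) = 0 := by
    filter_upwards [hc, hP H₀] with i hi h7
    obtain ⟨F, h8, h9, h10⟩ := h6 _ (c i) h7 hi.2.1
    refine ⟨F, h9, h8, fun x hx => ?_⟩
    obtain ⟨hx, h11⟩ := Finset.mem_filter.1 hx
    exact h10 _ _ (fun a => hbox i x hx (t a)) (hbox i x hx j) (hi.2.2 x hx) fun h => h11
      ((map_Gd (Int.castRingHom ℚ) M (c i) _ _).symm.trans (by rw [h, map_zero]))
  obtain ⟨F, hF⟩ := h7.choice
  obtain ⟨d, h8, h9⟩ := h5.cover hP₁ F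
    (fun _ d x => Gv B d (fun a => (x (t a) : ℚ)) (x j) = 0) (hF.mono fun i hi => hi.2)
  refine ⟨_, fun i => (Finset.filter_subset _ _).trans (Finset.filter_subset _ _), h9, _,
    (rep_Gv t j B d).mem_iff.2 (.of_forall fun i x hx => (Finset.mem_filter.1 hx).2), fun h => ?_⟩
  obtain ⟨m, h10, h11⟩ := ex_ne ((hF.and h8).mono fun i hi => hi.1.1 _ hi.2)
  exact h11 (hL.gv hB (by rw [← aeval_Gv]; exact (hy _).2 h) m h10)

end Pool.Agent.MP_4060c9_nt.H98
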