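import Pool.Agent.MP_4060c9_nt.H98.Spec

/-!
Sequences of finite sets of integral points, seen in the ultrapower of the rationals.
-/

set_option autoImplicit false

namespace Pool.Agent.MP_4060c9_nt.H98

open Filter MvPolynomial

noncomputable abbrev UU : Ultrafilter ℕ := hyperfilter ℕ

/-- The ultrapower of the rationals. -/
def UK : Type := Germ (UU : Filter ℕ) ℚ

noncomputable instance : Field UK := inferInstanceAs (Field (Germ (UU : Filter ℕ) ℚ))

noncomputable def gm : (ℕ → ℚ) →+* UK := Germ.coeRingHom _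

lemma gm_eq_zero {f : ℕ → ℚ} : gm f = 0 ↔ ∀ᶠ i in UU, f i = 0 := Germ.coe_eq (g := 0)

lemma gm_ne_zero {f : ℕ → ℚ} : gm f ≠ 0 ↔ ∀ᶠ i in UU, f i ≠ 0 := by
  rw [Ne, gm_eq_zero, Ultrafilter.eventually_not]

lemma gm_surj (x : UK) : ∃ f, gm f = x := Germ.inductionOn x fun f => ⟨f, rfl⟩

instance : CharZero UK :=
  charZero_of_injective_ringHom (f := gm.comp (Pi.constRingHom ℕ ℚ)) (RingHom.injective _)

variable {σ : Type}

/-- The point of the ultrapower given by a sequence of integral points. -/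
noncomputable def st (x : ℕ → σ → ℤ) (j : σ) : UK := gm fun i => x i j

/-- The ideal of a sequence of finite sets. -/
def II (S : ℕ → Finset (σ → ℤ)) : Ideal (MvPolynomial σ UK) where
  carrier := {g | ∀ x : ℕ → σ → ℤ, (∀ᶠ i in UU, x i ∈ S i) → eval (st x) g = 0}
  add_mem' ha hb x hx := by rw [map_add, ha x hx, hb x hx, add_zero]
  zero_mem' _ _ := map_zero _
  smul_mem' c g hg x hx := by rw [smul_eq_mul, map_mul, hg x hx, mul_zero]

/-- The functions `G i` represent the polynomial `g`. -/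
def Rep (g : MvPolynomial σ UK) (G : ℕ → (σ → ℤ) → ℚ) : Prop :=
  ∀ x : ℕ → σ → ℤ, eval (st x) g = gm fun i => G i (x i)

lemma ex_rep (g : MvPolynomial σ UK) : ∃ G, Rep g G := by
  induction g using MvPolynomial.induction_on with
  | C c =>
    obtain ⟨f, rfl⟩ := gm_surj c
    exact ⟨fun i _ => f i, fun x => eval_C _⟩
  | add f g hf hg =>
    obtain ⟨F, hF⟩ := hf
    obtain ⟨G, hG⟩ := hg
    exact ⟨fun i x => F i x + G i x, fun x => by rw [map_add, hF, hG, ← map_add]; rfl⟩
  | mul_X f j hf =>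
    obtain ⟨F, hF⟩ := hf
    exact ⟨fun i x => F i x * x j, fun x => by rw [map_mul, hF, eval_X, st, ← map_mul]; rfl⟩

variable {S S' : ℕ → Finset (σ → ℤ)} {g : MvPolynomial σ UK} {G : ℕ → (σ → ℤ) → ℚ}
  {P : ℕ → ℕ} {α : ℝ}

lemma Rep.mem_iff (h : Rep g G) : g ∈ II S ↔ ∀ᶠ i in UU, ∀ x ∈ S i, G i x = 0 := by
  refine ⟨fun hg => ?_, fun hg x hx => ?_⟩
  · by_contra hn
    rw [← Ultrafilter.eventually_not] at hn
    have : ∀ i, ∃ x : σ → ℤ, (¬ ∀ x ∈ S i, G i x = 0) → x ∈ S i ∧ G i x ≠ 0 := fun i => by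
      by_cases h : ∀ x ∈ S i, G i x = 0
      · exact ⟨0, fun h' => (h' h).elim⟩
      · push Not at h
        obtain ⟨x, h⟩ := h
        exact ⟨x, fun _ => h⟩
    choose x hx using this
    have h1 := hg x (hn.mono fun i hi => (hx i hi).1)
    rw [h x] at h1
    exact gm_ne_zero.2 (hn.mono fun i hi => (hx i hi).2) h1
  · rw [h x, gm_eq_zero]
    exact (hg.and hx).mono fun i hi => hi.1 _ hi.2

lemma II_anti (h : ∀ i, S' i ⊆ S i) : II S ≤ II S' :=
  fun _ hg x hx => hg x (hx.mono fun i hi => h i hi)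

/-- The sets have more than any constant times `P ^ α` elements. -/
def Big (P : ℕ → ℕ) (S : ℕ → Finset (σ → ℤ)) (α : ℝ) : Prop :=
  ∀ C : ℝ, ∀ᶠ i in UU, C * (P i : ℝ) ^ α < (S i).card

/-- No big subfamily has a larger ideal. -/
def Gen (P : ℕ → ℕ) (S : ℕ → Finset (σ → ℤ)) (α : ℝ) : Prop :=
  Big P S α ∧ ∀ S', (∀ i, S' i ⊆ S i) → Big P S' α → II S' ≤ II S

lemma Big.gen [Finite σ] (h : Big P S α) : ∃ S', (∀ i, S' i ⊆ S i) ∧ Gen P S' α := by
  obtain ⟨_, ⟨S', h1, h2, rfl⟩, h3⟩ := set_has_maximal_iff_noetherian.2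
    (inferInstance : IsNoetherian (MvPolynomial σ UK) (MvPolynomial σ UK))
    {I | ∃ S', (∀ i, S' i ⊆ S i) ∧ Big P S' α ∧ II S' = I} ⟨_, S, fun _ => subset_rfl, h, rfl⟩
  refine ⟨S', h1, h2, fun S'' h4 h5 => ?_⟩
  by_contra hn
  exact h3 _ ⟨S'', fun i => (h4 i).trans (h1 i), h5, rfl⟩ (lt_of_le_not_ge (II_anti h4) hn)

lemma Gen.avoid (h : Gen P S α) (hg : g ∉ II S) (hG : Rep g G) :
    Big P (fun i => {x ∈ S i | G i x ≠ 0}) α := by
  have h0 : ¬ Big P (fun i => {x ∈ S i | G i x = 0}) α := fun h0 =>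
    hg (h.2 _ (fun i => Finset.filter_subset _ _) h0
      (hG.mem_iff.2 (.of_forall fun i x hx => (Finset.mem_filter.1 hx).2)))
  obtain ⟨C₀, h0⟩ := not_forall.1 h0
  rw [← Ultrafilter.eventually_not] at h0
  intro C
  filter_upwards [h0, h.1 (C + C₀)] with i h1 h2
  rw [← Finset.card_filter_add_card_filter_not (s := S i) fun x => G i x = 0] at h2
  push_cast at h2
  linarith [not_lt.1 h1]

lemma Big.ex (h : Big P S α) : ∃ x : ℕ → σ → ℤ, ∀ᶠ i in UU, x i ∈ S i := by
  have : ∀ i, ∃ x : σ → ℤ, (S i).Nonempty → x ∈ S i := fun i => by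
    by_cases h : (S i).Nonempty
    · exact ⟨_, fun _ => h.choose_spec⟩
    · exact ⟨0, fun h' => (h h').elim⟩
  choose x hx using this
  refine ⟨x, (h 0).mono fun i hi => hx i ?_⟩
  rw [zero_mul] at hi
  exact Finset.card_pos.1 (Nat.cast_pos.1 hi)

lemma Gen.prime (h : Gen P S α) : (II S).IsPrime := by
  refine ⟨fun ht => ?_, fun {f g} hfg => ?_⟩
  · obtain ⟨x, hx⟩ := h.1.ex
    simpa using (Ideal.eq_top_iff_one _).1 ht x hx
  · by_contra hn
    obtain ⟨hf, hg⟩ := not_or.1 hn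
    obtain ⟨F, hF⟩ := ex_rep f
    refine hg (h.2 _ (fun i => Finset.filter_subset _ _) (h.avoid hf hF) fun x hx => ?_)
    have h1 := hfg x (hx.mono fun i hi => (Finset.mem_filter.1 hi).1)
    rw [map_mul, hF x] at h1
    exact (mul_eq_zero.1 h1).resolve_left
      (gm_ne_zero.2 (hx.mono fun i hi => (Finset.mem_filter.1 hi).2))

lemma Big.mono (h : Big P S α) (hP : ∀ i, 1 ≤ P i) {β : ℝ} (hβ : β ≤ α) : Big P S β := fun C => by
  filter_upwards [h |C|] with i hi
  refine lt_of_le_of_lt ?_ hi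
  have : (1 : ℝ) ≤ P i := by exact_mod_cast hP i
  exact mul_le_mul (le_abs_self C) (Real.rpow_le_rpow_of_exponent_le this hβ) (by positivity)
    (abs_nonneg C)

lemma Big.cover (h : Big P S α) (hP : ∀ i, 1 ≤ P i) {B : Type} [Nonempty B] (F : ℕ → Finset B)
    (R : ℕ → B → (σ → ℤ) → Prop) [∀ i d x, Decidable (R i d x)] {C b : ℝ}
    (hF : ∀ᶠ i in UU, ((F i).card : ℝ) ≤ C * (P i : ℝ) ^ b ∧ ∀ x ∈ S i, ∃ d ∈ F i, R i d x) :
    ∃ d : ℕ → B, (∀ᶠ i in UU, d i ∈ F i) ∧ Big P (fun i => {x ∈ S i | R i (d i) x}) (α - b) := by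
  classical
  have : ∀ i, ∃ d : B, (F i).Nonempty → d ∈ F i ∧
      ∀ d' ∈ F i, {x ∈ S i | R i d' x}.card ≤ {x ∈ S i | R i d x}.card := fun i => by
    by_cases h : (F i).Nonempty
    · obtain ⟨d, hd⟩ := Finset.exists_max_image (F i) (fun d => {x ∈ S i | R i d x}.card) h
      exact ⟨d, fun _ => hd⟩
    · exact ⟨Classical.arbitrary _, fun h' => (h h').elim⟩
  choose d hd using this
  obtain ⟨x, hx⟩ := h.ex
  have h1 : ∀ᶠ i in UU, (F i).Nonempty := by
    filter_upwards [hx, hF] with i h1 h2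
    obtain ⟨d, h3, -⟩ := h2.2 _ h1
    exact ⟨d, h3⟩
  refine ⟨d, h1.mono fun i hi => (hd i hi).1, fun C' => ?_⟩
  filter_upwards [h1, hF, h (C * C')] with i h1 h2 h3
  by_contra hn
  have h4 : (S i).card ≤ (F i).card * {x ∈ S i | R i (d i) x}.card := by
    refine le_trans (Finset.card_le_card (t := (F i).biUnion fun d => {x ∈ S i | R i d x})
      fun x hx => ?_) (Finset.card_biUnion_le_card_mul _ _ _ (hd i h1).2)
    obtain ⟨d, h5, h6⟩ := h2.2 x hx
    exact Finset.mem_biUnion.2 ⟨d, h5, Finset.mem_filter.2 ⟨hx, h6⟩⟩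
  have h5 : (0 : ℝ) < P i := by exact_mod_cast hP i
  have h6 := mul_le_mul h2.1 (not_lt.1 hn) (by positivity) (le_trans (by positivity) h2.1)
  have h7 : C * (P i : ℝ) ^ b * (C' * (P i : ℝ) ^ (α - b)) = C * C' * (P i : ℝ) ^ α := by
    rw [Real.rpow_sub h5]
    field_simp
  have h8 : ((S i).card : ℝ) ≤ (F i).card * {x ∈ S i | R i (d i) x}.card := by exact_mod_cast h4
  linarith

/-- Any `r + 1` coordinates are algebraically dependent. -/
def Dim (S : ℕ → Finset (σ → ℤ)) (r : ℕ) : Prop :=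
  ∀ t : Fin (r + 1) → σ, ∃ g : MvPolynomial (Fin (r + 1)) UK, g ≠ 0 ∧ rename t g ∈ II S

lemma Dim.anti {r : ℕ} (h : Dim S r) (h' : ∀ i, S' i ⊆ S i) : Dim S' r := fun t =>
  (h t).imp fun _ hg => ⟨hg.1, II_anti h' hg.2⟩

lemma Dim.zero [Finite σ] (h : Dim S 0) : ¬ Big P S 0 := fun hb => by
  classical
  have h1 : {z : σ → UK | ∃ x : ℕ → σ → ℤ, (∀ᶠ i in UU, x i ∈ S i) ∧ st x = z}.Finite := by
    have h0 : ∀ j, ∃ g : MvPolynomial (Fin 1) UK, g ≠ 0 ∧ rename (fun _ => j) g ∈ II S :=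
      fun j => h fun _ => j
    choose g hg hg' using h0
    refine (Set.Finite.pi' fun j => Polynomial.finite_setOfPred_isRoot
      (p := uniqueAlgEquiv UK (Fin 1) (g j)) ((map_ne_zero_iff _ (AlgEquiv.injective _)).2 (hg j))).subset ?_
    rintro _ ⟨x, hx, rfl⟩ j
    have := hg' j x hx
    rw [eval_rename] at this
    rw [Set.mem_ofPred_eq, Polynomial.IsRoot, ← this]
    generalize g j = q
    induction q using MvPolynomial.induction_on with
    | C c => simp
    | add f g hf hg => rw [map_add, map_add, Polynomial.eval_add, hf, hg]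
    | mul_X f j hf =>
      rw [map_mul, map_mul, Polynomial.eval_mul, hf]
      simp
  set n := h1.toFinset.card + 1 with hn
  have : ∀ i, ∃ f : Fin n → σ → ℤ, n ≤ (S i).card → f.Injective ∧ ∀ a, f a ∈ S i := fun i => by
    by_cases h : n ≤ (S i).card
    · obtain ⟨T, hT, h2⟩ := Finset.exists_subset_card_eq h
      let e := (Finset.equivFinOfCardEq h2).symm
      exact ⟨fun a => e a, fun _ => ⟨Subtype.val_injective.comp e.injective, fun a => hT (e a).2⟩⟩
    · exact ⟨0, fun h' => (h h').elim⟩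
  choose f hf using this
  have h2 : ∀ᶠ i in UU, n ≤ (S i).card := (hb n).mono fun i hi => by
    rw [Real.rpow_zero, mul_one] at hi
    exact_mod_cast hi.le
  have h3 := Finset.card_le_card_of_injOn (s := Finset.univ) (t := h1.toFinset)
    (fun a => st fun i => f i a)
    (fun a _ => by simpa using ⟨_, h2.mono fun i hi => (hf i hi).2 a, rfl⟩) fun a _ b _ hab => by
      have h4 : ∀ᶠ i in UU, ∀ j, f i a j = f i b j := eventually_all.2 fun j => by
        have : gm ((fun i => (f i a j : ℚ)) - fun i => (f i b j : ℚ)) = 0 := by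
          rw [map_sub]
          exact sub_eq_zero.2 (congrFun hab j)
        rw [gm_eq_zero] at this
        exact this.mono fun i hi => Int.cast_injective (α := ℚ) (sub_eq_zero.1 hi)
      obtain ⟨i, h5, h6⟩ := (h2.and h4).exists
      exact (hf i h5).1 (funext h6)
  simp [hn] at h3

lemma Dim.drop {r : ℕ} (hp : (II S).IsPrime) (h : Dim S (r + 1)) (h' : ∀ i, S' i ⊆ S i)
    (hg : g ∈ II S') (hg' : g ∉ II S) : Dim S' r := fun t => by
  let A := MvPolynomial (Fin (r + 1)) UK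
  let φ : A →ₐ[UK] MvPolynomial σ UK ⧸ II S := (Ideal.Quotient.mkₐ UK _).comp (rename t)
  let _ : Algebra A (MvPolynomial σ UK ⧸ II S) := φ.toRingHom.toAlgebra
  have h1 : ∀ f, IsAlgebraic A (Ideal.Quotient.mk (II S) f) := fun f => by
    induction f using MvPolynomial.induction_on with
    | C c =>
      have : Ideal.Quotient.mk (II S) (C c) = algebraMap A _ (C c) := by
        change _ = Ideal.Quotient.mk (II S) (rename t (C c))
        rw [rename_C]
      rw [this]
      exact isAlgebraic_algebraMap _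
    | add f g hf hg => rw [map_add]; exact hf.add hg
    | mul_X f j hf =>
      rw [map_mul]
      refine hf.mul ?_
      obtain ⟨q, h2, h3⟩ := h (Fin.cons j t)
      refine ⟨finSuccEquiv UK _ q, by simpa using h2, ?_⟩
      rw [← Ideal.Quotient.eq_zero_iff_mem.2 h3]
      generalize q = q
      induction q using MvPolynomial.induction_on with
      | C c =>
        rw [rename_C, ← algebraMap_eq, AlgEquiv.commutes, Polynomial.algebraMap_apply,
          Polynomial.aeval_C]
        change Ideal.Quotient.mk (II S) (rename t (C c)) = _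
        rw [rename_C]
      | add f g hf hg => simp only [map_add, hf, hg]
      | mul_X f a hf =>
        simp only [map_mul, hf, rename_X]
        congr 1
        refine Fin.cases ?_ (fun a => ?_) a
        · simp [finSuccEquiv_X_zero]
        · rw [finSuccEquiv_X_succ, Polynomial.aeval_C]
          change Ideal.Quotient.mk (II S) (rename t (X a)) = _
          simp
  obtain ⟨q, h2, w, h3⟩ := (h1 g).exists_nonzero_dvd
    (mem_nonZeroDivisors_of_ne_zero (mt Ideal.Quotient.eq_zero_iff_mem.1 hg'))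
  obtain ⟨w, rfl⟩ := Ideal.Quotient.mk_surjective w
  refine ⟨q, h2, ?_⟩
  have h4 : rename t q - g * w ∈ II S := Ideal.Quotient.eq.1 h3
  simpa using add_mem (II_anti h' h4) (Ideal.mul_mem_right w _ hg)

end Pool.Agent.MP_4060c9_nt.H98
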