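import Pool.Agent.MP_4060c9_nt.H98.Spec3

/-!
The number of lattice points in the positive part of the ball.
-/

set_option autoImplicit false

namespace Pool.Agent.MP_4060c9_nt.H98

open Finset MeasureTheory

namespace VolAux

lemma vol_fib (n : ℕ) : volume ((fun t : ℝ => ⌊|t|⌋₊) ⁻¹' {n}) = 2 := by
  have h : (fun t : ℝ => ⌊|t|⌋₊) ⁻¹' {n} = Set.Ioo (-(n + 1 : ℝ)) (n + 1) \ Set.Ioo (-(n : ℝ)) n := by
    ext t
    simp only [Set.mem_preimage, Set.mem_singleton_iff, Nat.floor_eq_iff (abs_nonneg t),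
      Set.mem_sdiff, Set.mem_Ioo, ← abs_lt, not_lt]
    exact and_comm
  rw [h, measure_sdiff (Set.Ioo_subset_Ioo (by linarith) (by linarith))
    measurableSet_Ioo.nullMeasurableSet (by simp), Real.volume_Ioo, Real.volume_Ioo,
    ← ENNReal.ofReal_sub _ (by linarith [n.cast_nonneg (α := ℝ)]),
    show (n + 1 - -(n + 1) - (n - -n) : ℝ) = 2 by ring]
  simp

lemma vol_cells {l : ℕ} {φ : ℝ → ℕ} (hφ : Measurable φ) (F : Finset (Fin l → ℕ))
    (h : ∀ f ∈ F, ∀ i, volume (φ ⁻¹' {f i}) = 2) :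
    volume {u : Fin l → ℝ | (fun i => φ (u i)) ∈ F} = ENNReal.ofReal (#F * 2 ^ l) := by
  have e : {u : Fin l → ℝ | (fun i => φ (u i)) ∈ F} =
      ⋃ f ∈ F, Set.pi Set.univ fun i => φ ⁻¹' {f i} := by
    ext u
    simp only [Set.mem_ofPred_eq, Set.mem_iUnion, Set.mem_pi, Set.mem_univ, true_imp_iff,
      Set.mem_preimage, Set.mem_singleton_iff, exists_prop]
    exact ⟨fun k => ⟨_, k, fun _ => rfl⟩, fun ⟨f, k, k'⟩ => (funext k' : _ = f) ▸ k⟩
  rw [e, measure_biUnion_finset, sum_congr rfl fun f hf => by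
    rw [volume_pi_pi, prod_congr rfl fun i _ => h f hf i]]
  · simp [ENNReal.ofReal_mul, ENNReal.ofReal_pow]
  · intro f _ g _ hne
    exact Set.disjoint_left.2 fun u k k' => hne (funext fun i =>
      (k i trivial : φ (u i) = f i).symm.trans (k' i trivial))
  · exact fun f _ => MeasurableSet.univ_pi fun i => hφ (measurableSet_singleton _)

lemma vol_ball {k l : ℕ} (hk : 0 < k) (hl : 0 < l) {x : ℝ} (hx : 0 ≤ x) :
    volume {u : Fin l → ℝ | ∑ i, |u i| ^ k ≤ x} = ENNReal.ofReal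
      (Real.Gamma (1 + 1 / k) ^ l / Real.Gamma (1 + l / k) * x ^ ((l : ℝ) / k) * 2 ^ l) := by
  have : Nonempty (Fin l) := ⟨⟨0, hl⟩⟩
  have k0 : (0 : ℝ) < k := by exact_mod_cast hk
  have h := volume_sum_rpow_le (Fin l) (p := k) (by exact_mod_cast hk) (x ^ (1 / k : ℝ))
  have e : {u : Fin l → ℝ | ∑ i, |u i| ^ k ≤ x} =
      {u : Fin l → ℝ | (∑ i, |u i| ^ (k : ℝ)) ^ (1 / k : ℝ) ≤ x ^ (1 / k : ℝ)} := by
    ext u
    simp only [Set.mem_ofPred_eq, Real.rpow_natCast]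
    rw [Real.rpow_le_rpow_iff (by positivity) hx (by positivity)]
  rw [e, h, ← ENNReal.ofReal_pow (by positivity), ← ENNReal.ofReal_mul (by positivity),
    Fintype.card_fin, ← Real.rpow_natCast, ← Real.rpow_mul hx, add_comm (1 / k : ℝ),
    add_comm (l / k : ℝ), mul_pow, show (1 / k * l : ℝ) = l / k by ring]
  congr 1
  ring

end VolAux

open VolAux in
theorem vol : VolStmt := by
  intro k l hk hl
  refine ⟨l * 2 ^ (l - 1), fun x hx => ?_⟩
  have x0 : 0 ≤ x := by linarith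
  have k0 : (0 : ℝ) < k := by exact_mod_cast hk
  obtain ⟨r, hr⟩ : ∃ r : ℝ, r = x ^ (k : ℝ)⁻¹ := ⟨_, rfl⟩
  have r1 : 1 ≤ r := hr ▸ Real.one_le_rpow hx (by positivity)
  have rk : r ^ k = x := hr ▸ Real.rpow_inv_natCast_pow x0 hk.ne'
  have rl : x ^ (((l : ℝ) - 1) / k) = r ^ (l - 1) := by
    rw [hr, ← Real.rpow_natCast, ← Real.rpow_mul x0, Nat.cast_pred hl]
    congr 1
    ring
  have hm : Measurable fun t : ℝ => ⌊|t|⌋₊ := Nat.measurable_floor.comp measurable_abs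
  have hV := vol_ball hk hl x0
  have V0 : 0 ≤ Real.Gamma (1 + 1 / k) ^ l / Real.Gamma (1 + l / k) * x ^ ((l : ℝ) / k) := by
    positivity
  rw [← hr, rl]
  generalize Real.Gamma (1 + 1 / k) ^ l / Real.Gamma (1 + l / k) * x ^ ((l : ℝ) / k) = V at hV V0 ⊢
  obtain ⟨T, hT⟩ : ∃ T, T = {f ∈ Fintype.piFinset fun _ : Fin l => Icc 1 ⌊r⌋₊ |
    ((∑ i, f i ^ k : ℕ) : ℝ) ≤ x} := ⟨_, rfl⟩
  obtain ⟨U, hU⟩ : ∃ U, U = {f ∈ Fintype.piFinset fun _ : Fin l => range (⌊r⌋₊ + 1) |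
    ((∑ i, f i ^ k : ℕ) : ℝ) ≤ x} := ⟨_, rfl⟩
  rw [← hT]
  have h1 : (#T : ℝ) ≤ V := by
    refine le_of_mul_le_mul_right ?_ (by positivity : (0 : ℝ) < 2 ^ l)
    rw [← ENNReal.ofReal_le_ofReal_iff (by positivity), ← hV,
      ← vol_cells (φ := fun t => ⌊|t|⌋₊ + 1) (hm.add_const 1) T fun f hf i => ?_]
    · refine measure_mono fun u hu => ?_
      rw [hT] at hu
      refine le_trans ?_ (mem_filter.1 hu).2
      push_cast
      gcongr with i
      exact (Nat.lt_floor_add_one _).le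
    · rw [hT] at hf
      have := (mem_Icc.1 (Fintype.mem_piFinset.1 (mem_filter.1 hf).1 i)).1
      rw [← vol_fib (f i - 1)]
      congr 1
      ext t
      simp only [Set.mem_preimage, Set.mem_singleton_iff]
      omega
  have h2 : V ≤ #U := by
    refine le_of_mul_le_mul_right ?_ (by positivity : (0 : ℝ) < 2 ^ l)
    rw [← ENNReal.ofReal_le_ofReal_iff (by positivity), ← hV,
      ← vol_cells hm U fun f _ i => vol_fib _]
    refine measure_mono fun u (hu : ∑ i, |u i| ^ k ≤ x) => ?_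
    rw [hU]
    refine mem_filter.2 ⟨Fintype.mem_piFinset.2 fun i =>
      mem_range_succ_iff.2 (Nat.floor_mono ?_), le_trans ?_ hu⟩
    · refine le_of_pow_le_pow_left₀ hk.ne' (by linarith) (le_trans ?_ (hu.trans rk.ge))
      exact single_le_sum (f := fun i => |u i| ^ k) (fun _ _ => by positivity) (mem_univ i)
    · push_cast
      gcongr with i
      exact Nat.floor_le (abs_nonneg _)
  have h3 : #U ≤ #T + l * (⌊r⌋₊ + 1) ^ (l - 1) := by
    have : U ⊆ T ∪ univ.biUnion fun i =>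
        {f ∈ Fintype.piFinset fun _ : Fin l => range (⌊r⌋₊ + 1) | f i = 0} := fun f hf => by
      rw [hU, mem_filter] at hf
      by_cases h : ∃ i, f i = 0
      · obtain ⟨i, hi⟩ := h
        exact mem_union_right _ (mem_biUnion.2 ⟨i, mem_univ _, mem_filter.2 ⟨hf.1, hi⟩⟩)
      · refine mem_union_left _ (hT ▸ mem_filter.2 ⟨Fintype.mem_piFinset.2 fun i => mem_Icc.2
          ⟨Nat.pos_of_ne_zero fun e => h ⟨i, e⟩, ?_⟩, hf.2⟩)
        exact mem_range_succ_iff.1 (Fintype.mem_piFinset.1 hf.1 i)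
    refine (card_le_card this).trans ((card_union_le _ _).trans (Nat.add_le_add_left
      (card_biUnion_le.trans (le_of_eq ?_)) _))
    rw [sum_congr rfl fun i _ => Fintype.card_filter_piFinset_const_eq_of_mem _ i
      (mem_range.2 (Nat.succ_pos _))]
    simp
  have h4 : (#U : ℝ) ≤ #T + l * 2 ^ (l - 1) * r ^ (l - 1) := by
    refine (Nat.cast_le.2 h3).trans ?_
    rw [mul_assoc, ← mul_pow]
    push_cast
    gcongr
    linarith [Nat.floor_le (show 0 ≤ r by linarith)]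
  rw [abs_sub_comm, abs_of_nonneg (sub_nonneg.2 h1)]
  linarith

end Pool.Agent.MP_4060c9_nt.H98
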