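import Pool.Agent.MP_4060c9_nt.H98.Spec4
import Pool.Agent.MP_4060c9_nt.H98.Walk

/-!
The staged walk.
-/

set_option autoImplicit false

namespace Pool.Agent.MP_4060c9_nt.H98

open Finset

namespace Walk2Aux

/-- A step is a drop or lies early. -/
lemma pot {δ : ℕ → ℕ} {A : ℕ → ℝ} {η : ℝ} {r N j : ℕ} (hη : 0 < η) (hδ : Antitone δ)
    (hr : δ 0 = r) (hA : ∀ j, 0 ≤ A j) (hA' : ∀ i j, 0 < i → i ≤ j → j ≤ r → A j ≤ A i)
    (hs : ∀ s, s + 1 ≤ N → δ (s + 1) = δ s → 0 < δ s → η * s ≤ A (δ s)) (hj : 0 < j) :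
    ∀ s ≤ N, j ≤ δ s → η * (s + δ s : ℕ) ≤ A j + η * (r + 1) := by
  intro s
  induction s with
  | zero =>
    intro _ _
    have := hA j
    rw [hr]; push_cast; nlinarith
  | succ s ih =>
    intro h1 h2
    have h3 : δ (s + 1) ≤ δ s := hδ (Nat.le_succ s)
    have h4 : δ s ≤ r := hr ▸ hδ (Nat.zero_le s)
    rcases Nat.eq_or_lt_of_le h3 with h5 | h5
    · have h6 := (hs s h1 h5 (by omega)).trans (hA' j _ hj (by omega) h4)
      have h7 : ((δ (s + 1) : ℕ) : ℝ) ≤ r := by exact_mod_cast h3.trans h4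
      push_cast
      nlinarith
    · refine le_trans (mul_le_mul_of_nonneg_left ?_ hη.le) (ih (by omega) (by omega))
      exact_mod_cast (by omega : s + 1 + δ (s + 1) ≤ s + δ s)

lemma total {δ : ℕ → ℕ} {A : ℕ → ℝ} {η : ℝ} {r N : ℕ} (hη : 0 < η) (hr : ∀ s, δ s ≤ r)
    (hA : ∀ j, 0 ≤ A j)
    (hs : ∀ j, 0 < j → ∀ s ≤ N, j ≤ δ s → η * (s + δ s : ℕ) ≤ A j + η * (r + 1)) :
    η * ∑ s ∈ range N, (δ s : ℝ) ≤ ∑ j ∈ Icc 1 r, A j + η * (r * (r + 1) : ℕ) := by
  have h1 : ∀ s, (δ s : ℝ) = ∑ j ∈ Icc 1 r, if j ≤ δ s then (1 : ℝ) else 0 := fun s => by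
    rw [sum_boole]
    have : (Icc 1 r).filter (fun j => j ≤ δ s) = Icc 1 (δ s) := by
      ext j
      have := hr s
      simp only [mem_filter, mem_Icc]
      omega
    rw [this]; simp
  have h2 : ∀ j ∈ Icc 1 r, η * ∑ s ∈ range N, (if j ≤ δ s then (1 : ℝ) else 0) ≤
      A j + η * (r + 1) := fun j hj => by
    rw [sum_boole]
    have hj1 := (mem_Icc.1 hj).1
    rcases ((range N).filter fun s => j ≤ δ s).eq_empty_or_nonempty with h | h
    · rw [h]
      have := hA j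
      simp only [card_empty, Nat.cast_zero, mul_zero]
      positivity
    · obtain ⟨h3, h4⟩ := mem_filter.1 (max'_mem _ h)
      refine le_trans (mul_le_mul_of_nonneg_left ?_ hη.le)
        (hs j hj1 _ (mem_range.1 h3).le h4)
      have h5 : (range N).filter (fun s => j ≤ δ s) ⊆
          range (((range N).filter fun s => j ≤ δ s).max' h + 1) :=
        fun s hs => mem_range.2 (Nat.lt_succ_of_le (le_max' _ s hs))
      have h6 := card_le_card h5
      rw [card_range] at h6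
      exact_mod_cast h6.trans (by omega)
  calc η * ∑ s ∈ range N, (δ s : ℝ)
      = ∑ j ∈ Icc 1 r, η * ∑ s ∈ range N, (if j ≤ δ s then (1 : ℝ) else 0) := by
        rw [← mul_sum, sum_comm]
        exact congrArg _ (sum_congr rfl fun s _ => h1 s)
    _ ≤ ∑ j ∈ Icc 1 r, (A j + η * (r + 1)) := sum_le_sum h2
    _ = _ := by
        rw [sum_add_distrib, sum_const]
        simp only [Nat.card_Icc, Nat.add_sub_cancel, nsmul_eq_mul]
        push_cast; ring

end Walk2Aux

open WalkAux Walk2Aux in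
theorem walk2 : Walk2Stmt := by
  intro d A η Ψ hd hη hA hA' hW h0 hΨ
  have hr : ∀ Q, d Q ≤ d ∅ := fun Q => hd (empty_subset Q)
  obtain ⟨N, hN⟩ := exists_nat_gt (A 1 / η + d ∅)
  obtain ⟨T, e, hT, hc, he⟩ :=
    ramsey (fun Q => (⟨d Q, Nat.lt_succ_of_le (hr Q)⟩ : Fin (d ∅ + 1))) N
  have he' : ∀ i, ∀ Q ⊆ T i, #Q ≤ N → d Q = d (T #Q) := fun i Q h1 h2 => by
    have a1 := congrArg Fin.val (he i Q h1 h2)
    have a2 := congrArg Fin.val (he #Q _ subset_rfl (by rw [hc]; exact h2))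
    rw [hc] at a2
    exact a1.trans a2.symm
  have hanti : Antitone fun s => d (T s) := fun a b hab => hd (hT hab)
  have hT0 : d (T 0) = d ∅ := by rw [card_eq_zero.1 (hc 0)]
  have hstep : ∀ s, s + 1 ≤ N → d (T (s + 1)) = d (T s) → 0 < d (T s) →
      η * s ≤ A (d (T s)) := fun s h1 hs h2 => by
    have := hW (T s) h2 fun Φ hΦ k0 B => by
      obtain ⟨Q, hQ, hQs⟩ := exists_subset_card_eq (s := T (s + #B) \ B) (n := s)
        (by have := le_card_sdiff B (T (s + #B)); rw [hc] at this; omega)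
      refine ⟨Q, by rw [hQs, hc], disjoint_of_subset_left hQ sdiff_disjoint,
        exch (T := T (s + #B)) (fun Q Q' k1 k2 k3 k4 => hΦ Q Q' k1 ?_ ?_)
          (hQ.trans sdiff_subset) hQs _ (T s) (hT (Nat.le_add_right _ _)) (hc s) rfl k0⟩
      · rw [he' _ Q (k1.trans k2) (by omega), k3]
      · rw [he' _ Q' k2 (by omega), k4, hs]
    rwa [hc] at this
  have hpot := fun j (hj : 0 < j) => pot hη hanti hT0 hA hA' hstep hj
  have hend : d (T N) = 0 := by
    by_contra hn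
    have h1 := hpot 1 one_pos N le_rfl (Nat.one_le_iff_ne_zero.2 hn)
    have h2 : (1 : ℝ) ≤ d (T N) := by exact_mod_cast Nat.one_le_iff_ne_zero.2 hn
    have h3 : A 1 = η * (A 1 / η) := by field_simp
    push_cast at h1
    nlinarith
  have hb : ∀ s ≤ N, ∃ i Q, Q ⊆ T i ∧ #Q = s ∧ Ψ Q (η * ∑ s' ∈ range s, (d (T s') : ℝ)) := by
    intro s
    induction s with
    | zero => exact fun _ => ⟨0, ∅, empty_subset _, rfl, by simpa using h0⟩
    | succ s ih =>
      intro h1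
      obtain ⟨i, Q, k1, k2, k3⟩ := ih (by omega)
      obtain ⟨B, hB⟩ := hΨ Q _ k3
      obtain ⟨a, a1, a2⟩ := exists_mem_notMem_of_card_lt_card
        (s := B ∪ Q) (t := T (i + #(B ∪ Q) + 1)) (by rw [hc]; omega)
      rw [mem_union, not_or] at a2
      refine ⟨_, insert a Q, insert_subset a1 (k1.trans (hT (by omega))),
        by rw [card_insert_of_notMem a2.2, k2], ?_⟩
      have := hB a a2.1
      rwa [he' i Q k1 (by omega), k2, ← mul_add, ← sum_range_succ (fun s' => (d (T s') : ℝ))]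
        at this
  obtain ⟨i, Q, k1, k2, k3⟩ := hb N le_rfl
  exact ⟨Q, _, by rw [he' i Q k1 k2.le, k2, hend], k3, total hη (fun s => hr _) hA hpot⟩

end Pool.Agent.MP_4060c9_nt.H98
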