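import Pool.Agent.MP_4060c9_nt.H98.Spec2
import Pool.Agent.MP_4060c9_nt.H98.Wr

/-!
Row WR2: the sharper Wronskian bound.
-/

set_option autoImplicit false

namespace Pool.Agent.MP_4060c9_nt.H98

open Finset

namespace WR2

open WR

variable {F K : Type} [Field F] [Field K] [Algebra F K] {D : Derivation F K K}
  {V : Submodule F K} {a b d : ℕ} {x y : K}

lemma der2 {Δ : K} (h : ∀ m ∈ V, Δ * D m ∈ V ^ d) (hx : x ∈ V ^ a) :
    ∀ v ∈ V, v * (Δ * D x) ∈ V ^ (a + d) := by
  induction hx using Submodule.pow_induction_on_left' with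
  | algebraMap r => simp
  | add x y i _ _ h1 h2 =>
    intro v hv
    rw [map_add, mul_add, mul_add]
    exact add_mem (h1 v hv) (h2 v hv)
  | mem_mul m hm i x hx ih =>
    intro v hv
    rw [show v * (Δ * D (m * x)) = m * (v * (Δ * D x)) + v * x * (Δ * D m) by
      rw [Derivation.leibniz, smul_eq_mul, smul_eq_mul]; ring]
    refine add_mem ?_ ?_
    · exact (by omega : 1 + (i + d) = i.succ + d) ▸ mul ((pow_one V).symm ▸ hm) (ih v hv)
    · exact (by omega : 1 + i + d = i.succ + d) ▸ mul (mul ((pow_one V).symm ▸ hv) hx) (h m hm)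

lemma row2 {τ u : K} (hτ : D τ = 1) (h : Quo D τ u d) {κ M : ℕ} (hM : M ≤ κ) :
    ∃ Δ : K, Δ ≠ 0 ∧ Δ ∈ Submodule.span F {1, τ, u} ^ d ∧ ∀ q ≤ M,
      ∃ N ∈ Submodule.span F {1, τ, u} ^ ((M - q) + (2 * M - 1) * d),
        D^[q] (u ^ κ) = u ^ (κ - M) / Δ ^ (2 * M - 1) * N := by
  obtain ⟨Δ, Γ, h0, h1, h2, h3⟩ := h
  refine ⟨Δ, h0, h1, ?_⟩
  have ou' : u ∈ Submodule.span F {1, τ, u} := Submodule.subset_span (by simp)
  have ou : u ∈ Submodule.span F {1, τ, u} ^ 1 := by
    rw [pow_one]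
    exact ou'
  have hd : ∀ m ∈ Submodule.span F {1, τ, u}, Δ * D m ∈ Submodule.span F {1, τ, u} ^ d := by
    intro m hm
    induction hm using Submodule.span_induction with
    | mem x hx =>
      rcases hx with rfl | rfl | rfl
      · simp
      · rw [hτ, mul_one]
        exact h1
      · rw [h3]
        exact h2
    | zero => simp
    | add x y _ _ a b => rw [map_add, mul_add]; exact add_mem a b
    | smul c x _ a => rw [Derivation.map_smul, mul_smul_comm]; exact Submodule.smul_mem _ c a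
  generalize Submodule.span F {1, τ, u} = V at *
  have key : ∀ p, p + 1 ≤ κ → ∃ Q ∈ V ^ ((2 * p + 1) * d),
      Δ ^ (2 * p + 1) * D^[p + 1] (u ^ κ) = u ^ (κ - (p + 1)) * Q := by
    intro p
    induction p with
    | zero =>
      intro _
      refine ⟨(κ : K) * Γ, by simpa using nat h2 κ, ?_⟩
      rw [Function.iterate_one, Derivation.leibniz_pow, nsmul_eq_mul, smul_eq_mul, ← h3]
      simp only [mul_zero, zero_add, pow_one]
      ring
    | succ p ih =>
      intro hq
      obtain ⟨Q, a1, a2⟩ := ih (by omega)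
      obtain ⟨n, hn⟩ : ∃ n, κ - (p + 1) = n + 1 := ⟨κ - (p + 2), by omega⟩
      refine ⟨((n + 1 : ℕ) : K) * (Γ * Δ * Q) - ((2 * p + 1 : ℕ) : K) * (u * (Δ * D Δ) * Q) +
        Δ * (u * (Δ * D Q)), add_mem (sub_mem (nat ?_ _) (nat ?_ _)) ?_, ?_⟩
      · exact (by ring : d + d + (2 * p + 1) * d = (2 * (p + 1) + 1) * d) ▸ mul (mul h2 h1) a1
      · exact (by ring : d + d + (2 * p + 1) * d = (2 * (p + 1) + 1) * d) ▸
          mul (der2 hd h1 u ou') a1
      · exact (by ring : d + ((2 * p + 1) * d + d) = (2 * (p + 1) + 1) * d) ▸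
          mul h1 (der2 hd a1 u ou')
      · have e := congrArg D a2
        rw [hn] at e a2
        have e2 : Δ * D (Δ ^ (2 * p + 1)) = ((2 * p + 1 : ℕ) : K) * (Δ ^ (2 * p + 1) * D Δ) := by
          rw [Derivation.leibniz_pow, nsmul_eq_mul, smul_eq_mul, Nat.add_sub_cancel]
          ring
        rw [Derivation.leibniz, Derivation.leibniz, Derivation.leibniz_pow D u, nsmul_eq_mul] at e
        simp only [smul_eq_mul, Nat.add_sub_cancel] at e
        rw [Function.iterate_succ_apply' D (p + 1), show κ - (p + 1 + 1) = n by omega, ← h3]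
        linear_combination Δ ^ 2 * e - Δ * D^[p + 1] (u ^ κ) * e2 -
          ((2 * p + 1 : ℕ) : K) * (Δ * D Δ) * a2
  intro q hq
  rcases q with _ | p
  · refine ⟨u ^ M * Δ ^ (2 * M - 1), ?_, ?_⟩
    · exact (by rw [Nat.sub_zero]; ring : 1 * M + d * (2 * M - 1) = M - 0 + (2 * M - 1) * d) ▸
        mul (pw ou M) (pw h1 (2 * M - 1))
    · rw [Function.iterate_zero, id, div_mul_eq_mul_div, eq_div_iff (pow_ne_zero _ h0), ← mul_assoc,
        ← pow_add, Nat.sub_add_cancel hM]
  · obtain ⟨Q, a1, a2⟩ := key p (hq.trans hM)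
    obtain ⟨n, rfl⟩ := Nat.exists_eq_add_of_le hq
    have e1 : 2 * (p + 1 + n) - 1 = 2 * n + (2 * p + 1) := by omega
    rw [e1, Nat.add_sub_cancel_left]
    refine ⟨u ^ n * Δ ^ (2 * n) * Q, ?_, ?_⟩
    · exact (by ring : 1 * n + d * (2 * n) + (2 * p + 1) * d = n + (2 * n + (2 * p + 1)) * d) ▸
        mul (mul (pw ou n) (pw h1 (2 * n))) a1
    · rw [div_mul_eq_mul_div, eq_div_iff (pow_ne_zero _ h0)]
      rw [show κ - (p + 1) = κ - (p + 1 + n) + n by omega] at a2
      linear_combination Δ ^ (2 * n) * a2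

lemma val_det2 {O : ValuationSubring K} {n : ℕ} (A : Matrix (Fin (n + 1)) (Fin (n + 1)) K)
    (g : O.ValueGroup) (r s : Fin (n + 1) → ℕ) (j : Fin (n + 1))
    (h : ∀ q i, O.valuation (A q i) ≤ g ^ (r q + s i)) :
    O.valuation (A.updateCol j fun q => if (q : ℕ) = 0 then 1 else 0).det * g ^ (r 0 + s j) ≤
      g ^ (∑ q, r q + ∑ i, s i) := by
  by_cases hg : g ^ (r 0 + s j) = 0
  · rw [hg, mul_zero]
    exact zero_le
  rw [← le_div_iff₀ (zero_lt_iff.2 hg), Matrix.det_apply']
  refine Valuation.map_sum_le _ fun σ _ => ?_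
  rw [map_mul, map_prod]
  refine (mul_le_of_le_one_left' ((O.valuation_le_one_iff _).2 (intCast_mem O _))).trans ?_
  by_cases hσ : σ j = 0
  · rw [le_div_iff₀ (zero_lt_iff.2 hg), ← Equiv.sum_comp σ r, ← sum_add_distrib,
      ← prod_pow_eq_pow_sum, ← prod_erase_mul _ _ (mem_univ j),
      ← prod_erase_mul _ (fun i => g ^ (r (σ i) + s i)) (mem_univ j), Matrix.updateCol_self, hσ]
    simp only [Fin.val_zero, if_true, map_one, mul_one]
    refine mul_le_mul' (prod_le_prod' fun i hi => ?_) le_rfl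
    rw [Matrix.updateCol_ne (ne_of_mem_erase hi)]
    exact h _ _
  · rw [prod_eq_zero (mem_univ j)]
    · exact zero_le
    · have h2 : ¬ ((σ j : ℕ) = 0) := fun h' => hσ (Fin.ext h')
      rw [Matrix.updateCol_self, if_neg h2, map_zero]

lemma sum_sub (M : ℕ) : 2 * ∑ q : Fin (M + 1), (M - (q : ℕ)) = M * (M + 1) := by
  rw [Fin.sum_univ_eq_sum_range (fun q => M - q) (M + 1)]
  have h := Finset.sum_range_reflect (fun q => q) (M + 1)
  simp only [Nat.add_sub_cancel] at h
  rw [h, mul_comm, Finset.sum_range_id_mul_two, Nat.add_sub_cancel, mul_comm]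

end WR2

open WR WR2 in
theorem wr2 : Wr2Stmt := by
  intro F K _ _ _ _ D M κ u i₁ c d hker hτ hc hs hli hq
  rcases le_or_gt M κ with hM | hM
  swap
  · have : 2 * M ≤ M * (M + 1) := by nlinarith
    omega
  choose Δ h0 h1 h2 using fun i => row2 hτ (hq i) hM
  choose N h3 h4 using fun (q i : Fin (M + 1)) => h2 i q (Nat.le_of_lt_succ q.2)
  have hW : (Matrix.of fun q i : Fin (M + 1) => D^[q] (u i ^ κ)).det ≠ 0 := by
    refine MP_c69980_ag.H60.Leib.wr_ne (D := D.toLinearMap.toAddMonoidHom) (fun x y => ?_) _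
      fun e he h => ?_
    · change D (x * y) = D x * y + x * D y
      rw [Derivation.leibniz, smul_eq_mul, smul_eq_mul]
      ring
    · choose e' he' using fun i => hker (e i) (he i)
      intro i
      rw [← he', Fintype.linearIndependent_iff.1 hli e' (by
        simpa only [Algebra.smul_def, he'] using h) i, map_zero]
  have hw : (Matrix.of N).det ≠ 0 := by
    simp only [h4] at hW
    rw [show (Matrix.of fun q i : Fin (M + 1) =>
      u i ^ (κ - M) / Δ i ^ (2 * M - 1) * N q i).det = _ from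
      Matrix.det_mul_row _ (Matrix.of N)] at hW
    exact right_ne_zero_of_mul hW
  have hD : ∀ q : ℕ, ∑ i, c i • D^[q] (u i ^ κ) = D^[q] 1 := by
    intro q
    induction q with
    | zero => exact hs
    | succ q ih =>
      simp only [Function.iterate_succ_apply', ← ih, map_sum, Derivation.map_smul]
  have hone : ∀ q : ℕ, D^[q] 1 = if q = 0 then 1 else 0 := by
    rintro (_ | q)
    · rfl
    · rw [Function.iterate_succ_apply, D.map_one_eq_zero, Function.iterate_fixed (map_zero D)]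
      rfl
  have hcol : ∀ i, ((Matrix.of N).updateCol i fun q => if (q : ℕ) = 0 then 1 else 0).det =
      algebraMap F K (c i) * (u i ^ (κ - M) / Δ i ^ (2 * M - 1)) * (Matrix.of N).det := by
    intro i
    rw [← smul_eq_mul, ← Matrix.det_updateCol_sum (Matrix.of N) i
      fun i => algebraMap F K (c i) * (u i ^ (κ - M) / Δ i ^ (2 * M - 1))]
    congr 2
    funext q
    rw [← hone, ← hD]
    exact sum_congr rfl fun i _ => by
      rw [h4, Algebra.smul_def, smul_eq_mul, mul_assoc, Matrix.of_apply]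
  have hv : ∀ (O : ValuationSubring K) (g : O.ValueGroup), 1 ≤ g → (∀ i, O.valuation (u i) ≤ g) →
      ∀ i, ∀ s ∈ ({1, u i₁, u i} : Set K), O.valuation s ≤ g := by
    rintro O g a b i s (rfl | rfl | rfl)
    exacts [(map_one _).trans_le a, b _, b _]
  obtain ⟨O, hO, o1, i, o2⟩ : ∃ O : ValuationSubring K, (∀ c : F, algebraMap F K c ∈ O) ∧
      1 ≤ O.valuation (Matrix.of N).det ∧ ∃ i, 1 < O.valuation (u i) := by
    by_cases h : D (Matrix.of N).det = 0
    · obtain ⟨O, a, b⟩ := exists_val (D := D) (x := u i₁) (hτ ▸ one_ne_zero)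
      obtain ⟨e, he⟩ := hker _ h
      refine ⟨O, a, ?_, i₁, lt_of_not_ge fun e => b ((O.valuation_le_one_iff _).1 e)⟩
      rw [← he, val_one a fun z => hw (by rw [← he, z, map_zero])]
    · obtain ⟨O, a, b⟩ := exists_val h
      rw [← O.valuation_le_one_iff] at b
      refine ⟨O, a, (not_le.1 b).le, by_contra fun e => b ?_⟩
      simpa using val_det (O := O) (Matrix.of N) (fun _ => 1) fun q i => by
        simpa using val_le a (hv O 1 le_rfl (fun i => not_lt.1 fun z => e ⟨i, z⟩) i) (h3 q i)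
  obtain ⟨j, hj⟩ := Finite.exists_max fun i => O.valuation (u i)
  have g1 : 1 < O.valuation (u j) := o2.trans_le (hj i)
  have b1 := val_det2 (O := O) (Matrix.of N) (O.valuation (u j)) (fun q => M - (q : ℕ))
    (fun i => (2 * M - 1) * d i) j fun q i => val_le hO (hv O _ g1.le hj i) (h3 q i)
  rw [hcol] at b1
  have b2 := pow_le_pow_left' (val_le hO (hv O _ g1.le hj j) (h1 j)) (2 * M - 1)
  rw [← map_pow, ← pow_mul, mul_comm (d j)] at b2
  have e : O.valuation (Δ j ^ (2 * M - 1)) * O.valuation (algebraMap F K (c j) *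
      (u j ^ (κ - M) / Δ j ^ (2 * M - 1)) * (Matrix.of N).det) =
      O.valuation (u j) ^ (κ - M) * O.valuation (Matrix.of N).det := by
    rw [← map_mul, ← mul_assoc, mul_left_comm, mul_div_cancel₀ _ (pow_ne_zero _ (h0 j)), map_mul,
      map_mul, val_one hO (hc j), one_mul, map_pow]
  have b3 : O.valuation (u j) ^ (κ - M + M) ≤ O.valuation (u j) ^
      (∑ q : Fin (M + 1), (M - (q : ℕ)) + ∑ i, (2 * M - 1) * d i) := by
    refine le_trans ?_ b1
    rw [pow_add, Fin.val_zero, Nat.sub_zero, pow_add, mul_comm (O.valuation (u j) ^ M), ← mul_assoc]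
    refine mul_le_mul' ?_ le_rfl
    calc O.valuation (u j) ^ (κ - M)
        ≤ O.valuation (u j) ^ (κ - M) * O.valuation (Matrix.of N).det :=
          le_mul_of_one_le_right' o1
      _ = _ := e.symm
      _ ≤ _ := by
          rw [mul_comm]
          exact mul_le_mul' le_rfl b2
  have b4 := (pow_le_pow_iff_right₀ g1).1 b3
  have b5 := sum_sub M
  rw [← mul_sum] at b4
  rw [mul_assoc]
  omega

end Pool.Agent.MP_4060c9_nt.H98
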