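import Pool.Agent.MP_4060c9_nt.H98.Spec4

set_option autoImplicit false

/-! A generalised Wronskian which does not vanish. -/

namespace Pool.Agent.MP_4060c9_nt.H98

namespace Wrk

variable {L J : Type} [Field L] [CharZero L] {n : ℕ}

/-- the span of the rows of the words of length at most `s` -/
def V (g : L) (δ : J → Derivation ℚ L L) (f : Fin n → L) (s : ℕ) : Submodule L (Fin n → L) :=
  Submodule.span L {x | ∃ l : List J, l.length ≤ s ∧ x = fun i => wd g δ l (f i)}

/-- the vectors which kill the rows of the words of length at most `s` -/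
def Ann (g : L) (δ : J → Derivation ℚ L L) (f : Fin n → L) (s : ℕ) (a : Fin n → L) : Prop :=
  ∀ l : List J, l.length ≤ s → ∑ i, a i * wd g δ l (f i) = 0

variable {g : L} {δ : J → Derivation ℚ L L} {f : Fin n → L}

theorem ann_iff {s : ℕ} {a : Fin n → L} :
    Ann g δ f s a ↔ ∀ x ∈ V g δ f s, ∑ i, a i * x i = 0 := by
  constructor
  · intro h x hx
    induction hx using Submodule.span_induction with
    | mem x hx =>
      obtain ⟨l, hl, rfl⟩ := hx
      exact h l hl
    | zero => simp
    | add x y _ _ hx hy => simp [mul_add, Finset.sum_add_distrib, hx, hy]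
    | smul c x _ hx =>
      simp only [Pi.smul_apply, smul_eq_mul, mul_left_comm _ c, ← Finset.mul_sum, hx, mul_zero]
  · intro h l hl
    exact h _ (Submodule.subset_span ⟨l, hl, rfl⟩)

theorem ann_der (hg : g ≠ 0) {s : ℕ} {b : Fin n → L} (hb : Ann g δ f (s + 1) b) (w : J) :
    Ann g δ f s fun i => δ w (b i) := by
  intro l hl
  have h1 := congrArg (δ w) (hb l (by omega))
  have h2 : ∑ i, b i * (g * δ w (wd g δ l (f i))) = 0 := hb (w :: l) (by simpa using hl)
  rw [map_sum, map_zero] at h1
  simp only [Derivation.leibniz, smul_eq_mul, Finset.sum_add_distrib] at h1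
  have h3 : ∑ i, b i * δ w (wd g δ l (f i)) = 0 := by
    simp only [mul_left_comm _ g, ← Finset.mul_sum] at h2
    exact (mul_eq_zero.1 h2).resolve_left hg
  rw [h3, zero_add] at h1
  simpa only [mul_comm] using h1

theorem ann_zero (hg : g ≠ 0)
    (hf : ∀ a : Fin n → L, (∀ w i, δ w (a i) = 0) → ∑ i, a i * f i = 0 → a = 0) {s : ℕ}
    (H : ∀ a, Ann g δ f s a → Ann g δ f (s + 1) a) :
    ∀ (S : Finset (Fin n)) (a : Fin n → L), (∀ i, i ∉ S → a i = 0) → Ann g δ f s a → a = 0 := by
  intro S
  induction S using Finset.induction_on with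
  | empty => intro a ha _; funext i; exact ha i (by simp)
  | insert j S hj ih =>
    intro a ha h
    by_cases h0 : a j = 0
    · refine ih a (fun i hi => ?_) h
      by_cases hij : i = j
      · rw [hij, h0]
      · exact ha i (by simp [hij, hi])
    · have hb : Ann g δ f s fun i => (a j)⁻¹ * a i := by
        intro l hl
        simp only [mul_assoc, ← Finset.mul_sum, h l hl, mul_zero]
      have h1 := hf (fun i => (a j)⁻¹ * a i) (fun w i => ?_) (hb [] (by simp))
      · have := congrFun h1 j
        simp [h0] at this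
      · refine congrFun (ih _ (fun i hi => ?_) (ann_der hg (H _ hb) w)) i
        by_cases hij : i = j
        · rw [hij, inv_mul_cancel₀ h0, Derivation.map_one_eq_zero]
        · rw [ha i (by simp [hij, hi]), mul_zero, map_zero]

theorem V_top (hg : g ≠ 0)
    (hf : ∀ a : Fin n → L, (∀ w i, δ w (a i) = 0) → ∑ i, a i * f i = 0 → a = 0) {s : ℕ}
    (h : V g δ f (s + 1) ≤ V g δ f s) : V g δ f s = ⊤ := by
  by_contra hne
  obtain ⟨φ, h1, h2⟩ := (V g δ f s).exists_le_ker_of_lt_top (lt_top_iff_ne_top.2 hne)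
  have h3 : ∀ x, φ x = ∑ i, φ (fun j => if i = j then 1 else 0) * x i := fun x => by
    rw [LinearMap.pi_apply_eq_sum_univ]
    simp [mul_comm]
  have h4 := ann_zero hg hf (s := s) (fun a ha => ann_iff.2 fun x hx => ann_iff.1 ha x (h hx))
    Finset.univ (fun i => φ (fun j => if i = j then 1 else 0)) (by simp)
    (ann_iff.2 fun x hx => by rw [← h3]; exact h2 hx)
  apply h1
  refine LinearMap.ext fun x => ?_
  rw [h3]
  exact Finset.sum_eq_zero fun i _ => by rw [congrFun h4 i]; simp

theorem V_mono (s : ℕ) : V g δ f s ≤ V g δ f (s + 1) :=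
  Submodule.span_mono fun _ ⟨l, hl, h⟩ => ⟨l, by omega, h⟩

theorem V_rank (hg : g ≠ 0)
    (hf : ∀ a : Fin n → L, (∀ w i, δ w (a i) = 0) → ∑ i, a i * f i = 0 → a = 0) {d : ℕ}
    (hd : d ≤ Module.finrank L (Submodule.span L (Set.range fun w i => δ w (f i)))) (s : ℕ) :
    min n (d + s) ≤ Module.finrank L (V g δ f (s + 1)) := by
  induction s with
  | zero =>
    refine (min_le_right _ _).trans (hd.trans (Submodule.finrank_mono ?_))
    rw [Submodule.span_le]
    rintro _ ⟨w, rfl⟩
    have : (fun i => δ w (f i)) = g⁻¹ • fun i => wd g δ [w] (f i) := by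
      funext i
      simp [wd, hg]
    show (fun i => δ w (f i)) ∈ V g δ f (0 + 1)
    rw [this]
    exact Submodule.smul_mem _ _ (Submodule.subset_span ⟨[w], by simp, rfl⟩)
  | succ s ih =>
    by_cases h : V g δ f (s + 1 + 1) ≤ V g δ f (s + 1)
    · have h1 : V g δ f (s + 1 + 1) = ⊤ := top_le_iff.1 (V_top hg hf h ▸ V_mono (s + 1))
      rw [h1, finrank_top, Module.finrank_fin_fun]
      exact min_le_left _ _
    · have := Submodule.finrank_lt_finrank_of_lt (lt_of_le_not_ge (V_mono (s + 1)) h)
      omega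

omit [CharZero L] in
/-- greedy extension of an independent family -/
theorem greedy {α : Type} (row : α → Fin n → L) (P : ℕ → α → Prop) {p : ℕ}
    (h0 : ∃ ρ : Fin p → α, (∀ q : Fin p, P q (ρ q)) ∧ LinearIndependent L fun q => row (ρ q))
    (hS : ∀ q, p ≤ q → q < n → q < Module.finrank L (Submodule.span L (row '' {x | P q x}))) :
    ∀ m, p ≤ m → m ≤ n →
      ∃ ρ : Fin m → α, (∀ q : Fin m, P q (ρ q)) ∧ LinearIndependent L fun q => row (ρ q) := by
  intro m hm
  induction m, hm using Nat.le_induction with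
  | base => exact fun _ => h0
  | succ m hm ih =>
    intro hn
    obtain ⟨ρ, h1, h2⟩ := ih (by omega)
    have h3 : ¬ row '' {x | P m x} ⊆ Submodule.span L (Set.range fun q => row (ρ q)) := by
      intro h
      have h4 := Submodule.finrank_mono (Submodule.span_le.2 h)
      rw [finrank_span_eq_card h2, Fintype.card_fin] at h4
      have := hS m hm (by omega)
      omega
    obtain ⟨_, ⟨x, hx, rfl⟩, h4⟩ := Set.not_subset.1 h3
    refine ⟨Fin.snoc ρ x, fun q => ?_, ?_⟩
    · refine Fin.lastCases ?_ (fun q => ?_) q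
      · simpa using hx
      · simpa using h1 q
    · have h5 : (fun q => row ((Fin.snoc ρ x : Fin (m + 1) → α) q)) =
          Fin.snoc (fun q => row (ρ q)) (row x) := Fin.comp_snoc row ρ x
      rw [h5]
      exact linearIndependent_finSnoc.2 ⟨h2, h4⟩

end Wrk

open Wrk in
theorem wrk : WrkStmt := by
  intro L J _ _ δ n p d f v g hg hpd hf hv hd
  have hdn : d ≤ n := hd.trans ((Submodule.finrank_le _).trans (Module.finrank_fin_fun L).le)
  have key := greedy (L := L) (fun (ρ : L → L) i => ρ (f i))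
    (fun q ρ => (∀ h : q < p, ρ = δ (v ⟨q, h⟩)) ∧ (q < d → ∃ w, ρ = δ w) ∧
      (d ≤ q → ∃ l : List J, l.length + d ≤ q + 2 ∧ ρ = wd g δ l)) (p := p)
    ⟨fun q => δ (v q), fun q => ⟨fun _ => rfl, fun _ => ⟨_, rfl⟩, fun h => by omega⟩, hv⟩
  obtain ⟨ρ, h1, h2⟩ := key (by
    intro q h1 h2
    by_cases hq : q < d
    · refine hq.trans_le (hd.trans (Submodule.finrank_mono (Submodule.span_mono ?_)))
      rintro _ ⟨w, rfl⟩
      exact ⟨δ w, ⟨fun h => by omega, fun _ => ⟨w, rfl⟩, fun h => by omega⟩, rfl⟩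
    · have h3 := V_rank hg hf hd (q + 1 - d)
      refine lt_of_lt_of_le (by omega) (h3.trans (Submodule.finrank_mono (Submodule.span_mono ?_)))
      rintro _ ⟨l, hl, rfl⟩
      exact ⟨wd g δ l, ⟨fun h => by omega, fun h => by omega, fun _ => ⟨l, by omega, rfl⟩⟩, rfl⟩)
    n (by omega) le_rfl
  refine ⟨ρ, ?_, h1⟩
  have := (Matrix.linearIndependent_rows_iff_isUnit
    (A := Matrix.of fun q i => ρ q (f i))).1 h2
  exact ((Matrix.isUnit_iff_isUnit_det _).1 this).ne_zero

end Pool.Agent.MP_4060c9_nt.H98
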